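import Pool.Agent.LibW44.Defs

/-! Row B1. Number of square roots of `d` modulo `m`. If `z, z₁` are two roots: for an odd prime power `p^k ∥ m`: if `p ∤ d` then `p` divides at most one of `z - z₁`, `z + z₁`
(their product is `≡ 0 mod p^k`), so `p^k` divides one of them; if `p ∣ d` then `p ∣ z`, `k = 1` (`p² ∣ m` gives `p² ∣ z²`, `p² ∣ d`), so `p ∣ z - z₁`. For `p = 2`: `2^(k-1)` divides one of
`z - z₁, z + z₁` (`d` odd: both even, only one divisible by 4, `gcd` of the halves is odd; `d` even: `k ≤ 1`). So with one root `z₁` fixed, a root is determined modulo `m / 2` (or `m`) by the vector of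
signs on `m.primeFactors`: at most `2 · 2^ω(m)` roots in `range m`. (A pattern for such a sign vector argument is `RC91.QC` / `RC91.QP` in LibRC91.) Alternative: induction with `Nat.recOnPosPrimePosCoprime` and CRT, with the
bound `2^ω` for odd `m` and `2·2^ω` in general. -/

namespace W44
open RC91

/-- the roots of `z^2 = d` modulo `m` -/
def b1R (d : ℤ) (m : ℕ) : Finset ℕ := (Finset.range m).filter (fun z : ℕ => (m : ℤ) ∣ (z : ℤ) ^ 2 - d)

theorem b1_mem {d : ℤ} {m z : ℕ} : z ∈ b1R d m ↔ z < m ∧ (m : ℤ) ∣ (z : ℤ) ^ 2 - d := by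
  unfold b1R
  rw [Finset.mem_filter, Finset.mem_range]

/-- multiplicativity -/
theorem b1_mul (d : ℤ) {a b : ℕ} (ha : 0 < a) (hb : 0 < b) (h : Nat.Coprime a b) :
    (b1R d (a * b)).card ≤ (b1R d a).card * (b1R d b).card := by
  rw [← Finset.card_product]
  have key : ∀ (c z : ℕ), 0 < c → (c : ℤ) ∣ (z : ℤ) ^ 2 - d → z % c ∈ b1R d c := by
    intro c z hc hz
    rw [b1_mem]
    refine ⟨Nat.mod_lt _ hc, ?_⟩
    have h1 : (z : ℤ) = c * (z / c : ℕ) + (z % c : ℕ) := by
      exact_mod_cast (Nat.div_add_mod z c).symm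
    have h2 : ((z % c : ℕ) : ℤ) ^ 2 - d = (z : ℤ) ^ 2 - d -
        c * ((z / c : ℕ) * (z + (z % c : ℕ))) := by
      linear_combination (-(z : ℤ) - ((z % c : ℕ) : ℤ)) * h1
    rw [h2]
    exact dvd_sub hz (dvd_mul_right _ _)
  apply Finset.card_le_card_of_injOn (fun z => (z % a, z % b))
  · intro z hz
    obtain ⟨_, h2⟩ := b1_mem.1 hz
    rw [Finset.mem_coe, Finset.mem_product]
    refine ⟨key a z ha (dvd_trans ⟨b, by push_cast; ring⟩ h2),
      key b z hb (dvd_trans ⟨a, by push_cast; ring⟩ h2)⟩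
  · intro z hz w hw hzw
    obtain ⟨hz1, _⟩ := b1_mem.1 hz
    obtain ⟨hw1, _⟩ := b1_mem.1 hw
    have h1 : z % a = w % a := congrArg Prod.fst hzw
    have h2 : z % b = w % b := congrArg Prod.snd hzw
    exact ((Nat.modEq_and_modEq_iff_modEq_mul h).1 ⟨h1, h2⟩).eq_of_lt_of_lt hz1 hw1

/-- a residue has one representative -/
theorem b1_rep {m z : ℕ} {c : ℤ} (hz : z < m) (h : (m : ℤ) ∣ (z : ℤ) - c) :
    z = (c % (m : ℤ)).toNat := by
  have h1 : (z : ℤ) % m = c % m := ((Int.modEq_iff_dvd).2 h).symm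
  rw [← h1, Int.emod_eq_of_lt (by positivity) (by exact_mod_cast hz)]
  rfl

theorem b1_pow (d : ℤ) (hd : Squarefree d) {p k : ℕ} (hp : p.Prime) (hk : 0 < k) :
    (b1R d (p ^ k)).card ≤ (if 2 ∣ p ^ k then 2 else 1) * 2 := by
  have hpi : Prime (p : ℤ) := Nat.prime_iff_prime_int.1 hp
  rcases (b1R d (p ^ k)).eq_empty_or_nonempty with h0 | ⟨z₁, hz₁⟩
  · rw [h0]
    simp
  obtain ⟨hz1, hz2⟩ := b1_mem.1 hz₁
  push_cast at hz2
  have hone : 1 ≤ (if 2 ∣ p ^ k then 2 else 1) := by split_ifs <;> norm_num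
  by_cases hpd : (p : ℤ) ∣ d
  · -- `k = 1`, all roots are `0`
    have hroot : ∀ z : ℕ, z ∈ b1R d (p ^ k) → (p : ℤ) ∣ z := by
      intro z hz
      obtain ⟨_, h2⟩ := b1_mem.1 hz
      push_cast at h2
      have h3 : (p : ℤ) ∣ (z : ℤ) ^ 2 - d := dvd_trans (dvd_pow_self _ hk.ne') h2
      have h4 : (p : ℤ) ∣ (z : ℤ) ^ 2 := by
        have := dvd_add h3 hpd
        rwa [sub_add_cancel] at this
      exact hpi.dvd_of_dvd_pow h4
    have hk1 : k = 1 := by
      by_contra hk1
      have hk2 : 2 ≤ k := by omega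
      obtain ⟨u, hu⟩ := hroot z₁ hz₁
      have h5 : (p : ℤ) ^ 2 ∣ (z₁ : ℤ) ^ 2 - d := dvd_trans (pow_dvd_pow _ hk2) hz2
      have h6 : (p : ℤ) * p ∣ d := by
        obtain ⟨v, hv⟩ := h5
        exact ⟨u ^ 2 - v, by rw [hu] at hv; linear_combination -hv⟩
      have h7 := hd _ h6
      exact hpi.not_isUnit h7
    subst hk1
    have hsub : b1R d (p ^ 1) ⊆ {0} := by
      intro z hz
      rw [Finset.mem_singleton]
      obtain ⟨h1, _⟩ := b1_mem.1 hz
      rw [pow_one] at h1
      exact Nat.eq_zero_of_dvd_of_lt (by exact_mod_cast hroot z hz) h1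
    have h8 := Finset.card_le_card hsub
    rw [Finset.card_singleton] at h8
    omega
  · have hroot : ∀ z : ℕ, z ∈ b1R d (p ^ k) → ¬ (p : ℤ) ∣ z := by
      intro z hz h
      obtain ⟨_, h2⟩ := b1_mem.1 hz
      push_cast at h2
      have h3 : (p : ℤ) ∣ (z : ℤ) ^ 2 - d := dvd_trans (dvd_pow_self _ hk.ne') h2
      apply hpd
      have h4 := dvd_sub (dvd_trans h (dvd_pow_self (z : ℤ) two_ne_zero)) h3
      rwa [sub_sub_cancel] at h4
    have hprod : ∀ z : ℕ, z ∈ b1R d (p ^ k) → (p : ℤ) ^ k ∣ ((z : ℤ) - z₁) * (z + z₁) := by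
      intro z hz
      obtain ⟨_, h2⟩ := b1_mem.1 hz
      push_cast at h2
      have := dvd_sub h2 hz2
      have h3 : (z : ℤ) ^ 2 - d - ((z₁ : ℤ) ^ 2 - d) = ((z : ℤ) - z₁) * (z + z₁) := by ring
      rwa [h3] at this
    rcases hp.eq_two_or_odd with rfl | hodd
    · -- `p = 2`
      have h2k : 2 ∣ 2 ^ k := dvd_pow_self _ hk.ne'
      rw [if_pos h2k]
      obtain ⟨j, rfl⟩ : ∃ j, k = j + 1 := ⟨k - 1, by omega⟩
      have hsub : b1R d (2 ^ (j + 1)) ⊆ {(((z₁ : ℤ)) % ((2 ^ (j + 1) : ℕ) : ℤ)).toNat,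
          ((z₁ + 2 ^ j : ℤ) % ((2 ^ (j + 1) : ℕ) : ℤ)).toNat,
          ((-z₁ : ℤ) % ((2 ^ (j + 1) : ℕ) : ℤ)).toNat,
          ((-z₁ + 2 ^ j : ℤ) % ((2 ^ (j + 1) : ℕ) : ℤ)).toNat} := by
        intro z hz
        obtain ⟨h1, _⟩ := b1_mem.1 hz
        have hz3 := hroot z hz
        have hz4 := hroot z₁ hz₁
        push_cast at hz3 hz4
        have hz5 : (z : ℤ) % 2 = 1 := by omega
        have hz6 : (z₁ : ℤ) % 2 = 1 := by omega
        have h3 := hprod z hz
        push_cast at h3
        -- `2^j` divides one of the factors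
        have h4 : (2 : ℤ) ^ j ∣ (z : ℤ) - z₁ ∨ (2 : ℤ) ^ j ∣ (z : ℤ) + z₁ := by
          have half : ∀ u v : ℤ, (2 : ℤ) ^ (j + 1) ∣ u * v → u % 2 = 0 → u % 4 ≠ 0 →
              (2 : ℤ) ^ j ∣ v := by
            intro u v huv h0 h4
            obtain ⟨u', rfl⟩ : (2 : ℤ) ∣ u := Int.dvd_of_emod_eq_zero h0
            have h5 : (2 : ℤ) ^ j ∣ u' * v := by
              rw [pow_succ', mul_assoc] at huv
              exact (mul_dvd_mul_iff_left two_ne_zero).1 huv
            have h6 : IsCoprime ((2 : ℤ) ^ j) u' := by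
              apply IsCoprime.pow_left
              have h7 : u' % 2 = 1 := by omega
              exact ⟨-(u' / 2), 1, by omega⟩
            exact h6.dvd_of_dvd_mul_left h5
          have h7 : ((z : ℤ) - z₁) % 4 ≠ 0 ∨ ((z : ℤ) + z₁) % 4 ≠ 0 := by omega
          rcases h7 with h7 | h7
          · exact Or.inr (half _ _ h3 (by omega) h7)
          · exact Or.inl (half _ _ (by rwa [mul_comm] at h3) (by omega) h7)
        have cs : ∀ c : ℤ, (2 : ℤ) ^ j ∣ (z : ℤ) - c →
            z = (c % ((2 ^ (j + 1) : ℕ) : ℤ)).toNat ∨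
            z = ((c + 2 ^ j) % ((2 ^ (j + 1) : ℕ) : ℤ)).toNat := by
          rintro c ⟨t, ht⟩
          rcases Int.even_or_odd' t with ⟨s, hs | hs⟩
          · left
            apply b1_rep h1
            refine ⟨s, ?_⟩
            push_cast
            rw [ht, hs]
            ring
          · right
            apply b1_rep h1
            refine ⟨s, ?_⟩
            push_cast
            rw [hs] at ht
            linear_combination ht
        simp only [Finset.mem_insert, Finset.mem_singleton]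
        rcases h4 with h4 | h4
        · rcases cs _ h4 with h5 | h5
          · exact Or.inl h5
          · exact Or.inr (Or.inl h5)
        · have h4' : (2 : ℤ) ^ j ∣ (z : ℤ) - (-z₁) := by rwa [sub_neg_eq_add]
          rcases cs _ h4' with h5 | h5
          · exact Or.inr (Or.inr (Or.inl h5))
          · exact Or.inr (Or.inr (Or.inr h5))
      exact (Finset.card_le_card hsub).trans Finset.card_le_four
    · -- `p` odd
      have hsub : b1R d (p ^ k) ⊆ {(((z₁ : ℤ)) % ((p ^ k : ℕ) : ℤ)).toNat,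
          ((-z₁ : ℤ) % ((p ^ k : ℕ) : ℤ)).toNat} := by
        intro z hz
        obtain ⟨h1, _⟩ := b1_mem.1 hz
        have h3 := hprod z hz
        have h4 : (p : ℤ) ^ k ∣ (z : ℤ) - z₁ ∨ (p : ℤ) ^ k ∣ (z : ℤ) + z₁ := by
          by_cases h5 : (p : ℤ) ∣ (z : ℤ) - z₁
          · left
            have h6 : ¬ (p : ℤ) ∣ (z : ℤ) + z₁ := by
              intro h6
              have h7 : (p : ℤ) ∣ 2 * z := by
                have := dvd_add h5 h6
                have h8 : (z : ℤ) - z₁ + (z + z₁) = 2 * z := by ring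
                rwa [h8] at this
              rcases hpi.dvd_or_dvd h7 with h8 | h8
              · have h9 : p ∣ 2 := by exact_mod_cast h8
                have h10 := (Nat.prime_dvd_prime_iff_eq hp Nat.prime_two).1 h9
                omega
              · exact hroot z hz h8
            have h7 : IsCoprime ((p : ℤ) ^ k) ((z : ℤ) + z₁) :=
              IsCoprime.pow_left ((hpi.irreducible.coprime_iff_not_dvd).2 h6)
            exact h7.dvd_of_dvd_mul_right h3
          · right
            have h7 : IsCoprime ((p : ℤ) ^ k) ((z : ℤ) - z₁) :=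
              IsCoprime.pow_left ((hpi.irreducible.coprime_iff_not_dvd).2 h5)
            exact h7.dvd_of_dvd_mul_left h3
        simp only [Finset.mem_insert, Finset.mem_singleton]
        rcases h4 with h4 | h4
        · left
          apply b1_rep h1
          push_cast
          exact h4
        · right
          apply b1_rep h1
          push_cast
          rwa [sub_neg_eq_add]
      have h9 := (Finset.card_le_card hsub).trans Finset.card_le_two
      omega

theorem b1_main (d : ℤ) (hd : Squarefree d) (m : ℕ) (hm : 0 < m) :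
    (b1R d m).card ≤ (if 2 ∣ m then 2 else 1) * 2 ^ m.primeFactors.card := by
  revert hm
  induction m using Nat.recOnPosPrimePosCoprime with
  | prime_pow p k hp hk =>
    intro _
    rw [Nat.primeFactors_prime_pow hk.ne' hp, Finset.card_singleton, pow_one]
    exact b1_pow d hd hp hk
  | zero => intro h; exact absurd h (lt_irrefl _)
  | one =>
    intro _
    have h1 : b1R d 1 ⊆ {0} := by
      intro z hz
      obtain ⟨h1, _⟩ := b1_mem.1 hz
      rw [Finset.mem_singleton]
      omega
    have h2 := Finset.card_le_card h1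
    rw [Finset.card_singleton] at h2
    simpa using h2
  | coprime a b ha hb hab iha ihb =>
    intro _
    have h1 := iha (by omega)
    have h2 := ihb (by omega)
    have h3 := b1_mul d (by omega : 0 < a) (by omega : 0 < b) hab
    have h4 : (if 2 ∣ a then 2 else 1) * (if 2 ∣ b then 2 else 1) ≤
        (if 2 ∣ a * b then 2 else 1) := by
      by_cases h5 : 2 ∣ a
      · have h6 : ¬ 2 ∣ b := by
          intro h6
          have h7 := Nat.dvd_gcd h5 h6
          rw [hab] at h7
          omega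
        rw [if_pos h5, if_neg h6, if_pos (dvd_mul_of_dvd_left h5 b)]
      · by_cases h6 : 2 ∣ b
        · rw [if_neg h5, if_pos h6, if_pos (dvd_mul_of_dvd_right h6 a)]
        · rw [if_neg h5, if_neg h6]
          split_ifs <;> norm_num
    rw [Nat.Coprime.primeFactors_mul hab, Finset.card_union_of_disjoint
      (Nat.Coprime.disjoint_primeFactors hab), pow_add]
    calc (b1R d (a * b)).card ≤ (b1R d a).card * (b1R d b).card := h3
      _ ≤ ((if 2 ∣ a then 2 else 1) * 2 ^ a.primeFactors.card) *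
          ((if 2 ∣ b then 2 else 1) * 2 ^ b.primeFactors.card) := Nat.mul_le_mul h1 h2
      _ = ((if 2 ∣ a then 2 else 1) * (if 2 ∣ b then 2 else 1)) *
          (2 ^ a.primeFactors.card * 2 ^ b.primeFactors.card) := by ring
      _ ≤ _ := Nat.mul_le_mul_right _ h4

theorem roots_count (d : ℤ) (hd : Squarefree d) (m : ℕ) (hm : 0 < m) :
    ((Finset.range m).filter (fun z : ℕ => (m : ℤ) ∣ (z : ℤ) ^ 2 - d)).card ≤ 2 * 2 ^ m.primeFactors.card := by
  have h1 := b1_main d hd m hm
  refine h1.trans (Nat.mul_le_mul_right _ ?_)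
  split_ifs <;> norm_num

end W44
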