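import Pool.Agent.LibW44.Defs

/-! Row B2. One orbit of the norm one units. Two solutions `(y₁,w₁)`, `(y₂,w₂)`: `m ∣ y₁ w₂ - y₂ w₁` and `m ∣ y₁ y₂ - d w₁ w₂` (both `y_i ≡ z w_i`, `z² ≡ d`), so
`σ = (y₁ y₂ - d w₁ w₂)/m`, `τ = (w₁ y₂ - y₁ w₂)/m` are integers with `σ² - d τ² = 1`. `d < 0`: `τ = 0` and `σ = ± 1` or `d = -1`, `σ = 0`, `τ = ± 1`: at most 4 solutions (2·3 ≤ right side).
`d > 1` (not a square): with `α = y + w √d` real: `α₁ = η α₂`, `η = σ + τ √d`, `|η| + 1/|η| = 2|σ| ≥ 4` if `τ ≠ 0` (`σ² = 1 + d τ² ≥ 3`). So the values `|α|` of solutions that are different differ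
by a factor `≥ 3` (`2 + √3`), `1/(2Y) ≤ |α| ≤ 2Y`, `Y² = |m| + d W²` and `α` determines `(y, w)` (`√d` irrational), so `card ≤ 2 (1 + log(4 Y²)/log 3)`, `log(4Y²) ≤ 1.4 + log(|m| + d W²)`. -/

namespace W44
open RC91

private theorem b2_pair {d m z y₁ w₁ y₂ w₂ : ℤ} (hm : m ≠ 0) (hz : m ∣ z ^ 2 - d)
    (h1 : y₁ ^ 2 - d * w₁ ^ 2 = m) (h1' : m ∣ y₁ - z * w₁)
    (h2 : y₂ ^ 2 - d * w₂ ^ 2 = m) (h2' : m ∣ y₂ - z * w₂) :
    ∃ σ τ : ℤ, y₁ = σ * y₂ + d * τ * w₂ ∧ w₁ = σ * w₂ + τ * y₂ ∧ σ ^ 2 - d * τ ^ 2 = 1 := by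
  obtain ⟨c, hc⟩ := hz
  obtain ⟨e₁, he₁⟩ := h1'
  obtain ⟨e₂, he₂⟩ := h2'
  have ey1 : y₁ = z * w₁ + m * e₁ := by linarith
  have ey2 : y₂ = z * w₂ + m * e₂ := by linarith
  have ez : z ^ 2 = d + m * c := by linarith
  set σ : ℤ := c * w₁ * w₂ + z * w₁ * e₂ + z * w₂ * e₁ + m * e₁ * e₂ with hσ
  set τ : ℤ := w₁ * e₂ - w₂ * e₁ with hτ
  have hmσ : m * σ = y₁ * y₂ - d * w₁ * w₂ := by
    rw [hσ, ey1, ey2]
    linear_combination (-(w₁ * w₂)) * ez
  have hmτ : m * τ = w₁ * y₂ - y₁ * w₂ := by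
    rw [hτ, ey1, ey2]
    ring
  refine ⟨σ, τ, ?_, ?_, ?_⟩
  · apply mul_left_cancel₀ hm
    calc m * y₁ = y₁ * (y₂ ^ 2 - d * w₂ ^ 2) := by rw [h2]; ring
      _ = (m * σ) * y₂ + d * (m * τ) * w₂ := by rw [hmσ, hmτ]; ring
      _ = m * (σ * y₂ + d * τ * w₂) := by ring
  · apply mul_left_cancel₀ hm
    calc m * w₁ = w₁ * (y₂ ^ 2 - d * w₂ ^ 2) := by rw [h2]; ring
      _ = (m * σ) * w₂ + (m * τ) * y₂ := by rw [hmσ, hmτ]; ring
      _ = m * (σ * w₂ + τ * y₂) := by ring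
  · have hm2 : m ^ 2 ≠ 0 := pow_ne_zero 2 hm
    apply mul_left_cancel₀ hm2
    calc m ^ 2 * (σ ^ 2 - d * τ ^ 2) = (m * σ) ^ 2 - d * (m * τ) ^ 2 := by ring
      _ = (y₁ ^ 2 - d * w₁ ^ 2) * (y₂ ^ 2 - d * w₂ ^ 2) := by rw [hmσ, hmτ]; ring
      _ = m ^ 2 * 1 := by rw [h1, h2]; ring

private theorem b2_neg {d m z : ℤ} (hd : d < 0) (hm : m ≠ 0) (hz : m ∣ z ^ 2 - d)
    (S : Finset (ℤ × ℤ)) (hS : ∀ s ∈ S, s.1 ^ 2 - d * s.2 ^ 2 = m ∧ m ∣ s.1 - z * s.2) :
    S.card ≤ 4 := by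
  rcases S.eq_empty_or_nonempty with h | ⟨s₀, hs₀⟩
  · rw [h]; simp
  · let T : Finset (ℤ × ℤ) := {(1, 0), (-1, 0), (0, 1), (0, -1)}
    have hT : T.card ≤ 4 := Finset.card_le_four
    have hsub : S ⊆ T.image (fun p => (p.1 * s₀.1 + d * p.2 * s₀.2, p.1 * s₀.2 + p.2 * s₀.1)) := by
      intro s hs
      obtain ⟨σ, τ, h1, h2, h3⟩ := b2_pair hm hz (hS s hs).1 (hS s hs).2 (hS s₀ hs₀).1 (hS s₀ hs₀).2
      rw [Finset.mem_image]
      refine ⟨(σ, τ), ?_, ?_⟩
      · have hσ1 : σ ^ 2 ≤ 1 := by nlinarith [sq_nonneg τ]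
        have hτ1 : τ ^ 2 ≤ 1 := by nlinarith [sq_nonneg τ, sq_nonneg σ]
        have hσl : -1 ≤ σ := by nlinarith
        have hσu : σ ≤ 1 := by nlinarith
        have hτl : -1 ≤ τ := by nlinarith
        have hτu : τ ≤ 1 := by nlinarith
        have hσc : σ = -1 ∨ σ = 0 ∨ σ = 1 := by omega
        have hτc : τ = -1 ∨ τ = 0 ∨ τ = 1 := by omega
        rcases hσc with rfl | rfl | rfl <;> rcases hτc with rfl | rfl | rfl
        · exfalso; linarith
        · simp [T]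
        · exfalso; linarith
        · simp [T]
        · exfalso; linarith
        · simp [T]
        · exfalso; linarith
        · simp [T]
        · exfalso; linarith
      · exact Prod.ext h1.symm h2.symm
    exact (Finset.card_le_card hsub).trans (Finset.card_image_le.trans hT)

/-- `|η| + 1 / |η| ≥ 4` -/
private theorem b2_eta {d σ τ : ℤ} (hd : 2 ≤ d) (hτ : τ ≠ 0) (h : σ ^ 2 - d * τ ^ 2 = 1)
    {r : ℝ} (hr : r ^ 2 = d) :
    37 / 10 ≤ |(σ : ℝ) + τ * r| ∨ |(σ : ℝ) + τ * r| ≤ 10 / 37 := by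
  set a : ℝ := (σ : ℝ) + τ * r with ha
  set b : ℝ := (σ : ℝ) - τ * r with hb
  have hab : a * b = 1 := by
    have : ((σ ^ 2 - d * τ ^ 2 : ℤ) : ℝ) = 1 := by rw [h]; norm_num
    push_cast at this
    rw [ha, hb]
    calc ((σ : ℝ) + τ * r) * (σ - τ * r) = σ ^ 2 - r ^ 2 * τ ^ 2 := by ring
      _ = 1 := by rw [hr]; linarith
  have hτ2 : 1 ≤ τ ^ 2 := by
    have := sq_pos_of_ne_zero hτ
    omega
  have hσ2 : 4 ≤ σ ^ 2 := by
    have h3 : 3 ≤ σ ^ 2 := by nlinarith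
    by_contra hlt
    push Not at hlt
    have h4 : σ ^ 2 = 3 := by omega
    have h5 : σ < 2 := by nlinarith
    have h6 : -2 < σ := by nlinarith
    have h7 : σ = -1 ∨ σ = 0 ∨ σ = 1 := by omega
    rcases h7 with rfl | rfl | rfl <;> norm_num at h4
  have hsum : 16 ≤ (a + b) ^ 2 := by
    have h5 : (a + b) ^ 2 = 4 * (σ : ℝ) ^ 2 := by rw [ha, hb]; ring
    have h6 : (4 : ℝ) ≤ (σ : ℝ) ^ 2 := by exact_mod_cast hσ2
    rw [h5]; linarith
  by_contra hcon
  push Not at hcon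
  obtain ⟨hc1, hc2⟩ := hcon
  have hpos : 0 < |a| := by linarith
  have habs : |a| * |b| = 1 := by rw [← abs_mul, hab, abs_one]
  have hle : |a + b| ≤ |a| + |b| := abs_add_le a b
  have h4 : 4 ≤ |a + b| := by
    have : (4 : ℝ) ^ 2 ≤ |a + b| ^ 2 := by rw [sq_abs]; linarith
    exact le_of_sq_le_sq this (abs_nonneg _)
  have h5 : 4 ≤ |a| + |b| := h4.trans hle
  -- |a| (4 - |a|) ≤ 1
  have h6 : |a| * 4 ≤ |a| * |a| + 1 := by
    calc |a| * 4 ≤ |a| * (|a| + |b|) := mul_le_mul_of_nonneg_left h5 hpos.le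
      _ = |a| * |a| + 1 := by rw [mul_add, habs]
  nlinarith

private theorem b2_pos {d m z : ℤ} (hd : 2 ≤ d) (hm : m ≠ 0) (hz : m ∣ z ^ 2 - d)
    (W : ℝ) (hW : 1 ≤ W) (S : Finset (ℤ × ℤ))
    (hS : ∀ s ∈ S, s.1 ^ 2 - d * s.2 ^ 2 = m ∧ m ∣ s.1 - z * s.2 ∧ |(s.2 : ℝ)| ≤ W) :
    (S.card : ℝ) ≤ 2 * (3 + Real.log (|(m : ℝ)| + |(d : ℝ)| * W ^ 2)) := by
  have hdR : (2 : ℝ) ≤ (d : ℝ) := by exact_mod_cast hd
  set r : ℝ := √(d : ℝ) with hrdef
  have hr0 : 0 < r := Real.sqrt_pos.2 (by linarith)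
  have hr : r ^ 2 = d := Real.sq_sqrt (by linarith)
  have hmR : (1 : ℝ) ≤ |(m : ℝ)| := by
    have : 1 ≤ |m| := Int.one_le_abs hm
    exact_mod_cast this
  rw [abs_of_pos (show (0 : ℝ) < (d : ℝ) by linarith)]
  set Q : ℝ := |(m : ℝ)| + d * W ^ 2 with hQ
  have hW2 : 1 ≤ W ^ 2 := by nlinarith
  have hQ3 : 3 ≤ Q := by rw [hQ]; nlinarith
  set Y : ℝ := √Q with hY
  have hY0 : 0 < Y := Real.sqrt_pos.2 (by linarith)
  have hY2 : Y ^ 2 = Q := Real.sq_sqrt (by linarith)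
  let α : ℤ × ℤ → ℝ := fun s => (s.1 : ℝ) + s.2 * r
  let β : ℤ × ℤ → ℝ := fun s => (s.1 : ℝ) - s.2 * r
  have hαβ : ∀ s ∈ S, α s * β s = m := by
    intro s hs
    have h1 : ((s.1 ^ 2 - d * s.2 ^ 2 : ℤ) : ℝ) = m := by rw [(hS s hs).1]
    push_cast at h1
    calc α s * β s = (s.1 : ℝ) ^ 2 - r ^ 2 * s.2 ^ 2 := by simp only [α, β]; ring
      _ = m := by rw [hr]; exact h1
  have hyb : ∀ s ∈ S, |(s.1 : ℝ)| ≤ Y ∧ |(s.2 : ℝ) * r| ≤ Y := by
    intro s hs
    obtain ⟨h1, -, h3⟩ := hS s hs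
    have h1' : ((s.1 ^ 2 - d * s.2 ^ 2 : ℤ) : ℝ) = m := by rw [h1]
    push_cast at h1'
    have h4 : (s.2 : ℝ) ^ 2 ≤ W ^ 2 := by
      rw [← sq_abs]
      exact pow_le_pow_left₀ (abs_nonneg _) h3 2
    have h5 : (d : ℝ) * (s.2 : ℝ) ^ 2 ≤ d * W ^ 2 := mul_le_mul_of_nonneg_left h4 (by linarith)
    constructor
    · have h6 : |(s.1 : ℝ)| ^ 2 ≤ Y ^ 2 := by
        rw [sq_abs, hY2, hQ]
        have := le_abs_self (m : ℝ)
        linarith
      exact le_of_sq_le_sq h6 hY0.le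
    · have h6 : |(s.2 : ℝ) * r| ^ 2 ≤ Y ^ 2 := by
        rw [sq_abs, hY2, hQ, mul_pow, hr]
        have := abs_nonneg (m : ℝ)
        linarith
      exact le_of_sq_le_sq h6 hY0.le
  have hαu : ∀ s ∈ S, |α s| ≤ 2 * Y := by
    intro s hs
    obtain ⟨h1, h2⟩ := hyb s hs
    calc |α s| ≤ |(s.1 : ℝ)| + |(s.2 : ℝ) * r| := abs_add_le _ _
      _ ≤ 2 * Y := by linarith
  have hβu : ∀ s ∈ S, |β s| ≤ 2 * Y := by
    intro s hs
    obtain ⟨h1, h2⟩ := hyb s hs
    calc |β s| ≤ |(s.1 : ℝ)| + |(s.2 : ℝ) * r| := abs_sub _ _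
      _ ≤ 2 * Y := by linarith
  have hα0 : ∀ s ∈ S, 0 < |α s| := by
    intro s hs
    rw [abs_pos]
    intro h0
    have := hαβ s hs
    rw [h0, zero_mul] at this
    exact hm (by exact_mod_cast this.symm)
  have hαl : ∀ s ∈ S, (2 * Y)⁻¹ ≤ |α s| := by
    intro s hs
    have h1 : |α s| * |β s| = |(m : ℝ)| := by rw [← abs_mul, hαβ s hs]
    have h2 : 1 ≤ |α s| * (2 * Y) := by
      calc (1 : ℝ) ≤ |(m : ℝ)| := hmR
        _ = |α s| * |β s| := h1.symm
        _ ≤ |α s| * (2 * Y) := mul_le_mul_of_nonneg_left (hβu s hs) (abs_nonneg _)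
    rw [inv_eq_one_div, div_le_iff₀ (by positivity)]
    exact h2
  set lam : ℝ := Real.log (37 / 10) with hlam
  have hlam1 : 1 ≤ lam := by
    rw [hlam, Real.le_log_iff_exp_le (by norm_num)]
    linarith [Real.exp_one_lt_d9]
  have hlam4 : Real.log 4 + 1 ≤ 2 * lam := by
    have h1 : Real.log 4 + 1 = Real.log (4 * Real.exp 1) := by
      rw [Real.log_mul (by norm_num) (Real.exp_pos 1).ne', Real.log_exp]
    have h2 : 2 * lam = Real.log ((37 / 10) ^ 2) := by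
      rw [Real.log_pow, hlam]
      norm_num
    rw [h1, h2]
    apply Real.log_le_log (by positivity)
    linarith [Real.exp_one_lt_d9]
  let f : ℤ × ℤ → ℤ := fun s => ⌊Real.log |α s| / lam⌋
  -- equal floors
  have hfib : ∀ s ∈ S, ∀ s' ∈ S, f s = f s' → s = s' ∨ s = -s' := by
    intro s hs s' hs' hff
    obtain ⟨σ, τ, h1, h2, h3⟩ := b2_pair hm hz (hS s hs).1 (hS s hs).2.1 (hS s' hs').1 (hS s' hs').2.1
    by_cases hτ : τ = 0
    · subst hτ
      have hσ : σ ^ 2 = 1 := by linarith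
      have hσ' : σ = 1 ∨ σ = -1 := by
        rcases Int.isUnit_iff.1 (IsUnit.of_mul_eq_one σ (by rw [← sq]; exact hσ)) with h | h
        · exact Or.inl h
        · exact Or.inr h
      rcases hσ' with rfl | rfl
      · left
        exact Prod.ext (by linarith) (by linarith)
      · right
        refine Prod.ext ?_ ?_
        · show s.1 = -s'.1
          linarith
        · show s.2 = -s'.2
          linarith
    · exfalso
      have hmul : α s = ((σ : ℝ) + τ * r) * α s' := by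
        have e1 : (s.1 : ℝ) = σ * s'.1 + d * τ * s'.2 := by exact_mod_cast h1
        have e2 : (s.2 : ℝ) = σ * s'.2 + τ * s'.1 := by exact_mod_cast h2
        show (s.1 : ℝ) + s.2 * r = ((σ : ℝ) + τ * r) * (s'.1 + s'.2 * r)
        rw [e1, e2, ← hr]
        ring
      have habs : |α s| = |(σ : ℝ) + τ * r| * |α s'| := by rw [hmul, abs_mul]
      have hp := hα0 s hs
      have hp' := hα0 s' hs'
      have hfl1 := Int.floor_le (Real.log |α s| / lam)
      have hfl2 := Int.lt_floor_add_one (Real.log |α s| / lam)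
      have hfl3 := Int.floor_le (Real.log |α s'| / lam)
      have hfl4 := Int.lt_floor_add_one (Real.log |α s'| / lam)
      have hff' : (⌊Real.log |α s| / lam⌋ : ℤ) = ⌊Real.log |α s'| / lam⌋ := hff
      rw [hff'] at hfl1 hfl2
      have hlam0 : 0 < lam := by linarith
      have hd1 : Real.log |α s| - Real.log |α s'| < lam := by
        have : Real.log |α s| / lam - Real.log |α s'| / lam < 1 := by linarith
        rw [← sub_div, div_lt_one hlam0] at this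
        exact this
      have hd2 : Real.log |α s'| - Real.log |α s| < lam := by
        have : Real.log |α s'| / lam - Real.log |α s| / lam < 1 := by linarith
        rw [← sub_div, div_lt_one hlam0] at this
        exact this
      rcases b2_eta hd hτ h3 hr with h | h
      · have h5 : 37 / 10 * |α s'| ≤ |α s| := by rw [habs]; exact mul_le_mul_of_nonneg_right h hp'.le
        have h6 := Real.log_le_log (by positivity) h5
        rw [Real.log_mul (by norm_num) hp'.ne'] at h6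
        linarith
      · have h5 : 37 / 10 * |α s| ≤ |α s'| := by
          rw [habs]
          have : 37 / 10 * (|(σ : ℝ) + τ * r| * |α s'|) ≤ 37 / 10 * (10 / 37 * |α s'|) := by gcongr
          linarith
        have h6 := Real.log_le_log (by positivity) h5
        rw [Real.log_mul (by norm_num) hp.ne'] at h6
        linarith
  have hcard : S.card ≤ 2 * (S.image f).card := by
    apply Finset.card_le_mul_card_image
    intro c hc
    rw [Finset.mem_image] at hc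
    obtain ⟨s₀, hs₀, rfl⟩ := hc
    have hsub : S.filter (fun x => f x = f s₀) ⊆ {s₀, -s₀} := by
      intro s hs
      rw [Finset.mem_filter] at hs
      rcases hfib s hs.1 s₀ hs₀ hs.2 with h | h
      · simp [h]
      · simp [h]
    exact (Finset.card_le_card hsub).trans Finset.card_le_two
  have himg : S.image f ⊆ Finset.Icc ⌊-Real.log (2 * Y) / lam⌋ ⌊Real.log (2 * Y) / lam⌋ := by
    intro c hc
    rw [Finset.mem_image] at hc
    obtain ⟨s, hs, rfl⟩ := hc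
    have hlam0 : 0 < lam := by linarith
    rw [Finset.mem_Icc]
    constructor
    · apply Int.floor_le_floor
      apply div_le_div_of_nonneg_right _ hlam0.le
      rw [← Real.log_inv]
      exact Real.log_le_log (by positivity) (hαl s hs)
    · apply Int.floor_le_floor
      apply div_le_div_of_nonneg_right _ hlam0.le
      exact Real.log_le_log (hα0 s hs) (hαu s hs)
  have hlam0 : 0 < lam := by linarith
  have h2Y : Real.log (2 * Y) = (Real.log 4 + Real.log Q) / 2 := by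
    have h1 : Real.log ((2 * Y) ^ 2) = Real.log 4 + Real.log Q := by
      rw [mul_pow, hY2, Real.log_mul (by norm_num) (by linarith)]
      norm_num
    rw [Real.log_pow] at h1
    push_cast at h1
    linarith
  have hlogQ : 1 ≤ Real.log Q := by
    rw [Real.le_log_iff_exp_le (by linarith)]
    linarith [Real.exp_one_lt_d9]
  have hIcc : ((Finset.Icc ⌊-Real.log (2 * Y) / lam⌋ ⌊Real.log (2 * Y) / lam⌋).card : ℝ) ≤
      2 * Real.log (2 * Y) / lam + 2 := by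
    rw [Int.card_Icc]
    have h1 := Int.floor_le (Real.log (2 * Y) / lam)
    have h2 := Int.lt_floor_add_one (-Real.log (2 * Y) / lam)
    have h3 : -Real.log (2 * Y) / lam = -(Real.log (2 * Y) / lam) := by ring
    have h4 : 0 ≤ Real.log (2 * Y) / lam := by
      apply div_nonneg _ hlam0.le
      rw [h2Y]
      have := Real.log_nonneg (show (1 : ℝ) ≤ 4 by norm_num)
      linarith
    have h5 : (((⌊Real.log (2 * Y) / lam⌋ + 1 - ⌊-Real.log (2 * Y) / lam⌋).toNat : ℤ) : ℝ) ≤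
        2 * Real.log (2 * Y) / lam + 2 := by
      have h6 : (((⌊Real.log (2 * Y) / lam⌋ + 1 - ⌊-Real.log (2 * Y) / lam⌋).toNat : ℤ)) =
          max (⌊Real.log (2 * Y) / lam⌋ + 1 - ⌊-Real.log (2 * Y) / lam⌋) 0 := Int.toNat_eq_max _
      rw [h6]
      push_cast
      apply max_le
      · rw [h3] at h2 ⊢
        have : 2 * Real.log (2 * Y) / lam = 2 * (Real.log (2 * Y) / lam) := by ring
        rw [this]
        linarith
      · have : 2 * Real.log (2 * Y) / lam = 2 * (Real.log (2 * Y) / lam) := by ring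
        rw [this]
        linarith
    exact_mod_cast h5
  have hfin : 2 * Real.log (2 * Y) / lam + 2 ≤ 3 + Real.log Q := by
    rw [h2Y]
    have h1 : 2 * ((Real.log 4 + Real.log Q) / 2) / lam ≤ 1 + Real.log Q := by
      rw [div_le_iff₀ hlam0]
      nlinarith
    linarith
  calc (S.card : ℝ) ≤ ((2 * (S.image f).card : ℕ) : ℝ) := by exact_mod_cast hcard
    _ = 2 * ((S.image f).card : ℝ) := by push_cast; ring
    _ ≤ 2 * ((Finset.Icc ⌊-Real.log (2 * Y) / lam⌋ ⌊Real.log (2 * Y) / lam⌋).card : ℝ) :=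
        mul_le_mul_of_nonneg_left (Nat.cast_le.2 (Finset.card_le_card himg)) (by norm_num)
    _ ≤ 2 * (2 * Real.log (2 * Y) / lam + 2) := by linarith
    _ ≤ 2 * (3 + Real.log Q) := by linarith

theorem orbit_count (d : ℤ) (hd : Squarefree d) (h1 : d ≠ 1) (m z : ℤ) (hm : m ≠ 0) (hz : m ∣ z ^ 2 - d)
    (W : ℝ) (hW : 1 ≤ W) (S : Finset (ℤ × ℤ))
    (hS : ∀ s ∈ S, s.1 ^ 2 - d * s.2 ^ 2 = m ∧ m ∣ s.1 - z * s.2 ∧ |(s.2 : ℝ)| ≤ W) :
    (S.card : ℝ) ≤ 2 * (3 + Real.log (|(m : ℝ)| + |(d : ℝ)| * W ^ 2)) := by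
  have hd0 : d ≠ 0 := hd.ne_zero
  rcases lt_or_gt_of_ne hd0 with h | h
  · have h4 := b2_neg h hm hz S (fun s hs => ⟨(hS s hs).1, (hS s hs).2.1⟩)
    have h5 : (S.card : ℝ) ≤ 4 := by exact_mod_cast h4
    have hmR : (1 : ℝ) ≤ |(m : ℝ)| := by
      have : 1 ≤ |m| := Int.one_le_abs hm
      exact_mod_cast this
    have h6 : 0 ≤ Real.log (|(m : ℝ)| + |(d : ℝ)| * W ^ 2) := by
      apply Real.log_nonneg
      have : 0 ≤ |(d : ℝ)| * W ^ 2 := by positivity
      linarith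
    linarith
  · exact b2_pos (by omega) hm hz W hW S hS

end W44
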