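import Pool.Agent.LibW44.B1
import Pool.Agent.LibW44.B2
import Pool.Agent.LibRC91.QT1

/-! Row B3. Fibres over `e = gcd(y, w)` (`e² ∣ n`, `e ∈ n.natAbs.divisors`); for given `e` the pair `(y/e, w/e)` is coprime with norm `m = n/e²`, so `gcd(w/e, m) = 1`
and `z ≡ (y/e)(w/e)⁻¹ mod |m|` is one of the `≤ 2·2^ω(|m|) ≤ 2 τ(n)` roots (`roots_count`; `m ∣ z² - d`); each fibre is bounded by `orbit_count`. (`2^ω(m) ≤ τ(m)`: `RC91.QT1_tau`.) -/

namespace W44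
open RC91

private theorem b3_point (d : ℤ) (n : ℤ) (hn : n ≠ 0) (y w : ℤ) (h : y ^ 2 - d * w ^ 2 = n) :
    (0 < Int.gcd y w) ∧ ((Int.gcd y w) ∣ n.natAbs) ∧
    ((Int.gcd y w : ℤ) * (y / (Int.gcd y w : ℤ)) = y) ∧ ((Int.gcd y w : ℤ) * (w / (Int.gcd y w : ℤ)) = w) ∧
    (n / (Int.gcd y w : ℤ) ^ 2 ≠ 0) ∧ (n / (Int.gcd y w : ℤ) ^ 2 ∣ n) ∧
    ((y / (Int.gcd y w : ℤ)) ^ 2 - d * (w / (Int.gcd y w : ℤ)) ^ 2 = n / (Int.gcd y w : ℤ) ^ 2) ∧
    ∃ z : ℕ, z < (n / (Int.gcd y w : ℤ) ^ 2).natAbs ∧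
      ((n / (Int.gcd y w : ℤ) ^ 2).natAbs : ℤ) ∣ (z : ℤ) ^ 2 - d ∧
      (n / (Int.gcd y w : ℤ) ^ 2) ∣ (y / (Int.gcd y w : ℤ)) - z * (w / (Int.gcd y w : ℤ)) := by
  have he0 : Int.gcd y w ≠ 0 := by
    intro h0
    rw [Int.gcd_eq_zero_iff] at h0
    apply hn
    rw [← h, h0.1, h0.2]
    ring
  have hepos : 0 < Int.gcd y w := Nat.pos_of_ne_zero he0
  set e : ℕ := Int.gcd y w with he
  have heZ : (e : ℤ) ≠ 0 := by exact_mod_cast he0
  have hy : (e : ℤ) * (y / (e : ℤ)) = y := Int.mul_ediv_cancel' (Int.gcd_dvd_left y w)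
  have hw : (e : ℤ) * (w / (e : ℤ)) = w := Int.mul_ediv_cancel' (Int.gcd_dvd_right y w)
  have hcop : Int.gcd (y / (e : ℤ)) (w / (e : ℤ)) = 1 := by
    rw [he]
    exact Int.gcd_ediv_gcd_ediv_gcd (by rw [← he]; exact hepos)
  set y' : ℤ := y / (e : ℤ) with hy'
  set w' : ℤ := w / (e : ℤ) with hw'
  have hn2 : n = (e : ℤ) ^ 2 * (y' ^ 2 - d * w' ^ 2) := by
    rw [← h]
    conv_lhs => rw [← hy, ← hw]
    ring
  have hm : n / (e : ℤ) ^ 2 = y' ^ 2 - d * w' ^ 2 := by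
    rw [hn2]
    exact Int.mul_ediv_cancel_left _ (pow_ne_zero 2 heZ)
  have hm0 : n / (e : ℤ) ^ 2 ≠ 0 := by
    rw [hm]
    intro h0
    apply hn
    rw [hn2, h0, mul_zero]
  have hmn : n / (e : ℤ) ^ 2 ∣ n := by
    refine ⟨(e : ℤ) ^ 2, ?_⟩
    rw [hm]
    conv_lhs => rw [hn2]
    ring
  have hen : e ∣ n.natAbs := by
    rw [← Int.natCast_dvd]
    refine ⟨(e : ℤ) * (y' ^ 2 - d * w' ^ 2), ?_⟩
    conv_lhs => rw [hn2]
    ring
  refine ⟨hepos, hen, hy, hw, hm0, hmn, hm.symm, ?_⟩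
  have hcop1 : IsCoprime y' w' := Int.isCoprime_iff_gcd_eq_one.2 hcop
  have hcop2 : IsCoprime w' (n / (e : ℤ) ^ 2) := by
    rw [hm]
    have h1 : IsCoprime w' (y' ^ 2) := hcop1.symm.pow_right
    have h2 : IsCoprime w' (y' ^ 2 + w' * (-(d * w'))) := h1.add_mul_left_right _
    have h3 : y' ^ 2 + w' * (-(d * w')) = y' ^ 2 - d * w' ^ 2 := by ring
    rwa [h3] at h2
  set m : ℤ := n / (e : ℤ) ^ 2 with hmdef
  obtain ⟨a, b, hab⟩ := hcop2
  have hz1 : m ∣ y' - (y' * a) * w' := by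
    refine ⟨y' * b, ?_⟩
    have : y' - (y' * a) * w' = y' * (1 - a * w') := by ring
    rw [this, ← hab]
    ring
  have hmod0 : 0 ≤ (y' * a) % m := Int.emod_nonneg _ hm0
  refine ⟨((y' * a) % m).toNat, ?_, ?_, ?_⟩
  · have hlt : (y' * a) % m < |m| := Int.emod_lt_abs _ hm0
    zify
    rw [Int.toNat_of_nonneg hmod0]
    exact hlt
  · rw [Int.toNat_of_nonneg hmod0]
    have hdvd : m ∣ y' - ((y' * a) % m) * w' := by
      have h1 : (y' * a) % m = y' * a - m * ((y' * a) / m) := by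
        have := Int.emod_add_mul_ediv (y' * a) m
        linarith
      rw [h1]
      have h2 : y' - (y' * a - m * ((y' * a) / m)) * w' = (y' - (y' * a) * w') + m * (((y' * a) / m) * w') := by ring
      rw [h2]
      exact dvd_add hz1 (dvd_mul_right _ _)
    have h3 : m ∣ w' ^ 2 * (((y' * a) % m) ^ 2 - d) := by
      have h4 : w' ^ 2 * (((y' * a) % m) ^ 2 - d) =
          (y' ^ 2 - d * w' ^ 2) - (y' - ((y' * a) % m) * w') * (y' + ((y' * a) % m) * w') := by ring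
      rw [h4, ← hm]
      exact dvd_sub (dvd_refl _) (dvd_mul_of_dvd_left hdvd _)
    have h5 : IsCoprime m (w' ^ 2) := by
      have : IsCoprime w' m := ⟨a, b, hab⟩
      exact this.symm.pow_right
    have h6 := h5.dvd_of_dvd_mul_left h3
    exact Int.natAbs_dvd.2 h6
  · rw [Int.toNat_of_nonneg hmod0]
    have h1 : (y' * a) % m = y' * a - m * ((y' * a) / m) := by
      have := Int.emod_add_mul_ediv (y' * a) m
      linarith
    rw [h1]
    have h2 : y' - (y' * a - m * ((y' * a) / m)) * w' = (y' - (y' * a) * w') + m * (((y' * a) / m) * w') := by ring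
    rw [h2]
    exact dvd_add hz1 (dvd_mul_right _ _)

theorem rep_count (d : ℤ) (hd : Squarefree d) (h1 : d ≠ 1) (n : ℤ) (hn : n ≠ 0)
    (W : ℝ) (hW : 1 ≤ W) (S : Finset (ℤ × ℤ))
    (hS : ∀ s ∈ S, s.1 ^ 2 - d * s.2 ^ 2 = n ∧ |(s.2 : ℝ)| ≤ W) :
    (S.card : ℝ) ≤ 4 * (n.natAbs.divisors.card : ℝ) ^ 2 * (3 + Real.log (|(n : ℝ)| + |(d : ℝ)| * W ^ 2)) := by
  classical
  have hpt : ∀ s : ℤ × ℤ, s ∈ S → ∃ z : ℕ, z < (n / (Int.gcd s.1 s.2 : ℤ) ^ 2).natAbs ∧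
      ((n / (Int.gcd s.1 s.2 : ℤ) ^ 2).natAbs : ℤ) ∣ (z : ℤ) ^ 2 - d ∧
      (n / (Int.gcd s.1 s.2 : ℤ) ^ 2) ∣ (s.1 / (Int.gcd s.1 s.2 : ℤ)) - z * (s.2 / (Int.gcd s.1 s.2 : ℤ)) :=
    fun s hs => (b3_point d n hn s.1 s.2 (hS s hs).1).2.2.2.2.2.2.2
  let Z : ℤ × ℤ → ℕ := fun s => if hs : s ∈ S then (hpt s hs).choose else 0
  have hZ : ∀ s ∈ S, Z s < (n / (Int.gcd s.1 s.2 : ℤ) ^ 2).natAbs ∧
      ((n / (Int.gcd s.1 s.2 : ℤ) ^ 2).natAbs : ℤ) ∣ (Z s : ℤ) ^ 2 - d ∧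
      (n / (Int.gcd s.1 s.2 : ℤ) ^ 2) ∣ (s.1 / (Int.gcd s.1 s.2 : ℤ)) - (Z s : ℤ) * (s.2 / (Int.gcd s.1 s.2 : ℤ)) := by
    intro s hs
    have := (hpt s hs).choose_spec
    simp only [Z, hs, dif_pos]
    exact this
  let T : Finset (Σ _ : ℕ, ℕ) := (n.natAbs.divisors.filter (fun e : ℕ => n / (e : ℤ) ^ 2 ≠ 0 ∧ n / (e : ℤ) ^ 2 ∣ n)).sigma
    (fun e : ℕ => (Finset.range (n / (e : ℤ) ^ 2).natAbs).filter
      (fun z : ℕ => ((n / (e : ℤ) ^ 2).natAbs : ℤ) ∣ (z : ℤ) ^ 2 - d))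
  let F : ℤ × ℤ → (Σ _ : ℕ, ℕ) := fun s => ⟨Int.gcd s.1 s.2, Z s⟩
  have hn1 : (1 : ℝ) ≤ |(n : ℝ)| := by
    have : (1 : ℤ) ≤ |n| := Int.one_le_abs hn
    exact_mod_cast this
  have hd0 : d ≠ 0 := hd.ne_zero
  have hd1 : (1 : ℝ) ≤ |(d : ℝ)| := by
    have : (1 : ℤ) ≤ |d| := Int.one_le_abs hd0
    exact_mod_cast this
  have hlog0 : 0 ≤ Real.log (|(n : ℝ)| + |(d : ℝ)| * W ^ 2) := by
    apply Real.log_nonneg
    have : 0 ≤ |(d : ℝ)| * W ^ 2 := by positivity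
    linarith
  set K : ℝ := 2 * (3 + Real.log (|(n : ℝ)| + |(d : ℝ)| * W ^ 2)) with hK
  have hK0 : 0 ≤ K := by positivity
  have hmaps : ∀ s ∈ S, F s ∈ T := by
    intro s hs
    obtain ⟨p1, p2, p3, p4, p5, p6, p7, p8⟩ := b3_point d n hn s.1 s.2 (hS s hs).1
    simp only [F, T, Finset.mem_sigma, Finset.mem_filter, Nat.mem_divisors, Finset.mem_range]
    refine ⟨⟨⟨p2, by simpa using hn⟩, p5, p6⟩, (hZ s hs).1, (hZ s hs).2.1⟩
  have hfib : ∀ b ∈ T, (S.filter (fun s => F s = b)).card ≤ ⌊K⌋₊ := by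
    intro b hb
    apply Nat.le_floor
    simp only [T, Finset.mem_sigma, Finset.mem_filter, Nat.mem_divisors, Finset.mem_range] at hb
    obtain ⟨⟨hb1, hm0, hmn⟩, hz1, hz2⟩ := hb
    obtain ⟨e, z⟩ := b
    simp only at hb1 hm0 hmn hz1 hz2
    set m : ℤ := n / (e : ℤ) ^ 2 with hm
    have hinj : Set.InjOn (fun s : ℤ × ℤ => (s.1 / (e : ℤ), s.2 / (e : ℤ)))
        (S.filter (fun s => F s = ⟨e, z⟩) : Finset (ℤ × ℤ)) := by
      intro s hs t ht hst
      simp only [Finset.coe_filter, Set.mem_ofPred_eq, F] at hs ht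
      have he1 : Int.gcd s.1 s.2 = e := by
        have := congrArg Sigma.fst hs.2
        exact this
      have he2 : Int.gcd t.1 t.2 = e := by
        have := congrArg Sigma.fst ht.2
        exact this
      obtain ⟨-, -, p3, p4, -⟩ := b3_point d n hn s.1 s.2 (hS s hs.1).1
      obtain ⟨-, -, q3, q4, -⟩ := b3_point d n hn t.1 t.2 (hS t ht.1).1
      rw [he1] at p3 p4
      rw [he2] at q3 q4
      simp only [Prod.mk.injEq] at hst
      ext
      · rw [← p3, ← q3, hst.1]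
      · rw [← p4, ← q4, hst.2]
    have hcard := Finset.card_image_of_injOn hinj
    rw [← hcard]
    have hoc := orbit_count d hd h1 m z hm0 (by
        have := Int.natAbs_dvd.1 hz2
        exact this) W hW
      ((S.filter (fun s => F s = ⟨e, z⟩)).image (fun s : ℤ × ℤ => (s.1 / (e : ℤ), s.2 / (e : ℤ)))) (by
        intro t ht
        rw [Finset.mem_image] at ht
        obtain ⟨s, hs, rfl⟩ := ht
        rw [Finset.mem_filter] at hs
        have he1 : Int.gcd s.1 s.2 = e := by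
          have := congrArg Sigma.fst hs.2
          exact this
        have hz3 : Z s = z := by
          have h3 := hs.2
          simp only [F] at h3
          have := (Sigma.mk.injEq _ _ _ _).mp h3
          exact eq_of_heq this.2
        obtain ⟨p1, p2, p3, p4, p5, p6, p7, p8⟩ := b3_point d n hn s.1 s.2 (hS s hs.1).1
        have hZs := hZ s hs.1
        rw [he1] at p1 p3 p4 p5 p6 p7 hZs
        rw [hz3] at hZs
        refine ⟨p7, hZs.2.2, ?_⟩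
        have hw := (hS s hs.1).2
        refine le_trans ?_ hw
        have h4 : |(s.2 / (e : ℤ))| ≤ |s.2| := by
          have h5 : |s.2| = (e : ℤ) * |s.2 / (e : ℤ)| := by
            conv_lhs => rw [← p4]
            rw [abs_mul, abs_of_nonneg (by positivity : (0 : ℤ) ≤ (e : ℤ))]
          rw [h5]
          have h6 : (1 : ℤ) ≤ (e : ℤ) := by exact_mod_cast p1
          nlinarith [abs_nonneg (s.2 / (e : ℤ))]
        show |(((s.2 / (e : ℤ)) : ℤ) : ℝ)| ≤ |(s.2 : ℝ)|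
        exact_mod_cast h4)
    refine le_trans hoc ?_
    rw [hK]
    have hmle : |(m : ℝ)| ≤ |(n : ℝ)| := by
      have : |m| ≤ |n| := by
        have h7 := Int.natAbs_le_of_dvd_ne_zero hmn hn
        zify at h7
        exact h7
      exact_mod_cast this
    have hm1 : (1 : ℝ) ≤ |(m : ℝ)| := by
      have : (1 : ℤ) ≤ |m| := Int.one_le_abs hm0
      exact_mod_cast this
    have hpos : 0 < |(m : ℝ)| + |(d : ℝ)| * W ^ 2 := by
      have : 0 ≤ |(d : ℝ)| * W ^ 2 := by positivity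
      linarith
    have := Real.log_le_log hpos (by linarith : |(m : ℝ)| + |(d : ℝ)| * W ^ 2 ≤ |(n : ℝ)| + |(d : ℝ)| * W ^ 2)
    linarith
  have hmain := Finset.card_le_mul_card_image_of_maps_to hmaps ⌊K⌋₊ hfib
  have hT : T.card ≤ 2 * n.natAbs.divisors.card ^ 2 := by
    simp only [T, Finset.card_sigma]
    calc _ ≤ ∑ e ∈ n.natAbs.divisors.filter (fun e : ℕ => n / (e : ℤ) ^ 2 ≠ 0 ∧ n / (e : ℤ) ^ 2 ∣ n),
            2 * n.natAbs.divisors.card := by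
          apply Finset.sum_le_sum
          intro e he
          rw [Finset.mem_filter] at he
          obtain ⟨he1, hm0, hmn⟩ := he
          have hpos : 0 < (n / (e : ℤ) ^ 2).natAbs := Int.natAbs_pos.2 hm0
          refine le_trans (roots_count d hd _ hpos) ?_
          have h8 := QT1_tau _ hpos
          have h9 : (n / (e : ℤ) ^ 2).natAbs.divisors.card ≤ n.natAbs.divisors.card := by
            apply Finset.card_le_card
            apply Nat.divisors_subset_of_dvd (by simpa using hn)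
            exact Int.natAbs_dvd_natAbs.2 hmn
          exact Nat.mul_le_mul_left 2 (le_trans h8 h9)
      _ ≤ n.natAbs.divisors.card * (2 * n.natAbs.divisors.card) := by
          rw [Finset.sum_const, smul_eq_mul]
          exact Nat.mul_le_mul_right _ (Finset.card_filter_le _ _)
      _ = 2 * n.natAbs.divisors.card ^ 2 := by ring
  have hmain2 : (S.card : ℝ) ≤ (⌊K⌋₊ : ℝ) * (T.card : ℝ) := by exact_mod_cast hmain
  have hfl : (⌊K⌋₊ : ℝ) ≤ K := Nat.floor_le hK0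
  have hT2 : (T.card : ℝ) ≤ 2 * (n.natAbs.divisors.card : ℝ) ^ 2 := by exact_mod_cast hT
  calc (S.card : ℝ) ≤ (⌊K⌋₊ : ℝ) * (T.card : ℝ) := hmain2
    _ ≤ K * (2 * (n.natAbs.divisors.card : ℝ) ^ 2) := by
        apply mul_le_mul hfl hT2 (by positivity) hK0
    _ = 4 * (n.natAbs.divisors.card : ℝ) ^ 2 * (3 + Real.log (|(n : ℝ)| + |(d : ℝ)| * W ^ 2)) := by
        rw [hK]; ring

end W44
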