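import Pool.Agent.LibW44.B3
import Pool.Agent.LibRC91.QM

/-! Row B4. Small points. `x ≠ 0` (`d ≠ 1` squarefree, `b ≠ 0`). For given `x` the pair `(y, w)` is one of `≤ C τ(|x|)^6 L` (`rep_count`, `n = x³`, `τ(x³) ≤ τ(x)³` by `RC91.QM_mul`, `W = a|x| + |b| ≤ (X P)^10` or so);
for given `(x, w)` the number of `a` with `|w - a x| = |b| ≤ √69 G` is `≤ 1 + 2√69 G/|x|`, then `b = w - a x`. `∑_{1≤v≤N} τ(v)^6/v ≤ (1 + log N)^64` is `RC91.QM_one 6`, and `∑ τ(v)^6 ≤ N ∑ τ(v)^6/v`. `P ≤ X⁴` bounds all logarithms by `C L`. -/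

namespace W44
open RC91

private theorem b4_x_ne {X : ℕ} {d : ℤ} {q : Pt} (hd : Squarefree d) (h1 : d ≠ 1) (h : Adm X d q) :
    q.x ≠ 0 := by
  intro hx
  have he := h.eq
  unfold Pt.w at he
  rw [hx] at he
  have he' : q.y ^ 2 = d * q.b ^ 2 := by rw [he]; ring
  have hb : q.b ≠ 0 := h.b0
  have hdvd : q.b ∣ q.y := by
    rw [← Int.pow_dvd_pow_iff (n := 2) (by norm_num)]
    exact ⟨d, by rw [he']; ring⟩
  obtain ⟨k, hk⟩ := hdvd
  have hb2 : q.b ^ 2 ≠ 0 := pow_ne_zero 2 hb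
  have hkd : k ^ 2 = d := by
    apply mul_left_cancel₀ hb2
    calc q.b ^ 2 * k ^ 2 = (q.b * k) ^ 2 := by ring
      _ = q.y ^ 2 := by rw [hk]
      _ = q.b ^ 2 * d := by rw [he']; ring
  have hu : IsUnit k := hd k ⟨1, by rw [← hkd]; ring⟩
  have hk1 : k ^ 2 = 1 := by
    rcases Int.isUnit_iff.1 hu with h | h <;> rw [h] <;> norm_num
  exact h1 (by rw [← hkd, hk1])

/-- the number of integers in an interval around `c` -/
private theorem b4_int (S : Finset ℤ) (c R : ℝ) (hR : 0 ≤ R) (hS : ∀ a ∈ S, |(a : ℝ) - c| ≤ R) :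
    (S.card : ℝ) ≤ 1 + 2 * R := by
  have hsub : S ⊆ Finset.Icc ⌈c - R⌉ ⌊c + R⌋ := by
    intro a ha
    have h := abs_le.1 (hS a ha)
    rw [Finset.mem_Icc]
    exact ⟨Int.ceil_le.2 (by linarith), Int.le_floor.2 (by linarith)⟩
  have h1 : ((S.card : ℕ) : ℝ) ≤ ((Finset.Icc ⌈c - R⌉ ⌊c + R⌋).card : ℕ) :=
    Nat.cast_le.2 (Finset.card_le_card hsub)
  refine h1.trans ?_
  rw [Int.card_Icc]
  have h2 := Int.floor_le (c + R)
  have h3 := Int.le_ceil (c - R)
  have h6 : (((⌊c + R⌋ + 1 - ⌈c - R⌉).toNat : ℤ)) = max (⌊c + R⌋ + 1 - ⌈c - R⌉) 0 := Int.toNat_eq_max _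
  have h5 : (((⌊c + R⌋ + 1 - ⌈c - R⌉).toNat : ℤ) : ℝ) ≤ 1 + 2 * R := by
    rw [h6]
    push_cast
    exact max_le (by linarith) (by linarith)
  exact_mod_cast h5

private theorem b4_fin {L P G S S2 t : ℝ} (hL : 1 ≤ L) (hP : 0 ≤ P) (hG : 0 ≤ G) (hS0 : 0 ≤ S)
    (hS : S ≤ (4 * L) ^ 64) (hS2 : S2 ≤ P * S) (ht : t ≤ 96 * L * S2 + 1728 * L * G * S) :
    t ≤ 1728 * 4 ^ 64 * L ^ 65 * (P + G) := by
  have hL0 : 0 ≤ L := by linarith
  have h1 : 96 * L * S2 ≤ 96 * L * (P * S) := mul_le_mul_of_nonneg_left hS2 (by positivity)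
  have h2 : 0 ≤ L * (P * S) := by positivity
  have h3 : t ≤ 1728 * L * (P + G) * S := by
    have e : 1728 * L * (P + G) * S = 96 * L * (P * S) + 1632 * (L * (P * S)) + 1728 * L * G * S := by ring
    rw [e]
    linarith
  have h4 : 1728 * L * (P + G) * S ≤ 1728 * L * (P + G) * (4 * L) ^ 64 :=
    mul_le_mul_of_nonneg_left hS (by positivity)
  refine h3.trans (h4.trans (le_of_eq ?_))
  rw [mul_pow]
  generalize (4 : ℝ) ^ 64 = c
  ring

theorem small_gen : ∃ (C : ℝ) (k : ℕ), 0 < C ∧ ∀ (X : ℕ) (d : ℤ) (P : ℝ), 1 ≤ X → Squarefree d → d ≠ 1 →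
    |d| ≤ (X : ℤ) → 1 ≤ P → P ≤ (X : ℝ) ^ 4 → ∀ T : Finset Pt, (∀ q ∈ T, Adm X d q ∧ |(q.x : ℝ)| ≤ P) →
    (T.card : ℝ) ≤ C * Ll X ^ k * (P + Gg X d) := by
  classical
  refine ⟨1728 * 4 ^ 64, 65, by positivity, ?_⟩
  intro X d P hX hd hd1 hdX hP1 hP4 T hT
  have hXR : (1 : ℝ) ≤ (X : ℝ) := by exact_mod_cast hX
  have hX0 : (0 : ℝ) < (X : ℝ) := by linarith
  have hd0 : d ≠ 0 := hd.ne_zero
  have hdR : (1 : ℝ) ≤ |(d : ℝ)| := by
    have : 1 ≤ |d| := Int.one_le_abs hd0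
    exact_mod_cast this
  have hdR0 : (0 : ℝ) < |(d : ℝ)| := by linarith
  have hdXR : |(d : ℝ)| ≤ (X : ℝ) := by exact_mod_cast hdX
  set L : ℝ := Ll X with hL
  have hlogX : 0 ≤ Real.log X := Real.log_nonneg hXR
  have hL1 : 1 ≤ L := by rw [hL, Ll]; linarith
  set G : ℝ := Gg X d with hG
  have hG0 : 0 ≤ G := Real.sqrt_nonneg _
  have hG2 : G ^ 2 = (X : ℝ) ^ 3 / |(d : ℝ)| := by
    rw [hG, Gg]
    exact Real.sq_sqrt (by positivity)
  -- sizes of `a`, `b`
  have haR : ∀ q : Pt, Adm X d q → (1 : ℝ) ≤ q.a ∧ (q.a : ℝ) ≤ 12 * X := by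
    intro q hq
    have h1 : (1 : ℝ) ≤ q.a := by exact_mod_cast hq.a1
    refine ⟨h1, ?_⟩
    have h2 : |(d : ℝ)| * (q.a : ℝ) ^ 2 ≤ 12 * X := by exact_mod_cast hq.da
    nlinarith [mul_le_mul_of_nonneg_right hdR (sq_nonneg (q.a : ℝ))]
  have hbR : ∀ q : Pt, Adm X d q → |(q.b : ℝ)| ≤ 9 * G := by
    intro q hq
    have h2 : |(d : ℝ)| * (q.b : ℝ) ^ 2 ≤ 69 * X ^ 3 := by exact_mod_cast hq.db
    have h3 : (q.b : ℝ) ^ 2 ≤ 69 * G ^ 2 := by
      rw [hG2, ← mul_div_assoc, le_div_iff₀ hdR0]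
      linarith
    apply abs_le_of_sq_le_sq _ (by positivity)
    nlinarith [sq_nonneg G]
  have hbX : ∀ q : Pt, Adm X d q → |(q.b : ℝ)| ≤ 9 * X ^ 3 := by
    intro q hq
    have h2 : |(d : ℝ)| * (q.b : ℝ) ^ 2 ≤ 69 * X ^ 3 := by exact_mod_cast hq.db
    apply abs_le_of_sq_le_sq _ (by positivity)
    have h3 : (1 : ℝ) ≤ (X : ℝ) ^ 3 := one_le_pow₀ hXR
    nlinarith [mul_le_mul_of_nonneg_right hdR (sq_nonneg (q.b : ℝ))]
  set W : ℝ := 21 * (X : ℝ) ^ 5 with hW
  have hW1 : 1 ≤ W := by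
    have : (1 : ℝ) ≤ (X : ℝ) ^ 5 := one_le_pow₀ hXR
    rw [hW]; linarith
  have hwR : ∀ q ∈ T, |(q.w : ℝ)| ≤ W := by
    intro q hq
    obtain ⟨hadm, hx⟩ := hT q hq
    obtain ⟨ha1, ha2⟩ := haR q hadm
    have hb := hbX q hadm
    have h1 : ((q.w : ℤ) : ℝ) = q.a * q.x + q.b := by unfold Pt.w; push_cast; ring
    rw [h1]
    calc |(q.a : ℝ) * q.x + q.b| ≤ |(q.a : ℝ) * q.x| + |(q.b : ℝ)| := abs_add_le _ _
      _ = (q.a : ℝ) * |(q.x : ℝ)| + |(q.b : ℝ)| := by rw [abs_mul, abs_of_nonneg (by linarith : (0 : ℝ) ≤ q.a)]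
      _ ≤ (12 * X) * X ^ 4 + 9 * X ^ 3 := by
          have h2 : (q.a : ℝ) * |(q.x : ℝ)| ≤ (12 * X) * X ^ 4 :=
            mul_le_mul ha2 (hx.trans hP4) (abs_nonneg _) (by positivity)
          linarith
      _ ≤ W := by
          have h3 : (X : ℝ) ^ 3 ≤ (X : ℝ) ^ 5 := pow_le_pow_right₀ hXR (by norm_num)
          rw [hW]
          nlinarith
  set N : ℕ := ⌊P⌋₊ with hN
  have hN1 : 1 ≤ N := Nat.le_floor (by exact_mod_cast hP1)
  have hNP : (N : ℝ) ≤ P := Nat.floor_le (by linarith)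
  -- bound of the fibre over `x`
  set g : ℕ → ℝ := fun v => 48 * (v.divisors.card : ℝ) ^ 6 * L * (1 + 18 * G / v) with hg
  have hg0 : ∀ v, 0 ≤ g v := by
    intro v
    rw [hg]
    positivity
  have hfib : ∀ x : ℤ, x ≠ 0 → |(x : ℝ)| ≤ P →
      ((T.filter (fun q => q.x = x)).card : ℝ) ≤ g x.natAbs := by
    intro x hx0 hxP
    set F := T.filter (fun q => q.x = x) with hF
    set I := F.image (fun q : Pt => (q.y, q.w)) with hI
    have hxpos : (0 : ℝ) < |(x : ℝ)| := abs_pos.2 (by exact_mod_cast hx0)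
    have hIc : (I.card : ℝ) ≤ 48 * (x.natAbs.divisors.card : ℝ) ^ 6 * L := by
      have h1 := rep_count d hd hd1 (x ^ 3) (pow_ne_zero 3 hx0) W hW1 I (by
        intro s hs
        rw [hI, Finset.mem_image] at hs
        obtain ⟨q, hq, rfl⟩ := hs
        rw [hF, Finset.mem_filter] at hq
        obtain ⟨hqT, hqx⟩ := hq
        refine ⟨?_, hwR q hqT⟩
        show q.y ^ 2 - d * q.w ^ 2 = x ^ 3
        rw [(hT q hqT).1.eq, hqx]
        ring)
      refine h1.trans ?_
      have h2 : (((x ^ 3).natAbs.divisors.card : ℕ) : ℝ) ≤ (x.natAbs.divisors.card : ℝ) ^ 3 := by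
        have h3 : (x ^ 3).natAbs = x.natAbs * (x.natAbs * x.natAbs) := by
          rw [Int.natAbs_pow]; ring
        rw [h3]
        have h4 := QM_mul x.natAbs (x.natAbs * x.natAbs)
        have h5 := QM_mul x.natAbs x.natAbs
        have h6 : (x.natAbs * (x.natAbs * x.natAbs)).divisors.card ≤ x.natAbs.divisors.card ^ 3 := by
          calc _ ≤ _ := h4
            _ ≤ x.natAbs.divisors.card * (x.natAbs.divisors.card * x.natAbs.divisors.card) :=
              Nat.mul_le_mul_left _ h5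
            _ = x.natAbs.divisors.card ^ 3 := by ring
        exact_mod_cast h6
      have h3 : (((x ^ 3).natAbs.divisors.card : ℕ) : ℝ) ^ 2 ≤ (x.natAbs.divisors.card : ℝ) ^ 6 := by
        calc _ ≤ ((x.natAbs.divisors.card : ℝ) ^ 3) ^ 2 := pow_le_pow_left₀ (by positivity) h2 2
          _ = _ := by ring
      have h4 : 3 + Real.log (|((x ^ 3 : ℤ) : ℝ)| + |(d : ℝ)| * W ^ 2) ≤ 12 * L := by
        have h5 : |((x ^ 3 : ℤ) : ℝ)| + |(d : ℝ)| * W ^ 2 ≤ 442 * (X : ℝ) ^ 12 := by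
          have h6 : |((x ^ 3 : ℤ) : ℝ)| ≤ (X : ℝ) ^ 12 := by
            push_cast
            rw [abs_pow]
            calc |(x : ℝ)| ^ 3 ≤ ((X : ℝ) ^ 4) ^ 3 := pow_le_pow_left₀ (abs_nonneg _) (hxP.trans hP4) 3
              _ = _ := by ring
          have h7 : |(d : ℝ)| * W ^ 2 ≤ 441 * (X : ℝ) ^ 12 := by
            calc |(d : ℝ)| * W ^ 2 ≤ X * W ^ 2 := by gcongr
              _ = 441 * (X : ℝ) ^ 11 := by rw [hW]; ring
              _ ≤ 441 * (X : ℝ) ^ 12 := by
                have : (X : ℝ) ^ 11 ≤ (X : ℝ) ^ 12 := pow_le_pow_right₀ hXR (by norm_num)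
                linarith
          linarith
        have h8 : Real.log (|((x ^ 3 : ℤ) : ℝ)| + |(d : ℝ)| * W ^ 2) ≤ Real.log 442 + 12 * Real.log X := by
          calc _ ≤ Real.log (442 * (X : ℝ) ^ 12) := by
                apply Real.log_le_log _ h5
                have : 0 < |(d : ℝ)| * W ^ 2 := by positivity
                have := abs_nonneg (((x ^ 3 : ℤ) : ℝ))
                linarith
            _ = _ := by
                rw [Real.log_mul (by norm_num) (by positivity), Real.log_pow]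
                norm_num
        have h9 : Real.log 442 ≤ 9 := by
          rw [Real.log_le_iff_le_exp (by norm_num)]
          have : (2 : ℝ) ≤ Real.exp 1 := by linarith [Real.exp_one_gt_d9]
          calc (442 : ℝ) ≤ 2 ^ 9 := by norm_num
            _ ≤ (Real.exp 1) ^ 9 := by gcongr
            _ = Real.exp 9 := by rw [← Real.exp_nat_mul]; norm_num
        rw [hL, Ll]
        linarith
      calc 4 * (((x ^ 3).natAbs.divisors.card : ℕ) : ℝ) ^ 2 *
            (3 + Real.log (|((x ^ 3 : ℤ) : ℝ)| + |(d : ℝ)| * W ^ 2)) ≤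
            4 * (x.natAbs.divisors.card : ℝ) ^ 6 * (12 * L) := by
            apply mul_le_mul _ h4 _ (by positivity)
            · linarith
            · have : (0 : ℝ) ≤ Real.log (|((x ^ 3 : ℤ) : ℝ)| + |(d : ℝ)| * W ^ 2) := by
                apply Real.log_nonneg
                have h10 : 1 ≤ W ^ 2 := by nlinarith
                have h11 : 1 * 1 ≤ |(d : ℝ)| * W ^ 2 := mul_le_mul hdR h10 (by norm_num) hdR0.le
                have := abs_nonneg (((x ^ 3 : ℤ) : ℝ))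
                linarith
              linarith
        _ = _ := by ring
    set M : ℕ := ⌊1 + 18 * G / (x.natAbs : ℝ)⌋₊ with hM
    have hMle : (M : ℝ) ≤ 1 + 18 * G / (x.natAbs : ℝ) := Nat.floor_le (by positivity)
    have hcard : F.card ≤ M * I.card := by
      apply Finset.card_le_mul_card_image
      intro s hs
      rw [Finset.mem_image] at hs
      obtain ⟨q₀, hq₀, rfl⟩ := hs
      set F' := F.filter (fun q : Pt => (q.y, q.w) = (q₀.y, q₀.w)) with hF'
      have hinj : Set.InjOn (fun q : Pt => q.a) (F' : Set Pt) := by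
        intro q hq q' hq' haa
        have h1 : q ∈ F' := hq
        have h2 : q' ∈ F' := hq'
        rw [hF', Finset.mem_filter] at h1 h2
        obtain ⟨h1a, h1b⟩ := h1
        obtain ⟨h2a, h2b⟩ := h2
        have h1x := (Finset.mem_filter.1 h1a).2
        have h2x := (Finset.mem_filter.1 h2a).2
        have h1y : q.y = q₀.y := (Prod.mk.injEq _ _ _ _ ▸ h1b).1
        have h1w : q.w = q₀.w := (Prod.mk.injEq _ _ _ _ ▸ h1b).2
        have h2y : q'.y = q₀.y := (Prod.mk.injEq _ _ _ _ ▸ h2b).1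
        have h2w : q'.w = q₀.w := (Prod.mk.injEq _ _ _ _ ▸ h2b).2
        have haa' : q.a = q'.a := haa
        have hbb : q.b = q'.b := by
          have h3 : q.a * q.x + q.b = q'.a * q'.x + q'.b := by
            have : q.w = q'.w := by rw [h1w, h2w]
            exact this
          rw [h1x, h2x, haa'] at h3
          linarith
        obtain ⟨a, b, x1, y1⟩ := q
        obtain ⟨a', b', x2, y2⟩ := q'
        simp only at haa' hbb h1x h2x h1y h2y
        subst haa' hbb h1x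
        rw [h2x, h1y, h2y]
      rw [← Finset.card_image_of_injOn hinj]
      apply Nat.le_floor
      have h1 := b4_int (F'.image (fun q : Pt => q.a)) ((q₀.w : ℝ) / x) (9 * G / |(x : ℝ)|) (by positivity) (by
        intro a ha
        rw [Finset.mem_image] at ha
        obtain ⟨q, hq, rfl⟩ := ha
        rw [hF', Finset.mem_filter] at hq
        obtain ⟨hqF, hqe⟩ := hq
        obtain ⟨hqT, hqx⟩ := Finset.mem_filter.1 hqF
        have hqw : q.w = q₀.w := (Prod.mk.injEq _ _ _ _ ▸ hqe).2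
        have hb := hbR q (hT q hqT).1
        have hxne : (x : ℝ) ≠ 0 := by exact_mod_cast hx0
        have e1 : (q₀.w : ℝ) = q.a * x + q.b := by
          rw [← hqw, ← hqx]
          unfold Pt.w
          push_cast
          ring
        have e2 : (q.a : ℝ) - (q₀.w : ℝ) / x = -(q.b : ℝ) / x := by
          rw [e1]
          field_simp
          ring
        rw [e2, abs_div, abs_neg]
        gcongr)
      refine h1.trans (le_of_eq ?_)
      have e3 : ((x.natAbs : ℕ) : ℝ) = |(x : ℝ)| := by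
        rw [Nat.cast_natAbs]
        push_cast
        rfl
      rw [e3]
      ring
    calc (F.card : ℝ) ≤ ((M * I.card : ℕ) : ℝ) := by exact_mod_cast hcard
      _ = (M : ℝ) * I.card := by push_cast; ring
      _ ≤ (1 + 18 * G / (x.natAbs : ℝ)) * (48 * (x.natAbs.divisors.card : ℝ) ^ 6 * L) :=
          mul_le_mul hMle hIc (by positivity) (by positivity)
      _ = g x.natAbs := by rw [hg]; ring
  -- sum over `|x|`
  have hsum : (T.card : ℝ) ≤ ∑ v ∈ Finset.Icc 1 N, 2 * g v := by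
    have h1 := Finset.card_eq_sum_card_image (fun q : Pt => q.x.natAbs) T
    have h2 : (T.card : ℝ) = ∑ v ∈ T.image (fun q : Pt => q.x.natAbs),
        ((T.filter (fun q : Pt => q.x.natAbs = v)).card : ℝ) := by
      rw [h1]
      push_cast
      rfl
    rw [h2]
    have hsub : T.image (fun q : Pt => q.x.natAbs) ⊆ Finset.Icc 1 N := by
      intro v hv
      rw [Finset.mem_image] at hv
      obtain ⟨q, hq, rfl⟩ := hv
      obtain ⟨hadm, hx⟩ := hT q hq
      have hx0 := b4_x_ne hd hd1 hadm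
      rw [Finset.mem_Icc]
      refine ⟨Nat.one_le_iff_ne_zero.2 (Int.natAbs_ne_zero.2 hx0), ?_⟩
      apply Nat.le_floor
      have e3 : ((q.x.natAbs : ℕ) : ℝ) = |(q.x : ℝ)| := by
        rw [Nat.cast_natAbs]
        push_cast
        rfl
      rw [e3]
      exact hx
    refine (Finset.sum_le_sum_of_subset_of_nonneg hsub (fun _ _ _ => by positivity)).trans ?_
    apply Finset.sum_le_sum
    intro v hv
    rw [Finset.mem_Icc] at hv
    have hvP : (v : ℝ) ≤ P := le_trans (by exact_mod_cast hv.2) hNP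
    have hv0 : (v : ℤ) ≠ 0 := by
      have := hv.1
      omega
    have hsplit : T.filter (fun q : Pt => q.x.natAbs = v) ⊆
        T.filter (fun q => q.x = (v : ℤ)) ∪ T.filter (fun q => q.x = -(v : ℤ)) := by
      intro q hq
      rw [Finset.mem_filter] at hq
      rw [Finset.mem_union, Finset.mem_filter, Finset.mem_filter]
      rcases Int.natAbs_eq q.x with h | h
      · left
        exact ⟨hq.1, by rw [h, hq.2]⟩
      · right
        exact ⟨hq.1, by rw [h, hq.2]⟩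
    have h3 := hfib (v : ℤ) hv0 (by
      push_cast
      rw [abs_of_nonneg (by positivity)]
      exact hvP)
    have h4 := hfib (-(v : ℤ)) (neg_ne_zero.2 hv0) (by
      push_cast
      rw [abs_neg, abs_of_nonneg (by positivity)]
      exact hvP)
    have h5 : ((T.filter (fun q : Pt => q.x.natAbs = v)).card : ℝ) ≤
        ((T.filter (fun q => q.x = (v : ℤ))).card : ℝ) + ((T.filter (fun q => q.x = -(v : ℤ))).card : ℝ) := by
      have h6 := (Finset.card_le_card hsplit).trans (Finset.card_union_le _ _)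
      exact_mod_cast h6
    have e1 : ((v : ℤ)).natAbs = v := Int.natAbs_natCast v
    have e2 : (-(v : ℤ)).natAbs = v := by rw [Int.natAbs_neg, Int.natAbs_natCast]
    rw [e1] at h3
    rw [e2] at h4
    linarith
  -- final estimate
  have hQ := QM_one 6 N hN1
  set Sg : ℝ := ∑ v ∈ Finset.Icc 1 N, ((v.divisors.card : ℝ)) ^ 6 / (v : ℝ) with hSg
  have hSg0 : 0 ≤ Sg := Finset.sum_nonneg fun v _ => by positivity
  have hlogN : 1 + Real.log N ≤ 4 * L := by
    have h1 : Real.log N ≤ 4 * Real.log X := by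
      calc Real.log N ≤ Real.log ((X : ℝ) ^ 4) :=
            Real.log_le_log (by exact_mod_cast hN1) (hNP.trans hP4)
        _ = 4 * Real.log X := by rw [Real.log_pow]; norm_num
    rw [hL, Ll]
    linarith
  have hlogN0 : 0 ≤ 1 + Real.log N := by
    have : 0 ≤ Real.log N := Real.log_nonneg (by exact_mod_cast hN1)
    linarith
  have hSgle : Sg ≤ (4 * L) ^ 64 := by
    rw [show (2 : ℕ) ^ 6 = 64 from by norm_num] at hQ
    exact hQ.trans (pow_le_pow_left₀ hlogN0 hlogN 64)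
  have hSg2 : ∑ v ∈ Finset.Icc 1 N, ((v.divisors.card : ℝ)) ^ 6 ≤ P * Sg := by
    rw [hSg, Finset.mul_sum]
    apply Finset.sum_le_sum
    intro v hv
    rw [Finset.mem_Icc] at hv
    have hv1 : (1 : ℝ) ≤ v := by exact_mod_cast hv.1
    have hvP : (v : ℝ) ≤ P := le_trans (by exact_mod_cast hv.2) hNP
    rw [mul_div_assoc', le_div_iff₀ (by linarith)]
    have h0 : (0 : ℝ) ≤ ((v.divisors.card : ℝ)) ^ 6 := by positivity
    nlinarith
  have hexp : ∑ v ∈ Finset.Icc 1 N, 2 * g v =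
      96 * L * ∑ v ∈ Finset.Icc 1 N, ((v.divisors.card : ℝ)) ^ 6 + 1728 * L * G * Sg := by
    rw [hSg, Finset.mul_sum, Finset.mul_sum, ← Finset.sum_add_distrib]
    apply Finset.sum_congr rfl
    intro v hv
    rw [hg]
    ring
  rw [hexp] at hsum
  exact b4_fin hL1 (by linarith) hG0 hSg0 hSgle hSg2 hsum

end W44
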