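import Pool.Agent.LibW44.B4

/-! Row B5. `|d|³ x⁴ ≤ X⁷` is `|x| ≤ P := |d| H^(7/4)`; `1 ≤ P ≤ X⁴`, `P ≤ |d| H^(11/6)`, `G = |d| H^(3/2) ≤ |d| H^(11/6)` as `H ≥ 1`. -/

namespace W44
open RC91

theorem small : ∃ (C : ℝ) (k : ℕ), 0 < C ∧ ∀ (X : ℕ) (d : ℤ), 1 ≤ X → Squarefree d → d ≠ 1 →
    |d| ≤ (X : ℤ) → ∀ T : Finset Pt, (∀ q ∈ T, Adm X d q ∧ |d| ^ 3 * q.x ^ 4 ≤ (X : ℤ) ^ 7) →
    (T.card : ℝ) ≤ C * Ll X ^ k * Ee X d := by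
  obtain ⟨C, k, hC, hsm⟩ := small_gen
  refine ⟨2 * C, k, by positivity, ?_⟩
  intro X d hX hsq hd1 hdX T hT
  have hd0 : d ≠ 0 := hsq.ne_zero
  have hX1 : (1 : ℝ) ≤ (X : ℝ) := by exact_mod_cast hX
  have hD1 : 1 ≤ |(d : ℝ)| := by
    have h : (1 : ℤ) ≤ |d| := Int.one_le_abs hd0
    have h' : ((1 : ℤ) : ℝ) ≤ ((|d| : ℤ) : ℝ) := by exact_mod_cast h
    rw [Int.cast_abs] at h'
    simpa using h'
  have hDX : |(d : ℝ)| ≤ (X : ℝ) := by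
    have h' : ((|d| : ℤ) : ℝ) ≤ (((X : ℤ) : ℤ) : ℝ) := by exact_mod_cast hdX
    rw [Int.cast_abs] at h'
    simpa using h'
  have hE : Ee X d = |(d : ℝ)| * ((X : ℝ) / |(d : ℝ)|) ^ (11 / 6 : ℝ) := rfl
  have hG : Gg X d = √((X : ℝ) ^ 3 / |(d : ℝ)|) := rfl
  have hint : ∀ q ∈ T, |(d : ℝ)| ^ 3 * |(q.x : ℝ)| ^ 4 ≤ (X : ℝ) ^ 7 := by
    intro q hq
    have h : ((|d| ^ 3 * q.x ^ 4 : ℤ) : ℝ) ≤ (((X : ℤ) ^ 7 : ℤ) : ℝ) := by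
      exact_mod_cast (hT q hq).2
    push_cast at h
    have h4 : |(q.x : ℝ)| ^ 4 = (q.x : ℝ) ^ 4 := by
      have : |(q.x : ℝ)| ^ 4 = (|(q.x : ℝ)| ^ 2) ^ 2 := by ring
      rw [this, sq_abs]
      ring
    rw [h4]
    exact h
  rw [hE]
  set D : ℝ := |(d : ℝ)| with hDdef
  have hD0 : 0 < D := by linarith
  set H : ℝ := (X : ℝ) / D with hHdef
  have hH1 : 1 ≤ H := by
    rw [hHdef, le_div_iff₀ hD0]
    linarith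
  have hH0 : 0 ≤ H := by linarith
  have hXH : (X : ℝ) = D * H := by
    rw [hHdef]
    field_simp
  have hp74 : (1 : ℝ) ≤ H ^ (7 / 4 : ℝ) := Real.one_le_rpow hH1 (by norm_num)
  have hp4 : (H ^ (7 / 4 : ℝ)) ^ 4 = H ^ 7 := by
    rw [← Real.rpow_natCast (H ^ (7 / 4 : ℝ)) 4, ← Real.rpow_mul hH0, ← Real.rpow_natCast H 7]
    norm_num
  have hle1 : H ^ (7 / 4 : ℝ) ≤ H ^ (11 / 6 : ℝ) :=
    Real.rpow_le_rpow_of_exponent_le hH1 (by norm_num)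
  have hle2 : H ^ (7 / 4 : ℝ) ≤ H ^ 2 := by
    rw [← Real.rpow_natCast H 2]
    exact Real.rpow_le_rpow_of_exponent_le hH1 (by norm_num)
  have hPX : D * H ^ (7 / 4 : ℝ) ≤ (X : ℝ) ^ 4 := by
    have h1 : D * H ^ (7 / 4 : ℝ) ≤ D * H ^ 2 := mul_le_mul_of_nonneg_left hle2 hD0.le
    have h2 : D * H ^ 2 ≤ (X : ℝ) ^ 2 := by
      rw [hXH]
      have h3 : 0 ≤ H ^ 2 := by positivity
      nlinarith
    have h4 : (X : ℝ) ^ 2 ≤ (X : ℝ) ^ 4 := pow_le_pow_right₀ hX1 (by norm_num)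
    linarith
  have hP1 : 1 ≤ D * H ^ (7 / 4 : ℝ) := by nlinarith
  have hmain := hsm X d (D * H ^ (7 / 4 : ℝ)) hX hsq hd1 hdX hP1 hPX T (by
    intro q hq
    refine ⟨(hT q hq).1, ?_⟩
    have h1 := hint q hq
    have h2 : |(q.x : ℝ)| ^ 4 ≤ (D * H ^ (7 / 4 : ℝ)) ^ 4 := by
      rw [mul_pow, hp4]
      rw [hXH] at h1
      have h3 : D ^ 3 * |(q.x : ℝ)| ^ 4 ≤ D ^ 3 * (D ^ 4 * H ^ 7) := by
        calc D ^ 3 * |(q.x : ℝ)| ^ 4 ≤ (D * H) ^ 7 := h1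
          _ = D ^ 3 * (D ^ 4 * H ^ 7) := by ring
      exact le_of_mul_le_mul_left h3 (by positivity)
    exact le_of_pow_le_pow_left₀ (by norm_num) (by positivity) h2)
  have hGE : Gg X d ≤ D * H ^ (11 / 6 : ℝ) := by
    rw [hG, Real.sqrt_le_iff]
    refine ⟨by positivity, ?_⟩
    have h1 : (X : ℝ) ^ 3 / D = D ^ 2 * H ^ 3 := by
      rw [hXH]
      field_simp
    have h2 : H ^ 3 ≤ (H ^ (11 / 6 : ℝ)) ^ 2 := by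
      rw [← Real.rpow_natCast (H ^ (11 / 6 : ℝ)) 2, ← Real.rpow_mul hH0, ← Real.rpow_natCast H 3]
      exact Real.rpow_le_rpow_of_exponent_le hH1 (by norm_num)
    rw [h1, mul_pow]
    exact mul_le_mul_of_nonneg_left h2 (by positivity)
  have hL : 0 ≤ Ll X ^ k := by
    have h1 : 0 ≤ Real.log (X : ℝ) := Real.log_nonneg hX1
    have h2 : 0 ≤ Ll X := by
      unfold Ll
      linarith
    exact pow_nonneg h2 k
  have h3 : D * H ^ (7 / 4 : ℝ) + Gg X d ≤ 2 * (D * H ^ (11 / 6 : ℝ)) := by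
    have h4 : D * H ^ (7 / 4 : ℝ) ≤ D * H ^ (11 / 6 : ℝ) := mul_le_mul_of_nonneg_left hle1 hD0.le
    linarith
  calc (T.card : ℝ) ≤ C * Ll X ^ k * (D * H ^ (7 / 4 : ℝ) + Gg X d) := hmain
    _ ≤ C * Ll X ^ k * (2 * (D * H ^ (11 / 6 : ℝ))) :=
        mul_le_mul_of_nonneg_left h3 (mul_nonneg hC.le hL)
    _ = 2 * C * Ll X ^ k * (D * H ^ (11 / 6 : ℝ)) := by ring

end W44
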