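import Mathlib
import Pool.Agent.LibRC91.Defs

/-! Theorem W (MP_a1107e): the curves with a rational 3-isogeny. Definitions.

A curve of the family is `y² = x³ + d (a x + b)²` after a translation of `x`, `d` squarefree, `a ≥ 1`. A point is the
quadruple `(a, b, x, y)`; `w = a x + b`, so `y² - d w² = x³`. Real cube root: `A = (s + ρ t) / 2`, `A³ = y + ρ w`,
`ρ² = d` (`s`, `t` real, also for `d < 0`). Vectors `z = (a, s, t)`. -/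

namespace W44
open RC91

/-- the curves `y² = x³ + A x + B` with a rational 3-isogeny, `A ≠ 0` -/
def Fam (X : ℕ) : Set (ℤ × ℤ) :=
  {z | |z.1| ≤ (X : ℤ) ^ 2 ∧ |z.2| ≤ (X : ℤ) ^ 3 ∧ 4 * z.1 ^ 3 + 27 * z.2 ^ 2 ≠ 0 ∧ z.1 ≠ 0 ∧
    ∃ t : ℤ, 3 * t ^ 4 + 6 * z.1 * t ^ 2 + 12 * z.2 * t - z.1 ^ 2 = 0}

/-- the members of `Fam X` with an integral point in the double exponential range -/
def Exc (X : ℕ) : Set (ℤ × ℤ) :=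
  {z | z ∈ Fam X ∧ ∃ x y : ℤ, y ^ 2 = x ^ 3 + z.1 * x + z.2 ∧
    (|x| : ℝ) ≤ Real.exp (Real.exp (Real.log X ^ 2))}

/-- a point: curve `y² = x³ + d (a x + b)²` and integral point `(x, y)` -/
structure Pt where
  a : ℤ
  b : ℤ
  x : ℤ
  y : ℤ
deriving DecidableEq

/-- `w = a x + b` -/
def Pt.w (q : Pt) : ℤ := q.a * q.x + q.b

/-- `q` is a point on a (nonsingular) curve of height at most `X` -/
structure Adm (X : ℕ) (d : ℤ) (q : Pt) : Prop where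
  a1 : 1 ≤ q.a
  b0 : q.b ≠ 0
  da : |d| * q.a ^ 2 ≤ 12 * (X : ℤ)
  db : |d| * q.b ^ 2 ≤ 69 * (X : ℤ) ^ 3
  ns : 27 * q.b ≠ 4 * d * q.a ^ 3
  eq : q.y ^ 2 = q.x ^ 3 + d * q.w ^ 2

/-- `H = X / |d|` -/
noncomputable def Hh (X : ℕ) (d : ℤ) : ℝ := (X : ℝ) / |(d : ℝ)|

/-- `G = (X³ / |d|)^(1/2) = |d| H^(3/2)` -/
noncomputable def Gg (X : ℕ) (d : ℤ) : ℝ := √((X : ℝ) ^ 3 / |(d : ℝ)|)

/-- `L = 1 + log X` -/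
noncomputable def Ll (X : ℕ) : ℝ := 1 + Real.log X

/-- the size of the exceptional set for one `d`, up to logarithms: `|d| H^(11/6)` -/
noncomputable def Ee (X : ℕ) (d : ℤ) : ℝ := |(d : ℝ)| * Hh X d ^ (11 / 6 : ℝ)

/-- large point: `|x| > |d| H^(7/4)`, `y > 0` -/
structure Lg (X : ℕ) (d : ℤ) (q : Pt) : Prop where
  adm : Adm X d q
  big : (X : ℤ) ^ 7 < |d| ^ 3 * q.x ^ 4
  ypos : 0 < q.y

/-- `y + w ρ` is the cube of `(m + n ρ) / 2` -/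
def Cb (d : ℤ) (q : Pt) : Prop :=
  ∃ m n : ℤ, 4 * q.x = m ^ 2 - d * n ^ 2 ∧ 8 * q.w = n * (3 * m ^ 2 + d * n ^ 2)

/-- `(s + ρ t) / 2` is the real cube root of `y + ρ w` -/
structure RP (d : ℤ) (q : Pt) (s t : ℝ) : Prop where
  e1 : s ^ 2 - d * t ^ 2 = 4 * q.x
  e2 : t * (3 * s ^ 2 + d * t ^ 2) = 8 * q.w
  e3 : s * (s ^ 2 + 3 * d * t ^ 2) = 8 * q.y
  pos : 0 < s
  big : 3 * (q.x : ℝ) ≤ s ^ 2

/-- `s' + ρ t' = (p + ρ r) (s + ρ t)` with rational `p`, `r` -/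
def Rel (d : ℤ) (s t s' t' : ℝ) : Prop :=
  ∃ p r : ℚ, s' = p * s + d * r * t ∧ t' = r * s + p * t

/-- eight times `b` of a vector `(a, s, t)` -/
def Fb (d : ℤ) (z : ℤ × ℝ × ℝ) : ℝ :=
  z.2.2 * (3 * z.2.1 ^ 2 + d * z.2.2 ^ 2) - 2 * z.1 * (z.2.1 ^ 2 - d * z.2.2 ^ 2)

/-- `ξ = t - (2/3) a` -/
noncomputable def xi (z : ℤ × ℝ × ℝ) : ℝ := z.2.2 - 2 / 3 * z.1

/-- `Φ + Φ'` of the gap principle -/
noncomputable def gP (d : ℤ) (z z' : ℤ × ℝ × ℝ) : ℝ :=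
  d * xi z / 2 * (z.2.1 * (xi z' + 2 * z'.1) - z'.2.1 * (xi z + 2 * z.1))

/-- `(Φ - Φ') / ρ` of the gap principle -/
noncomputable def gR (d : ℤ) (z z' : ℤ × ℝ × ℝ) : ℝ :=
  1 / 6 * (xi z' * (d * (xi z + 2 * z.1) ^ 2 + 3 * z.2.1 ^ 2) -
    xi z * (d * (xi z + 2 * z.1) * (xi z' + 2 * z'.1) + 3 * z.2.1 * z'.2.1))

/-- parallel vectors -/
def Par (z z' : ℤ × ℝ × ℝ) : Prop :=
  (z.1 : ℝ) * z'.2.1 = z'.1 * z.2.1 ∧ (z.1 : ℝ) * z'.2.2 = z'.1 * z.2.2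

/-- the properties of the set of vectors of one class (all of the number theory is in the proof of `VS`) -/
structure VS (X : ℕ) (d : ℤ) (c : ℕ) (V : Set (ℤ × ℝ × ℝ)) : Prop where
  a1 : ∀ z ∈ V, 1 ≤ z.1 ∧ |d| * z.1 ^ 2 ≤ 12 * (X : ℤ)
  b1 : ∀ z ∈ V, ∃ b : ℤ, Fb d z = 8 * b ∧ (c : ℤ) ∣ b ∧ b ≠ 0 ∧ |d| * b ^ 2 ≤ 69 * (X : ℤ) ^ 3 ∧
    27 * b ≠ 4 * d * z.1 ^ 3
  int : ∀ z ∈ V, ∀ z' ∈ V, ∃ n : ℤ, Fb d (z - z') = 4 * c * n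
  nt : ∀ z ∈ V, ∀ z' ∈ V, z.1 = z'.1 → Fb d (z - z') = 0 → z = z'
  s1 : ∀ z ∈ V, 0 < z.2.1 ∧ 81 * (X : ℝ) ^ 7 ≤ |(d : ℝ)| ^ 3 * z.2.1 ^ 8
  t1 : ∀ z ∈ V, |z.2.2| ≤ z.1 + 1
  gp : ∀ z ∈ V, ∀ z' ∈ V, ∃ n : ℤ, 729 * (gP d z z' * (gP d z z' ^ 2 + 3 * d * gR d z z' ^ 2)) = 4 * n ∧
    (n = 0 → Par z z')

/-- bound for one class in one dyadic block -/
noncomputable def Mm (X : ℕ) (d : ℤ) (c : ℕ) : ℝ :=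
  if Gg X d ≤ c * Hh X d ^ (1 / 3 : ℝ) then (Gg X d / c) ^ 2
  else √(Hh X d) * (2 + √(400 * Gg X d / c)) *
    (2 + (10 ^ 6 * |(d : ℝ)| * Hh X d ^ (-(3 / 4) : ℝ) / c) ^ (1 / 3 : ℝ))

/-- the pairs `(a, b)` whose curve (for the fixed `d`) has a point in the range -/
def Dset (X : ℕ) (d : ℤ) : Set (ℤ × ℤ) :=
  {z | ∃ x y : ℤ, Adm X d ⟨z.1, z.2, x, y⟩ ∧ (|x| : ℝ) ≤ Real.exp (Real.exp (Real.log X ^ 2)) + 4 * X}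

end W44
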