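import Pool.Agent.LibW44.Defs

/-! Row F1. Parameters. `t ≠ 0` (else `A = 0`). Write `3 t = d a²` with `d` squarefree (sign in `d`; `Nat.sq_mul_squarefree` for `|3 t|`), `a ≥ 1`.
`12 t f = (3 t² + A)²` with `f = t³ + A t + B`, that is `4 d a² f = (3 t² + A)²`; so `a ∣ 3 t² + A` (`a² ∣ square`), `2 ∣ ..`: with `3 t² + A = a e`:
`4 d f = e²`, `d ∣ e` (squarefree, `Squarefree.dvd_of_..`, `d ∣ e²`), `2 ∣ e`; `e = 2 d b`: `f = d b²`. (`3 t² + A = 2 d a b`.)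
`b = 0` gives `A = -3 t²`, `B = 2 t³`, singular. `4 A³ + 27 B² = d² b³ (27 b - 4 d a³)` (with `3 t = d a²`; check the identity by `ring` after
multiplying by 27 if necessary). -/

namespace W44
open RC91

private theorem f1_sq (n : ℤ) (hn : n ≠ 0) : ∃ d a : ℤ, Squarefree d ∧ 1 ≤ a ∧ n = d * a ^ 2 := by
  obtain ⟨x, y, h1, h2⟩ := Nat.sq_mul_squarefree n.natAbs
  have hy : y ≠ 0 := by
    rintro rfl
    apply hn
    rw [← Int.natAbs_eq_zero, ← h1]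
    simp
  have hy1 : (1 : ℤ) ≤ y := by exact_mod_cast Nat.pos_of_ne_zero hy
  have h3 : ((n.natAbs : ℕ) : ℤ) = x * (y : ℤ) ^ 2 := by
    rw [← h1]
    push_cast
    ring
  rcases Int.natAbs_eq n with h | h
  · exact ⟨x, y, Int.squarefree_natCast.2 h2, hy1, by rw [h, h3]⟩
  · refine ⟨-x, y, ?_, hy1, by rw [h, h3]; ring⟩
    rw [← Int.squarefree_natAbs, Int.natAbs_neg, Int.natAbs_natCast]
    exact h2

theorem param (A B t : ℤ) (hD : 4 * A ^ 3 + 27 * B ^ 2 ≠ 0) (hA : A ≠ 0)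
    (h : 3 * t ^ 4 + 6 * A * t ^ 2 + 12 * B * t - A ^ 2 = 0) :
    ∃ d a b : ℤ, Squarefree d ∧ 1 ≤ a ∧ b ≠ 0 ∧ 3 * t = d * a ^ 2 ∧
      A = 2 * d * a * b - 3 * t ^ 2 ∧ B = d * b ^ 2 - 2 * d * a * b * t + 2 * t ^ 3 ∧
      27 * b ≠ 4 * d * a ^ 3 := by
  have ht : t ≠ 0 := by
    rintro rfl
    apply hA
    have h1 : A ^ 2 = 0 := by linear_combination -h
    exact pow_eq_zero_iff two_ne_zero |>.1 h1
  obtain ⟨d, a, hd, ha, hta⟩ := f1_sq (3 * t) (mul_ne_zero three_ne_zero ht)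
  have hd0 : d ≠ 0 := hd.ne_zero
  have ha0 : a ≠ 0 := by omega
  have h1 : (3 * t ^ 2 + A) ^ 2 = a ^ 2 * (4 * d * (t ^ 3 + A * t + B)) := by
    linear_combination (-1 : ℤ) * h + 4 * (t ^ 3 + A * t + B) * hta
  obtain ⟨e, he⟩ : a ∣ 3 * t ^ 2 + A := by
    rw [← Int.pow_dvd_pow_iff two_ne_zero]
    exact ⟨_, h1⟩
  have h2 : e ^ 2 = 4 * d * (t ^ 3 + A * t + B) := by
    have h3 : a ^ 2 * e ^ 2 = a ^ 2 * (4 * d * (t ^ 3 + A * t + B)) := by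
      rw [← h1, he]
      ring
    exact mul_left_cancel₀ (pow_ne_zero 2 ha0) h3
  obtain ⟨e', rfl⟩ : (2 : ℤ) ∣ e := by
    have h3 : (2 : ℤ) ∣ e ^ 2 := ⟨2 * d * (t ^ 3 + A * t + B), by rw [h2]; ring⟩
    exact Int.prime_two.dvd_of_dvd_pow h3
  have h3 : e' ^ 2 = d * (t ^ 3 + A * t + B) := by
    have h4 : (4 : ℤ) * e' ^ 2 = 4 * (d * (t ^ 3 + A * t + B)) := by
      linear_combination h2
    exact mul_left_cancel₀ four_ne_zero h4
  obtain ⟨b, rfl⟩ : d ∣ e' := by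
    have h4 : d ∣ e' ^ 2 := ⟨_, h3⟩
    exact (hd.dvd_pow_iff_dvd two_ne_zero).1 h4
  have h4 : t ^ 3 + A * t + B = d * b ^ 2 := by
    have h5 : d * (t ^ 3 + A * t + B) = d * (d * b ^ 2) := by
      linear_combination -h3
    exact mul_left_cancel₀ hd0 h5
  have hA' : A = 2 * d * a * b - 3 * t ^ 2 := by linear_combination he
  have hB' : B = d * b ^ 2 - 2 * d * a * b * t + 2 * t ^ 3 := by
    linear_combination h4 - t * hA'
  have hdisc : 4 * A ^ 3 + 27 * B ^ 2 = d ^ 2 * b ^ 3 * (27 * b - 4 * d * a ^ 3) := by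
    rw [hA', hB']
    linear_combination (36 * d * b ^ 2 * (t ^ 2 - d * a * b)) * hta
  refine ⟨d, a, b, hd, ha, ?_, hta, hA', hB', ?_⟩
  · rintro rfl
    apply hD
    rw [hdisc]
    ring
  · intro hb
    apply hD
    rw [hdisc, hb]
    ring

end W44
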