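import Pool.Agent.LibW44.Defs

/-! Row F2. Sizes and the point. `psize`: if `|t| > 4 X` then `3 t⁴ > 6 X² t² + 12 X³ |t| + X⁴`. `d b² = t³ + A t + B`. `ppoint`: `linear_combination`. -/

namespace W44
open RC91

private theorem f2_poly (x s : ℤ) (hx : 1 ≤ x) (hs : 4 * x < s) :
    x ^ 4 + 6 * x ^ 2 * s ^ 2 + 12 * x ^ 3 * s < 3 * s ^ 4 := by
  have hx0 : 0 < x := by linarith
  have hs0 : 0 < s := by linarith
  have e1 : 16 * x ^ 2 < s ^ 2 := by nlinarith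
  have e2 : 16 * x ^ 2 * s ^ 2 < s ^ 2 * s ^ 2 := by
    have : 0 < s ^ 2 := by positivity
    exact mul_lt_mul_of_pos_right e1 this
  have e3 : 64 * x ^ 3 < s ^ 3 := by
    have h1 : 16 * x ^ 2 * (4 * x) ≤ s ^ 2 * (4 * x) := by
      have : 0 ≤ 4 * x := by linarith
      exact mul_le_mul_of_nonneg_right e1.le this
    have h2 : s ^ 2 * (4 * x) < s ^ 2 * s := by
      have : 0 < s ^ 2 := by positivity
      exact mul_lt_mul_of_pos_left hs this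
    nlinarith
  have e4 : 64 * x ^ 3 * s < s ^ 3 * s := mul_lt_mul_of_pos_right e3 hs0
  have e5 : x ^ 4 ≤ x ^ 3 * s := by
    have h1 : x ^ 3 * x ≤ x ^ 3 * s := by
      have : 0 ≤ x ^ 3 := by positivity
      exact mul_le_mul_of_nonneg_left (by linarith) this
    nlinarith
  have e6 : 0 < s ^ 4 := by positivity
  have e7 : s ^ 2 * s ^ 2 = s ^ 4 := by ring
  have e8 : s ^ 3 * s = s ^ 4 := by ring
  rw [e7] at e2
  rw [e8] at e4
  nlinarith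

theorem psize (X : ℕ) (hX : 1 ≤ X) (A B t d a b : ℤ) (hA : |A| ≤ (X : ℤ) ^ 2) (hB : |B| ≤ (X : ℤ) ^ 3)
    (h : 3 * t ^ 4 + 6 * A * t ^ 2 + 12 * B * t - A ^ 2 = 0) (h1 : 3 * t = d * a ^ 2)
    (h2 : A = 2 * d * a * b - 3 * t ^ 2) (h3 : B = d * b ^ 2 - 2 * d * a * b * t + 2 * t ^ 3) :
    |t| ≤ 4 * (X : ℤ) ∧ |d| * a ^ 2 ≤ 12 * (X : ℤ) ∧ |d| * b ^ 2 ≤ 69 * (X : ℤ) ^ 3 := by
  have hx : (1 : ℤ) ≤ (X : ℤ) := by exact_mod_cast hX
  set x : ℤ := (X : ℤ) with hxdef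
  have ht0 : 0 ≤ |t| := abs_nonneg t
  have hx2 : 0 ≤ x ^ 2 := by positivity
  have hx3 : 0 ≤ x ^ 3 := by positivity
  have ht : |t| ≤ 4 * x := by
    by_contra hcon
    push Not at hcon
    have hp := f2_poly x |t| hx hcon
    have e1 : A ^ 2 ≤ x ^ 4 := by
      have h4 : A ^ 2 = |A| ^ 2 := (sq_abs A).symm
      have h5 : |A| ^ 2 ≤ (x ^ 2) ^ 2 := pow_le_pow_left₀ (abs_nonneg A) hA 2
      rw [h4]
      nlinarith
    have e2 : -(6 * A * t ^ 2) ≤ 6 * x ^ 2 * |t| ^ 2 := by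
      rw [sq_abs]
      have h4 : -A ≤ x ^ 2 := (neg_le_abs A).trans hA
      have h5 : -A * t ^ 2 ≤ x ^ 2 * t ^ 2 := mul_le_mul_of_nonneg_right h4 (sq_nonneg t)
      linarith
    have e3 : -(12 * B * t) ≤ 12 * x ^ 3 * |t| := by
      have h4 : -(B * t) ≤ |B * t| := neg_le_abs _
      rw [abs_mul] at h4
      have h5 : |B| * |t| ≤ x ^ 3 * |t| := mul_le_mul_of_nonneg_right hB ht0
      linarith
    have e4 : |t| ^ 4 = t ^ 4 := by
      have : |t| ^ 4 = (|t| ^ 2) ^ 2 := by ring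
      rw [this, sq_abs]
      ring
    rw [e4] at hp
    linarith
  refine ⟨ht, ?_, ?_⟩
  · have h4 : |d| * a ^ 2 = |d * a ^ 2| := by
      rw [abs_mul, abs_of_nonneg (sq_nonneg a)]
    rw [h4, ← h1, abs_mul]
    have : |(3 : ℤ)| = 3 := by norm_num
    rw [this]
    linarith
  · have h4 : |d| * b ^ 2 = |d * b ^ 2| := by
      rw [abs_mul, abs_of_nonneg (sq_nonneg b)]
    have h5 : d * b ^ 2 = t ^ 3 + A * t + B := by
      rw [h2, h3]
      ring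
    rw [h4, h5]
    have e1 : |t ^ 3| ≤ 64 * x ^ 3 := by
      rw [abs_pow]
      have := pow_le_pow_left₀ ht0 ht 3
      nlinarith
    have e2 : |A * t| ≤ 4 * x ^ 3 := by
      rw [abs_mul]
      have h6 : |A| * |t| ≤ x ^ 2 * (4 * x) := mul_le_mul hA ht ht0 hx2
      nlinarith
    have e3 : |t ^ 3 + A * t + B| ≤ |t ^ 3| + |A * t| + |B| := abs_add_three _ _ _
    linarith

theorem ppoint (A B t d a b x y : ℤ) (h1 : 3 * t = d * a ^ 2)
    (h2 : A = 2 * d * a * b - 3 * t ^ 2) (h3 : B = d * b ^ 2 - 2 * d * a * b * t + 2 * t ^ 3)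
    (h : y ^ 2 = x ^ 3 + A * x + B) : y ^ 2 = (x - t) ^ 3 + d * (a * (x - t) + b) ^ 2 := by
  linear_combination h + x * h2 + h3 + (x - t) ^ 2 * h1

end W44
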