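import Pool.Agent.LibW44.Defs

/-! Row F3. Crude count for one `d`. `1 ≤ a ≤ √(12 X / |d|)`, `|b| ≤ √(69 X³ / |d|)` where `X / |d| ≥ 1/12`, so both square roots are `≥ 1`
and the number of pairs is at most `√(12 X/|d|) · 3 √(69 X³/|d|) ≤ 100 X²/|d|`. The pair `(a, b)` lies in a finite box (`Adm`: `a1, da, db`). -/

namespace W44
open RC91

private theorem f3_card (u v : ℝ) (hu : 0 ≤ u) (hv : 1 ≤ v) :
    (((Finset.Icc (1 : ℤ) ⌊u⌋ ×ˢ Finset.Icc (-⌊v⌋) ⌊v⌋).card : ℕ) : ℝ) ≤ u * (3 * v) := by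
  have hu0 : 0 ≤ ⌊u⌋ := Int.floor_nonneg.2 hu
  have hv0 : 0 ≤ ⌊v⌋ := Int.floor_nonneg.2 (by linarith)
  rw [Finset.card_product, Int.card_Icc, Int.card_Icc]
  push_cast
  have h1 : (((⌊u⌋ + 1 - 1).toNat : ℕ) : ℝ) = (⌊u⌋ : ℝ) := by
    have h := Int.toNat_of_nonneg (a := ⌊u⌋ + 1 - 1) (by omega)
    have h' : (((⌊u⌋ + 1 - 1).toNat : ℤ) : ℝ) = ((⌊u⌋ + 1 - 1 : ℤ) : ℝ) := by rw [h]
    rw [Int.cast_natCast] at h'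
    rw [h']
    push_cast
    ring
  have h2 : (((⌊v⌋ + 1 - -⌊v⌋).toNat : ℕ) : ℝ) = 2 * (⌊v⌋ : ℝ) + 1 := by
    have h := Int.toNat_of_nonneg (a := ⌊v⌋ + 1 - -⌊v⌋) (by omega)
    have h' : (((⌊v⌋ + 1 - -⌊v⌋).toNat : ℤ) : ℝ) = ((⌊v⌋ + 1 - -⌊v⌋ : ℤ) : ℝ) := by rw [h]
    rw [Int.cast_natCast] at h'
    rw [h']
    push_cast
    ring
  rw [h1, h2]
  have h3 : (⌊u⌋ : ℝ) ≤ u := Int.floor_le u
  have h4 : (⌊v⌋ : ℝ) ≤ v := Int.floor_le v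
  have h5 : (0 : ℝ) ≤ (⌊v⌋ : ℝ) := by exact_mod_cast hv0
  apply mul_le_mul h3 (by linarith) (by linarith) hu

theorem crude : ∃ C : ℝ, 0 < C ∧ ∀ (X : ℕ) (d : ℤ), 1 ≤ X → d ≠ 0 → |d| ≤ 12 * (X : ℤ) →
    (Dset X d).Finite ∧ ((Dset X d).ncard : ℝ) ≤ C * (X : ℝ) ^ 2 / |(d : ℝ)| := by
  refine ⟨87, by norm_num, ?_⟩
  intro X d hX hd hdX
  have hX1 : (1 : ℝ) ≤ (X : ℝ) := by exact_mod_cast hX
  have hD : 0 < |(d : ℝ)| := abs_pos.2 (by exact_mod_cast hd)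
  have hDX : |(d : ℝ)| ≤ 12 * (X : ℝ) := by
    have h : ((|d| : ℤ) : ℝ) ≤ ((12 * (X : ℤ) : ℤ) : ℝ) := by exact_mod_cast hdX
    rw [Int.cast_abs] at h
    push_cast at h
    exact h
  set D : ℝ := |(d : ℝ)| with hDdef
  have hsub : Dset X d ⊆ ((Finset.Icc (1 : ℤ) ⌊√(12 * (X : ℝ) / D)⌋ ×ˢ
      Finset.Icc (-⌊√(69 * (X : ℝ) ^ 3 / D)⌋) ⌊√(69 * (X : ℝ) ^ 3 / D)⌋ : Finset (ℤ × ℤ)) :
        Set (ℤ × ℤ)) := by
    rintro ⟨a, b⟩ ⟨x, y, hq, _⟩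
    have ha1 := hq.a1
    have hda := hq.da
    have hdb := hq.db
    simp only at ha1 hda hdb
    have hda' : D * (a : ℝ) ^ 2 ≤ 12 * (X : ℝ) := by
      have h : ((|d| * a ^ 2 : ℤ) : ℝ) ≤ ((12 * (X : ℤ) : ℤ) : ℝ) := by exact_mod_cast hda
      push_cast at h
      exact h
    have hdb' : D * (b : ℝ) ^ 2 ≤ 69 * (X : ℝ) ^ 3 := by
      have h : ((|d| * b ^ 2 : ℤ) : ℝ) ≤ ((69 * (X : ℤ) ^ 3 : ℤ) : ℝ) := by exact_mod_cast hdb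
      push_cast at h
      exact h
    have h1 : (a : ℝ) ≤ √(12 * (X : ℝ) / D) := by
      apply Real.le_sqrt_of_sq_le
      rw [le_div_iff₀ hD]
      linarith
    have h2 : |(b : ℝ)| ≤ √(69 * (X : ℝ) ^ 3 / D) := by
      apply Real.abs_le_sqrt
      rw [le_div_iff₀ hD]
      linarith
    have h3 : |b| ≤ ⌊√(69 * (X : ℝ) ^ 3 / D)⌋ := by
      rw [Int.le_floor]
      rw [Int.cast_abs]
      exact h2
    have h4 := abs_le.1 h3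
    simp only [Finset.coe_product, Finset.coe_Icc, Set.mem_prod, Set.mem_Icc]
    exact ⟨⟨ha1, Int.le_floor.2 h1⟩, h4.1, h4.2⟩
  refine ⟨(Finset.finite_toSet _).subset hsub, ?_⟩
  have hcard := Set.ncard_le_ncard hsub (Finset.finite_toSet _)
  rw [Set.ncard_coe_finset] at hcard
  have hv : 1 ≤ √(69 * (X : ℝ) ^ 3 / D) := by
    rw [Real.one_le_sqrt, le_div_iff₀ hD, one_mul]
    have h1 : (X : ℝ) ≤ (X : ℝ) ^ 3 := by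
      have h2 : (X : ℝ) ^ 1 ≤ (X : ℝ) ^ 3 := pow_le_pow_right₀ hX1 (by norm_num)
      linarith [pow_one (X : ℝ)]
    linarith
  have hc := f3_card (√(12 * (X : ℝ) / D)) (√(69 * (X : ℝ) ^ 3 / D)) (Real.sqrt_nonneg _) hv
  have hcard' : ((Dset X d).ncard : ℝ) ≤
      (((Finset.Icc (1 : ℤ) ⌊√(12 * (X : ℝ) / D)⌋ ×ˢ
      Finset.Icc (-⌊√(69 * (X : ℝ) ^ 3 / D)⌋) ⌊√(69 * (X : ℝ) ^ 3 / D)⌋ : Finset (ℤ × ℤ)).card : ℕ) :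
        ℝ) := by exact_mod_cast hcard
  refine hcard'.trans (hc.trans ?_)
  have h1 : √(12 * (X : ℝ) / D) * (3 * √(69 * (X : ℝ) ^ 3 / D)) =
      3 * √(12 * (X : ℝ) / D * (69 * (X : ℝ) ^ 3 / D)) := by
    rw [Real.sqrt_mul (by positivity)]
    ring
  have h2 : √(12 * (X : ℝ) / D * (69 * (X : ℝ) ^ 3 / D)) ≤ 29 * (X : ℝ) ^ 2 / D := by
    rw [Real.sqrt_le_iff]
    refine ⟨by positivity, ?_⟩
    have h3 : 12 * (X : ℝ) / D * (69 * (X : ℝ) ^ 3 / D) = 828 * ((X : ℝ) ^ 2 / D) ^ 2 := by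
      field_simp
      ring
    have h4 : (29 * (X : ℝ) ^ 2 / D) ^ 2 = 841 * ((X : ℝ) ^ 2 / D) ^ 2 := by
      field_simp
      ring
    rw [h3, h4]
    have h5 : 0 ≤ ((X : ℝ) ^ 2 / D) ^ 2 := by positivity
    linarith
  rw [h1]
  have h3 : 87 * (X : ℝ) ^ 2 / D = 3 * (29 * (X : ℝ) ^ 2 / D) := by ring
  rw [h3]
  linarith

end W44
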