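import Pool.Agent.LibW44.F1
import Pool.Agent.LibW44.F2
import Pool.Agent.LibW44.F3

/-! Row F4. From curves to triples `(d, a, b)`. Every `(A, B) ∈ Exc X` has `t, d, a, b` (`param`, `psize`, `ppoint`); `x' = x - t` satisfies
`|x'| ≤ |x| + 4 X`; `|d| ≤ 12 X` since `a ≥ 1`; `d ≠ 0` (squarefree). The triple `(d, a, b)` determines `(A, B)` (`3 t = d a²` determines `t`). So the map
`(A, B) ↦ (d, (a, b))` is injective into the disjoint union (`Finset.sigma`) of the finite sets `Dset X d`. `S` = the squarefree integers in `[-12X, 12X]`. -/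

namespace W44
open RC91

private theorem f4_triple (X : ℕ) (hX : 1 ≤ X) (z : ℤ × ℤ) (hz : z ∈ Exc X) :
    ∃ (t : ℤ) (p : ℤ × (ℤ × ℤ)), 3 * t = p.1 * p.2.1 ^ 2 ∧
      z.1 = 2 * p.1 * p.2.1 * p.2.2 - 3 * t ^ 2 ∧
      z.2 = p.1 * p.2.2 ^ 2 - 2 * p.1 * p.2.1 * p.2.2 * t + 2 * t ^ 3 ∧
      Squarefree p.1 ∧ |p.1| ≤ 12 * (X : ℤ) ∧ p.2 ∈ Dset X p.1 := by
  obtain ⟨⟨h1, h2, h3, h4, t, ht⟩, x, y, hxy, hx⟩ := hz
  obtain ⟨d, a, b, hd, ha, hb, e1, e2, e3, hn⟩ := param z.1 z.2 t h3 h4 ht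
  obtain ⟨s1, s2, s3⟩ := psize X hX z.1 z.2 t d a b h1 h2 ht e1 e2 e3
  have hp := ppoint z.1 z.2 t d a b x y e1 e2 e3 hxy
  refine ⟨t, (d, (a, b)), e1, e2, e3, hd, ?_, x - t, y, ⟨ha, hb, s2, s3, hn, hp⟩, ?_⟩
  · show |d| ≤ 12 * (X : ℤ)
    have h5 : 0 ≤ |d| := abs_nonneg d
    have h6 : 1 ≤ a ^ 2 := by nlinarith
    have h7 := mul_le_mul_of_nonneg_left h6 h5
    rw [mul_one] at h7
    exact h7.trans s2
  · have h6 : |(t : ℝ)| ≤ 4 * X := by exact_mod_cast s1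
    have h7 : |(x : ℝ) - (t : ℝ)| ≤ |(x : ℝ)| + |(t : ℝ)| := abs_sub _ _
    push_cast at hx ⊢
    linarith

theorem exc_le (X : ℕ) (hX : 1 ≤ X) : (Exc X).Finite ∧ ∃ S : Finset ℤ,
    (∀ d ∈ S, Squarefree d ∧ |d| ≤ 12 * (X : ℤ)) ∧
    ((Exc X).ncard : ℝ) ≤ ∑ d ∈ S, ((Dset X d).ncard : ℝ) := by
  classical
  have hfin : (Exc X).Finite := by
    refine ((Set.finite_Icc (-(X : ℤ) ^ 2) ((X : ℤ) ^ 2)).prod
      (Set.finite_Icc (-(X : ℤ) ^ 3) ((X : ℤ) ^ 3))).subset ?_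
    rintro z ⟨⟨h1, h2, -⟩, -⟩
    exact ⟨abs_le.1 h1, abs_le.1 h2⟩
  refine ⟨hfin, (Finset.Icc (-(12 * (X : ℤ))) (12 * (X : ℤ))).filter fun d => Squarefree d,
    ?_, ?_⟩
  · intro d hd
    rw [Finset.mem_filter, Finset.mem_Icc] at hd
    exact ⟨hd.2, abs_le.2 hd.1⟩
  · obtain ⟨C, -, hC⟩ := crude
    set S := (Finset.Icc (-(12 * (X : ℤ))) (12 * (X : ℤ))).filter fun d => Squarefree d with hS
    have hmem : ∀ d : ℤ, d ∈ S ↔ Squarefree d ∧ |d| ≤ 12 * (X : ℤ) := by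
      intro d
      rw [hS, Finset.mem_filter, Finset.mem_Icc, ← abs_le]
      exact and_comm
    have hDf : ∀ d ∈ S, (Dset X d).Finite := by
      intro d hd
      have h := (hmem d).1 hd
      exact (hC X d hX h.1.ne_zero h.2).1
    obtain ⟨D, hD⟩ : ∃ D : ℤ → Finset (ℤ × ℤ), ∀ d ∈ S, (D d : Set (ℤ × ℤ)) = Dset X d := by
      refine ⟨fun d => if h : (Dset X d).Finite then h.toFinset else ∅, fun d hd => ?_⟩
      simp only [dif_pos (hDf d hd), Set.Finite.coe_toFinset]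
    have hex : ∀ z ∈ Exc X, ∃ p : ℤ × (ℤ × ℤ), (∃ t : ℤ, 3 * t = p.1 * p.2.1 ^ 2 ∧
        z.1 = 2 * p.1 * p.2.1 * p.2.2 - 3 * t ^ 2 ∧
        z.2 = p.1 * p.2.2 ^ 2 - 2 * p.1 * p.2.1 * p.2.2 * t + 2 * t ^ 3) ∧
        p.1 ∈ S ∧ p.2 ∈ Dset X p.1 := by
      intro z hz
      obtain ⟨t, p, e1, e2, e3, e4, e5, e6⟩ := f4_triple X hX z hz
      exact ⟨p, ⟨t, e1, e2, e3⟩, (hmem _).2 ⟨e4, e5⟩, e6⟩
    obtain ⟨g, hg⟩ : ∃ g : ℤ × ℤ → ℤ × (ℤ × ℤ), ∀ z ∈ Exc X,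
        (∃ t : ℤ, 3 * t = (g z).1 * (g z).2.1 ^ 2 ∧
        z.1 = 2 * (g z).1 * (g z).2.1 * (g z).2.2 - 3 * t ^ 2 ∧
        z.2 = (g z).1 * (g z).2.2 ^ 2 - 2 * (g z).1 * (g z).2.1 * (g z).2.2 * t + 2 * t ^ 3) ∧
        (g z).1 ∈ S ∧ (g z).2 ∈ Dset X (g z).1 := by
      refine ⟨fun z => if h : z ∈ Exc X then (hex z h).choose else (0, (0, 0)), fun z hz => ?_⟩
      simp only [dif_pos hz]
      exact (hex z hz).choose_spec
    have hcard : hfin.toFinset.card ≤ (S.sigma D).card := by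
      refine Finset.card_le_card_of_injOn (fun z => (⟨(g z).1, (g z).2⟩ : (_ : ℤ) × (ℤ × ℤ)))
        ?_ ?_
      · intro z hz
        have hz' : z ∈ Exc X := by simpa using hz
        have h := hg z hz'
        simp only [Finset.mem_coe, Finset.mem_sigma]
        refine ⟨h.2.1, ?_⟩
        rw [← Finset.mem_coe, hD _ h.2.1]
        exact h.2.2
      · intro z hz z' hz' hzz
        have h1 : z ∈ Exc X := by simpa using hz
        have h1' : z' ∈ Exc X := by simpa using hz'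
        obtain ⟨⟨t, e1, e2, e3⟩, -, -⟩ := hg z h1
        obtain ⟨⟨t', e1', e2', e3'⟩, -, -⟩ := hg z' h1'
        simp only [Sigma.mk.injEq, heq_eq_eq] at hzz
        obtain ⟨q1, q2⟩ := hzz
        rw [← q1, ← q2] at e1' e2' e3'
        have ht : t = t' := by
          have : 3 * t = 3 * t' := by rw [e1, e1']
          omega
        subst ht
        exact Prod.ext (e2.trans e2'.symm) (e3.trans e3'.symm)
    rw [Set.ncard_eq_toFinset_card _ hfin]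
    have h5 : (S.sigma D).card = ∑ d ∈ S, (D d).card := Finset.card_sigma S D
    have h6 : ∀ d ∈ S, ((Dset X d).ncard : ℝ) = ((D d).card : ℝ) := by
      intro d hd
      rw [← hD d hd, Set.ncard_coe_finset]
    rw [Finset.sum_congr rfl h6]
    rw [h5] at hcard
    exact_mod_cast hcard

end W44
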