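import Pool.Agent.LibW44.Defs

/-! Row F5. Lower bound for the family. For squarefree `d ≥ 1` (naturals), `a = 3 a'`, `a' ≥ 1`, `b ≥ 1` with `d a² ≤ X / 10`, `d b² ≤ X³ / 10`:
`t = d a² / 3 = 3 d a'²`, `A = 2 d a b - 3 t²`, `B = d b² - 2 d a b t + 2 t³`. `A ≠ 0` and `27 b ≠ 4 d a³`: take `b` so large that `2 d a b > 3 t²`, for example
`b ≥ X^..`: if `b ≥ X / 100` hmm: `3 t² = d² a⁴ / 3 ≤ d a (d a³) / 3`, so `b > d a³ / 6` is enough for `A > 0` and `b > 4 d a³/27` for the discriminant;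
`d a³ ≤ (d a²)^(3/2) / d^(1/2) ≤ (X/10)^(3/2) / d^(1/2)`: so let `b` run over `(β/2, β]`, `β = √(X³/(10 d))`, `a ≤ √(X/(10 d))`. `|A| ≤ 2 · X²/10 + ..≤ X²`, `|B| ≤ X³`.
`psi(t) = 0` (`12 t d b² = (2 d a b)²`). Injectivity: `(A, B) ↦ t` has at most 4 values (roots of psi, degree 4), `(A,B,t)` determines `d a² = 3t`, so `d, a` (squarefree part),
`b`. So `#Fam ≥ (1/4) ∑_{d squarefree, d ≤ c X} (1/10) X²/(30 d)` or so, and `(∑_{d ≤ Y squarefree} 1/d)(∑ 1/m²) ≥ ∑_{n ≤ Y} 1/n ≥ log Y` (`n = d m²`). For `16 ≤ X < X₀` (few or no such triples) one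
curve is enough: every `Fam X`, `X ≥ 16`, is nonempty and `c` is small. `fam_fin`: a subset of a finite box. -/

namespace W44
open RC91

theorem fam_fin (X : ℕ) : (Fam X).Finite := by
  refine Set.Finite.subset ((Set.finite_Icc (-(X : ℤ) ^ 2) ((X : ℤ) ^ 2)).prod
    (Set.finite_Icc (-(X : ℤ) ^ 3) ((X : ℤ) ^ 3))) ?_
  rintro ⟨A, B⟩ ⟨h1, h2, -⟩
  exact ⟨abs_le.1 h1, abs_le.1 h2⟩

/-- the decomposition into a squarefree number and a square is unique -/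
theorem f5_uniq {d d' a a' : ℕ} (hd : Squarefree d) (hd' : Squarefree d') (_ha : 0 < a)
    (ha' : 0 < a') (h : d * a ^ 2 = d' * a' ^ 2) : d = d' ∧ a = a' := by
  have hdp : 0 < d := Nat.pos_of_ne_zero hd.ne_zero
  have hdp' : 0 < d' := Nat.pos_of_ne_zero hd'.ne_zero
  -- `d d' a'^2 = (d a)^2`
  have h1 : d * d' * a' ^ 2 = (d * a) ^ 2 := by
    calc d * d' * a' ^ 2 = d * (d' * a' ^ 2) := by ring
      _ = d * (d * a ^ 2) := by rw [h]
      _ = (d * a) ^ 2 := by ring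
  have h2 : a' ∣ d * a := by
    have h3 : a' ^ 2 ∣ (d * a) ^ 2 := ⟨d * d', by rw [← h1]; ring⟩
    exact (Nat.pow_dvd_pow_iff two_ne_zero).1 h3
  obtain ⟨k, hk⟩ := h2
  have h3 : d * d' = k ^ 2 := by
    have h4 : (d * d') * a' ^ 2 = k ^ 2 * a' ^ 2 := by
      rw [h1, hk]; ring
    exact Nat.eq_of_mul_eq_mul_right (pow_pos ha' 2) h4
  have h4 : d ∣ k := (hd.dvd_pow_iff_dvd two_ne_zero).1 ⟨d', h3.symm⟩
  have h5 : d' ∣ k := (hd'.dvd_pow_iff_dvd two_ne_zero).1 ⟨d, by rw [← h3]; ring⟩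
  have h6 : d ∣ d' := by
    have h7 : d * d ∣ d * d' := by
      rw [h3, pow_two]
      exact mul_dvd_mul h4 h4
    exact Nat.dvd_of_mul_dvd_mul_left hdp h7
  have h7 : d' ∣ d := by
    have h8 : d' * d' ∣ d' * d := by
      rw [mul_comm d' d, h3, pow_two]
      exact mul_dvd_mul h5 h5
    exact Nat.dvd_of_mul_dvd_mul_left hdp' h8
  have h8 : d = d' := Nat.dvd_antisymm h6 h7
  subst h8
  refine ⟨rfl, ?_⟩
  have h9 : a ^ 2 = a' ^ 2 := Nat.eq_of_mul_eq_mul_left hdp h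
  exact Nat.pow_left_injective (n := 2) (by norm_num) h9

/-- `⌊√(X/d)⌋` -/
def f5r (X d : ℕ) : ℕ := Nat.sqrt (X / d)

/-- the coefficients of the curve -/
def f5A (d a b : ℤ) : ℤ := 6 * d * a * b - 27 * d ^ 2 * a ^ 4

/-- the coefficients of the curve -/
def f5B (d a b : ℤ) : ℤ := d * (b ^ 2 - 18 * d * a ^ 3 * b + 54 * d ^ 2 * a ^ 6)

theorem f5_psi (d a b : ℤ) : 3 * (3 * d * a ^ 2) ^ 4 + 6 * f5A d a b * (3 * d * a ^ 2) ^ 2 +
    12 * f5B d a b * (3 * d * a ^ 2) - f5A d a b ^ 2 = 0 := by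
  unfold f5A f5B
  ring

theorem f5_disc (d a b : ℤ) : 4 * f5A d a b ^ 3 + 27 * f5B d a b ^ 2 =
    27 * d ^ 2 * b ^ 3 * (b - 4 * (d * a ^ 3)) := by
  unfold f5A f5B
  ring

theorem f5_mem {X : ℕ} {d a b r : ℤ} (hd : 1 ≤ d) (ha : 1 ≤ a) (hr : 10 * a ≤ r)
    (hb : d * r ^ 3 < 20 * b) (hb' : 4 * b ≤ d * r ^ 3) (hX : d * r ^ 2 ≤ X) :
    (f5A d a b, f5B d a b) ∈ Fam X := by
  have hr0 : 0 < r := by linarith
  have hX0 : (0 : ℤ) ≤ X := Int.natCast_nonneg X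
  have ha0 : 0 < a := by linarith
  have hd0 : 0 < d := by linarith
  have h1 : 1000 * a ^ 3 ≤ r ^ 3 := by
    calc 1000 * a ^ 3 = (10 * a) ^ 3 := by ring
      _ ≤ r ^ 3 := pow_le_pow_left₀ (by linarith) hr 3
  have he : 50 * (d * a ^ 3) < b := by
    have h2 : d * (1000 * a ^ 3) ≤ d * r ^ 3 := mul_le_mul_of_nonneg_left h1 hd0.le
    linarith
  have he0 : 0 < d * a ^ 3 := by positivity
  have hb0 : 0 < b := by linarith
  have hA : f5A d a b = 3 * d * a * (2 * b - 9 * (d * a ^ 3)) := by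
    unfold f5A
    ring
  have hA0 : 0 < f5A d a b := by
    rw [hA]
    have : 0 < 2 * b - 9 * (d * a ^ 3) := by linarith
    positivity
  have hX2 : (d * r ^ 2) ^ 2 ≤ (X : ℤ) ^ 2 := pow_le_pow_left₀ (by positivity) hX 2
  have hX3 : (d * r ^ 2) ^ 3 ≤ (X : ℤ) ^ 3 := pow_le_pow_left₀ (by positivity) hX 3
  have hA1 : f5A d a b ≤ (X : ℤ) ^ 2 := by
    have h2 : f5A d a b ≤ 6 * d * a * b := by
      unfold f5A
      have : (0 : ℤ) ≤ 27 * d ^ 2 * a ^ 4 := by positivity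
      linarith
    have h3 : (10 * a) * (4 * b) ≤ r * (d * r ^ 3) :=
      mul_le_mul hr hb' (by linarith) hr0.le
    have h4 : 40 * (d * a * b) ≤ (d * r ^ 2) ^ 2 := by
      calc 40 * (d * a * b) = d * ((10 * a) * (4 * b)) := by ring
        _ ≤ d * (r * (d * r ^ 3)) := mul_le_mul_of_nonneg_left h3 hd0.le
        _ = (d * r ^ 2) ^ 2 := by ring
    have h5 : 0 ≤ (X : ℤ) ^ 2 := by positivity
    have h6 : 6 * d * a * b = 6 * (d * a * b) := by ring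
    rw [h6] at h2
    linarith
  have hB0 : 0 ≤ f5B d a b := by
    unfold f5B
    have h2 : 0 ≤ b ^ 2 - 18 * d * a ^ 3 * b + 54 * d ^ 2 * a ^ 6 := by
      have h3 : b ^ 2 - 18 * d * a ^ 3 * b + 54 * d ^ 2 * a ^ 6 =
          b * (b - 18 * (d * a ^ 3)) + 54 * (d * a ^ 3) ^ 2 := by ring
      rw [h3]
      have h4 : 0 ≤ b - 18 * (d * a ^ 3) := by linarith
      positivity
    positivity
  have hB1 : f5B d a b ≤ (X : ℤ) ^ 3 := by
    have h2 : f5B d a b ≤ d * (2 * b ^ 2) := by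
      unfold f5B
      refine mul_le_mul_of_nonneg_left ?_ hd0.le
      have h3 : b ^ 2 - 18 * d * a ^ 3 * b + 54 * d ^ 2 * a ^ 6 =
          b ^ 2 - 18 * (d * a ^ 3) * b + 54 * (d * a ^ 3) * (d * a ^ 3) := by ring
      rw [h3]
      nlinarith [mul_pos he0 hb0, mul_pos he0 he0]
    have h4 : (4 * b) ^ 2 ≤ (d * r ^ 3) ^ 2 := pow_le_pow_left₀ (by linarith) hb' 2
    have h5 : d * (4 * b) ^ 2 ≤ d * (d * r ^ 3) ^ 2 := mul_le_mul_of_nonneg_left h4 hd0.le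
    have h6 : d * (d * r ^ 3) ^ 2 = (d * r ^ 2) ^ 3 := by ring
    rw [h6] at h5
    have h7 : d * (4 * b) ^ 2 = 8 * (d * (2 * b ^ 2)) := by ring
    rw [h7] at h5
    have h8 : 0 ≤ d * (2 * b ^ 2) := by positivity
    linarith
  refine ⟨?_, ?_, ?_, hA0.ne', 3 * d * a ^ 2, f5_psi d a b⟩
  · change |f5A d a b| ≤ _
    rw [abs_of_pos hA0]
    exact hA1
  · change |f5B d a b| ≤ _
    rw [abs_of_nonneg hB0]
    exact hB1
  · change 4 * f5A d a b ^ 3 + 27 * f5B d a b ^ 2 ≠ 0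
    rw [f5_disc]
    have h2 : 0 < b - 4 * (d * a ^ 3) := by linarith
    positivity

open scoped Classical in
/-- the triples -/
noncomputable def f5T (X : ℕ) : Finset (Σ _ : ℕ, ℕ × ℕ) :=
  ((Finset.Icc 1 (X / 100)).filter Squarefree).sigma fun d =>
    Finset.Icc 1 (f5r X d / 10) ×ˢ
      Finset.Ioc (d * f5r X d ^ 3 / 20) (d * f5r X d ^ 3 / 4)

/-- the curve of a triple -/
def f5m (p : Σ _ : ℕ, ℕ × ℕ) : ℤ × ℤ := (f5A p.1 p.2.1 p.2.2, f5B p.1 p.2.1 p.2.2)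

theorem f5_r {X d : ℕ} (hd : 1 ≤ d) (hdX : d ≤ X / 100) :
    10 ≤ f5r X d ∧ d * f5r X d ^ 2 ≤ X ∧ X < d * (2 * f5r X d) ^ 2 := by
  have h1 : 100 ≤ X / d := by
    rw [Nat.le_div_iff_mul_le hd]
    have := Nat.div_mul_le_self X 100
    nlinarith
  have h2 : 10 ≤ f5r X d := by
    unfold f5r
    rw [Nat.le_sqrt]
    omega
  refine ⟨h2, ?_, ?_⟩
  · have h3 : f5r X d ^ 2 ≤ X / d := Nat.sqrt_le' _
    calc d * f5r X d ^ 2 ≤ d * (X / d) := Nat.mul_le_mul_left _ h3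
      _ ≤ X := Nat.mul_div_le X d
  · have h3 : X / d < (f5r X d + 1) ^ 2 := Nat.lt_succ_sqrt' _
    have h4 : X < d * (X / d + 1) := Nat.lt_mul_div_succ X hd
    calc X < d * (X / d + 1) := h4
      _ ≤ d * (f5r X d + 1) ^ 2 := Nat.mul_le_mul_left _ h3
      _ ≤ d * (2 * f5r X d) ^ 2 := Nat.mul_le_mul_left _ (Nat.pow_le_pow_left (by omega) 2)

theorem f5_T_mem {X : ℕ} {p : Σ _ : ℕ, ℕ × ℕ} (hp : p ∈ f5T X) :
    1 ≤ p.1 ∧ p.1 ≤ X / 100 ∧ Squarefree p.1 ∧ 1 ≤ p.2.1 ∧ 10 * p.2.1 ≤ f5r X p.1 ∧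
      p.1 * f5r X p.1 ^ 3 < 20 * p.2.2 ∧ 4 * p.2.2 ≤ p.1 * f5r X p.1 ^ 3 := by
  classical
  unfold f5T at hp
  rw [Finset.mem_sigma, Finset.mem_filter, Finset.mem_Icc, Finset.mem_product, Finset.mem_Icc,
    Finset.mem_Ioc] at hp
  obtain ⟨⟨⟨h1, h2⟩, h3⟩, ⟨h4, h5⟩, h6, h7⟩ := hp
  refine ⟨h1, h2, h3, h4, ?_, ?_, ?_⟩
  · have := (Nat.le_div_iff_mul_le (by norm_num : 0 < 10)).1 h5
    linarith
  · have := (Nat.div_lt_iff_lt_mul (by norm_num : 0 < 20)).1 h6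
    linarith
  · have := (Nat.le_div_iff_mul_le (by norm_num : 0 < 4)).1 h7
    linarith

theorem f5_T_fam {X : ℕ} {p : Σ _ : ℕ, ℕ × ℕ} (hp : p ∈ f5T X) : f5m p ∈ Fam X := by
  obtain ⟨h1, h2, -, h4, h5, h6, h7⟩ := f5_T_mem hp
  obtain ⟨-, h8, -⟩ := f5_r h1 h2
  exact f5_mem (r := (f5r X p.1 : ℤ)) (by exact_mod_cast h1) (by exact_mod_cast h4)
    (by exact_mod_cast h5) (by exact_mod_cast h6) (by exact_mod_cast h7) (by exact_mod_cast h8)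

open Polynomial in
/-- the polynomial psi -/
noncomputable def f5P (A B : ℤ) : ℤ[X] := C 3 * X ^ 4 + C (6 * A) * X ^ 2 + C (12 * B) * X - C (A ^ 2)

theorem f5P_deg (A B : ℤ) : (f5P A B).natDegree ≤ 4 := by
  unfold f5P
  compute_degree

theorem f5P_ne (A B : ℤ) : f5P A B ≠ 0 := by
  intro h
  have h1 : (f5P A B).coeff 4 = 3 := by
    unfold f5P
    simp only [Polynomial.coeff_sub, Polynomial.coeff_add, Polynomial.coeff_C_mul,
      Polynomial.coeff_X_pow, Polynomial.coeff_X, Polynomial.coeff_C]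
    norm_num
  rw [h] at h1
  simp at h1

theorem f5_fiber {X : ℕ} (z : ℤ × ℤ) [DecidablePred fun p => f5m p = z] :
    ((f5T X).filter fun p => f5m p = z).card ≤ 4 := by
  classical
  have h1 : ((f5T X).filter fun p => f5m p = z).card ≤ (f5P z.1 z.2).roots.toFinset.card := by
    refine Finset.card_le_card_of_injOn (fun p => 3 * (p.1 : ℤ) * (p.2.1 : ℤ) ^ 2) ?_ ?_
    · intro p hp
      have hp' := Finset.mem_filter.1 (Finset.mem_coe.1 hp)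
      rw [Finset.mem_coe, Multiset.mem_toFinset, Polynomial.mem_roots (f5P_ne _ _)]
      have h2 := f5_psi p.1 p.2.1 p.2.2
      have h3 : f5A p.1 p.2.1 p.2.2 = z.1 := congrArg Prod.fst hp'.2
      have h4 : f5B p.1 p.2.1 p.2.2 = z.2 := congrArg Prod.snd hp'.2
      rw [h3, h4] at h2
      unfold f5P Polynomial.IsRoot
      simp only [Polynomial.eval_sub, Polynomial.eval_add, Polynomial.eval_mul, Polynomial.eval_C,
        Polynomial.eval_pow, Polynomial.eval_X]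
      exact h2
    · rintro ⟨d, a, b⟩ hp ⟨d', a', b'⟩ hp' h
      have hp1 := Finset.mem_filter.1 (Finset.mem_coe.1 hp)
      have hp1' := Finset.mem_filter.1 (Finset.mem_coe.1 hp')
      obtain ⟨h1, -, h3, h4, -⟩ := f5_T_mem hp1.1
      obtain ⟨h1', -, h3', h4', -⟩ := f5_T_mem hp1'.1
      change 3 * (d : ℤ) * (a : ℤ) ^ 2 = 3 * (d' : ℤ) * (a' : ℤ) ^ 2 at h
      have h5 : d * a ^ 2 = d' * a' ^ 2 := by
        have h6 : (d : ℤ) * (a : ℤ) ^ 2 = (d' : ℤ) * (a' : ℤ) ^ 2 := by linarith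
        exact_mod_cast h6
      obtain ⟨rfl, rfl⟩ := f5_uniq h3 h3' h4 h4' h5
      have h6 : f5A d a b = f5A d a b' :=
        (congrArg Prod.fst hp1.2).trans (congrArg Prod.fst hp1'.2).symm
      unfold f5A at h6
      have h7 : (6 * (d : ℤ) * a) * b = (6 * (d : ℤ) * a) * b' := by linarith
      have hd : (d : ℤ) ≠ 0 := by
        have : 1 ≤ d := h1
        positivity
      have ha : (a : ℤ) ≠ 0 := by
        have : 1 ≤ a := h4
        positivity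
      have h8 : (b : ℤ) = b' := mul_left_cancel₀ (by positivity) h7
      have h9 : b = b' := by exact_mod_cast h8
      rw [h9]
  refine h1.trans ((Multiset.toFinset_card_le _).trans ((Polynomial.card_roots' _).trans
    (f5P_deg _ _)))

theorem f5_card_le (X : ℕ) : (f5T X).card ≤ 4 * (Fam X).ncard := by
  classical
  have h1 : (f5T X).card ≤ 4 * (fam_fin X).toFinset.card := by
    refine Finset.card_le_mul_card_image_of_maps_to (f := f5m) ?_ 4 fun z _ => ?_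
    · intro p hp
      rw [Set.Finite.mem_toFinset]
      exact f5_T_fam hp
    · exact f5_fiber z
  rwa [Set.ncard_eq_toFinset_card _ (fam_fin X)]

theorem f5_sqf (Y : ℕ) [DecidablePred (Squarefree : ℕ → Prop)] : Real.log (Y + 1) ≤
    2 * ∑ d ∈ (Finset.Icc 1 Y).filter Squarefree, (1 : ℝ) / d := by
  classical
  have h1 : Real.log (Y + 1) ≤ ∑ n ∈ Finset.Icc 1 Y, ((n : ℝ))⁻¹ := by
    have h2 := log_add_one_le_harmonic Y
    rw [harmonic_eq_sum_Icc] at h2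
    push_cast at h2
    exact h2
  refine h1.trans ?_
  choose s m hs hm hsm hsq using fun n : {n : ℕ // 0 < n} => Nat.sq_mul_squarefree_of_pos n.2
  let e : ℕ → ℕ × ℕ := fun n => if h : 0 < n then (s ⟨n, h⟩, m ⟨n, h⟩) else (0, 0)
  have he : ∀ n (h : 0 < n), e n = (s ⟨n, h⟩, m ⟨n, h⟩) := fun n h => dif_pos h
  let g : ℕ × ℕ → ℝ := fun p => (1 : ℝ) / p.1 * ((p.2 : ℝ) ^ 2)⁻¹
  have h2 : ∑ n ∈ Finset.Icc 1 Y, ((n : ℝ))⁻¹ = ∑ p ∈ (Finset.Icc 1 Y).image e, g p := by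
    rw [Finset.sum_image]
    · refine Finset.sum_congr rfl fun n hn => ?_
      have hn0 : 0 < n := (Finset.mem_Icc.1 hn).1
      rw [he n hn0]
      change _ = (1 : ℝ) / (s ⟨n, hn0⟩ : ℕ) * (((m ⟨n, hn0⟩ : ℕ) : ℝ) ^ 2)⁻¹
      have h3 : ((n : ℕ) : ℝ) = ((m ⟨n, hn0⟩ : ℕ) : ℝ) ^ 2 * ((s ⟨n, hn0⟩ : ℕ) : ℝ) := by
        have := hsm ⟨n, hn0⟩
        exact_mod_cast this.symm
      rw [h3, mul_inv, one_div]
      ring
    · intro n hn n' hn' h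
      have hn0 : 0 < n := (Finset.mem_Icc.1 (Finset.mem_coe.1 hn)).1
      have hn0' : 0 < n' := (Finset.mem_Icc.1 (Finset.mem_coe.1 hn')).1
      rw [he n hn0, he n' hn0', Prod.mk.injEq] at h
      have h3 := hsm ⟨n, hn0⟩
      have h4 := hsm ⟨n', hn0'⟩
      rw [h.1, h.2] at h3
      exact h3.symm.trans h4
  have h3 : ∑ p ∈ (Finset.Icc 1 Y).image e, g p ≤
      ∑ p ∈ ((Finset.Icc 1 Y).filter Squarefree) ×ˢ Finset.Icc 1 Y, g p := by
    refine Finset.sum_le_sum_of_subset_of_nonneg ?_ fun p _ _ => ?_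
    · intro p hp
      obtain ⟨n, hn, rfl⟩ := Finset.mem_image.1 hp
      have hn0 : 0 < n := (Finset.mem_Icc.1 hn).1
      have hnY : n ≤ Y := (Finset.mem_Icc.1 hn).2
      rw [he n hn0]
      have h5 : m ⟨n, hn0⟩ ^ 2 * s ⟨n, hn0⟩ = n := hsm ⟨n, hn0⟩
      have h6 : 0 < s ⟨n, hn0⟩ := hs _
      have h7 : 0 < m ⟨n, hn0⟩ := hm _
      rw [Finset.mem_product, Finset.mem_filter, Finset.mem_Icc, Finset.mem_Icc]
      refine ⟨⟨⟨h6, ?_⟩, hsq _⟩, h7, ?_⟩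
      · refine le_trans ?_ hnY
        calc s ⟨n, hn0⟩ = 1 * s ⟨n, hn0⟩ := (one_mul _).symm
          _ ≤ m ⟨n, hn0⟩ ^ 2 * s ⟨n, hn0⟩ := Nat.mul_le_mul_right _ (Nat.one_le_pow _ _ h7)
          _ = n := h5
      · refine le_trans ?_ hnY
        calc m ⟨n, hn0⟩ ≤ m ⟨n, hn0⟩ ^ 2 := Nat.le_self_pow two_ne_zero _
          _ = m ⟨n, hn0⟩ ^ 2 * 1 := (mul_one _).symm
          _ ≤ m ⟨n, hn0⟩ ^ 2 * s ⟨n, hn0⟩ := Nat.mul_le_mul_left _ h6
          _ = n := h5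
    · change 0 ≤ (1 : ℝ) / p.1 * ((p.2 : ℝ) ^ 2)⁻¹
      positivity
  have h4 : ∑ p ∈ ((Finset.Icc 1 Y).filter Squarefree) ×ˢ Finset.Icc 1 Y, g p =
      (∑ d ∈ (Finset.Icc 1 Y).filter Squarefree, (1 : ℝ) / d) *
        ∑ k ∈ Finset.Icc 1 Y, ((k : ℝ) ^ 2)⁻¹ := by
    rw [Finset.sum_product, Finset.sum_mul_sum]
  have h5 : ∑ k ∈ Finset.Icc 1 Y, ((k : ℝ) ^ 2)⁻¹ ≤ 2 := by
    rcases Nat.eq_zero_or_pos Y with h | h
    · subst h
      simp
    · have h6 := sum_Ioc_inv_sq_le_sub (α := ℝ) (k := 1) (n := Y) one_ne_zero h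
      rw [← Finset.Ioc_insert_left h, Finset.sum_insert (by simp)]
      have h7 : (0 : ℝ) ≤ (Y : ℝ)⁻¹ := by positivity
      norm_num at h6 ⊢
      linarith
  rw [h2]
  refine h3.trans ?_
  rw [h4]
  have h6 : 0 ≤ ∑ d ∈ (Finset.Icc 1 Y).filter Squarefree, (1 : ℝ) / d :=
    Finset.sum_nonneg fun d _ => by positivity
  nlinarith

theorem f5_count {X d : ℕ} (hd : 1 ≤ d) (hdX : d ≤ X / 100) :
    (X : ℝ) ^ 2 / 3200 * ((1 : ℝ) / d) ≤
      ((Finset.Icc 1 (f5r X d / 10) ×ˢ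
        Finset.Ioc (d * f5r X d ^ 3 / 20) (d * f5r X d ^ 3 / 4)).card : ℝ) := by
  obtain ⟨h1, h2, h3⟩ := f5_r hd hdX
  obtain ⟨r, hr⟩ : ∃ r, r = f5r X d := ⟨_, rfl⟩
  rw [← hr] at h1 h2 h3 ⊢
  rw [Finset.card_product, Nat.card_Icc, Nat.card_Ioc]
  have hd' : (1 : ℝ) ≤ d := by exact_mod_cast hd
  have hr' : (10 : ℝ) ≤ r := by exact_mod_cast h1
  have ha : (r : ℝ) / 20 ≤ ((r / 10 + 1 - 1 : ℕ) : ℝ) := by
    have h4 : r ≤ 20 * (r / 10 + 1 - 1) := by omega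
    have h5 : (r : ℝ) ≤ 20 * ((r / 10 + 1 - 1 : ℕ) : ℝ) := by exact_mod_cast h4
    linarith
  have hb : (d : ℝ) * r ^ 3 / 10 ≤ ((d * r ^ 3 / 4 - d * r ^ 3 / 20 : ℕ) : ℝ) := by
    have h4 : 1000 ≤ d * r ^ 3 := by
      calc 1000 = 1 * 10 ^ 3 := by norm_num
        _ ≤ d * r ^ 3 := Nat.mul_le_mul hd (Nat.pow_le_pow_left h1 3)
    have h5 : d * r ^ 3 ≤ 10 * (d * r ^ 3 / 4 - d * r ^ 3 / 20) := by omega
    have h6 : ((d * r ^ 3 : ℕ) : ℝ) ≤ 10 * ((d * r ^ 3 / 4 - d * r ^ 3 / 20 : ℕ) : ℝ) := by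
      exact_mod_cast h5
    push_cast at h6 ⊢
    linarith
  have hX : (X : ℝ) ≤ d * (2 * r) ^ 2 := by exact_mod_cast h3.le
  have hX2 : (X : ℝ) ^ 2 ≤ (d * (2 * r) ^ 2) ^ 2 :=
    pow_le_pow_left₀ (Nat.cast_nonneg X) hX 2
  rw [Nat.cast_mul]
  have h7 : (r : ℝ) / 20 * ((d : ℝ) * r ^ 3 / 10) ≤
      ((r / 10 + 1 - 1 : ℕ) : ℝ) * ((d * r ^ 3 / 4 - d * r ^ 3 / 20 : ℕ) : ℝ) :=
    mul_le_mul ha hb (by positivity) (Nat.cast_nonneg _)
  refine le_trans ?_ h7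
  have hd0 : (0 : ℝ) < d := by linarith
  rw [mul_one_div, div_le_iff₀ hd0]
  calc (X : ℝ) ^ 2 / 3200 ≤ (d * (2 * r) ^ 2) ^ 2 / 3200 := by gcongr
    _ = (r : ℝ) / 20 * ((d : ℝ) * r ^ 3 / 10) * d := by ring

theorem f5_card_ge (X : ℕ) : (X : ℝ) ^ 2 / 6400 * Real.log ((X / 100 : ℕ) + 1) ≤
    ((f5T X).card : ℝ) := by
  classical
  have h1 := f5_sqf (X / 100)
  have h2 : (X : ℝ) ^ 2 / 3200 * ∑ d ∈ (Finset.Icc 1 (X / 100)).filter Squarefree, (1 : ℝ) / d ≤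
      ((f5T X).card : ℝ) := by
    unfold f5T
    rw [Finset.card_sigma, Nat.cast_sum, Finset.mul_sum]
    refine Finset.sum_le_sum fun d hd => ?_
    rw [Finset.mem_filter, Finset.mem_Icc] at hd
    exact f5_count hd.1.1 hd.1.2
  refine le_trans ?_ h2
  have h3 : (0 : ℝ) ≤ (X : ℝ) ^ 2 / 6400 := by positivity
  calc (X : ℝ) ^ 2 / 6400 * Real.log ((X / 100 : ℕ) + 1) ≤ (X : ℝ) ^ 2 / 6400 *
      (2 * ∑ d ∈ (Finset.Icc 1 (X / 100)).filter Squarefree, (1 : ℝ) / d) :=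
        mul_le_mul_of_nonneg_left h1 h3
    _ = _ := by ring

theorem f5_small {X : ℕ} (hX : 16 ≤ X) : 1 ≤ (Fam X).ncard := by
  have h1 : ((3 : ℤ), (-11 : ℤ)) ∈ Fam X := by
    have hX' : (16 : ℤ) ≤ X := by exact_mod_cast hX
    have hX2 : (16 : ℤ) ^ 2 ≤ (X : ℤ) ^ 2 := pow_le_pow_left₀ (by norm_num) hX' 2
    have hX3 : (16 : ℤ) ^ 3 ≤ (X : ℤ) ^ 3 := pow_le_pow_left₀ (by norm_num) hX' 3
    refine ⟨?_, ?_, ?_, ?_, 3, ?_⟩
    · change |(3 : ℤ)| ≤ _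
      rw [abs_of_pos (by norm_num)]
      linarith
    · change |(-11 : ℤ)| ≤ _
      rw [abs_neg, abs_of_pos (by norm_num)]
      linarith
    · norm_num
    · norm_num
    · norm_num
  rw [Nat.one_le_iff_ne_zero]
  exact Set.ncard_ne_zero_of_mem h1 (fam_fin X)

theorem fam_lower : ∃ c : ℝ, 0 < c ∧ ∀ X : ℕ, 16 ≤ X → c * (X : ℝ) ^ 2 * Real.log X ≤ ((Fam X).ncard : ℝ) := by
  refine ⟨1 / 10 ^ 13, by norm_num, fun X hX => ?_⟩
  have hX0 : (16 : ℝ) ≤ X := by exact_mod_cast hX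
  have hlog : 0 ≤ Real.log X := Real.log_nonneg (by linarith)
  rcases le_total (10 ^ 4 : ℝ) X with h | h
  · have h1 := f5_card_ge X
    have h2 : ((f5T X).card : ℝ) ≤ 4 * ((Fam X).ncard : ℝ) := by exact_mod_cast f5_card_le X
    have h3 : (X : ℝ) / 100 ≤ ((X / 100 : ℕ) : ℝ) + 1 := by
      have h4 : X < 100 * (X / 100 + 1) := Nat.lt_mul_div_succ X (by norm_num)
      have h5 : (X : ℝ) < 100 * (((X / 100 : ℕ) : ℝ) + 1) := by exact_mod_cast h4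
      linarith
    have h4 : Real.log X / 2 ≤ Real.log (((X / 100 : ℕ) : ℝ) + 1) := by
      have h5 : Real.log ((X : ℝ) / 100) ≤ Real.log (((X / 100 : ℕ) : ℝ) + 1) :=
        Real.log_le_log (by positivity) h3
      have h6 : Real.log ((X : ℝ) / 100) = Real.log X - Real.log 100 :=
        Real.log_div (by linarith) (by norm_num)
      have h7 : 2 * Real.log 100 ≤ Real.log X := by
        have h8 : (2 : ℝ) * Real.log 100 = Real.log (100 ^ 2) := by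
          rw [Real.log_pow]
          norm_num
        rw [h8]
        exact Real.log_le_log (by norm_num) (by linarith)
      linarith
    have h5 : (X : ℝ) ^ 2 / 6400 * (Real.log X / 2) ≤
        (X : ℝ) ^ 2 / 6400 * Real.log (((X / 100 : ℕ) : ℝ) + 1) :=
      mul_le_mul_of_nonneg_left h4 (by positivity)
    have h6 : 0 ≤ (X : ℝ) ^ 2 * Real.log X := by positivity
    nlinarith
  · have h1 : (1 : ℝ) ≤ ((Fam X).ncard : ℝ) := by exact_mod_cast f5_small hX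
    have h2 : Real.log X ≤ 10 ^ 4 := by
      have h3 := Real.log_le_sub_one_of_pos (show (0 : ℝ) < X by linarith)
      linarith
    have h3 : (X : ℝ) ^ 2 ≤ (10 ^ 4) ^ 2 := pow_le_pow_left₀ (by linarith) h 2
    have h4 : (X : ℝ) ^ 2 * Real.log X ≤ (10 ^ 4) ^ 2 * 10 ^ 4 :=
      mul_le_mul h3 h2 hlog (by norm_num)
    nlinarith

end W44
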