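import Pool.Agent.LibT44.W3
import Pool.Agent.LibW44.Defs

/-! Row F6. Lower bound for the exceptions: the curves with a point of order three. `T44.w3_f`, `w3_mem`, `w3_inj`, `fam_lower` in LibT44/W3.lean:
the curves `A = 27 t⁴ + 6 t s`, `B = s² - 27 t⁶`, `1 ≤ t ≤ T`, `1 ≤ s ≤ X T`, `16 T² ≤ X`: `A > 0`, the point of order three is
`x = 3 t²`, `y = s + 9 t³` (see `T44.param3`), psi(x) = 0 (`T44.div3`), `|x| = 3 t² ≤ X ≤ exp(exp((log X)²))` as `log X ≤ exp((log X)²)`. Copy the proof of `T44.fam_lower`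
with `Exc X` for `Fam X`. -/

namespace W44
open RC91

private theorem f6_finite (X : ℕ) : (Exc X).Finite := by
  refine Set.Finite.subset (s := Set.Icc (-(X : ℤ) ^ 2) ((X : ℤ) ^ 2) ×ˢ
    Set.Icc (-(X : ℤ) ^ 3) ((X : ℤ) ^ 3)) ?_ ?_
  · exact (Set.finite_Icc _ _).prod (Set.finite_Icc _ _)
  · rintro ⟨A, B⟩ ⟨⟨h1, h2, -, -⟩, -⟩
    exact ⟨abs_le.1 h1, abs_le.1 h2⟩

private theorem f6_log (X : ℕ) (hX : 1 ≤ X) :
    (X : ℝ) ≤ Real.exp (Real.exp (Real.log X ^ 2)) := by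
  have h1 : (0 : ℝ) < X := by exact_mod_cast hX
  have h2 : Real.log X ≤ Real.exp (Real.log X ^ 2) := by
    have h3 := Real.add_one_le_exp (Real.log X ^ 2)
    nlinarith [sq_nonneg (Real.log X - 1)]
  calc (X : ℝ) = Real.exp (Real.log X) := (Real.exp_log h1).symm
    _ ≤ _ := Real.exp_le_exp.2 h2

private theorem f6_mem (X T : ℕ) (hX : 1 ≤ X) (hT : 16 * T ^ 2 ≤ X) (t s : ℤ) (ht : 1 ≤ t)
    (htT : t ≤ T) (hs : 1 ≤ s) (hsT : s ≤ (X : ℤ) * T) : T44.w3_f (t, s) ∈ Exc X := by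
  obtain ⟨h1, h2, h3, -⟩ := T44.w3_mem X T hT t s ht htT hs hsT
  refine ⟨⟨h1, h2, h3, ?_, 3 * t ^ 2, T44.div3 t s⟩, 3 * t ^ 2, s + 9 * t ^ 3, ?_, ?_⟩
  · have h4 : (0 : ℤ) < 27 * t ^ 4 + 6 * t * s := by positivity
    exact h4.ne'
  · change (s + 9 * t ^ 3) ^ 2 = (3 * t ^ 2) ^ 3 + (27 * t ^ 4 + 6 * t * s) * (3 * t ^ 2) +
      (s ^ 2 - 27 * t ^ 6)
    ring
  · refine le_trans ?_ (f6_log X hX)
    have h4 : |3 * t ^ 2| ≤ (X : ℤ) := by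
      rw [abs_of_nonneg (by positivity)]
      have hTz : 16 * (T : ℤ) ^ 2 ≤ X := by exact_mod_cast hT
      have h5 : t ^ 2 ≤ (T : ℤ) ^ 2 := pow_le_pow_left₀ (by linarith) htT 2
      have h6 : (0 : ℤ) ≤ (T : ℤ) ^ 2 := by positivity
      linarith
    exact_mod_cast h4

theorem exc_lower : ∃ c : ℝ, 0 < c ∧ ∀ X : ℕ, 16 ≤ X → c * (X : ℝ) ^ 2 ≤ ((Exc X).ncard : ℝ) := by
  refine ⟨1 / 256, by norm_num, fun X hX' => ?_⟩
  obtain ⟨T, hTd⟩ : ∃ T, T = Nat.sqrt X / 4 := ⟨_, rfl⟩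
  have hsq : 4 ≤ Nat.sqrt X := Nat.le_sqrt.2 (by omega)
  have hT1 : 1 ≤ T := by omega
  have h4T : 4 * T ≤ Nat.sqrt X := by omega
  have hT : 16 * T ^ 2 ≤ X := by
    have h1 : (4 * T) * (4 * T) ≤ X := Nat.le_sqrt.1 h4T
    nlinarith
  have hlow : X ≤ 64 * T ^ 2 := by
    have h1 : X < (Nat.sqrt X + 1) * (Nat.sqrt X + 1) := Nat.lt_succ_sqrt X
    have h2 : Nat.sqrt X + 1 ≤ 8 * T := by omega
    have h3 : (Nat.sqrt X + 1) * (Nat.sqrt X + 1) ≤ (8 * T) * (8 * T) := Nat.mul_le_mul h2 h2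
    nlinarith
  obtain ⟨U, hU⟩ : ∃ U : Finset (ℤ × ℤ), U =
    (Finset.Icc (1 : ℤ) T ×ˢ Finset.Icc (1 : ℤ) ((X : ℤ) * T)).image T44.w3_f := ⟨_, rfl⟩
  have hsub : (U : Set (ℤ × ℤ)) ⊆ Exc X := by
    intro z hz
    rw [hU, Finset.mem_coe, Finset.mem_image] at hz
    obtain ⟨⟨t, s⟩, hts, rfl⟩ := hz
    rw [Finset.mem_product, Finset.mem_Icc, Finset.mem_Icc] at hts
    exact f6_mem X T (by omega) hT t s hts.1.1 hts.1.2 hts.2.1 hts.2.2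
  have hcard : U.card = T * (X * T) := by
    rw [hU, Finset.card_image_of_injOn, Finset.card_product, Int.card_Icc, Int.card_Icc]
    · have e1 : ((T : ℤ) + 1 - 1).toNat = T := by simp
      have e2 : ((X : ℤ) * T + 1 - 1).toNat = X * T := by
        have : (X : ℤ) * T + 1 - 1 = ((X * T : ℕ) : ℤ) := by push_cast; ring
        rw [this, Int.toNat_natCast]
      rw [e1, e2]
    · rintro ⟨t, s⟩ hts ⟨t', s'⟩ hts' h
      rw [Finset.mem_coe, Finset.mem_product, Finset.mem_Icc, Finset.mem_Icc] at hts hts'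
      obtain ⟨h1, h2⟩ := T44.w3_inj hts.1.1 hts.2.1 hts'.1.1 hts'.2.1 h
      exact Prod.ext h1 h2
  have h1 : U.card ≤ (Exc X).ncard := by
    rw [← Set.ncard_coe_finset]
    exact Set.ncard_le_ncard hsub (f6_finite X)
  rw [hcard] at h1
  have h2 : ((T * (X * T) : ℕ) : ℝ) ≤ ((Exc X).ncard : ℝ) := by exact_mod_cast h1
  push_cast at h2
  have h3 : (X : ℝ) ≤ 64 * (T : ℝ) ^ 2 := by exact_mod_cast hlow
  have h4 : (0 : ℝ) ≤ X := Nat.cast_nonneg X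
  nlinarith [mul_le_mul_of_nonneg_left h3 h4, mul_nonneg h4 (sq_nonneg (T : ℝ))]

end W44
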