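import Pool.Agent.LibW44.Defs
import Pool.Agent.LibRC91.QI

/-! Row F7. Sum over `d` of the main bound. Hypotheses from `RC91.QI_sum` are available: `import Pool.Agent.LibRC91.QI` (`∑_{A ∈ S} #QA A ≤ C T (1 + log T)`, `|A| ≤ T`).
`Ee X d = X^(11/6) |d|^(-5/6)`. Dyadic blocks `2^i ≤ |d| < 2^(i+1) `, `2^i ≤ D`: `∑ (1+#QA d)|d|^(-5/6) ≤ 2^(-5i/6) C 2^(i+1)(1+log 2^(i+1)) `, sum of a geometric series with ratio `2^(1/6)`:
`≤ C' D^(1/6) (1 + log D)`, and `D ≤ X`. -/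

namespace W44
open RC91

private theorem f7_Ee (X : ℕ) (d : ℤ) (hd : d ≠ 0) :
    Ee X d = (X : ℝ) ^ (11 / 6 : ℝ) * |(d : ℝ)| ^ (-(5 / 6) : ℝ) := by
  have hd1 : 0 < |(d : ℝ)| := abs_pos.2 (by exact_mod_cast hd)
  unfold Ee Hh
  rw [Real.div_rpow (Nat.cast_nonneg X) hd1.le]
  have h1 : |(d : ℝ)| ^ (-(5 / 6) : ℝ) = |(d : ℝ)| / |(d : ℝ)| ^ (11 / 6 : ℝ) := by
    rw [show (-(5 / 6) : ℝ) = 1 - 11 / 6 by norm_num, Real.rpow_sub hd1, Real.rpow_one]
  rw [h1]
  ring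

theorem sum_d : ∃ C : ℝ, 0 < C ∧ ∀ (X : ℕ) (D : ℝ), 1 ≤ X → 1 ≤ D → D ≤ X → ∀ S : Finset ℤ,
    (∀ d ∈ S, Squarefree d ∧ d ≠ 1 ∧ |(d : ℝ)| ≤ D) →
    ∑ d ∈ S, (1 + ((QA d).ncard : ℝ)) * Ee X d ≤ C * Ll X * (X : ℝ) ^ (11 / 6 : ℝ) * D ^ (1 / 6 : ℝ) := by
  classical
  obtain ⟨C, hC, hQ⟩ := QI_sum
  set r : ℝ := (2 : ℝ) ^ (1 / 6 : ℝ) with hr
  have hr1 : 1 < r := Real.one_lt_rpow (by norm_num) (by norm_num)
  have hr0 : 0 < r - 1 := by linarith
  refine ⟨4 * (C + 3) * (r / (r - 1)), by positivity, ?_⟩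
  intro X D hX hD hDX S hS
  have hXpos : (0 : ℝ) < X := by
    have : (1 : ℝ) ≤ X := by exact_mod_cast hX
    linarith
  have hlogD : 0 ≤ Real.log D := Real.log_nonneg hD
  have hlogDX : Real.log D ≤ Real.log X := Real.log_le_log (by linarith) hDX
  have hfl1 : 1 ≤ ⌊D⌋₊ := Nat.le_floor (by simpa using hD)
  set I : ℕ := Nat.log 2 ⌊D⌋₊ with hI
  have hdne : ∀ d ∈ S, d ≠ 0 := fun d hd => (hS d hd).1.ne_zero
  have hmaps : ∀ d ∈ S, Nat.log 2 d.natAbs ∈ Finset.range (I + 1) := by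
    intro d hd
    rw [Finset.mem_range, Nat.lt_succ_iff, hI]
    apply Nat.log_mono_right
    apply Nat.le_floor
    have := (hS d hd).2.2
    rw [Nat.cast_natAbs]
    push_cast
    exact this
  have hpow : ∀ i ∈ Finset.range (I + 1), (2 : ℝ) ^ i ≤ D := by
    intro i hi
    rw [Finset.mem_range, Nat.lt_succ_iff] at hi
    have h1 : 2 ^ i ≤ ⌊D⌋₊ := by
      calc 2 ^ i ≤ 2 ^ I := Nat.pow_le_pow_right (by norm_num) hi
        _ ≤ ⌊D⌋₊ := Nat.pow_log_le_self 2 (by omega)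
    have h2 : ((2 ^ i : ℕ) : ℝ) ≤ D := le_trans (by exact_mod_cast h1) (Nat.floor_le (by linarith))
    simpa using h2
  -- block bound
  have hblock : ∀ i ∈ Finset.range (I + 1),
      ∑ d ∈ S with Nat.log 2 d.natAbs = i, (1 + ((QA d).ncard : ℝ)) * |(d : ℝ)| ^ (-(5 / 6) : ℝ) ≤
        4 * (C + 3) * (1 + Real.log D) * r ^ i := by
    intro i hi
    have hpi := hpow i hi
    have h2i : (0 : ℝ) < 2 ^ i := by positivity
    have hS' : ∀ d ∈ S.filter (fun d => Nat.log 2 d.natAbs = i), 2 ^ i ≤ d.natAbs ∧ d.natAbs < 2 ^ (i + 1) := by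
      intro d hd
      rw [Finset.mem_filter] at hd
      have hd0 : d.natAbs ≠ 0 := by simpa using hdne d hd.1
      constructor
      · rw [← hd.2]; exact Nat.pow_log_le_self 2 hd0
      · rw [← hd.2]; exact Nat.lt_pow_succ_log_self (by norm_num) _
    have hsum : ∑ d ∈ S with Nat.log 2 d.natAbs = i, (1 + ((QA d).ncard : ℝ)) ≤
        (C + 3) * (2 : ℝ) ^ (i + 1) * (1 + Real.log ((2 : ℝ) ^ (i + 1))) := by
      rw [Finset.sum_add_distrib, Finset.sum_const, nsmul_eq_mul, mul_one]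
      have hlog1 : 0 ≤ Real.log ((2 : ℝ) ^ (i + 1)) := Real.log_nonneg (one_le_pow₀ (by norm_num))
      have hc : ((S.filter (fun d => Nat.log 2 d.natAbs = i)).card : ℝ) ≤ 3 * (2 : ℝ) ^ (i + 1) := by
        have h1 : (S.filter (fun d => Nat.log 2 d.natAbs = i)) ⊆ Finset.Icc (-(2 ^ (i + 1) : ℤ)) (2 ^ (i + 1)) := by
          intro d hd
          have h3 := (hS' d hd).2
          rw [Finset.mem_Icc, ← abs_le]
          zify at h3
          exact h3.le
        have h2 := Finset.card_le_card h1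
        rw [Int.card_Icc] at h2
        have h3 : ((2 ^ (i + 1) + 1 - (-(2 ^ (i + 1)) : ℤ)).toNat : ℤ) = 2 * 2 ^ (i + 1) + 1 := by
          have h30 : (0 : ℤ) < 2 ^ (i + 1) := by positivity
          rw [Int.toNat_of_nonneg (by linarith)]
          ring
        have h4 : ((S.filter (fun d => Nat.log 2 d.natAbs = i)).card : ℤ) ≤ 2 * 2 ^ (i + 1) + 1 := by
          rw [← h3]; exact_mod_cast h2
        have h5 : ((S.filter (fun d => Nat.log 2 d.natAbs = i)).card : ℝ) ≤ 2 * 2 ^ (i + 1) + 1 := by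
          exact_mod_cast h4
        have h6 : (1 : ℝ) ≤ 2 ^ (i + 1) := one_le_pow₀ (by norm_num)
        linarith
      have hq := hQ (2 ^ (i + 1)) (Nat.one_le_two_pow) (S.filter (fun d => Nat.log 2 d.natAbs = i)) (by
        intro d hd
        have h3 := (hS' d hd).2
        rw [Finset.mem_filter] at hd
        refine ⟨(hS d hd.1).1, (hS d hd.1).2.1, ?_⟩
        zify at h3
        push_cast
        exact h3.le)
      push_cast at hq
      have h7 : (0 : ℝ) < 2 ^ (i + 1) := by positivity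
      have h8 : 3 * (2 : ℝ) ^ (i + 1) ≤ 3 * (2 : ℝ) ^ (i + 1) * (1 + Real.log ((2 : ℝ) ^ (i + 1))) := by
        nlinarith
      calc _ ≤ 3 * (2 : ℝ) ^ (i + 1) * (1 + Real.log ((2 : ℝ) ^ (i + 1))) +
            C * (2 : ℝ) ^ (i + 1) * (1 + Real.log ((2 : ℝ) ^ (i + 1))) := by
              apply add_le_add (hc.trans h8) hq
        _ = _ := by ring
    have hlog2 : 1 + Real.log ((2 : ℝ) ^ (i + 1)) ≤ 2 * (1 + Real.log D) := by
      have h1 : Real.log ((2 : ℝ) ^ (i + 1)) = Real.log 2 + Real.log ((2 : ℝ) ^ i) := by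
        rw [pow_succ, mul_comm, Real.log_mul (by norm_num) (by positivity)]
      have h2 : Real.log 2 ≤ 1 := by
        have := Real.log_two_lt_d9
        linarith
      have h3 : Real.log ((2 : ℝ) ^ i) ≤ Real.log D := Real.log_le_log h2i hpi
      rw [h1]
      linarith
    calc ∑ d ∈ S with Nat.log 2 d.natAbs = i, (1 + ((QA d).ncard : ℝ)) * |(d : ℝ)| ^ (-(5 / 6) : ℝ)
        ≤ ∑ d ∈ S with Nat.log 2 d.natAbs = i, (1 + ((QA d).ncard : ℝ)) * ((2 : ℝ) ^ i) ^ (-(5 / 6) : ℝ) := by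
          apply Finset.sum_le_sum
          intro d hd
          apply mul_le_mul_of_nonneg_left _ (by positivity)
          apply Real.rpow_le_rpow_of_nonpos h2i _ (by norm_num)
          have h3 := (hS' d hd).1
          zify at h3
          exact_mod_cast h3
      _ = (∑ d ∈ S with Nat.log 2 d.natAbs = i, (1 + ((QA d).ncard : ℝ))) * ((2 : ℝ) ^ i) ^ (-(5 / 6) : ℝ) := by
          rw [Finset.sum_mul]
      _ ≤ ((C + 3) * (2 : ℝ) ^ (i + 1) * (2 * (1 + Real.log D))) * ((2 : ℝ) ^ i) ^ (-(5 / 6) : ℝ) := by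
          apply mul_le_mul_of_nonneg_right _ (by positivity)
          refine hsum.trans ?_
          apply mul_le_mul_of_nonneg_left hlog2 (by positivity)
      _ = 4 * (C + 3) * (1 + Real.log D) * ((2 : ℝ) ^ i * ((2 : ℝ) ^ i) ^ (-(5 / 6) : ℝ)) := by
          rw [pow_succ]; ring
      _ = 4 * (C + 3) * (1 + Real.log D) * r ^ i := by
          have h4 : (2 : ℝ) ^ i * ((2 : ℝ) ^ i) ^ (-(5 / 6) : ℝ) = r ^ i := by
            have h5 : (2 : ℝ) ^ i * ((2 : ℝ) ^ i) ^ (-(5 / 6) : ℝ) = ((2 : ℝ) ^ i) ^ (1 / 6 : ℝ) := by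
              conv_lhs => rw [← Real.rpow_one ((2 : ℝ) ^ i)]
              rw [Real.rpow_one, show (1 / 6 : ℝ) = 1 + -(5 / 6) by norm_num, Real.rpow_add h2i, Real.rpow_one]
            rw [h5, hr, ← Real.rpow_natCast, ← Real.rpow_mul (by norm_num), ← Real.rpow_natCast,
              ← Real.rpow_mul (by norm_num)]
            congr 1
            ring
          rw [h4]
  have hgeom : ∑ i ∈ Finset.range (I + 1), r ^ i ≤ r / (r - 1) * D ^ (1 / 6 : ℝ) := by
    rw [geom_sum_eq hr1.ne']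
    have h1 : r ^ I ≤ D ^ (1 / 6 : ℝ) := by
      have h2 : r ^ I = ((2 : ℝ) ^ I) ^ (1 / 6 : ℝ) := by
        rw [hr, ← Real.rpow_natCast, ← Real.rpow_mul (by norm_num), ← Real.rpow_natCast,
              ← Real.rpow_mul (by norm_num)]
        congr 1
        ring
      rw [h2]
      apply Real.rpow_le_rpow (by positivity) _ (by norm_num)
      exact hpow I (Finset.mem_range.2 (Nat.lt_succ_self I))
    rw [div_mul_eq_mul_div]
    apply div_le_div_of_nonneg_right _ hr0.le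
    rw [pow_succ, mul_comm]
    have : 0 < r := by linarith
    nlinarith
  have hsumall : ∑ d ∈ S, (1 + ((QA d).ncard : ℝ)) * |(d : ℝ)| ^ (-(5 / 6) : ℝ) ≤
      4 * (C + 3) * (1 + Real.log D) * (r / (r - 1) * D ^ (1 / 6 : ℝ)) := by
    rw [← Finset.sum_fiberwise_of_maps_to hmaps]
    refine (Finset.sum_le_sum hblock).trans ?_
    rw [← Finset.mul_sum]
    apply mul_le_mul_of_nonneg_left hgeom
    have : 0 ≤ 1 + Real.log D := by linarith
    positivity
  calc ∑ d ∈ S, (1 + ((QA d).ncard : ℝ)) * Ee X d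
      = (X : ℝ) ^ (11 / 6 : ℝ) * ∑ d ∈ S, (1 + ((QA d).ncard : ℝ)) * |(d : ℝ)| ^ (-(5 / 6) : ℝ) := by
        rw [Finset.mul_sum]
        apply Finset.sum_congr rfl
        intro d hd
        rw [f7_Ee X d (hdne d hd)]
        ring
    _ ≤ (X : ℝ) ^ (11 / 6 : ℝ) * (4 * (C + 3) * (1 + Real.log D) * (r / (r - 1) * D ^ (1 / 6 : ℝ))) := by
        apply mul_le_mul_of_nonneg_left hsumall (by positivity)
    _ ≤ (X : ℝ) ^ (11 / 6 : ℝ) * (4 * (C + 3) * Ll X * (r / (r - 1) * D ^ (1 / 6 : ℝ))) := by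
        apply mul_le_mul_of_nonneg_left _ (by positivity)
        apply mul_le_mul_of_nonneg_right _ (by positivity)
        apply mul_le_mul_of_nonneg_left _ (by positivity)
        unfold Ll
        linarith
    _ = _ := by ring

end W44
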