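import Pool.Agent.LibW44.Defs

/-! Harmonic sums over integers `d` and `log log X ≥ 1`. -/

namespace W44

theorem s6_log (M N : ℕ) (hM : 1 ≤ M) (hN : M ≤ N) :
    ∑ n ∈ Finset.Ioc M N, (1 : ℝ) / n ≤ Real.log N - Real.log M := by
  induction N, hN using Nat.le_induction with
  | base => simp
  | succ N hN ih =>
    rw [← Finset.insert_Ioc_right_eq_Ioc_add_one (by omega), Finset.sum_insert (by simp)]
    have hN0 : (0 : ℝ) < N := by exact_mod_cast (by omega : 0 < N)
    have h1 : Real.log ((N : ℝ) / (N + 1)) ≤ (N : ℝ) / (N + 1) - 1 := Real.log_le_sub_one_of_pos (by positivity)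
    rw [Real.log_div (by positivity) (by positivity)] at h1
    have h2 : (N : ℝ) / (N + 1) - 1 = -(1 / (N + 1)) := by
      field_simp
      ring
    push_cast
    rw [h2] at h1
    linarith

theorem s6_harm (N : ℕ) (D : ℝ) (hN : 1 ≤ N) (hD : 0 < D) (hDN : D ≤ N) :
    ∑ n ∈ (Finset.Icc 1 N).filter (fun n : ℕ => D < n), (1 : ℝ) / n ≤ 1 + Real.log (N / D) := by
  have hN0 : (0 : ℝ) < N := by exact_mod_cast (by omega : 0 < N)
  rw [Real.log_div hN0.ne' hD.ne']
  by_cases h1 : D < 1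
  · have h2 : Real.log D ≤ 0 := Real.log_nonpos hD.le h1.le
    have h3 : ∑ n ∈ (Finset.Icc 1 N).filter (fun n : ℕ => D < n), (1 : ℝ) / n ≤
        ∑ n ∈ Finset.Icc 1 N, (1 : ℝ) / n :=
      Finset.sum_le_sum_of_subset_of_nonneg (Finset.filter_subset _ _) (fun i _ _ => by positivity)
    have h4 : Finset.Icc 1 N = insert 1 (Finset.Ioc 1 N) := by
      ext n
      simp only [Finset.mem_Icc, Finset.mem_insert, Finset.mem_Ioc]
      omega
    have h5 := s6_log 1 N le_rfl hN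
    have h6 : ∑ n ∈ Finset.Icc 1 N, (1 : ℝ) / n = 1 + ∑ n ∈ Finset.Ioc 1 N, (1 : ℝ) / n := by
      rw [h4, Finset.sum_insert (by simp)]
      norm_num
    rw [Nat.cast_one, Real.log_one] at h5
    linarith
  · push Not at h1
    have hM1 : 1 ≤ ⌊D⌋₊ := by
      rw [Nat.le_floor_iff hD.le]
      exact_mod_cast h1
    have hMN : ⌊D⌋₊ ≤ N := by
      have := Nat.floor_le hD.le
      exact_mod_cast this.trans hDN
    have h5 := s6_log ⌊D⌋₊ N hM1 hMN
    have h3 : ∑ n ∈ (Finset.Icc 1 N).filter (fun n : ℕ => D < n), (1 : ℝ) / n ≤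
        ∑ n ∈ Finset.Ioc ⌊D⌋₊ N, (1 : ℝ) / n := by
      refine Finset.sum_le_sum_of_subset_of_nonneg ?_ (fun i _ _ => by positivity)
      intro n hn
      rw [Finset.mem_filter, Finset.mem_Icc] at hn
      rw [Finset.mem_Ioc]
      exact ⟨(Nat.floor_lt hD.le).2 hn.2, hn.1.2⟩
    have hM0 : (0 : ℝ) < ⌊D⌋₊ := by exact_mod_cast (by omega : 0 < ⌊D⌋₊)
    have h6 : D ≤ 2 * ⌊D⌋₊ := by
      have := Nat.lt_floor_add_one D
      have h7 : (1 : ℝ) ≤ ⌊D⌋₊ := by exact_mod_cast hM1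
      linarith
    have h7 : Real.log D ≤ Real.log 2 + Real.log ⌊D⌋₊ := by
      rw [← Real.log_mul (by norm_num) hM0.ne']
      exact Real.log_le_log hD h6
    have h8 := Real.log_two_lt_d9
    linarith

theorem s6_int (N : ℕ) (D : ℝ) (hN : 1 ≤ N) (hD : 0 < D) (hDN : D ≤ N) (S : Finset ℤ)
    (hS : ∀ d ∈ S, D < |(d : ℝ)| ∧ |d| ≤ (N : ℤ) ∧ d ≠ 0) :
    ∑ d ∈ S, (1 : ℝ) / |(d : ℝ)| ≤ 2 * (1 + Real.log (N / D)) := by
  classical
  have h1 := s6_harm N D hN hD hDN
  set A := (Finset.Icc 1 N).filter (fun n : ℕ => D < n) with hA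
  have hsub : S ⊆ A.image (fun n : ℕ => (n : ℤ)) ∪ A.image (fun n : ℕ => -(n : ℤ)) := by
    intro d hd
    obtain ⟨a1, a2, a3⟩ := hS d hd
    have hm : d.natAbs ∈ A := by
      rw [hA, Finset.mem_filter, Finset.mem_Icc]
      have a4 := Int.abs_eq_natAbs d
      refine ⟨⟨?_, ?_⟩, ?_⟩
      · omega
      · omega
      · have : ((d.natAbs : ℕ) : ℝ) = |(d : ℝ)| := by
          rw [Nat.cast_natAbs, Int.cast_abs]
        rw [this]
        exact a1
    rw [Finset.mem_union, Finset.mem_image, Finset.mem_image]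
    rcases le_total 0 d with h | h
    · left
      exact ⟨d.natAbs, hm, by omega⟩
    · right
      exact ⟨d.natAbs, hm, by omega⟩
  have hdis : Disjoint (A.image (fun n : ℕ => (n : ℤ))) (A.image (fun n : ℕ => -(n : ℤ))) := by
    rw [Finset.disjoint_left]
    intro d h2 h3
    rw [Finset.mem_image] at h2 h3
    obtain ⟨n, hn, e1⟩ := h2
    obtain ⟨m, hm, e2⟩ := h3
    rw [hA, Finset.mem_filter, Finset.mem_Icc] at hn hm
    omega
  refine (Finset.sum_le_sum_of_subset_of_nonneg hsub (fun i _ _ => by positivity)).trans ?_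
  rw [Finset.sum_union hdis, Finset.sum_image (by intro x _ y _ h; exact Int.ofNat.inj h),
    Finset.sum_image (by intro x _ y _ h; have : -(x : ℤ) = -(y : ℤ) := h; omega)]
  have h2 : ∀ n ∈ A, (1 : ℝ) / |((n : ℤ) : ℝ)| = 1 / n := by
    intro n _
    rw [Int.cast_natCast, abs_of_nonneg (by positivity)]
  have h3 : ∀ n ∈ A, (1 : ℝ) / |((-(n : ℤ) : ℤ) : ℝ)| = 1 / n := by
    intro n _
    rw [Int.cast_neg, Int.cast_natCast, abs_neg, abs_of_nonneg (by positivity)]
  rw [Finset.sum_congr rfl h2, Finset.sum_congr rfl h3]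
  linarith

theorem s6_loglog (X : ℕ) (hX : 16 ≤ X) : 1 ≤ Real.log (Real.log X) := by
  have h16 : (16 : ℝ) ≤ X := by exact_mod_cast hX
  have h1 : Real.log 16 ≤ Real.log X := Real.log_le_log (by norm_num) h16
  have h2 : Real.log 16 = 4 * Real.log 2 := by
    rw [show (16 : ℝ) = 2 ^ 4 by norm_num, Real.log_pow]
    norm_num
  have h3 := Real.log_two_gt_d9
  have h4 : Real.exp 1 ≤ Real.log X := by
    have := Real.exp_one_lt_d9
    linarith
  calc (1 : ℝ) = Real.log (Real.exp 1) := (Real.log_exp 1).symm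
    _ ≤ Real.log (Real.log X) := Real.log_le_log (Real.exp_pos 1) h4

end W44
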