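import Pool.Agent.LibW44.F1
import Pool.Agent.LibW44.F2
import Pool.Agent.LibW44.FS

/-! Row F8. Upper bound for the family (as rows F3, F4). -/

namespace W44
open RC91

/-- the pairs `(a, b)` of size at most `X` -/
def Bx (X : ℕ) (d : ℤ) : Set (ℤ × ℤ) :=
  {z | 1 ≤ z.1 ∧ |d| * z.1 ^ 2 ≤ 12 * (X : ℤ) ∧ |d| * z.2 ^ 2 ≤ 69 * (X : ℤ) ^ 3}

private theorem f8_card (u v : ℝ) (hu : 0 ≤ u) (hv : 1 ≤ v) :
    (((Finset.Icc (1 : ℤ) ⌊u⌋ ×ˢ Finset.Icc (-⌊v⌋) ⌊v⌋).card : ℕ) : ℝ) ≤ u * (3 * v) := by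
  have hu0 : 0 ≤ ⌊u⌋ := Int.floor_nonneg.2 hu
  have hv0 : 0 ≤ ⌊v⌋ := Int.floor_nonneg.2 (by linarith)
  rw [Finset.card_product, Int.card_Icc, Int.card_Icc]
  push_cast
  have h1 : (((⌊u⌋ + 1 - 1).toNat : ℕ) : ℝ) = (⌊u⌋ : ℝ) := by
    have h := Int.toNat_of_nonneg (a := ⌊u⌋ + 1 - 1) (by omega)
    have h' : (((⌊u⌋ + 1 - 1).toNat : ℤ) : ℝ) = ((⌊u⌋ + 1 - 1 : ℤ) : ℝ) := by rw [h]
    rw [Int.cast_natCast] at h'
    rw [h']
    push_cast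
    ring
  have h2 : (((⌊v⌋ + 1 - -⌊v⌋).toNat : ℕ) : ℝ) = 2 * (⌊v⌋ : ℝ) + 1 := by
    have h := Int.toNat_of_nonneg (a := ⌊v⌋ + 1 - -⌊v⌋) (by omega)
    have h' : (((⌊v⌋ + 1 - -⌊v⌋).toNat : ℤ) : ℝ) = ((⌊v⌋ + 1 - -⌊v⌋ : ℤ) : ℝ) := by rw [h]
    rw [Int.cast_natCast] at h'
    rw [h']
    push_cast
    ring
  rw [h1, h2]
  have h3 : (⌊u⌋ : ℝ) ≤ u := Int.floor_le u
  have h4 : (⌊v⌋ : ℝ) ≤ v := Int.floor_le v
  have h5 : (0 : ℝ) ≤ (⌊v⌋ : ℝ) := by exact_mod_cast hv0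
  apply mul_le_mul h3 (by linarith) (by linarith) hu

theorem f8_crude : ∃ C : ℝ, 0 < C ∧ ∀ (X : ℕ) (d : ℤ), 1 ≤ X → d ≠ 0 → |d| ≤ 12 * (X : ℤ) →
    (Bx X d).Finite ∧ ((Bx X d).ncard : ℝ) ≤ C * (X : ℝ) ^ 2 / |(d : ℝ)| := by
  refine ⟨87, by norm_num, ?_⟩
  intro X d hX hd hdX
  have hX1 : (1 : ℝ) ≤ (X : ℝ) := by exact_mod_cast hX
  have hD : 0 < |(d : ℝ)| := abs_pos.2 (by exact_mod_cast hd)
  have hDX : |(d : ℝ)| ≤ 12 * (X : ℝ) := by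
    have h : ((|d| : ℤ) : ℝ) ≤ ((12 * (X : ℤ) : ℤ) : ℝ) := by exact_mod_cast hdX
    rw [Int.cast_abs] at h
    push_cast at h
    exact h
  set D : ℝ := |(d : ℝ)| with hDdef
  have hsub : Bx X d ⊆ ((Finset.Icc (1 : ℤ) ⌊√(12 * (X : ℝ) / D)⌋ ×ˢ
      Finset.Icc (-⌊√(69 * (X : ℝ) ^ 3 / D)⌋) ⌊√(69 * (X : ℝ) ^ 3 / D)⌋ : Finset (ℤ × ℤ)) :
        Set (ℤ × ℤ)) := by
    rintro ⟨a, b⟩ ⟨ha1, hda, hdb⟩
    simp only at ha1 hda hdb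
    have hda' : D * (a : ℝ) ^ 2 ≤ 12 * (X : ℝ) := by
      have h : ((|d| * a ^ 2 : ℤ) : ℝ) ≤ ((12 * (X : ℤ) : ℤ) : ℝ) := by exact_mod_cast hda
      push_cast at h
      exact h
    have hdb' : D * (b : ℝ) ^ 2 ≤ 69 * (X : ℝ) ^ 3 := by
      have h : ((|d| * b ^ 2 : ℤ) : ℝ) ≤ ((69 * (X : ℤ) ^ 3 : ℤ) : ℝ) := by exact_mod_cast hdb
      push_cast at h
      exact h
    have h1 : (a : ℝ) ≤ √(12 * (X : ℝ) / D) := by
      apply Real.le_sqrt_of_sq_le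
      rw [le_div_iff₀ hD]
      linarith
    have h2 : |(b : ℝ)| ≤ √(69 * (X : ℝ) ^ 3 / D) := by
      apply Real.abs_le_sqrt
      rw [le_div_iff₀ hD]
      linarith
    have h3 : |b| ≤ ⌊√(69 * (X : ℝ) ^ 3 / D)⌋ := by
      rw [Int.le_floor]
      rw [Int.cast_abs]
      exact h2
    have h4 := abs_le.1 h3
    simp only [Finset.coe_product, Finset.coe_Icc, Set.mem_prod, Set.mem_Icc]
    exact ⟨⟨ha1, Int.le_floor.2 h1⟩, h4.1, h4.2⟩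
  refine ⟨(Finset.finite_toSet _).subset hsub, ?_⟩
  have hcard := Set.ncard_le_ncard hsub (Finset.finite_toSet _)
  rw [Set.ncard_coe_finset] at hcard
  have hv : 1 ≤ √(69 * (X : ℝ) ^ 3 / D) := by
    rw [Real.one_le_sqrt, le_div_iff₀ hD, one_mul]
    have h1 : (X : ℝ) ≤ (X : ℝ) ^ 3 := by
      have h2 : (X : ℝ) ^ 1 ≤ (X : ℝ) ^ 3 := pow_le_pow_right₀ hX1 (by norm_num)
      linarith [pow_one (X : ℝ)]
    linarith
  have hc := f8_card (√(12 * (X : ℝ) / D)) (√(69 * (X : ℝ) ^ 3 / D)) (Real.sqrt_nonneg _) hv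
  have hcard' : ((Bx X d).ncard : ℝ) ≤
      (((Finset.Icc (1 : ℤ) ⌊√(12 * (X : ℝ) / D)⌋ ×ˢ
      Finset.Icc (-⌊√(69 * (X : ℝ) ^ 3 / D)⌋) ⌊√(69 * (X : ℝ) ^ 3 / D)⌋ : Finset (ℤ × ℤ)).card : ℕ) :
        ℝ) := by exact_mod_cast hcard
  refine hcard'.trans (hc.trans ?_)
  have h1 : √(12 * (X : ℝ) / D) * (3 * √(69 * (X : ℝ) ^ 3 / D)) =
      3 * √(12 * (X : ℝ) / D * (69 * (X : ℝ) ^ 3 / D)) := by
    rw [Real.sqrt_mul (by positivity)]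
    ring
  have h2 : √(12 * (X : ℝ) / D * (69 * (X : ℝ) ^ 3 / D)) ≤ 29 * (X : ℝ) ^ 2 / D := by
    rw [Real.sqrt_le_iff]
    refine ⟨by positivity, ?_⟩
    have h3 : 12 * (X : ℝ) / D * (69 * (X : ℝ) ^ 3 / D) = 828 * ((X : ℝ) ^ 2 / D) ^ 2 := by
      field_simp
      ring
    have h4 : (29 * (X : ℝ) ^ 2 / D) ^ 2 = 841 * ((X : ℝ) ^ 2 / D) ^ 2 := by
      field_simp
      ring
    rw [h3, h4]
    have h5 : 0 ≤ ((X : ℝ) ^ 2 / D) ^ 2 := by positivity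
    linarith
  rw [h1]
  have h3 : 87 * (X : ℝ) ^ 2 / D = 3 * (29 * (X : ℝ) ^ 2 / D) := by ring
  rw [h3]
  linarith

private theorem f8_triple (X : ℕ) (hX : 1 ≤ X) (z : ℤ × ℤ) (hz : z ∈ Fam X) :
    ∃ (t : ℤ) (p : ℤ × (ℤ × ℤ)), 3 * t = p.1 * p.2.1 ^ 2 ∧
      z.1 = 2 * p.1 * p.2.1 * p.2.2 - 3 * t ^ 2 ∧
      z.2 = p.1 * p.2.2 ^ 2 - 2 * p.1 * p.2.1 * p.2.2 * t + 2 * t ^ 3 ∧
      Squarefree p.1 ∧ |p.1| ≤ 12 * (X : ℤ) ∧ p.2 ∈ Bx X p.1 := by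
  obtain ⟨h1, h2, h3, h4, t, ht⟩ := hz
  obtain ⟨d, a, b, hd, ha, hb, e1, e2, e3, hn⟩ := param z.1 z.2 t h3 h4 ht
  obtain ⟨s1, s2, s3⟩ := psize X hX z.1 z.2 t d a b h1 h2 ht e1 e2 e3
  refine ⟨t, (d, (a, b)), e1, e2, e3, hd, ?_, ha, s2, s3⟩
  show |d| ≤ 12 * (X : ℤ)
  have h5 : 0 ≤ |d| := abs_nonneg d
  have h6 : 1 ≤ a ^ 2 := by nlinarith
  have h7 := mul_le_mul_of_nonneg_left h6 h5
  rw [mul_one] at h7
  exact h7.trans s2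

theorem fam_le (X : ℕ) (hX : 1 ≤ X) : (Fam X).Finite ∧ ∃ S : Finset ℤ,
    (∀ d ∈ S, Squarefree d ∧ |d| ≤ 12 * (X : ℤ)) ∧
    ((Fam X).ncard : ℝ) ≤ ∑ d ∈ S, ((Bx X d).ncard : ℝ) := by
  classical
  have hfin : (Fam X).Finite := by
    refine ((Set.finite_Icc (-(X : ℤ) ^ 2) ((X : ℤ) ^ 2)).prod
      (Set.finite_Icc (-(X : ℤ) ^ 3) ((X : ℤ) ^ 3))).subset ?_
    rintro z ⟨h1, h2, -⟩
    exact ⟨abs_le.1 h1, abs_le.1 h2⟩
  refine ⟨hfin, (Finset.Icc (-(12 * (X : ℤ))) (12 * (X : ℤ))).filter fun d => Squarefree d,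
    ?_, ?_⟩
  · intro d hd
    rw [Finset.mem_filter, Finset.mem_Icc] at hd
    exact ⟨hd.2, abs_le.2 hd.1⟩
  · obtain ⟨C, -, hC⟩ := f8_crude
    set S := (Finset.Icc (-(12 * (X : ℤ))) (12 * (X : ℤ))).filter fun d => Squarefree d with hS
    have hmem : ∀ d : ℤ, d ∈ S ↔ Squarefree d ∧ |d| ≤ 12 * (X : ℤ) := by
      intro d
      rw [hS, Finset.mem_filter, Finset.mem_Icc, ← abs_le]
      exact and_comm
    have hDf : ∀ d ∈ S, (Bx X d).Finite := by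
      intro d hd
      have h := (hmem d).1 hd
      exact (hC X d hX h.1.ne_zero h.2).1
    obtain ⟨D, hD⟩ : ∃ D : ℤ → Finset (ℤ × ℤ), ∀ d ∈ S, (D d : Set (ℤ × ℤ)) = Bx X d := by
      refine ⟨fun d => if h : (Bx X d).Finite then h.toFinset else ∅, fun d hd => ?_⟩
      simp only [dif_pos (hDf d hd), Set.Finite.coe_toFinset]
    have hex : ∀ z ∈ Fam X, ∃ p : ℤ × (ℤ × ℤ), (∃ t : ℤ, 3 * t = p.1 * p.2.1 ^ 2 ∧
        z.1 = 2 * p.1 * p.2.1 * p.2.2 - 3 * t ^ 2 ∧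
        z.2 = p.1 * p.2.2 ^ 2 - 2 * p.1 * p.2.1 * p.2.2 * t + 2 * t ^ 3) ∧
        p.1 ∈ S ∧ p.2 ∈ Bx X p.1 := by
      intro z hz
      obtain ⟨t, p, e1, e2, e3, e4, e5, e6⟩ := f8_triple X hX z hz
      exact ⟨p, ⟨t, e1, e2, e3⟩, (hmem _).2 ⟨e4, e5⟩, e6⟩
    obtain ⟨g, hg⟩ : ∃ g : ℤ × ℤ → ℤ × (ℤ × ℤ), ∀ z ∈ Fam X,
        (∃ t : ℤ, 3 * t = (g z).1 * (g z).2.1 ^ 2 ∧
        z.1 = 2 * (g z).1 * (g z).2.1 * (g z).2.2 - 3 * t ^ 2 ∧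
        z.2 = (g z).1 * (g z).2.2 ^ 2 - 2 * (g z).1 * (g z).2.1 * (g z).2.2 * t + 2 * t ^ 3) ∧
        (g z).1 ∈ S ∧ (g z).2 ∈ Bx X (g z).1 := by
      refine ⟨fun z => if h : z ∈ Fam X then (hex z h).choose else (0, (0, 0)), fun z hz => ?_⟩
      simp only [dif_pos hz]
      exact (hex z hz).choose_spec
    have hcard : hfin.toFinset.card ≤ (S.sigma D).card := by
      refine Finset.card_le_card_of_injOn (fun z => (⟨(g z).1, (g z).2⟩ : (_ : ℤ) × (ℤ × ℤ)))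
        ?_ ?_
      · intro z hz
        have hz' : z ∈ Fam X := by simpa using hz
        have h := hg z hz'
        simp only [Finset.mem_coe, Finset.mem_sigma]
        refine ⟨h.2.1, ?_⟩
        rw [← Finset.mem_coe, hD _ h.2.1]
        exact h.2.2
      · intro z hz z' hz' hzz
        have h1 : z ∈ Fam X := by simpa using hz
        have h1' : z' ∈ Fam X := by simpa using hz'
        obtain ⟨⟨t, e1, e2, e3⟩, -, -⟩ := hg z h1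
        obtain ⟨⟨t', e1', e2', e3'⟩, -, -⟩ := hg z' h1'
        simp only [Sigma.mk.injEq, heq_eq_eq] at hzz
        obtain ⟨q1, q2⟩ := hzz
        rw [← q1, ← q2] at e1' e2' e3'
        have ht : t = t' := by
          have : 3 * t = 3 * t' := by rw [e1, e1']
          omega
        subst ht
        exact Prod.ext (e2.trans e2'.symm) (e3.trans e3'.symm)
    rw [Set.ncard_eq_toFinset_card _ hfin]
    have h5 : (S.sigma D).card = ∑ d ∈ S, (D d).card := Finset.card_sigma S D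
    have h6 : ∀ d ∈ S, ((Bx X d).ncard : ℝ) = ((D d).card : ℝ) := by
      intro d hd
      rw [← hD d hd, Set.ncard_coe_finset]
    rw [Finset.sum_congr rfl h6]
    rw [h5] at hcard
    exact_mod_cast hcard

theorem fam_upper : ∃ C : ℝ, 0 < C ∧ ∀ X : ℕ, 16 ≤ X → ((Fam X).ncard : ℝ) ≤ C * (X : ℝ) ^ 2 * Real.log X := by
  obtain ⟨C3, hC3, hcr⟩ := f8_crude
  refine ⟨C3 * 12, by positivity, ?_⟩
  intro X hX
  have hX1 : 1 ≤ X := by omega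
  have hXr : (16 : ℝ) ≤ X := by exact_mod_cast hX
  have hX0 : (0 : ℝ) < X := by linarith
  obtain ⟨-, S, hS, hle⟩ := fam_le X hX1
  refine hle.trans ?_
  have h1 : ∀ d ∈ S, ((Bx X d).ncard : ℝ) ≤ C3 * (X : ℝ) ^ 2 * (1 / |(d : ℝ)|) := by
    intro d hd
    have := (hcr X d hX1 (hS d hd).1.ne_zero (hS d hd).2).2
    rw [mul_one_div]
    exact this
  refine (Finset.sum_le_sum h1).trans ?_
  rw [← Finset.mul_sum]
  have h2 := s6_int (12 * X) (1 / 2) (by omega) (by norm_num) (by push_cast; linarith) S (by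
    intro d hd
    have h3 := Int.one_le_abs (hS d hd).1.ne_zero
    have h4 : (1 : ℝ) ≤ |(d : ℝ)| := by exact_mod_cast h3
    refine ⟨by linarith, ?_, (hS d hd).1.ne_zero⟩
    push_cast
    exact (hS d hd).2)
  have h5 : Real.log (((12 * X : ℕ) : ℝ) / (1 / 2)) ≤ 4 + Real.log X := by
    have h6 : ((12 * X : ℕ) : ℝ) / (1 / 2) = 24 * X := by
      push_cast
      ring
    rw [h6, Real.log_mul (by norm_num) hX0.ne']
    have h7 : Real.log 24 ≤ Real.log (2 ^ 5) := Real.log_le_log (by norm_num) (by norm_num)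
    rw [Real.log_pow] at h7
    have h8 := Real.log_two_lt_d9
    push_cast at h7
    linarith
  have h9 : (1 : ℝ) ≤ Real.log X := by
    have h10 := s6_loglog X hX
    by_contra hcon
    push Not at hcon
    have h11 : 0 ≤ Real.log X := Real.log_nonneg (by linarith)
    have h12 : Real.log (Real.log X) ≤ 0 := Real.log_nonpos h11 hcon.le
    linarith
  calc C3 * (X : ℝ) ^ 2 * ∑ d ∈ S, 1 / |(d : ℝ)|
      ≤ C3 * (X : ℝ) ^ 2 * (2 * (1 + (4 + Real.log X))) := by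
        gcongr
        exact h2.trans (by linarith)
    _ ≤ C3 * (X : ℝ) ^ 2 * (12 * Real.log X) :=
        mul_le_mul_of_nonneg_left (by linarith) (by positivity)
    _ = C3 * 12 * (X : ℝ) ^ 2 * Real.log X := by ring

end W44
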