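import Pool.Agent.LibW44.Defs

/-! Row N1. Real cube roots. `|x| > X H^(3/4)`, `H ≥ 10^16`, so `|x| ≥ 10^12 X`; `|d| w² ≤ 2|d|a²x² + 2|d|b² ≤ 24 X x² + 138 X³ ≤ |x|³/100`; so `x > 0` (`y² ≥ 0`) and `y² ≥ 0.99 x³`.
`d > 0`: `ρ = √d`, `A, A'` = the real cube roots of `y ± w ρ` (cube root of a real number of either sign), `A A' = x` (injectivity of `t³`), `s = A + A'`, `t = (A - A')/ρ`;
`s > 0` as `s (s² - 3x) = 2 y > 0`, `s² = 4 x + d t² ≥ 4 x`. `d < 0`: `β = y + i w √|d| ∈ ℂ`, `|β|² = x³`, `Re β = y > 0`; take the principal cube root `A = β^(1/3)` (`|arg| ≤ π/6`), `|A|² = x`, `s = 2 Re A ≥ √3 |A|`,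
so `s² ≥ 3 x`, `t = 2 Im A/√|d|`. (`e1, e2, e3` = real and imaginary parts of `A³ = β`, `|A|² = x`.) `e3` can also be checked as `A³ + A'³ = 2 y`. -/

namespace W44
open RC91

/-- a root `s ≥ √(3x)` of `s³ - 3 x s = 2 y` -/
theorem n1_root {x y : ℝ} (hx : 0 < x) (hy : 0 < y) :
    ∃ s : ℝ, 0 < s ∧ 3 * x ≤ s ^ 2 ∧ s ^ 3 - 3 * x * s = 2 * y := by
  have h0 : 0 < √(3 * x) := Real.sqrt_pos.2 (by positivity)
  have h1 : √(3 * x) ^ 2 = 3 * x := Real.sq_sqrt (by positivity)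
  have hab : √(3 * x) ≤ √(3 * x) + 2 * y + 1 := by linarith
  have hc : ContinuousOn (fun s : ℝ => s ^ 3 - 3 * x * s) (Set.Icc (√(3 * x)) (√(3 * x) + 2 * y + 1)) :=
    Continuous.continuousOn (by fun_prop)
  have h2 := intermediate_value_Icc hab hc
  have h3 : (2 * y) ∈ Set.Icc ((fun s : ℝ => s ^ 3 - 3 * x * s) (√(3 * x)))
      ((fun s : ℝ => s ^ 3 - 3 * x * s) (√(3 * x) + 2 * y + 1)) := by
    constructor
    · show √(3 * x) ^ 3 - 3 * x * √(3 * x) ≤ 2 * y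
      have : √(3 * x) ^ 3 = √(3 * x) ^ 2 * √(3 * x) := by ring
      rw [this, h1]
      linarith
    · show 2 * y ≤ (√(3 * x) + 2 * y + 1) ^ 3 - 3 * x * (√(3 * x) + 2 * y + 1)
      have h4 : 1 ≤ (√(3 * x) + 2 * y + 1) ^ 2 - 3 * x := by
        have : (√(3 * x) + 2 * y + 1) ^ 2 - 3 * x =
            √(3 * x) ^ 2 - 3 * x + 2 * √(3 * x) * (2 * y + 1) + 4 * y ^ 2 + 4 * y + 1 := by ring
        rw [this, h1]
        have h5 : 0 ≤ 2 * √(3 * x) * (2 * y + 1) := by positivity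
        nlinarith
      have h6 : 2 * y ≤ √(3 * x) + 2 * y + 1 := by linarith
      have h7 : (√(3 * x) + 2 * y + 1) ^ 3 - 3 * x * (√(3 * x) + 2 * y + 1) =
          (√(3 * x) + 2 * y + 1) * ((√(3 * x) + 2 * y + 1) ^ 2 - 3 * x) := by ring
      rw [h7]
      calc 2 * y = 2 * y * 1 := by ring
        _ ≤ (√(3 * x) + 2 * y + 1) * ((√(3 * x) + 2 * y + 1) ^ 2 - 3 * x) :=
          mul_le_mul h6 h4 (by norm_num) (by linarith)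
  obtain ⟨s, hs, hs'⟩ := h2 h3
  refine ⟨s, h0.trans_le hs.1, ?_, hs'⟩
  calc 3 * x = √(3 * x) ^ 2 := h1.symm
    _ ≤ s ^ 2 := pow_le_pow_left₀ h0.le hs.1 2

/-- the abscissa is positive -/
theorem n1_pos (X : ℕ) (d : ℤ) (hd : d ≠ 0) (hH : 10 ^ 16 * |d| ≤ (X : ℤ)) (q : Pt)
    (h : Lg X d q) : 0 < q.x := by
  have hd1 : 1 ≤ |d| := Int.one_le_abs hd
  have hd0 : 0 < |d| := by omega
  have hX : 0 < (X : ℤ) := by linarith
  -- `10^12 X < |x|`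
  have h1 : (10 ^ 12 * (X : ℤ)) ^ 4 < |q.x| ^ 4 := by
    have h2 : (10 ^ 16 * |d|) ^ 3 ≤ (X : ℤ) ^ 3 := pow_le_pow_left₀ (by positivity) hH 3
    have h3 : |d| ^ 3 * (10 ^ 12 * (X : ℤ)) ^ 4 < |d| ^ 3 * |q.x| ^ 4 := by
      calc |d| ^ 3 * (10 ^ 12 * (X : ℤ)) ^ 4 = (10 ^ 16 * |d|) ^ 3 * (X : ℤ) ^ 4 := by ring
        _ ≤ (X : ℤ) ^ 3 * (X : ℤ) ^ 4 := mul_le_mul_of_nonneg_right h2 (by positivity)
        _ = (X : ℤ) ^ 7 := by ring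
        _ < |d| ^ 3 * q.x ^ 4 := h.big
        _ = |d| ^ 3 * |q.x| ^ 4 := by rw [Even.pow_abs ⟨2, rfl⟩]
    exact lt_of_mul_lt_mul_left h3 (by positivity)
  have h4 : 10 ^ 12 * (X : ℤ) < |q.x| := lt_of_pow_lt_pow_left₀ 4 (abs_nonneg _) h1
  -- the size of `d w^2`
  have h5 : 100 * (|d| * q.w ^ 2) ≤ |q.x| ^ 3 := by
    have h6 : q.w ^ 2 ≤ 2 * (q.a ^ 2 * q.x ^ 2) + 2 * q.b ^ 2 := by
      unfold Pt.w
      nlinarith [sq_nonneg (q.a * q.x - q.b)]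
    have h7 : |d| * q.w ^ 2 ≤ 24 * X * |q.x| ^ 2 + 138 * (X : ℤ) ^ 3 := by
      calc |d| * q.w ^ 2 ≤ |d| * (2 * (q.a ^ 2 * q.x ^ 2) + 2 * q.b ^ 2) :=
            mul_le_mul_of_nonneg_left h6 hd0.le
        _ = 2 * (|d| * q.a ^ 2) * q.x ^ 2 + 2 * (|d| * q.b ^ 2) := by ring
        _ ≤ 2 * (12 * X) * q.x ^ 2 + 2 * (69 * (X : ℤ) ^ 3) :=
            add_le_add (mul_le_mul_of_nonneg_right (mul_le_mul_of_nonneg_left h.adm.da (by norm_num))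
              (sq_nonneg _)) (mul_le_mul_of_nonneg_left h.adm.db (by norm_num))
        _ = 24 * X * |q.x| ^ 2 + 138 * (X : ℤ) ^ 3 := by rw [sq_abs]; ring
    have h8 : (X : ℤ) ≤ |q.x| := by linarith
    have h9 : (X : ℤ) ^ 3 ≤ X * |q.x| ^ 2 := by
      calc (X : ℤ) ^ 3 = X * (X : ℤ) ^ 2 := by ring
        _ ≤ X * |q.x| ^ 2 := mul_le_mul_of_nonneg_left (pow_le_pow_left₀ hX.le h8 2) hX.le
    have h10 : 10 ^ 12 * (X : ℤ) * |q.x| ^ 2 ≤ |q.x| * |q.x| ^ 2 :=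
      mul_le_mul_of_nonneg_right h4.le (by positivity)
    have h11 : |q.x| ^ 3 = |q.x| * |q.x| ^ 2 := by ring
    have h12 : 0 ≤ (X : ℤ) * |q.x| ^ 2 := by positivity
    rw [h11]
    nlinarith
  by_contra hneg
  have hx : q.x ≤ 0 := not_lt.1 hneg
  have h13 : |q.x| = -q.x := abs_of_nonpos hx
  have h14 : 0 < |q.x| := by linarith [mul_pos (show (0 : ℤ) < 10 ^ 12 by norm_num) hX]
  have h15 : 0 < |q.x| ^ 3 := by positivity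
  have h16 : d * q.w ^ 2 ≤ |d| * q.w ^ 2 := mul_le_mul_of_nonneg_right (le_abs_self d) (sq_nonneg _)
  have h17 : q.x ^ 3 = -|q.x| ^ 3 := by rw [h13]; ring
  have h18 := h.adm.eq
  rw [h17] at h18
  nlinarith [sq_nonneg q.y]

theorem rp_exists (X : ℕ) (d : ℤ) (hd : d ≠ 0) (hH : 10 ^ 16 * |d| ≤ (X : ℤ)) (q : Pt) (h : Lg X d q) :
    0 < q.x ∧ ∃ s t : ℝ, RP d q s t := by
  have hx := n1_pos X d hd hH q h
  refine ⟨hx, ?_⟩
  have hx' : (0 : ℝ) < q.x := by exact_mod_cast hx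
  have hy' : (0 : ℝ) < q.y := by exact_mod_cast h.ypos
  obtain ⟨s, hs0, hs1, hs2⟩ := n1_root hx' hy'
  have hw : (q.y : ℝ) ^ 2 = (q.x : ℝ) ^ 3 + d * (q.w : ℝ) ^ 2 := by exact_mod_cast h.adm.eq
  have hpos : 0 < s ^ 2 - q.x := by linarith
  have hne : s ^ 2 - q.x ≠ 0 := hpos.ne'
  have ht : (d : ℝ) * (2 * q.w / (s ^ 2 - q.x)) ^ 2 = s ^ 2 - 4 * q.x := by
    rw [div_pow, mul_div_assoc', div_eq_iff (pow_ne_zero 2 hne)]
    have h1 : (4 : ℝ) * (q.y : ℝ) ^ 2 = (s ^ 3 - 3 * q.x * s) ^ 2 := by rw [hs2]; ring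
    linear_combination (-4 : ℝ) * hw + h1
  refine ⟨s, 2 * q.w / (s ^ 2 - q.x), ?_, ?_, ?_, hs0, hs1⟩
  · rw [ht]
    ring
  · rw [ht, div_mul_eq_mul_div, div_eq_iff hne]
    ring
  · have h2 : 3 * (d : ℝ) * (2 * q.w / (s ^ 2 - q.x)) ^ 2 = 3 * (s ^ 2 - 4 * q.x) := by
      rw [mul_assoc, ht]
    rw [h2]
    linear_combination 4 * hs2

end W44
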