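import Pool.Agent.LibW44.N9

/-! Row N10. Integrality in the gap principle. `ε₀ = emb ρ`; `A₁ = (s + ε₀ t)/2`, `B₁ = (s - ε₀ t)/2`, `A₂, B₂` the same for `q'`, `t₁ = (2/3) ε₀ a`, `t₂ = (2/3) ε₀ a'`,
`Φ = t₁²A₂ + A₁B₁A₂ - t₁t₂A₁ - t₂B₁² - A₁²B₂ + t₁B₁B₂`, `Φ' = t₁²B₂ + A₁B₁B₂ - t₁t₂B₁ + t₂A₁² - B₁²A₂ - t₁A₁A₂`: `Φ + Φ' = gP`, `Φ - Φ' = ε₀ gR` (both `ring` with `ε₀² = d`; checked), so
`4 (Φ³ + Φ'³) = gP (gP² + 3 d gR²)`. `9 Φ` is integral over ℤ in ℂ (`A_i³, B_i³, ε₀²` are integral, `9 t₁² = 4 d a²`, `9 t = 6 ε₀ a`). `Φ = A₁ · emb κ`, `Φ' = B₁ · emb κ̄` with `κ ∈ K`: `A₂ = A₁ emb g`, `B₂ = B₁ emb ḡ`, `A₁B₁ = x`,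
`B₁² = emb(ᾱ) A₁/x`, `κ = t₁²g + x g - t₁t₂ - t₂ᾱ/x - xḡ + t₁ᾱḡ/x` (with `t_i = (2/3)ρ a_i`), so `729 Φ³ = emb(729 α κ³)`, integral in `K` (emb injective), its trace `729 (ακ³ + conj)` is an integer `n` (`int_tr` or `M4_rat`).
`n = 0`: `ακ³ = -conj`, so `ακ³ = r ρ`; `κ ≠ 0` would make `α` a cube (`rho_cube`), contradiction with `¬ Cb` (`cube_cb`); `κ = 0`: `Φ = Φ' = 0`, `gP = gR = 0`. Then Par: with `ξ^(j) = ω^j A - ω^(2j) B - t`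
(`ω` a cube root of unity), `N₁ := ξ₁^(0) ξ₁^(1) ξ₁^(2) = 2 ε₀ b - t₁³ ≠ 0` (`27 b ≠ 4 d a³`) and `ξ₁^(1)ξ₁^(2)ξ₂^(0)`, `ξ₁^(0)ξ₁^(2)ξ₂^(1)`, `ξ₁^(0)ξ₁^(1)ξ₂^(2)` are all equal (`= Φ₀`): so `ξ₂^(j) = λ ξ₁^(j)`: `(a', s', t') = λ (a, s, t)`. Real version:
`gP = 0` (`ξ₁ ≠ 0` since the identity `ξ (3 s² + d (ξ + 2a)²) = 8 b - (32/27) d a³ ≠ 0`) gives `s (ξ₂ + 2a') = s' (ξ₁ + 2a)`, and then `gR = 0` gives `ξ₂ = (s'/s) ξ₁` (`3 s² + d(ξ₁+2a)² ≠ 0`), so `a' = (s'/s) a` and Par. -/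

namespace W44
open RC91 NumberField

/-- the sum of the two components -/
theorem n10_P (d : ℤ) (a a' : ℤ) (s t s' t' : ℝ) (ε : ℂ) (hsq : ε ^ 2 = (d : ℂ))
    (A1 B1 A2 B2 T1 T2 : ℂ) (hA1 : A1 = ((s : ℂ) + ε * t) / 2) (hB1 : B1 = ((s : ℂ) - ε * t) / 2)
    (hA2 : A2 = ((s' : ℂ) + ε * t') / 2) (hB2 : B2 = ((s' : ℂ) - ε * t') / 2)
    (hT1 : T1 = 2 / 3 * (ε * a)) (hT2 : T2 = 2 / 3 * (ε * a')) :
    (T1 ^ 2 * A2 + A1 * B1 * A2 - T1 * T2 * A1 - T2 * B1 ^ 2 - A1 ^ 2 * B2 + T1 * B1 * B2) +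
      (T1 ^ 2 * B2 + A1 * B1 * B2 - T1 * T2 * B1 + T2 * A1 ^ 2 - B1 ^ 2 * A2 - T1 * A1 * A2) =
      ((gP d (a, s, t) (a', s', t') : ℝ) : ℂ) := by
  unfold gP xi
  push_cast
  subst hA1 hB1 hA2 hB2 hT1 hT2
  linear_combination ((4 / 9 : ℂ) * a ^ 2 * s' - t ^ 2 * s' / 2 - 4 / 9 * a * a' * s +
    2 / 3 * a' * t * s + s * t * t' / 2 - 1 / 3 * a * (s * t' + s' * t)) * hsq

/-- the difference of the two components -/
theorem n10_R (d : ℤ) (a a' : ℤ) (s t s' t' : ℝ) (ε : ℂ) (hsq : ε ^ 2 = (d : ℂ))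
    (A1 B1 A2 B2 T1 T2 : ℂ) (hA1 : A1 = ((s : ℂ) + ε * t) / 2) (hB1 : B1 = ((s : ℂ) - ε * t) / 2)
    (hA2 : A2 = ((s' : ℂ) + ε * t') / 2) (hB2 : B2 = ((s' : ℂ) - ε * t') / 2)
    (hT1 : T1 = 2 / 3 * (ε * a)) (hT2 : T2 = 2 / 3 * (ε * a')) :
    (T1 ^ 2 * A2 + A1 * B1 * A2 - T1 * T2 * A1 - T2 * B1 ^ 2 - A1 ^ 2 * B2 + T1 * B1 * B2) -
      (T1 ^ 2 * B2 + A1 * B1 * B2 - T1 * T2 * B1 + T2 * A1 ^ 2 - B1 ^ 2 * A2 - T1 * A1 * A2) =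
      ε * ((gR d (a, s, t) (a', s', t') : ℝ) : ℂ) := by
  unfold gR xi
  push_cast
  subst hA1 hB1 hA2 hB2 hT1 hT2
  linear_combination (ε * ((4 / 9 : ℂ) * a ^ 2 * t' - 4 / 9 * a * a' * t - 1 / 3 * a' * t ^ 2 +
    1 / 3 * a * t * t')) * hsq

/-- parallel vectors, the real computation -/
theorem n10_par (d : ℤ) (hd : d ≠ 0) (a b a' : ℤ) (s t s' t' : ℝ) (hs : 0 < s)
    (hF : Fb d (a, s, t) = 8 * b) (hns : 27 * b ≠ 4 * d * a ^ 3)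
    (hP : gP d (a, s, t) (a', s', t') = 0) (hR : gR d (a, s, t) (a', s', t') = 0) :
    Par (a, s, t) (a', s', t') := by
  have hd' : (d : ℝ) ≠ 0 := by exact_mod_cast hd
  obtain ⟨ξ, hξ⟩ : ∃ ξ : ℝ, ξ = t - 2 / 3 * a := ⟨_, rfl⟩
  obtain ⟨ξ', hξ'⟩ : ∃ ξ : ℝ, ξ = t' - 2 / 3 * a' := ⟨_, rfl⟩
  have hid : ξ * (3 * s ^ 2 + d * (ξ + 2 * a) ^ 2) ≠ 0 := by
    intro h0
    apply hns
    have h1 : (27 * b : ℝ) = 4 * d * a ^ 3 := by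
      have h2 : t * (3 * s ^ 2 + d * t ^ 2) - 2 * a * (s ^ 2 - d * t ^ 2) = 8 * b := hF
      rw [hξ] at h0
      linear_combination (27 / 8 : ℝ) * h0 - (27 / 8 : ℝ) * h2
    exact_mod_cast h1
  have hξ0 : ξ ≠ 0 := left_ne_zero_of_mul hid
  have hD : 3 * s ^ 2 + d * (ξ + 2 * a) ^ 2 ≠ 0 := right_ne_zero_of_mul hid
  have hP' : s * (ξ' + 2 * a') = s' * (ξ + 2 * a) := by
    have h1 : d * ξ / 2 * (s * (ξ' + 2 * a') - s' * (ξ + 2 * a)) = 0 := by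
      rw [hξ, hξ']
      exact hP
    have h2 : (d : ℝ) * ξ / 2 ≠ 0 := div_ne_zero (mul_ne_zero hd' hξ0) two_ne_zero
    exact sub_eq_zero.1 ((mul_eq_zero.1 h1).resolve_left h2)
  have hR' : ξ' * (d * (ξ + 2 * a) ^ 2 + 3 * s ^ 2) =
      ξ * (d * (ξ + 2 * a) * (ξ' + 2 * a') + 3 * s * s') := by
    have h1 : 1 / 6 * (ξ' * (d * (ξ + 2 * a) ^ 2 + 3 * s ^ 2) -
        ξ * (d * (ξ + 2 * a) * (ξ' + 2 * a') + 3 * s * s')) = 0 := by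
      rw [hξ, hξ']
      exact hR
    have h2 : (1 / 6 : ℝ) ≠ 0 := by norm_num
    exact sub_eq_zero.1 ((mul_eq_zero.1 h1).resolve_left h2)
  -- `s ξ' = s' ξ`
  have h3 : s * ξ' = s' * ξ := by
    have h4 : (s * ξ' - s' * ξ) * (3 * s ^ 2 + d * (ξ + 2 * a) ^ 2) = 0 := by
      linear_combination s * hR' + (ξ * d * (ξ + 2 * a)) * hP'
    exact sub_eq_zero.1 ((mul_eq_zero.1 h4).resolve_right hD)
  have h5 : s * a' = s' * a := by linear_combination (1 / 2 : ℝ) * hP' - (1 / 2 : ℝ) * h3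
  refine ⟨?_, ?_⟩
  · change (a : ℝ) * s' = a' * s
    linear_combination -h5
  · change (a : ℝ) * t' = a' * t
    have h6 : s * (a * t') = s * (a' * t) := by
      have e1 : t' = ξ' + 2 / 3 * a' := by rw [hξ']; ring
      have e2 : t = ξ + 2 / 3 * a := by rw [hξ]; ring
      rw [e1, e2]
      linear_combination a * h3 - ξ * h5
    exact mul_left_cancel₀ hs.ne' h6

theorem gap_pair {d : ℤ} {K : Type} [Field K] [NumberField K] (h : QF d K) (hd : Squarefree d) (h1 : d ≠ 1)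
    (q q' : Pt) (s t s' t' : ℝ) (hx : q.x ≠ 0) (hx' : q'.x ≠ 0)
    (e : q.y ^ 2 = q.x ^ 3 + d * q.w ^ 2) (e' : q'.y ^ 2 = q'.x ^ 3 + d * q'.w ^ 2)
    (r : RP d q s t) (r' : RP d q' s' t') (hr : Rel d s t s' t') (hcb : ¬ Cb d q)
    (hns : 27 * q.b ≠ 4 * d * q.a ^ 3) :
    ∃ n : ℤ, 729 * (gP d (q.a, s, t) (q'.a, s', t') * (gP d (q.a, s, t) (q'.a, s', t') ^ 2 +
      3 * d * gR d (q.a, s, t) (q'.a, s', t') ^ 2)) = 4 * n ∧ (n = 0 → Par (q.a, s, t) (q'.a, s', t')) := by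
  obtain ⟨g, -, -, hg3, hg4⟩ := rel_al h q q' s t s' t' r r' hr
  obtain ⟨hp1, hp2, hp3⟩ := rp_emb h q s t r
  obtain ⟨hq1, hq2, -⟩ := rp_emb h q' s' t' r'
  obtain ⟨ε, hε⟩ : ∃ ε, ε = h.emb h.rho := ⟨_, rfl⟩
  have hsq : ε ^ 2 = (d : ℂ) := by rw [hε, ← map_pow, h.sq, map_intCast]
  have hε0 : ε ≠ 0 := by
    rw [hε, Ne, map_eq_zero]
    exact n9_rho0 h
  rw [← hε] at hg3 hg4 hp1 hp2 hp3 hq1 hq2
  obtain ⟨A1, hA1⟩ : ∃ A1, A1 = ((s : ℂ) + ε * t) / 2 := ⟨_, rfl⟩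
  obtain ⟨B1, hB1⟩ : ∃ A1, A1 = ((s : ℂ) - ε * t) / 2 := ⟨_, rfl⟩
  obtain ⟨A2, hA2⟩ : ∃ A1, A1 = ((s' : ℂ) + ε * t') / 2 := ⟨_, rfl⟩
  obtain ⟨B2, hB2⟩ : ∃ A1, A1 = ((s' : ℂ) - ε * t') / 2 := ⟨_, rfl⟩
  obtain ⟨T1, hT1⟩ : ∃ T, T = 2 / 3 * (ε * q.a) := ⟨_, rfl⟩
  obtain ⟨T2, hT2⟩ : ∃ T, T = 2 / 3 * (ε * q'.a) := ⟨_, rfl⟩
  rw [← hA1] at hp1 hp3 hg3
  rw [← hB1] at hp2 hp3 hg4
  rw [← hA2] at hg3 hq1
  rw [← hB2] at hg4 hq2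
  have hxC : (q.x : ℂ) ≠ 0 := by exact_mod_cast hx
  have hxK : (q.x : K) ≠ 0 := by exact_mod_cast hx
  have hA0 : A1 ≠ 0 := by
    intro h0
    rw [h0, zero_mul] at hp3
    exact hxC hp3.symm
  have hB0 : B1 ≠ 0 := by
    intro h0
    rw [h0, mul_zero] at hp3
    exact hxC hp3.symm
  have eP := n10_P d q.a q'.a s t s' t' ε hsq A1 B1 A2 B2 T1 T2 hA1 hB1 hA2 hB2 hT1 hT2
  have eR := n10_R d q.a q'.a s t s' t' ε hsq A1 B1 A2 B2 T1 T2 hA1 hB1 hA2 hB2 hT1 hT2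
  obtain ⟨Φ, hΦ⟩ : ∃ Φ, Φ = T1 ^ 2 * A2 + A1 * B1 * A2 - T1 * T2 * A1 - T2 * B1 ^ 2 -
    A1 ^ 2 * B2 + T1 * B1 * B2 := ⟨_, rfl⟩
  obtain ⟨Φ', hΦ'⟩ : ∃ Φ, Φ = T1 ^ 2 * B2 + A1 * B1 * B2 - T1 * T2 * B1 + T2 * A1 ^ 2 -
    B1 ^ 2 * A2 - T1 * A1 * A2 := ⟨_, rfl⟩
  rw [← hΦ, ← hΦ'] at eP eR
  -- the element of the field
  obtain ⟨α, hα⟩ : ∃ α, α = al h q.y q.w := ⟨_, rfl⟩
  rw [← hα] at hp1 hp2
  obtain ⟨β, hβ⟩ : ∃ β, β = h.conj α / (q.x : K) := ⟨_, rfl⟩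
  have hcβ : h.conj β = α / (q.x : K) := by
    rw [hβ, map_div₀, K2_inv, map_intCast]
  have hβA : A1 * h.emb β = B1 ^ 2 := by
    rw [hβ, map_div₀, map_intCast, ← hp2, ← hp3]
    field_simp
  have hβB : B1 * h.emb (h.conj β) = A1 ^ 2 := by
    rw [hcβ, map_div₀, map_intCast, ← hp1, ← hp3]
    field_simp
  obtain ⟨u1, hu1⟩ : ∃ u : K, u = 2 / 3 * (h.rho * q.a) := ⟨_, rfl⟩
  obtain ⟨u2, hu2⟩ : ∃ u : K, u = 2 / 3 * (h.rho * q'.a) := ⟨_, rfl⟩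
  have hu1e : h.emb u1 = T1 := by
    rw [hu1, hT1, hε, map_mul, map_mul, map_div₀, map_ofNat, map_ofNat, map_intCast]
  have hu2e : h.emb u2 = T2 := by
    rw [hu2, hT2, hε, map_mul, map_mul, map_div₀, map_ofNat, map_ofNat, map_intCast]
  have hu1c : h.conj u1 = -u1 := by
    rw [hu1, map_mul, map_mul, map_div₀, map_ofNat, map_ofNat, map_intCast, h.conj_rho]
    ring
  have hu2c : h.conj u2 = -u2 := by
    rw [hu2, map_mul, map_mul, map_div₀, map_ofNat, map_ofNat, map_intCast, h.conj_rho]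
    ring
  obtain ⟨κ, hκ⟩ : ∃ κ : K, κ = u1 ^ 2 * g + q.x * g - u1 * u2 - u2 * β - q.x * h.conj g +
    u1 * β * h.conj g := ⟨_, rfl⟩
  have hκc : h.conj κ = u1 ^ 2 * h.conj g + q.x * h.conj g - u1 * u2 + u2 * h.conj β - q.x * g -
      u1 * h.conj β * g := by
    rw [hκ]
    simp only [map_add, map_sub, map_mul, map_pow, hu1c, hu2c, map_intCast, K2_inv]
    ring
  have k1 : A1 * h.emb κ = Φ := by
    rw [hκ, hΦ]
    simp only [map_add, map_sub, map_mul, map_pow, hu1e, hu2e, map_intCast]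
    linear_combination (-T1 ^ 2 - A1 * B1) * hg3 + (A1 ^ 2 - T1 * B1) * hg4 +
      (-T2 + T1 * h.emb (h.conj g)) * hβA + (-A1 * h.emb g + A1 * h.emb (h.conj g)) * hp3
  have k2 : B1 * h.emb (h.conj κ) = Φ' := by
    rw [hκc, hΦ']
    simp only [map_add, map_sub, map_mul, map_pow, hu1e, hu2e, map_intCast]
    linear_combination (-T1 ^ 2 - A1 * B1) * hg4 + (B1 ^ 2 + T1 * A1) * hg3 +
      (T2 - T1 * h.emb g) * hβB + (-B1 * h.emb (h.conj g) + B1 * h.emb g) * hp3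
  -- integrality
  have iA1 : A1 ∈ integralClosure ℤ ℂ := by
    refine IsIntegral.of_pow (n := 3) (by norm_num) ?_
    rw [hp1, hα]
    exact (K2_alint h _ _).map h.emb.toIntAlgHom
  have iB1 : B1 ∈ integralClosure ℤ ℂ := by
    refine IsIntegral.of_pow (n := 3) (by norm_num) ?_
    rw [hp2, hα]
    exact (K2_int h _ (K2_alint h _ _)).map h.emb.toIntAlgHom
  have iA2 : A2 ∈ integralClosure ℤ ℂ := by
    refine IsIntegral.of_pow (n := 3) (by norm_num) ?_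
    rw [hq1]
    exact (K2_alint h _ _).map h.emb.toIntAlgHom
  have iB2 : B2 ∈ integralClosure ℤ ℂ := by
    refine IsIntegral.of_pow (n := 3) (by norm_num) ?_
    rw [hq2]
    exact (K2_int h _ (K2_alint h _ _)).map h.emb.toIntAlgHom
  have iZ : ∀ n : ℤ, (n : ℂ) ∈ integralClosure ℤ ℂ := fun n =>
    isIntegral_algebraMap (R := ℤ) (A := ℂ) (x := n)
  have iε : ε ∈ integralClosure ℤ ℂ := by
    refine IsIntegral.of_pow (n := 2) (by norm_num) ?_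
    rw [hsq]
    exact iZ d
  have iΦ : 9 * Φ ∈ integralClosure ℤ ℂ := by
    have h2 : 9 * Φ = ((4 : ℤ) : ℂ) * ε ^ 2 * (q.a : ℂ) ^ 2 * A2 + ((9 : ℤ) : ℂ) * A1 * B1 * A2 -
        ((4 : ℤ) : ℂ) * ε ^ 2 * q.a * q'.a * A1 - ((6 : ℤ) : ℂ) * ε * q'.a * B1 ^ 2 -
        ((9 : ℤ) : ℂ) * A1 ^ 2 * B2 + ((6 : ℤ) : ℂ) * ε * q.a * B1 * B2 := by
      rw [hΦ, hT1, hT2]
      push_cast
      ring
    rw [h2]
    refine add_mem (sub_mem (sub_mem (sub_mem (add_mem ?_ ?_) ?_) ?_) ?_) ?_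
    · exact mul_mem (mul_mem (mul_mem (iZ _) (pow_mem iε _)) (pow_mem (iZ _) _)) iA2
    · exact mul_mem (mul_mem (mul_mem (iZ _) iA1) iB1) iA2
    · exact mul_mem (mul_mem (mul_mem (mul_mem (iZ _) (pow_mem iε _)) (iZ _)) (iZ _)) iA1
    · exact mul_mem (mul_mem (mul_mem (iZ _) iε) (iZ _)) (pow_mem iB1 _)
    · exact mul_mem (mul_mem (iZ _) (pow_mem iA1 _)) iB2
    · exact mul_mem (mul_mem (mul_mem (mul_mem (iZ _) iε) (iZ _)) iB1) iB2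
  obtain ⟨ζ, hζ⟩ : ∃ ζ : K, ζ = 729 * (α * κ ^ 3) := ⟨_, rfl⟩
  have z1 : h.emb ζ = 729 * Φ ^ 3 := by
    rw [hζ, ← k1, map_mul, map_mul, map_pow, map_ofNat, ← hp1]
    ring
  have z2 : h.emb (h.conj ζ) = 729 * Φ' ^ 3 := by
    rw [hζ, ← k2]
    simp only [map_mul, map_pow, map_ofNat]
    rw [← hp2]
    ring
  have iζ : IsIntegral ℤ ζ := by
    have h2 : IsIntegral ℤ (h.emb ζ) := by
      rw [z1, show (729 : ℂ) * Φ ^ 3 = (9 * Φ) ^ 3 by ring]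
      exact IsIntegral.pow iΦ 3
    exact (isIntegral_algHom_iff h.emb.toIntAlgHom h.emb.injective).1 h2
  obtain ⟨p, hp⟩ := K2_fix h (ζ + h.conj ζ) (by rw [map_add, K2_inv]; ring)
  obtain ⟨n, hn⟩ := M4_rat (K := K) p (by rw [← hp]; exact iζ.add (K2_int h _ iζ))
  have hpn : ζ + h.conj ζ = (n : K) := by
    rw [hp, hn]
    simp
  refine ⟨n, ?_, ?_⟩
  · have h2 : (729 : ℂ) * (Φ ^ 3 + Φ' ^ 3) = n := by
      have h3 := congrArg h.emb hpn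
      rw [map_add, z1, z2, map_intCast] at h3
      rw [← h3]
      ring
    have h3 : ((729 * (gP d (q.a, s, t) (q'.a, s', t') * (gP d (q.a, s, t) (q'.a, s', t') ^ 2 +
      3 * d * gR d (q.a, s, t) (q'.a, s', t') ^ 2)) : ℝ) : ℂ) = ((4 * n : ℝ) : ℂ) := by
      push_cast
      rw [← eP, ← h2]
      have h4 : (d : ℂ) * ((gR d (q.a, s, t) (q'.a, s', t') : ℝ) : ℂ) ^ 2 = (Φ - Φ') ^ 2 := by
        rw [eR, ← hsq]
        ring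
      linear_combination (3 * 729 * (Φ + Φ')) * h4
    exact_mod_cast h3
  · intro hn0
    rw [hn0, Int.cast_zero] at hpn
    -- `κ = 0`
    have hκ0 : κ = 0 := by
      by_contra hκ0
      obtain ⟨r1, r2, hr12⟩ := h.span (α * κ ^ 3)
      have h3 : h.conj (α * κ ^ 3) = (r1 : K) - (r2 : K) * h.rho := by rw [hr12, M4_conj]
      have h4 : (729 : K) * ((α * κ ^ 3) + h.conj (α * κ ^ 3)) = 0 := by
        have h5 : h.conj (729 * (α * κ ^ 3)) = 729 * h.conj (α * κ ^ 3) := by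
          rw [map_mul, map_ofNat]
        rw [← hpn, hζ, h5]
        ring
      rw [h3, hr12] at h4
      have h5 : (r1 : K) = 0 := by
        have h6 : (1458 : K) * (r1 : K) = 0 := by linear_combination h4
        exact (mul_eq_zero.1 h6).resolve_left (by norm_num)
      rw [h5, zero_add] at hr12
      rw [hα] at hr12
      obtain ⟨k, hk⟩ := rho_cube h q.x q.y q.w hx e κ hκ0 r2 hr12
      exact hcb (cube_cb h hd h1 q hx e k hk)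
    have hΦ0 : Φ = 0 := by rw [← k1, hκ0, map_zero, mul_zero]
    have hΦ0' : Φ' = 0 := by rw [← k2, hκ0, map_zero, map_zero, mul_zero]
    rw [hΦ0, hΦ0'] at eP eR
    have hP0 : gP d (q.a, s, t) (q'.a, s', t') = 0 := by
      have h2 : ((gP d (q.a, s, t) (q'.a, s', t') : ℝ) : ℂ) = 0 := by rw [← eP]; ring
      exact_mod_cast h2
    have hR0 : gR d (q.a, s, t) (q'.a, s', t') = 0 := by
      have h2 : ((gR d (q.a, s, t) (q'.a, s', t') : ℝ) : ℂ) = 0 := by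
        have h3 : ε * ((gR d (q.a, s, t) (q'.a, s', t') : ℝ) : ℂ) = 0 := by rw [← eR]; ring
        exact (mul_eq_zero.1 h3).resolve_left hε0
      exact_mod_cast h2
    have hd0 : d ≠ 0 := hd.ne_zero
    refine n10_par d hd0 q.a q.b q'.a s t s' t' r.pos ?_ hns hP0 hR0
    have h2 := r.e1
    have h3 := r.e2
    change t * (3 * s ^ 2 + d * t ^ 2) - 2 * q.a * (s ^ 2 - d * t ^ 2) = 8 * q.b
    rw [h2, h3]
    have h4 : (q.w : ℝ) = q.a * q.x + q.b := by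
      unfold Pt.w
      push_cast
      ring
    rw [h4]
    ring

end W44
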