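import Pool.Agent.LibW44.Defs

/-! Row N3. `cc d w x` (RC91) is the product of the primes `p > 3`, `p ∣ w`, `p ∤ d`, `p ∣ x`. Each such prime divides `y² = x³ + d w²`, `b = w - a x`. `c ∣ b ≠ 0`, so `c ≤ |b| ≤ √69 G ≤ 9 G`. -/

namespace W44
open RC91

theorem n3_mem {d w x : ℤ} {p : ℕ} (hp : p ∈ w.natAbs.primeFactors.filter
    (fun p : ℕ => 3 < p ∧ ¬ ((p : ℤ) ∣ d) ∧ (p : ℤ) ∣ x)) :
    p.Prime ∧ (p : ℤ) ∣ w ∧ 3 < p ∧ ¬ ((p : ℤ) ∣ d) ∧ (p : ℤ) ∣ x := by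
  rw [Finset.mem_filter, Nat.mem_primeFactors] at hp
  exact ⟨hp.1.1, Int.natCast_dvd.2 hp.1.2.1, hp.2.1, hp.2.2.1, hp.2.2.2⟩

theorem n3_dvd {d w x n : ℤ} (h : ∀ p : ℕ, p.Prime → (p : ℤ) ∣ w → (p : ℤ) ∣ x → (p : ℤ) ∣ n) :
    ((cc d w x : ℕ) : ℤ) ∣ n := by
  rw [Int.natCast_dvd]
  unfold cc
  apply Finset.prod_primes_dvd
  · intro p hp
    exact (n3_mem hp).1.prime
  · intro p hp
    obtain ⟨h1, h2, _, _, h5⟩ := n3_mem hp
    exact Int.natCast_dvd.1 (h p h1 h2 h5)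

theorem cc_facts (X : ℕ) (d : ℤ) (hd : d ≠ 0) (q : Pt) (h : Adm X d q) (hw : q.w ≠ 0) :
    ((cc d q.w q.x : ℕ) : ℤ) ∣ q.b ∧ ((cc d q.w q.x : ℕ) : ℤ) ∣ q.x ∧ ((cc d q.w q.x : ℕ) : ℤ) ∣ q.y ∧
    ((cc d q.w q.x : ℕ) : ℤ) ∣ q.w ∧ Squarefree (cc d q.w q.x) ∧ IsCoprime ((cc d q.w q.x : ℕ) : ℤ) (6 * d) ∧
    1 ≤ cc d q.w q.x ∧ ((cc d q.w q.x : ℕ) : ℝ) ≤ 9 * Gg X d := by
  have hb : ((cc d q.w q.x : ℕ) : ℤ) ∣ q.b := by
    apply n3_dvd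
    intro p _ h1 h2
    have h3 : q.b = q.w - q.a * q.x := by
      unfold Pt.w
      ring
    rw [h3]
    exact dvd_sub h1 (dvd_mul_of_dvd_right h2 _)
  refine ⟨hb, n3_dvd fun p _ _ h2 => h2, n3_dvd fun p hp h1 h2 => ?_, n3_dvd fun p _ h1 _ => h1,
    ?_, ?_, ?_, ?_⟩
  · have hpi : Prime (p : ℤ) := Nat.prime_iff_prime_int.1 hp
    apply hpi.dvd_of_dvd_pow (n := 2)
    rw [h.eq]
    exact dvd_add (dvd_pow h2 (by norm_num)) (dvd_mul_of_dvd_right (dvd_pow h1 two_ne_zero) _)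
  · unfold cc
    apply Finset.squarefree_prod_of_pairwise_isCoprime
    · intro a ha b hb' hab
      have h1 := (n3_mem ha).1
      have h2 := (n3_mem hb').1
      exact Nat.coprime_iff_isRelPrime.1 ((Nat.coprime_primes h1 h2).2 hab)
    · intro p hp
      exact (n3_mem hp).1.squarefree
  · unfold cc
    push_cast
    apply IsCoprime.prod_left
    intro p hp
    obtain ⟨h1, _, h3, h4, _⟩ := n3_mem hp
    have hpi : Prime (p : ℤ) := Nat.prime_iff_prime_int.1 h1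
    rw [hpi.irreducible.coprime_iff_not_dvd]
    intro h5
    rcases hpi.dvd_or_dvd h5 with h6 | h6
    · have h7 : p ∣ 2 * 3 := by exact_mod_cast h6
      rcases h1.dvd_mul.1 h7 with h8 | h8
      · exact absurd (Nat.le_of_dvd (by norm_num) h8) (by omega)
      · exact absurd (Nat.le_of_dvd (by norm_num) h8) (by omega)
    · exact h4 h6
  · unfold cc
    exact Finset.prod_pos fun p hp => (n3_mem hp).1.pos
  · have hd0 : (0 : ℝ) < |(d : ℝ)| := abs_pos.2 (by exact_mod_cast hd)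
    have h1 : ((cc d q.w q.x : ℕ) : ℤ) ≤ |q.b| :=
      Int.le_of_dvd (abs_pos.2 h.b0) ((dvd_abs _ _).2 hb)
    have h2 : ((cc d q.w q.x : ℕ) : ℝ) ≤ |(q.b : ℝ)| := by exact_mod_cast h1
    refine h2.trans ?_
    have h3 : |(d : ℝ)| * (q.b : ℝ) ^ 2 ≤ 69 * (X : ℝ) ^ 3 := by exact_mod_cast h.db
    have h4 : (q.b : ℝ) ^ 2 ≤ 69 * ((X : ℝ) ^ 3 / |(d : ℝ)|) := by
      rw [mul_div_assoc', le_div_iff₀ hd0]
      linarith
    have h5 : Gg X d ^ 2 = (X : ℝ) ^ 3 / |(d : ℝ)| := Real.sq_sqrt (by positivity)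
    have h6 : 0 ≤ Gg X d := Real.sqrt_nonneg _
    rw [← h5] at h4
    apply abs_le_of_sq_le_sq _ (by positivity)
    nlinarith [sq_nonneg (Gg X d)]

end W44
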