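import Pool.Agent.LibRC91.K2
import Pool.Agent.LibRC91.M4
import Pool.Agent.LibW44.Defs

/-! Row N8a. Divisibility in the ring of integers, elementary. `2 z = u + v ρ` with integers `u, v` for integral `z` (`M4_half`), conversely use `IsIntegral`. `int_sqf`: `(c e)³ = c² (c e³)` is integral, so `c e` is integral
(`IsIntegral.of_pow`), `2 c e = m + n ρ`. For a prime `p ∣ c` (`p ∤ 6d`): `8 c² (c e³) = (m + nρ)³` and `c e³` is integral, so `2·8 c² | ` the coordinates of `2 (m + nρ)³`... i.e. `p²` divides `2 m (m² + 3 n² d)` and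
`2 n (3 m² + n² d)`; `p ∣ m` and `p ∣ n` (if neither: `p ∣ 3(m² + 3n²d) - (3m² + n²d) = 8 n² d`; if only one: `p ∣ n² d` or `p ∣ m²`). So `c ∣ m, n` (squarefree) and `2 e = m' + n' ρ`, `(2e)` integral; then `e` integral:
`(e)³·c` integral and `8 e³` integral, `gcd(c, 8) = 1` (`c` is odd), so `e³` is integral. `int_tr`: `z + conj z` is an integer, `z - conj z = n ρ` with an integer `n` (from `2 z = u + v ρ`: `z + conj z = u`, `z - conj z = v ρ`). -/

namespace W44
open RC91 NumberField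

variable {d : ℤ} {K : Type} [Field K] [NumberField K]

theorem int_tr (h : QF d K) (hd : Squarefree d) (z : K) (hz : IsIntegral ℤ z) :
    ∃ u v : ℤ, z + h.conj z = (u : K) ∧ z - h.conj z = (v : K) * h.rho := by
  obtain ⟨u, v, huv⟩ := M4_half h hd z hz
  refine ⟨u, v, ?_, ?_⟩
  · have h1 : 2 * h.conj z = (u : K) - (v : K) * h.rho := by
      have h2 := congrArg h.conj huv
      rw [map_mul, map_add, map_mul, map_intCast, map_intCast, h.conj_rho, map_ofNat] at h2
      rw [h2]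
      ring
    have h2 : (2 : K) ≠ 0 := two_ne_zero
    apply mul_left_cancel₀ h2
    linear_combination huv + h1
  · have h1 : 2 * h.conj z = (u : K) - (v : K) * h.rho := by
      have h2 := congrArg h.conj huv
      rw [map_mul, map_add, map_mul, map_intCast, map_intCast, h.conj_rho, map_ofNat] at h2
      rw [h2]
      ring
    have h2 : (2 : K) ≠ 0 := two_ne_zero
    apply mul_left_cancel₀ h2
    linear_combination huv - h1

private theorem n8a_rho0 (h : QF d K) : h.rho ≠ 0 := by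
  intro h0
  apply K2_nsq h 0
  rw [h0]
  simp

/-- integer coordinates are unique -/
theorem n8a_coord (h : QF d K) (u v u' v' : ℤ) (e : (u : K) + (v : K) * h.rho = (u' : K) + (v' : K) * h.rho) :
    u = u' ∧ v = v' := by
  have hv : v = v' := by
    by_contra hne
    have h1 : ((v : K) - (v' : K)) * h.rho = (u' : K) - (u : K) := by linear_combination e
    have h2 : ((v : K) - (v' : K)) ≠ 0 := by
      intro h3
      apply hne
      have : (v : K) = (v' : K) := sub_eq_zero.1 h3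
      exact_mod_cast this
    apply K2_nsq h (((u' : ℚ) - u) / ((v : ℚ) - v'))
    push_cast
    rw [div_eq_iff h2, mul_comm, h1]
  refine ⟨?_, hv⟩
  subst hv
  have : (u : K) = (u' : K) := by linear_combination e
  exact_mod_cast this

private theorem n8a_prime (m n d u v p : ℤ) (hp : Prime p) (hp2 : ¬ p ∣ 2) (hpd : ¬ p ∣ d)
    (h1 : p ∣ m * (m ^ 2 + 3 * d * n ^ 2)) (h2 : p ∣ n * (3 * m ^ 2 + d * n ^ 2)) (hp3 : ¬ p ∣ 3) :
    p ∣ m ∧ p ∣ n := by
  have hdn : ∀ k : ℤ, p ∣ d * k ^ 2 → p ∣ k := fun k hk =>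
    (hp.dvd_or_dvd hk).elim (fun h => absurd h hpd) (fun h => hp.dvd_of_dvd_pow h)
  by_cases hm : p ∣ m
  · refine ⟨hm, ?_⟩
    rcases hp.dvd_or_dvd h2 with h3 | h3
    · exact h3
    · apply hdn
      have h4 : p ∣ 3 * m ^ 2 := Dvd.dvd.mul_left (hm.trans (dvd_pow_self m two_ne_zero)) 3
      exact (dvd_add_right h4).1 h3
  · exfalso
    have h3 := (hp.dvd_or_dvd h1).resolve_left hm
    by_cases hn : p ∣ n
    · apply hm
      have h4 : p ∣ 3 * d * n ^ 2 := Dvd.dvd.mul_left (hn.trans (dvd_pow_self n two_ne_zero)) _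
      exact hp.dvd_of_dvd_pow ((dvd_add_left h4).1 h3)
    · have h4 := (hp.dvd_or_dvd h2).resolve_left hn
      have h5 : p ∣ 2 * (2 * (2 * (d * n ^ 2))) := by
        have h6 := dvd_sub (Dvd.dvd.mul_left h3 3) h4
        have h7 : 3 * (m ^ 2 + 3 * d * n ^ 2) - (3 * m ^ 2 + d * n ^ 2) = 2 * (2 * (2 * (d * n ^ 2))) := by ring
        rwa [h7] at h6
      have h6 := (hp.dvd_or_dvd h5).resolve_left hp2
      have h7 := (hp.dvd_or_dvd h6).resolve_left hp2
      have h8 := (hp.dvd_or_dvd h7).resolve_left hp2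
      exact hn (hdn n h8)

theorem n8a_rhoint (h : QF d K) : IsIntegral ℤ h.rho := by
  refine IsIntegral.of_pow (n := 2) (by norm_num) ?_
  rw [h.sq]
  exact isIntegral_algebraMap (R := ℤ) (A := K) (x := d)

theorem int_sqf (h : QF d K) (hd : Squarefree d) (c : ℕ) (hc : Squarefree c) (hc6 : IsCoprime (c : ℤ) (6 * d))
    (e : K) (he : IsIntegral ℤ ((c : K) * e ^ 3)) : IsIntegral ℤ e := by
  have hc0 : (c : K) ≠ 0 := by
    have : c ≠ 0 := hc.ne_zero
    exact_mod_cast this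
  have hint : ∀ n : ℤ, IsIntegral ℤ (n : K) := fun n => isIntegral_algebraMap (R := ℤ) (A := K) (x := n)
  have hcint : IsIntegral ℤ (c : K) := by simpa using hint (c : ℤ)
  have h1 : IsIntegral ℤ ((c : K) * e) := by
    refine IsIntegral.of_pow (n := 3) (by norm_num) ?_
    have h2 : ((c : K) * e) ^ 3 = (c : K) ^ 2 * ((c : K) * e ^ 3) := by ring
    rw [h2]
    exact (hcint.pow 2).mul he
  obtain ⟨m, n, hmn⟩ := M4_half h hd _ h1
  obtain ⟨u, v, huv⟩ := M4_half h hd _ he
  have h2 : ((m * (m ^ 2 + 3 * d * n ^ 2) : ℤ) : K) + ((n * (3 * m ^ 2 + d * n ^ 2) : ℤ) : K) * h.rho =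
      ((4 * c ^ 2 * u : ℤ) : K) + ((4 * c ^ 2 * v : ℤ) : K) * h.rho := by
    have h3 : (2 * ((c : K) * e)) ^ 3 = 4 * (c : K) ^ 2 * (2 * ((c : K) * e ^ 3)) := by ring
    rw [hmn, huv] at h3
    push_cast
    linear_combination h3 - ((n : K) ^ 3 * h.rho + 3 * (m : K) * (n : K) ^ 2) * h.sq
  obtain ⟨h3, h4⟩ := n8a_coord h _ _ _ _ h2
  have hall : ∀ p ∈ c.primeFactors, (p : ℤ) ∣ m ∧ (p : ℤ) ∣ n := by
    intro p hp
    have hpp := Nat.prime_of_mem_primeFactors hp
    have hpc : (p : ℤ) ∣ (c : ℤ) := by exact_mod_cast Nat.dvd_of_mem_primeFactors hp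
    have hpI : Prime (p : ℤ) := Nat.prime_iff_prime_int.1 hpp
    have hnd : ∀ k : ℤ, k ∣ 6 * d → ¬ (p : ℤ) ∣ k := by
      intro k hk hpk
      exact hpI.not_unit (hc6.isUnit_of_dvd' hpc (hpk.trans hk))
    have e1 : (p : ℤ) ∣ m * (m ^ 2 + 3 * d * n ^ 2) := by
      rw [h3]
      exact Dvd.dvd.mul_right (Dvd.dvd.mul_left (hpc.trans (dvd_pow_self _ two_ne_zero)) 4) u
    have e2 : (p : ℤ) ∣ n * (3 * m ^ 2 + d * n ^ 2) := by
      rw [h4]
      exact Dvd.dvd.mul_right (Dvd.dvd.mul_left (hpc.trans (dvd_pow_self _ two_ne_zero)) 4) v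
    exact n8a_prime m n d u v p hpI (hnd 2 ⟨3 * d, by ring⟩) (hnd d ⟨6, by ring⟩) e1 e2
      (hnd 3 ⟨2 * d, by ring⟩)
  have hcp : ∀ k : ℤ, (∀ p ∈ c.primeFactors, (p : ℤ) ∣ k) → (c : ℤ) ∣ k := by
    intro k hk
    have h5 : ∏ p ∈ c.primeFactors, p ∣ k.natAbs := by
      apply Finset.prod_primes_dvd
      · intro p hp
        exact Nat.prime_iff.1 (Nat.prime_of_mem_primeFactors hp)
      · intro p hp
        exact Int.natCast_dvd.1 (hk p hp)
    rw [Nat.prod_primeFactors_of_squarefree hc] at h5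
    exact Int.natCast_dvd.2 h5
  obtain ⟨m', hm'⟩ := hcp m (fun p hp => (hall p hp).1)
  obtain ⟨n', hn'⟩ := hcp n (fun p hp => (hall p hp).2)
  have h5 : 2 * e = (m' : K) + (n' : K) * h.rho := by
    apply mul_left_cancel₀ hc0
    have h6 : 2 * ((c : K) * e) = ((c * m' : ℤ) : K) + ((c * n' : ℤ) : K) * h.rho := by
      rw [← hm', ← hn']; exact hmn
    push_cast at h6
    linear_combination h6
  have h6 : IsIntegral ℤ (2 * e) := by
    rw [h5]
    exact (hint m').add ((hint n').mul (n8a_rhoint h))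
  have hcop : IsCoprime (c : ℤ) 8 := by
    have h7 : IsCoprime (c : ℤ) 2 := hc6.of_isCoprime_of_dvd_right ⟨3 * d, by ring⟩
    have h8 := h7.pow_right (n := 3)
    norm_num at h8
    exact h8
  obtain ⟨x, y, hxy⟩ := hcop
  refine IsIntegral.of_pow (n := 3) (by norm_num) ?_
  have h7 : e ^ 3 = (x : K) * ((c : K) * e ^ 3) + (y : K) * (2 * e) ^ 3 := by
    have h8 : ((x * c + y * 8 : ℤ) : K) = 1 := by rw [hxy]; simp
    push_cast at h8
    linear_combination -e ^ 3 * h8
  rw [h7]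
  exact ((hint x).mul he).add ((hint y).mul (h6.pow 3))

end W44
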