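import Pool.Agent.LibW44.N7
import Pool.Agent.LibW44.N8a

/-! Row N8. Integrality of `b` of a difference. `g` from `rel_al`, `α = al q`, `α' = al q' = α g³`. `κ₁ := α g`, `κ₂ := α g²`: `κ₁³ = α² α'`, `κ₂³ = α α'²`; `(κ_i/c)³ = ` product of three of `α/c, α'/c` which are integral (`c ∣ y, w`), so
`κ_i / c` is integral. `ε := x ḡ / c`: `ε³ c = (α/c)·conj(α'/c)` (`x³ = α ᾱ`, `K2_al`), so `ε` is integral (`int_sqf`). With `z - z' = (a - a', s - s', t - t')`, `A = A_q (1 - emb g)`: the real number `Fb d (z - z')` satisfies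
`(Fb : ℂ) · ε₀ = 4 (A³ - A'³) - 8 ε₀ (a - a') A A'`, `ε₀ = emb ρ` (`A = (S + ε₀ T)/2`, `A' = (S - ε₀ T)/2`; `ring` with `ε₀² = d`), and
`A³ - A'³ = emb [α - ᾱ - 3 (κ₁ - κ̄₁) + 3 (κ₂ - κ̄₂) - (α' - ᾱ')]`, `A A' = emb [x + x' - (x g + x ḡ)]`. By `int_tr`: `α - ᾱ = 2 w ρ`, `κ_i - κ̄_i = c v_i ρ`, `x g + x ḡ = c u`. So
`Fb = 4 (2 w - 2 w' - 3 c v₁ + 3 c v₂) - 8 (a - a')(x + x' - c u) = 4 c n` (as `c ∣ w, w', x, x'`). -/

namespace W44
open RC91 NumberField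

theorem int_pair {d : ℤ} {K : Type} [Field K] [NumberField K] (h : QF d K) (hd : Squarefree d) (c : ℕ)
    (hc : Squarefree c) (hc6 : IsCoprime (c : ℤ) (6 * d)) (q q' : Pt) (s t s' t' : ℝ)
    (hx : q.x ≠ 0) (hx' : q'.x ≠ 0) (e : q.y ^ 2 = q.x ^ 3 + d * q.w ^ 2) (e' : q'.y ^ 2 = q'.x ^ 3 + d * q'.w ^ 2)
    (r : RP d q s t) (r' : RP d q' s' t') (hr : Rel d s t s' t')
    (hc1 : (c : ℤ) ∣ q.x ∧ (c : ℤ) ∣ q.y ∧ (c : ℤ) ∣ q.w) (hc2 : (c : ℤ) ∣ q'.x ∧ (c : ℤ) ∣ q'.y ∧ (c : ℤ) ∣ q'.w) :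
    ∃ n : ℤ, Fb d (((q.a, s, t) : ℤ × ℝ × ℝ) - (q'.a, s', t')) = 4 * c * n := by
  obtain ⟨g, hg1, hg2, hg3, hg4⟩ := rel_al h q q' s t s' t' r r' hr
  obtain ⟨hA, hB, hAB⟩ := rp_emb h q s t r
  obtain ⟨⟨x1, hx1⟩, ⟨y1, hy1⟩, ⟨w1, hw1⟩⟩ := hc1
  obtain ⟨⟨x2, hx2⟩, ⟨y2, hy2⟩, ⟨w2, hw2⟩⟩ := hc2
  have hc0 : (c : K) ≠ 0 := by
    have : c ≠ 0 := hc.ne_zero
    exact_mod_cast this
  set β : K := al h y1 w1 with hβ
  set β' : K := al h y2 w2 with hβ'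
  have hβi : IsIntegral ℤ β := K2_alint h y1 w1
  have hβi' : IsIntegral ℤ β' := K2_alint h y2 w2
  have hα : al h q.y q.w = (c : K) * β := by
    rw [hβ, hy1, hw1]; unfold al; push_cast; ring
  have hα' : al h q'.y q'.w = (c : K) * β' := by
    rw [hβ', hy2, hw2]; unfold al; push_cast; ring
  have hbb : β' = β * g ^ 3 := by
    apply mul_left_cancel₀ hc0
    rw [← hα', hg1, hα]
    ring
  -- integrality
  have k1 : IsIntegral ℤ (β * g) := by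
    refine IsIntegral.of_pow (n := 3) (by norm_num) ?_
    have h1 : (β * g) ^ 3 = β ^ 2 * β' := by rw [hbb]; ring
    rw [h1]
    exact (hβi.pow 2).mul hβi'
  have k2 : IsIntegral ℤ (β * g ^ 2) := by
    refine IsIntegral.of_pow (n := 3) (by norm_num) ?_
    have h1 : (β * g ^ 2) ^ 3 = β * β' ^ 2 := by rw [hbb]; ring
    rw [h1]
    exact hβi.mul (hβi'.pow 2)
  have hn := K2_al h q.x q.y q.w (by rw [e]; ring)
  have hcc : h.conj (c : K) = (c : K) := map_natCast _ _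
  have k3 : IsIntegral ℤ ((x1 : K) * h.conj g) := by
    apply int_sqf h hd c hc hc6
    have h1 : (c : K) * ((x1 : K) * h.conj g) ^ 3 = β * h.conj β' := by
      have hxc : (q.x : K) = (c : K) * (x1 : K) := by rw [hx1]; push_cast; ring
      rw [hα, map_mul, hcc, hxc] at hn
      have h2 : (c : K) ^ 2 * (β * h.conj β) = (c : K) ^ 2 * ((c : K) * (x1 : K) ^ 3) := by
        linear_combination hn
      have h3 : β * h.conj β = (c : K) * (x1 : K) ^ 3 := mul_left_cancel₀ (pow_ne_zero 2 hc0) h2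
      rw [hbb, map_mul, map_pow]
      linear_combination -(h.conj g) ^ 3 * h3
    rw [h1]
    exact hβi.mul (K2_int h _ hβi')
  obtain ⟨_, v1, _, hv1⟩ := int_tr h hd _ k1
  obtain ⟨_, v2, _, hv2⟩ := int_tr h hd _ k2
  obtain ⟨u, _, hu, _⟩ := int_tr h hd _ k3
  have hxi : h.conj (x1 : K) = (x1 : K) := map_intCast _ _
  rw [map_mul, K2_inv, hxi] at hu
  rw [map_mul] at hv1
  rw [map_mul, map_pow] at hv2
  -- the complex numbers
  set E : ℂ := h.emb h.rho with hE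
  have hE2 : E ^ 2 = (d : ℂ) := by rw [hE, ← map_pow, h.sq, map_intCast]
  have hrho : h.rho ≠ 0 := by
    intro h0
    apply K2_nsq h 0
    rw [h0]
    simp
  have hE0 : E ≠ 0 := by
    rw [hE]
    exact (map_ne_zero h.emb).2 hrho
  refine ⟨2 * w1 - 2 * w2 - 3 * v1 + 3 * v2 - 2 * (q.a - q'.a) * (x1 + x2 - u), ?_⟩
  -- conj of `β`
  have hcb : h.conj β = al h y1 (-w1) := K2_conjal h y1 w1
  have hcb' : h.conj β' = al h y2 (-w2) := K2_conjal h y2 w2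
  have hw : β - h.conj β = 2 * (w1 : K) * h.rho := by
    rw [hcb, hβ]; unfold al; push_cast; ring
  have hw' : β' - h.conj β' = 2 * (w2 : K) * h.rho := by
    rw [hcb', hβ']; unfold al; push_cast; ring
  have hcbb : h.conj β' = h.conj β * h.conj g ^ 3 := by rw [hbb, map_mul, map_pow]
  -- identity in K
  have hxx2 : (x2 : K) = (x1 : K) * (g * h.conj g) := by
    apply mul_left_cancel₀ hc0
    have h1 : (q'.x : K) = (c : K) * (x2 : K) := by rw [hx2]; push_cast; ring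
    have h2 : (q.x : K) = (c : K) * (x1 : K) := by rw [hx1]; push_cast; ring
    rw [h1, h2] at hg2
    linear_combination hg2
  have hK : 4 * ((c : K) * β * (1 - g) ^ 3 - (c : K) * h.conj β * (1 - h.conj g) ^ 3) -
      8 * h.rho * ((q.a : K) - (q'.a : K)) * ((c : K) * (x1 : K) * ((1 - g) * (1 - h.conj g))) =
      h.rho * (4 * (c : K) * ((2 * w1 - 2 * w2 - 3 * v1 + 3 * v2 - 2 * (q.a - q'.a) * (x1 + x2 - u) : ℤ) : K)) := by
    push_cast
    linear_combination (4 * (c : K)) * hw - (4 * (c : K)) * hw' + 4 * (c : K) * hbb - 4 * (c : K) * hcbb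
      - 12 * (c : K) * hv1 + 12 * (c : K) * hv2
      + 8 * h.rho * ((q.a : K) - (q'.a : K)) * (c : K) * hu
      + 8 * h.rho * ((q.a : K) - (q'.a : K)) * (c : K) * hxx2
  have hC := congrArg h.emb hK
  simp only [map_sub, map_mul, map_pow, map_add, map_intCast, map_natCast, map_ofNat, map_one] at hC
  -- the left side
  have hP : ((s : ℂ) + E * t) / 2 * (1 - h.emb g) = (((s - s' : ℝ) : ℂ) + E * ((t - t' : ℝ) : ℂ)) / 2 := by
    push_cast
    linear_combination hg3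
  have hM : ((s : ℂ) - E * t) / 2 * (1 - h.emb (h.conj g)) = (((s - s' : ℝ) : ℂ) - E * ((t - t' : ℝ) : ℂ)) / 2 := by
    push_cast
    linear_combination hg4
  rw [hα, map_mul, map_natCast] at hA
  rw [hα, map_mul, map_mul, hcc, map_natCast] at hB
  have hABx : ((s : ℂ) + E * t) / 2 * (((s : ℂ) - E * t) / 2) = (c : ℂ) * (x1 : ℂ) := by
    rw [hAB, hx1]; push_cast; ring
  have hfin : ((Fb d (((q.a, s, t) : ℤ × ℝ × ℝ) - (q'.a, s', t')) : ℝ) : ℂ) * E =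
      ((4 * c * ((2 * w1 - 2 * w2 - 3 * v1 + 3 * v2 - 2 * (q.a - q'.a) * (x1 + x2 - u) : ℤ) : ℝ) : ℝ) : ℂ) * E := by
    have h1 : ((Fb d (((q.a, s, t) : ℤ × ℝ × ℝ) - (q'.a, s', t')) : ℝ) : ℂ) * E =
        4 * (((((s - s' : ℝ) : ℂ) + E * ((t - t' : ℝ) : ℂ)) / 2) ^ 3 - ((((s - s' : ℝ) : ℂ) - E * ((t - t' : ℝ) : ℂ)) / 2) ^ 3)
        - 8 * E * ((q.a : ℂ) - (q'.a : ℂ)) * (((((s - s' : ℝ) : ℂ) + E * ((t - t' : ℝ) : ℂ)) / 2) *
          ((((s - s' : ℝ) : ℂ) - E * ((t - t' : ℝ) : ℂ)) / 2)) := by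
      unfold Fb
      simp only [Prod.fst_sub, Prod.snd_sub]
      push_cast
      rw [← hE2]
      ring
    rw [h1, ← hP, ← hM, mul_pow, mul_pow, hA, hB]
    have h2 : ((s : ℂ) + E * t) / 2 * (1 - h.emb g) * (((s : ℂ) - E * t) / 2 * (1 - h.emb (h.conj g))) =
        (c : ℂ) * (x1 : ℂ) * ((1 - h.emb g) * (1 - h.emb (h.conj g))) := by
      rw [← hABx]; ring
    rw [h2]
    push_cast
    push_cast at hC
    rw [hC]
    ring
  have := mul_right_cancel₀ hE0 hfin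
  exact_mod_cast this

end W44
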