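import Pool.Agent.LibW44.N2
import Pool.Agent.LibW44.N3
import Pool.Agent.LibW44.N8
import Pool.Agent.LibW44.N10
import Pool.Agent.LibRC91.K1

/-! Row N11. Assemble `VS` from N2, N3, N8, N9, N10. `K` and `h : QF d K` from `RC91.K1`. `w ≠ 0`: if `w = 0` then `y² = x³`, `x = m²` hmm `x = r²`, `y = r³` and `Cb` with `m = 2 r`, `n = 0`. For the image set unfold `Set.mem_image`; two points `q, q'` with the
same `(a, s, t)`: not needed. `Fb d (a, s, t) = 8 w - 8 a x = 8 b` from `e1, e2`. `0 < q.x` is part of the hypotheses (row N1). -/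

namespace W44
open RC91 NumberField

private theorem n11_w {d : ℤ} (q : Pt) (hx : 0 < q.x) (e : q.y ^ 2 = q.x ^ 3 + d * q.w ^ 2)
    (hc : ¬ Cb d q) : q.w ≠ 0 := by
  intro hw
  apply hc
  rw [hw] at e
  have e1 : q.y ^ 2 = q.x ^ 2 * q.x := by rw [e]; ring
  have h1 : q.x ^ 2 ∣ q.y ^ 2 := ⟨q.x, e1⟩
  have h2 : q.x ∣ q.y := (Int.pow_dvd_pow_iff two_ne_zero).1 h1
  obtain ⟨r, hr⟩ := h2
  rw [hr, mul_pow] at e1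
  have h3 : r ^ 2 = q.x := mul_left_cancel₀ (pow_ne_zero 2 hx.ne') e1
  refine ⟨2 * r, 0, ?_, ?_⟩
  · rw [← h3]; ring
  · rw [hw]; ring

theorem vs_mk {d : ℤ} (hd : Squarefree d) (h1 : d ≠ 1) (X : ℕ) (hH : 10 ^ 16 * |d| ≤ (X : ℤ)) (c : ℕ)
    (T : Finset Pt) (s t : Pt → ℝ)
    (hT : ∀ q ∈ T, Lg X d q ∧ 0 < q.x ∧ RP d q (s q) (t q) ∧ cc d q.w q.x = c ∧ ¬ Cb d q)
    (hr : ∀ q ∈ T, ∀ q' ∈ T, Rel d (s q) (t q) (s q') (t q')) :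
    VS X d c ((fun q : Pt => ((q.a, s q, t q) : ℤ × ℝ × ℝ)) '' (T : Set Pt)) := by
  obtain ⟨K, iF, iN, ⟨h⟩⟩ := K1 d hd h1
  have hd0 : d ≠ 0 := hd.ne_zero
  have hcc : ∀ q ∈ T, ((c : ℕ) : ℤ) ∣ q.b ∧ ((c : ℕ) : ℤ) ∣ q.x ∧ ((c : ℕ) : ℤ) ∣ q.y ∧
      ((c : ℕ) : ℤ) ∣ q.w ∧ Squarefree c ∧ IsCoprime ((c : ℕ) : ℤ) (6 * d) := by
    intro q hq
    obtain ⟨hL, hx, hR, hc, hn⟩ := hT q hq
    have h2 := cc_facts X d hd0 q hL.adm (n11_w q hx hL.adm.eq hn)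
    rw [hc] at h2
    exact ⟨h2.1, h2.2.1, h2.2.2.1, h2.2.2.2.1, h2.2.2.2.2.1, h2.2.2.2.2.2.1⟩
  refine ⟨?_, ?_, ?_, ?_, ?_, ?_, ?_⟩
  · rintro z ⟨q, hq, rfl⟩
    have hL := (hT q (Finset.mem_coe.1 hq)).1
    exact ⟨hL.adm.a1, hL.adm.da⟩
  · rintro z ⟨q, hq, rfl⟩
    have hq' := Finset.mem_coe.1 hq
    obtain ⟨hL, hx, hR, hc, hn⟩ := hT q hq'
    refine ⟨q.b, ?_, (hcc q hq').1, hL.adm.b0, hL.adm.db, hL.adm.ns⟩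
    show t q * (3 * s q ^ 2 + d * t q ^ 2) - 2 * (q.a : ℝ) * (s q ^ 2 - d * t q ^ 2) = 8 * q.b
    rw [hR.e1, hR.e2]
    unfold Pt.w
    push_cast
    ring
  · rintro z ⟨q, hq, rfl⟩ z' ⟨q', hq', rfl⟩
    have hq1 := Finset.mem_coe.1 hq
    have hq2 := Finset.mem_coe.1 hq'
    obtain ⟨hL, hx, hR, hc, hn⟩ := hT q hq1
    obtain ⟨hL', hx', hR', hc', hn'⟩ := hT q' hq2
    obtain ⟨-, c1, c2, c3, c4, c5⟩ := hcc q hq1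
    obtain ⟨-, c1', c2', c3', -, -⟩ := hcc q' hq2
    exact int_pair h hd c c4 c5 q q' (s q) (t q) (s q') (t q') hx.ne' hx'.ne' hL.adm.eq hL'.adm.eq
      hR hR' (hr q hq1 q' hq2) ⟨c1, c2, c3⟩ ⟨c1', c2', c3'⟩
  · rintro z ⟨q, hq, rfl⟩ z' ⟨q', hq', rfl⟩ ha hF
    have hq1 := Finset.mem_coe.1 hq
    have hq2 := Finset.mem_coe.1 hq'
    obtain ⟨hL, hx, hR, hc, hn⟩ := hT q hq1
    obtain ⟨hL', hx', hR', hc', hn'⟩ := hT q' hq2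
    have h3 := nt_pair h hd h1 q q' (s q) (t q) (s q') (t q') hx.ne' hx'.ne' hL.adm.eq
      hR hR' (hr q hq1 q' hq2) hn ha hF
    have ha' : q.a = q'.a := ha
    show (q.a, s q, t q) = (q'.a, s q', t q')
    rw [ha', h3.1, h3.2]
  · rintro z ⟨q, hq, rfl⟩
    have hq' := Finset.mem_coe.1 hq
    obtain ⟨hL, hx, hR, hc, hn⟩ := hT q hq'
    exact ⟨hR.pos, (rp_size X d hd0 hH q hL hx (s q) (t q) hR).2.1⟩
  · rintro z ⟨q, hq, rfl⟩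
    have hq' := Finset.mem_coe.1 hq
    obtain ⟨hL, hx, hR, hc, hn⟩ := hT q hq'
    exact (rp_size X d hd0 hH q hL hx (s q) (t q) hR).1
  · rintro z ⟨q, hq, rfl⟩ z' ⟨q', hq', rfl⟩
    have hq1 := Finset.mem_coe.1 hq
    have hq2 := Finset.mem_coe.1 hq'
    obtain ⟨hL, hx, hR, hc, hn⟩ := hT q hq1
    obtain ⟨hL', hx', hR', hc', hn'⟩ := hT q' hq2
    exact gap_pair h hd h1 q q' (s q) (t q) (s q') (t q') hx.ne' hx'.ne' hL.adm.eq hL'.adm.eq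
      hR hR' (hr q hq1 q' hq2) hn hL.adm.ns

end W44
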