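import Pool.Agent.LibW44.N6

/-! Row N12. Combinatorics. Take a maximal (largest card) subset `S ⊆ T` with pairwise not `Rel`; every `q ∈ T` is `Rel` to some element of `S` (symmetry `rel_symm`, and `q` itself is `Rel` to `q` with `p = 1, r = 0`); the fibres `{q ∈ T : Rel (u, q)}`, `u ∈ S`, are pairwise `Rel`
(`rel_symm`, `rel_trans`), so have at most `B` elements; `card S ≤ N`. -/

namespace W44
open RC91

theorem rel_partition (d : ℤ) (hd : Squarefree d) (h1 : d ≠ 1) (T : Finset Pt) (s t : Pt → ℝ)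
    (hpos : ∀ q ∈ T, 0 < s q) (N B : ℝ) (hB : 0 ≤ B)
    (hN : ∀ S ⊆ T, (∀ q ∈ S, ∀ q' ∈ S, q ≠ q' → ¬ Rel d (s q) (t q) (s q') (t q')) → (S.card : ℝ) ≤ N)
    (hR : ∀ S ⊆ T, (∀ q ∈ S, ∀ q' ∈ S, Rel d (s q) (t q) (s q') (t q')) → (S.card : ℝ) ≤ B) :
    (T.card : ℝ) ≤ N * B := by
  classical
  obtain ⟨P, hP⟩ : ∃ P : Finset Pt → Prop, ∀ S, P S ↔ ∀ q ∈ S, ∀ q' ∈ S, q ≠ q' →
    ¬ Rel d (s q) (t q) (s q') (t q') := ⟨_, fun _ => Iff.rfl⟩
  obtain ⟨S, hS, hmax⟩ := (T.powerset.filter fun S => P S).exists_max_image Finset.card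
      ⟨∅, Finset.mem_filter.2 ⟨Finset.empty_mem_powerset T,
        (hP _).2 fun q hq => absurd hq (Finset.notMem_empty q)⟩⟩
  rw [Finset.mem_filter, Finset.mem_powerset, hP] at hS
  obtain ⟨hST, hSn⟩ := hS
  have hrefl : ∀ q, Rel d (s q) (t q) (s q) (t q) := fun q => ⟨1, 0, by simp, by simp⟩
  have hsymm : ∀ q ∈ T, ∀ q' ∈ T, Rel d (s q) (t q) (s q') (t q') →
      Rel d (s q') (t q') (s q) (t q) := fun q _ q' hq' h =>
    rel_symm d hd h1 _ _ _ _ (hpos q' hq').ne' h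
  have hcov : ∀ q ∈ T, ∃ u ∈ S, Rel d (s u) (t u) (s q) (t q) := by
    intro q hq
    by_cases hqS : q ∈ S
    · exact ⟨q, hqS, hrefl q⟩
    by_contra hcon
    push Not at hcon
    have h2 : insert q S ∈ T.powerset.filter fun S => P S := by
      rw [Finset.mem_filter, Finset.mem_powerset, hP]
      refine ⟨Finset.insert_subset hq hST, fun a ha b hb hab hr => ?_⟩
      rw [Finset.mem_insert] at ha hb
      rcases ha with rfl | ha
      · rcases hb with rfl | hb
        · exact hab rfl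
        · exact hcon b hb (hsymm _ hq b (hST hb) hr)
      · rcases hb with rfl | hb
        · exact hcon a ha hr
        · exact hSn a ha b hb hab hr
    have h3 := hmax _ h2
    rw [Finset.card_insert_of_notMem hqS] at h3
    omega
  have hsub : T ⊆ S.biUnion fun u => T.filter fun q => Rel d (s u) (t u) (s q) (t q) := by
    intro q hq
    obtain ⟨u, hu, hr⟩ := hcov q hq
    exact Finset.mem_biUnion.2 ⟨u, hu, Finset.mem_filter.2 ⟨hq, hr⟩⟩
  have hfib : ∀ u ∈ S, ((T.filter fun q => Rel d (s u) (t u) (s q) (t q)).card : ℝ) ≤ B := by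
    intro u hu
    refine hR _ (Finset.filter_subset _ _) fun q hq q' hq' => ?_
    rw [Finset.mem_filter] at hq hq'
    exact rel_trans d _ _ _ _ _ _ (hsymm u (hST hu) q hq.1 hq.2) hq'.2
  have h4 : T.card ≤ ∑ u ∈ S, (T.filter fun q => Rel d (s u) (t u) (s q) (t q)).card :=
    (Finset.card_le_card hsub).trans Finset.card_biUnion_le
  calc (T.card : ℝ) ≤ ∑ u ∈ S, ((T.filter fun q => Rel d (s u) (t u) (s q) (t q)).card : ℝ) := by
        exact_mod_cast h4
    _ ≤ ∑ _u ∈ S, B := Finset.sum_le_sum hfib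
    _ = (S.card : ℝ) * B := by rw [Finset.sum_const, nsmul_eq_mul]
    _ ≤ N * B := mul_le_mul_of_nonneg_right (hN S hST hSn) hB

end W44
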