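import Pool.Agent.LibW44.Defs

/-! Row N6. `Rel` is symmetric and transitive. Transitive: product `(p + ρ r)(p' + ρ r')`. Symmetric: `p² - d r² ≠ 0` (`d` is squarefree `≠ 1`, not a square of a rational number; `p = r = 0` gives `s' = 0`), multiply by the inverse matrix. -/

namespace W44
open RC91

private theorem n6_norm (d : ℤ) (hd : Squarefree d) (h1 : d ≠ 1) (p r : ℚ)
    (h : p ^ 2 - d * r ^ 2 = 0) : p = 0 ∧ r = 0 := by
  by_cases hr : r = 0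
  · rw [hr] at h
    have h2 : p ^ 2 = 0 := by linarith
    exact ⟨pow_eq_zero_iff (two_ne_zero) |>.1 h2, hr⟩
  · exfalso
    have h2 : (d : ℚ) = (p / r) * (p / r) := by
      field_simp
      linarith
    have h3 : IsSquare (d : ℚ) := ⟨p / r, h2⟩
    rw [Rat.isSquare_intCast_iff] at h3
    obtain ⟨m, hm⟩ := h3
    have h4 : IsUnit m := hd m ⟨1, by rw [hm, mul_one]⟩
    rcases Int.isUnit_iff.1 h4 with h5 | h5
    · apply h1
      rw [hm, h5]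
      norm_num
    · apply h1
      rw [hm, h5]
      norm_num

theorem rel_symm (d : ℤ) (hd : Squarefree d) (h1 : d ≠ 1) (s t s' t' : ℝ) (hs : s' ≠ 0) (h : Rel d s t s' t') :
    Rel d s' t' s t := by
  obtain ⟨p, r, e1, e2⟩ := h
  have hN : p ^ 2 - d * r ^ 2 ≠ 0 := by
    intro h0
    obtain ⟨hp, hr⟩ := n6_norm d hd h1 p r h0
    apply hs
    rw [e1, hp, hr]
    simp
  have hNR : (p : ℝ) ^ 2 - (d : ℝ) * (r : ℝ) ^ 2 ≠ 0 := by
    intro h0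
    apply hN
    exact_mod_cast h0
  refine ⟨p / (p ^ 2 - d * r ^ 2), -r / (p ^ 2 - d * r ^ 2), ?_, ?_⟩
  · push_cast
    have h2 : (p : ℝ) / ((p : ℝ) ^ 2 - (d : ℝ) * (r : ℝ) ^ 2) * s' +
        (d : ℝ) * (-(r : ℝ) / ((p : ℝ) ^ 2 - (d : ℝ) * (r : ℝ) ^ 2)) * t' =
        (p * s' - d * r * t') / ((p : ℝ) ^ 2 - (d : ℝ) * (r : ℝ) ^ 2) := by ring
    rw [h2, eq_div_iff hNR, e1, e2]
    ring
  · push_cast
    have h2 : -(r : ℝ) / ((p : ℝ) ^ 2 - (d : ℝ) * (r : ℝ) ^ 2) * s' +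
        (p : ℝ) / ((p : ℝ) ^ 2 - (d : ℝ) * (r : ℝ) ^ 2) * t' =
        (p * t' - r * s') / ((p : ℝ) ^ 2 - (d : ℝ) * (r : ℝ) ^ 2) := by ring
    rw [h2, eq_div_iff hNR, e1, e2]
    ring

theorem rel_trans (d : ℤ) (s t s' t' s'' t'' : ℝ) (h : Rel d s t s' t') (h' : Rel d s' t' s'' t'') :
    Rel d s t s'' t'' := by
  obtain ⟨p, r, e1, e2⟩ := h
  obtain ⟨p', r', e3, e4⟩ := h'
  refine ⟨p' * p + d * r' * r, p' * r + r' * p, ?_, ?_⟩
  · push_cast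
    rw [e3, e1, e2]
    ring
  · push_cast
    rw [e4, e1, e2]
    ring

end W44
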