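import Pool.Agent.LibW44.N7
import Pool.Agent.LibW44.N6

/-! Row N5. Colours. Fix `q₀ ∈ S`. For `q ∈ S`: `al q = al q₀ g³`, `g ∈ K`, so `A_q = (s q + ε t q)/2` satisfies `A_q³ = (A_{q₀} emb g)³` (`rp_emb`), `A_q = ζ A_{q₀} emb g`, `ζ³ = 1` (at most 3 values in ℂ). If `q ≠ q'` have the
same `ζ`: `A_q' = A_q emb(g'/g)`, `g'/g = p + r ρ`. `d < 0`: `ε = ± i √|d|` is purely imaginary: compare real and imaginary parts: `Rel`. `d > 0`: `ε` is real; also `B_q = (s q - ε t q)/2` is real with `B_q³ = emb (conj (al q))`, real cube roots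
are unique (`emb (conj g)` is real), so `B_q' = B_q emb(conj(g'/g))`; add and subtract: `Rel`. So pairwise not `Rel` gives `card ≤ 3` (injective map to the cube roots of unity). -/

namespace W44
open RC91 NumberField

private theorem n5_rel {d : ℤ} {K : Type} [Field K] [NumberField K] (h : QF d K) (hd : d ≠ 0)
    (k : K) (s t s' t' : ℝ)
    (h1 : ((s' : ℂ) + h.emb h.rho * t') / 2 = ((s : ℂ) + h.emb h.rho * t) / 2 * h.emb k)
    (h2 : (((s' : ℂ) - h.emb h.rho * t') / 2) ^ 3 =
      (((s : ℂ) - h.emb h.rho * t) / 2) ^ 3 * h.emb (h.conj k) ^ 3) :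
    Rel d s t s' t' := by
  obtain ⟨p, r, hk⟩ := h.span k
  have he2 : h.emb h.rho ^ 2 = (d : ℂ) := by
    rw [← map_pow, h.sq, map_intCast]
  have hk1 : h.emb k = (p : ℂ) + (r : ℂ) * h.emb h.rho := by
    rw [hk, map_add, map_mul, map_ratCast, map_ratCast]
  have hk2 : h.emb (h.conj k) = (p : ℂ) - (r : ℂ) * h.emb h.rho := by
    rw [hk, map_add, map_mul, map_ratCast, map_ratCast, h.conj_rho, map_add, map_mul,
      map_ratCast, map_ratCast, map_neg]
    ring
  rw [hk1] at h1
  rw [hk2] at h2
  generalize h.emb h.rho = e at h1 h2 he2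
  have hre : e.re * e.re - e.im * e.im = d := by
    have := congrArg Complex.re he2
    simpa [pow_two, Complex.mul_re] using this
  have him : e.re * e.im = 0 := by
    have := congrArg Complex.im he2
    simp [pow_two, Complex.mul_im] at this
    nlinarith
  have hmain : ((s' - (p * s + d * r * t) : ℝ) : ℂ) + e * ((t' - (r * s + p * t) : ℝ) : ℂ) = 0 := by
    push_cast
    linear_combination 2 * h1 + (r : ℂ) * t * he2
  have hd0 : (d : ℝ) ≠ 0 := by exact_mod_cast hd
  refine ⟨p, r, ?_⟩
  rcases mul_eq_zero.1 him with hr0 | hi0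
  · -- purely imaginary
    have hi : e.im ≠ 0 := by
      intro h0
      rw [hr0, h0] at hre
      apply hd0
      linarith
    have hIm := congrArg Complex.im hmain
    have hRe := congrArg Complex.re hmain
    simp only [Complex.add_im, Complex.add_re, Complex.mul_im, Complex.mul_re, Complex.ofReal_re,
      Complex.ofReal_im, Complex.zero_re, Complex.zero_im, hr0] at hIm hRe
    have h3 : t' - (r * s + p * t) = 0 := by
      have : e.im * (t' - (r * s + p * t)) = 0 := by linarith
      rcases mul_eq_zero.1 this with h | h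
      · exact absurd h hi
      · exact h
    constructor
    · linarith
    · linarith
  · -- real
    have hr : e.re ≠ 0 := by
      intro h0
      rw [hi0, h0] at hre
      apply hd0
      linarith
    have hee : e = ((e.re : ℝ) : ℂ) := by
      apply Complex.ext
      · simp
      · simp [hi0]
    have hRe := congrArg Complex.re hmain
    simp only [Complex.add_re, Complex.mul_re, Complex.ofReal_re,
      Complex.ofReal_im, Complex.zero_re, hi0] at hRe
    have hsq : e.re ^ 2 = d := by
      rw [hi0] at hre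
      nlinarith
    generalize e.re = E at hee hr hRe hsq
    rw [hee] at h2
    have h4 : ((s' - E * t') / 2) ^ 3 = ((s - E * t) / 2 * (p - r * E)) ^ 3 := by
      rw [mul_pow]
      exact_mod_cast h2
    have h5 := (Odd.strictMono_pow (R := ℝ) (by decide : Odd 3)).injective h4
    have h6 : E * (t' - (r * s + p * t)) = 0 := by
      have e1 : E * E = d := by rw [← hsq]; ring
      have : s' - E * t' = (s - E * t) * (p - r * E) := by linarith
      have h7 : s' - E * t' = (p * s + d * r * t) - E * (r * s + p * t) := by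
        rw [this, ← e1]; ring
      linarith
    have h3 : t' - (r * s + p * t) = 0 := by
      rcases mul_eq_zero.1 h6 with h | h
      · exact absurd h hr
      · exact h
    constructor
    · rw [h3] at hRe
      linarith
    · linarith

theorem colour {d : ℤ} {K : Type} [Field K] [NumberField K] (h : QF d K) (hd : Squarefree d) (h1 : d ≠ 1)
    (S : Finset Pt) (s t : Pt → ℝ) (hS : ∀ q ∈ S, q.x ≠ 0 ∧ RP d q (s q) (t q))
    (he : ∀ q ∈ S, ∀ q' ∈ S, Eqv (al h q.y q.w) (al h q'.y q'.w))
    (hn : ∀ q ∈ S, ∀ q' ∈ S, q ≠ q' → ¬ Rel d (s q) (t q) (s q') (t q')) : S.card ≤ 3 := by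
  classical
  rcases S.eq_empty_or_nonempty with h0 | ⟨q0, hq0⟩
  · simp [h0]
  have hd0 : d ≠ 0 := hd.ne_zero
  have hex : ∀ q : Pt, ∃ g : K, q ∈ S → g ≠ 0 ∧ al h q.y q.w = al h q0.y q0.w * g ^ 3 := by
    intro q
    by_cases hq : q ∈ S
    · obtain ⟨g, hg, hg2⟩ := he q0 hq0 q hq
      exact ⟨g, fun _ => ⟨hg, hg2⟩⟩
    · exact ⟨0, fun hh => absurd hh hq⟩
  choose g hg using hex
  have hA : ∀ q ∈ S, ((s q : ℂ) + h.emb h.rho * t q) / 2 ≠ 0 ∧
      ((s q : ℂ) - h.emb h.rho * t q) / 2 ≠ 0 := by
    intro q hq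
    obtain ⟨hx, hr⟩ := hS q hq
    have h3 := (rp_emb h q _ _ hr).2.2
    have hx' : (q.x : ℂ) ≠ 0 := by exact_mod_cast hx
    rw [← h3] at hx'
    exact ⟨left_ne_zero_of_mul hx', right_ne_zero_of_mul hx'⟩
  have hmap : ∀ q ∈ S, ((s q : ℂ) + h.emb h.rho * t q) / 2 /
      (((s q0 : ℂ) + h.emb h.rho * t q0) / 2 * h.emb (g q)) ∈ Polynomial.nthRootsFinset 3 (1 : ℂ) := by
    intro q hq
    rw [Polynomial.mem_nthRootsFinset (by norm_num)]
    obtain ⟨hx, hr⟩ := hS q hq
    have h3 := (rp_emb h q _ _ hr).1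
    have h4 := (rp_emb h q0 _ _ (hS q0 hq0).2).1
    rw [div_pow, mul_pow, h3, h4, (hg q hq).2, map_mul, map_pow]
    apply div_self
    have hg0 : h.emb (g q) ≠ 0 := by
      rw [Ne, map_eq_zero]
      exact (hg q hq).1
    have hA0 : h.emb (al h q0.y q0.w) ≠ 0 := by
      rw [← h4]
      exact pow_ne_zero _ (hA q0 hq0).1
    exact mul_ne_zero hA0 (pow_ne_zero _ hg0)
  have hinj : Set.InjOn (fun q : Pt => ((s q : ℂ) + h.emb h.rho * t q) / 2 /
      (((s q0 : ℂ) + h.emb h.rho * t q0) / 2 * h.emb (g q))) (S : Set Pt) := by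
    intro q hq q' hq' hqq
    rw [Finset.mem_coe] at hq hq'
    by_contra hne
    apply hn q hq q' hq' hne
    have hgq : h.emb (g q) ≠ 0 := by
      rw [Ne, map_eq_zero]
      exact (hg q hq).1
    have hgq' : h.emb (g q') ≠ 0 := by
      rw [Ne, map_eq_zero]
      exact (hg q' hq').1
    have hA0 := (hA q0 hq0).1
    apply n5_rel h hd0 (g q' / g q)
    · dsimp only at hqq
      rw [div_eq_div_iff (mul_ne_zero hA0 hgq) (mul_ne_zero hA0 hgq')] at hqq
      rw [map_div₀]
      have h5 : ((s q : ℂ) + h.emb h.rho * t q) / 2 * h.emb (g q') =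
          ((s q' : ℂ) + h.emb h.rho * t q') / 2 * h.emb (g q) := by
        apply mul_left_cancel₀ hA0
        linear_combination hqq
      field_simp
      linear_combination (-2 : ℂ) * h5
    · rw [(rp_emb h q _ _ (hS q hq).2).2.1, (rp_emb h q' _ _ (hS q' hq').2).2.1,
        (hg q hq).2, (hg q' hq').2]
      rw [← map_pow, ← map_mul, ← map_pow, ← map_mul]
      congr 2
      have := (hg q hq).1
      field_simp
  calc S.card ≤ (Polynomial.nthRootsFinset 3 (1 : ℂ)).card :=
        Finset.card_le_card_of_injOn _ hmap hinj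
    _ ≤ 3 := by
        have := Polynomial.card_nthRoots 3 (1 : ℂ)
        exact (Multiset.toFinset_card_le _).trans this

end W44
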