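import Pool.Agent.LibW44.N4
import Pool.Agent.LibW44.N5
import Pool.Agent.LibRC91.K1

/-! Row N13. At most 3 points in every class modulo cubes (`colour`), choose one from each class: `class_count`. Concretely: a maximal subset `S' ⊆ S` of pairwise not `Eqv` elements (`Eqv` is an equivalence relation on nonzero elements); every `q ∈ S` is `Eqv` to one of `S'`, fibres have
`≤ 3` elements. `w ≠ 0` and `cc = c` in the hypotheses; `q ↦ (x, y, w)` is injective on `S'` (same `(x, y, w)` would be `Eqv`). -/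

namespace W44
open RC91 NumberField

private theorem n13_refl {K : Type} [Field K] (a : K) : Eqv a a :=
  ⟨1, one_ne_zero, by ring⟩

private theorem n13_symm {K : Type} [Field K] {a b : K} (hab : Eqv a b) : Eqv b a := by
  obtain ⟨g, hg, e⟩ := hab
  refine ⟨g⁻¹, inv_ne_zero hg, ?_⟩
  rw [e]
  field_simp

private theorem n13_trans {K : Type} [Field K] {a b c : K} (hab : Eqv a b) (hbc : Eqv b c) :
    Eqv a c := by
  obtain ⟨g, hg, e⟩ := hab
  obtain ⟨g', hg', e'⟩ := hbc
  exact ⟨g * g', mul_ne_zero hg hg', by rw [e', e]; ring⟩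

theorem nonrel_bound {d : ℤ} (hd : Squarefree d) (h1 : d ≠ 1) (c : ℕ) (S : Finset Pt) (s t : Pt → ℝ)
    (hS : ∀ q ∈ S, q.x ≠ 0 ∧ q.w ≠ 0 ∧ q.y ^ 2 = q.x ^ 3 + d * q.w ^ 2 ∧ RP d q (s q) (t q) ∧ cc d q.w q.x = c)
    (hn : ∀ q ∈ S, ∀ q' ∈ S, q ≠ q' → ¬ Rel d (s q) (t q) (s q') (t q')) :
    (S.card : ℝ) ≤ 243 * 3 ^ c.primeFactors.card * (1 + ((QA d).ncard : ℝ)) := by
  classical
  obtain ⟨K, _, _, ⟨h⟩⟩ := K1 d hd h1
  let st : Setoid Pt :=
    { r := fun q q' => Eqv (al h q.y q.w) (al h q'.y q'.w)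
      iseqv := ⟨fun _ => n13_refl _, fun h => n13_symm h, fun h h' => n13_trans h h'⟩ }
  let f : Pt → Quotient st := fun q => Quotient.mk st q
  have hf : ∀ q q' : Pt, f q = f q' ↔ Eqv (al h q.y q.w) (al h q'.y q'.w) := by
    intro q q'
    exact Quotient.eq (r := st)
  -- the fibres have at most three elements
  have hfib : ∀ i ∈ S.image f, (S.filter (fun q => f q = i)).card ≤ 3 := by
    intro i _
    apply colour h hd h1 (S.filter (fun q => f q = i)) s t
    · intro q hq
      have hq' := hS q (Finset.mem_filter.1 hq).1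
      exact ⟨hq'.1, hq'.2.2.2.1⟩
    · intro q hq q' hq'
      rw [← hf, (Finset.mem_filter.1 hq).2, (Finset.mem_filter.1 hq').2]
    · intro q hq q' hq' hne
      exact hn q (Finset.mem_filter.1 hq).1 q' (Finset.mem_filter.1 hq').1 hne
  have hcard := Finset.card_le_mul_card_image (f := f) S 3 hfib
  -- a system of representatives
  obtain ⟨u, hus, hinj, himg⟩ := Finset.exists_subset_injOn_image_eq_of_surjOn (f := f) (S : Set Pt)
    (S.image f) (by
      intro i hi
      rw [Finset.coe_image] at hi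
      exact hi)
  have hucard : (S.image f).card = u.card := by
    rw [← himg]
    exact Finset.card_image_of_injOn hinj
  -- the triples of the representatives
  let g : Pt → ℤ × ℤ × ℤ := fun q => (q.x, q.y, q.w)
  have hginj : Set.InjOn g (u : Set Pt) := by
    intro q hq q' hq' e
    have e1 : q.y = q'.y := congrArg (fun z : ℤ × ℤ × ℤ => z.2.1) e
    have e2 : q.w = q'.w := congrArg (fun z : ℤ × ℤ × ℤ => z.2.2) e
    apply hinj hq hq'
    rw [hf, e1, e2]
    exact n13_refl _
  have hc2 := class_count h hd h1 c (u.image g) (by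
    intro z hz
    obtain ⟨q, hq, rfl⟩ := Finset.mem_image.1 hz
    have hq' := hS q (hus hq)
    refine ⟨hq'.1, hq'.2.1, ?_, hq'.2.2.2.2⟩
    show q.y ^ 2 - d * q.w ^ 2 = q.x ^ 3
    rw [hq'.2.2.1]
    ring) (by
    intro z hz z' hz' hne he
    obtain ⟨q, hq, rfl⟩ := Finset.mem_image.1 hz
    obtain ⟨q', hq', rfl⟩ := Finset.mem_image.1 hz'
    apply hne
    have h3 : f q = f q' := (hf q q').2 he
    rw [hinj hq hq' h3])
  rw [Finset.card_image_of_injOn hginj] at hc2
  rw [hucard] at hcard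
  have hfin : S.card ≤ 3 * (81 * 3 ^ c.primeFactors.card * (1 + (QA d).ncard)) :=
    hcard.trans (Nat.mul_le_mul_left 3 hc2)
  have hfin' : (S.card : ℝ) ≤ ((3 * (81 * 3 ^ c.primeFactors.card * (1 + (QA d).ncard)) : ℕ) : ℝ) := by
    exact_mod_cast hfin
  refine hfin'.trans (le_of_eq ?_)
  push_cast
  ring

end W44
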