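import Pool.Agent.LibW44.Defs

/-! Row N14. As in row N1: `|x| > X H^(3/4) ≥ 10^12 X` (`x⁴ > X⁷/|d|³`), `|d| w² ≤ 24 X x² + 138 X³ < |x|³`; so `x > 0` (`y² ≥ 0`) and `y² > 0`. -/

namespace W44
open RC91

theorem n14_size (X : ℕ) (d : ℤ) (hd : d ≠ 0) (hH : 10 ^ 16 * |d| ≤ (X : ℤ)) (x : ℤ)
    (hb : (X : ℤ) ^ 7 < |d| ^ 3 * x ^ 4) : 10 ^ 12 * (X : ℤ) < |x| := by
  have hD : 1 ≤ |d| := Int.one_le_abs hd
  have hX : (0 : ℤ) < X := by linarith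
  by_contra hcon
  push Not at hcon
  have h1 : x ^ 4 ≤ (10 ^ 12 * (X : ℤ)) ^ 4 := by
    have h2 : x ^ 4 = |x| ^ 4 := by
      rw [← abs_pow, abs_of_nonneg (by positivity)]
    rw [h2]
    exact pow_le_pow_left₀ (abs_nonneg x) hcon 4
  have h3 : |d| ^ 3 * x ^ 4 ≤ |d| ^ 3 * (10 ^ 12 * (X : ℤ)) ^ 4 :=
    mul_le_mul_of_nonneg_left h1 (by positivity)
  have h4 : |d| ^ 3 * (10 ^ 12 * (X : ℤ)) ^ 4 = (10 ^ 16 * |d|) ^ 3 * (X : ℤ) ^ 4 := by ring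
  have h5 : (10 ^ 16 * |d|) ^ 3 * (X : ℤ) ^ 4 ≤ (X : ℤ) ^ 3 * (X : ℤ) ^ 4 :=
    mul_le_mul_of_nonneg_right (pow_le_pow_left₀ (by positivity) hH 3) (by positivity)
  have h6 : (X : ℤ) ^ 3 * (X : ℤ) ^ 4 = (X : ℤ) ^ 7 := by ring
  linarith

theorem n14_w (X : ℕ) (d : ℤ) (q : Pt) (h : Adm X d q) :
    |d| * q.w ^ 2 ≤ 24 * (X : ℤ) * q.x ^ 2 + 138 * (X : ℤ) ^ 3 := by
  have h1 := h.da
  have h2 := h.db
  have hd : 0 ≤ |d| := abs_nonneg d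
  have h3 : q.w ^ 2 ≤ 2 * q.a ^ 2 * q.x ^ 2 + 2 * q.b ^ 2 := by
    unfold Pt.w
    nlinarith [sq_nonneg (q.a * q.x - q.b)]
  have h4 : |d| * q.w ^ 2 ≤ |d| * (2 * q.a ^ 2 * q.x ^ 2 + 2 * q.b ^ 2) :=
    mul_le_mul_of_nonneg_left h3 hd
  have h5 : |d| * q.a ^ 2 * q.x ^ 2 ≤ 12 * (X : ℤ) * q.x ^ 2 :=
    mul_le_mul_of_nonneg_right h1 (sq_nonneg _)
  nlinarith

theorem big_pos (X : ℕ) (d : ℤ) (hd : d ≠ 0) (hH : 10 ^ 16 * |d| ≤ (X : ℤ)) (q : Pt) (h : Adm X d q)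
    (hb : (X : ℤ) ^ 7 < |d| ^ 3 * q.x ^ 4) : 0 < q.x ∧ q.y ≠ 0 := by
  have h1 := n14_size X d hd hH q.x hb
  have h2 := n14_w X d q h
  have hD : 1 ≤ |d| := Int.one_le_abs hd
  have hX : (0 : ℤ) < X := by linarith
  have h3 : |d| * q.w ^ 2 < |q.x| ^ 3 := by
    have hx2 : q.x ^ 2 = |q.x| ^ 2 := (sq_abs q.x).symm
    rw [hx2] at h2
    have hxp : 0 < |q.x| := by linarith
    have h4 : 10 ^ 12 * (X : ℤ) * |q.x| ^ 2 ≤ |q.x| * |q.x| ^ 2 :=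
      mul_le_mul_of_nonneg_right h1.le (by positivity)
    have h5 : (X : ℤ) ^ 2 ≤ |q.x| ^ 2 := pow_le_pow_left₀ hX.le (by linarith) 2
    have h6 : (X : ℤ) * (X : ℤ) ^ 2 ≤ (X : ℤ) * |q.x| ^ 2 := mul_le_mul_of_nonneg_left h5 hX.le
    have h7 : 0 < (X : ℤ) * |q.x| ^ 2 := by positivity
    nlinarith
  have h4 := h.eq
  have h5 : |d * q.w ^ 2| = |d| * q.w ^ 2 := by
    rw [abs_mul, abs_of_nonneg (sq_nonneg q.w)]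
  have h6 : -(|d| * q.w ^ 2) ≤ d * q.w ^ 2 := by
    rw [← h5]; exact neg_abs_le _
  have h7 : d * q.w ^ 2 ≤ |d| * q.w ^ 2 := by
    rw [← h5]; exact le_abs_self _
  have hpos : 0 < q.x := by
    by_contra hcon
    push Not at hcon
    rw [abs_of_nonpos hcon] at h3
    have h8 : (-q.x) ^ 3 = -(q.x ^ 3) := by ring
    rw [h8] at h3
    nlinarith [sq_nonneg q.y]
  refine ⟨hpos, fun hy => ?_⟩
  rw [hy] at h4
  rw [abs_of_pos hpos] at h3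
  linarith [h4]

end W44
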