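import Pool.Agent.LibW44.Defs

/-! Row N2. Sizes. `t (3 s² + d t²) = 8 w`. `d > 0`: `3 s² + d t² ≥ 3 s² ≥ 12 x` (`s² = 4x + d t²`). `d < 0`: `|d| t² = 4 x - s² ≤ x` (`big`), so `3 s² - |d| t² ≥ 9x - x = 8 x`. So `|t| ≤ |w|/x ≤ a + |b|/x ≤ a + 1`:
`|b| ≤ √(69 X³/|d|)`, `x ≥ |d| H^(7/4)` and `H ≥ 10^16`. `x > 0`: hypothesis. `81 X⁷ ≤ |d|³ s⁸`: `s⁸ ≥ 81 x⁴`. `s² ≤ 4 x + |d| (a+1)² ≤ 4x + 4|d|a² ≤ 4 x + 48 X`. -/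

namespace W44
open RC91

private theorem n2_b_lt {X : ℕ} {d : ℤ} (hd : d ≠ 0) (hH : 10 ^ 16 * |d| ≤ (X : ℤ)) {q : Pt}
    (h : Lg X d q) (hx : 0 < q.x) : |q.b| < q.x := by
  obtain ⟨hadm, hbig, -⟩ := h
  have hdpos : 0 < |d| := abs_pos.2 hd
  have hXpos : 0 < (X : ℤ) := by nlinarith
  have h1 : |d| * q.b ^ 2 ≤ 69 * (X : ℤ) ^ 3 := hadm.db
  have h0 : 0 ≤ |d| * q.b ^ 2 := by positivity
  have h2 : |d| ^ 2 * q.b ^ 4 ≤ 4761 * (X : ℤ) ^ 6 := by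
    have h := mul_le_mul h1 h1 h0 (by positivity)
    calc |d| ^ 2 * q.b ^ 4 = (|d| * q.b ^ 2) * (|d| * q.b ^ 2) := by ring
      _ ≤ (69 * (X : ℤ) ^ 3) * (69 * (X : ℤ) ^ 3) := h
      _ = 4761 * (X : ℤ) ^ 6 := by ring
  have h3 : |d| ^ 3 * q.b ^ 4 ≤ |d| * (4761 * (X : ℤ) ^ 6) := by
    calc |d| ^ 3 * q.b ^ 4 = |d| * (|d| ^ 2 * q.b ^ 4) := by ring
      _ ≤ _ := mul_le_mul_of_nonneg_left h2 hdpos.le
  have h4 : |d| * (4761 * (X : ℤ) ^ 6) ≤ (X : ℤ) ^ 7 := by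
    have h5 : 4761 * |d| ≤ (X : ℤ) := by linarith
    calc |d| * (4761 * (X : ℤ) ^ 6) = (4761 * |d|) * (X : ℤ) ^ 6 := by ring
      _ ≤ (X : ℤ) * (X : ℤ) ^ 6 := mul_le_mul_of_nonneg_right h5 (by positivity)
      _ = (X : ℤ) ^ 7 := by ring
  have h5 : |d| ^ 3 * q.b ^ 4 < |d| ^ 3 * q.x ^ 4 := lt_of_le_of_lt (h3.trans h4) hbig
  have h6 : q.b ^ 4 < q.x ^ 4 := lt_of_mul_lt_mul_left h5 (by positivity)
  have h7 : |q.b| ^ 4 < q.x ^ 4 := by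
    have : |q.b| ^ 4 = q.b ^ 4 := by
      rw [show (4 : ℕ) = 2 * 2 from rfl, pow_mul, pow_mul, sq_abs]
    rwa [this]
  exact lt_of_pow_lt_pow_left₀ 4 hx.le h7

theorem rp_size (X : ℕ) (d : ℤ) (hd : d ≠ 0) (hH : 10 ^ 16 * |d| ≤ (X : ℤ)) (q : Pt) (h : Lg X d q)
    (hx : 0 < q.x) (s t : ℝ) (hr : RP d q s t) :
    |t| ≤ q.a + 1 ∧ 81 * (X : ℝ) ^ 7 ≤ |(d : ℝ)| ^ 3 * s ^ 8 ∧ s ^ 2 ≤ 4 * q.x + 48 * X := by
  have hbx := n2_b_lt hd hH h hx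
  obtain ⟨hadm, hbig, -⟩ := h
  have ha1 : (1 : ℝ) ≤ q.a := by exact_mod_cast hadm.a1
  have hxR : (0 : ℝ) < q.x := by exact_mod_cast hx
  have hbxR : |(q.b : ℝ)| < q.x := by exact_mod_cast hbx
  have hdR : (0 : ℝ) < |(d : ℝ)| := abs_pos.2 (by exact_mod_cast hd)
  have he1 := hr.e1
  have he2 := hr.e2
  have hsb := hr.big
  -- the size of t
  have hQ : 8 * (q.x : ℝ) ≤ 3 * s ^ 2 + d * t ^ 2 := by
    rcases lt_or_gt_of_ne hd with hneg | hpos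
    · linarith
    · have hdp : (0 : ℝ) < d := by exact_mod_cast hpos
      have : 0 ≤ (d : ℝ) * t ^ 2 := by positivity
      linarith
  have hw : |(q.w : ℝ)| ≤ (q.a + 1) * q.x := by
    have h1 : (q.w : ℝ) = q.a * q.x + q.b := by
      unfold Pt.w
      push_cast
      ring
    rw [h1]
    refine (abs_add_le _ _).trans ?_
    rw [abs_of_nonneg (by positivity : (0 : ℝ) ≤ q.a * q.x)]
    linarith
  have ht : |t| ≤ q.a + 1 := by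
    have h1 : |t| * (3 * s ^ 2 + d * t ^ 2) = 8 * |(q.w : ℝ)| := by
      have h2 : |t * (3 * s ^ 2 + d * t ^ 2)| = |8 * (q.w : ℝ)| := by rw [he2]
      rw [abs_mul, abs_mul, abs_of_nonneg (by linarith : (0 : ℝ) ≤ 3 * s ^ 2 + d * t ^ 2),
        abs_of_nonneg (by norm_num : (0 : ℝ) ≤ 8)] at h2
      exact h2
    have h2 : |t| * (8 * q.x) ≤ |t| * (3 * s ^ 2 + d * t ^ 2) :=
      mul_le_mul_of_nonneg_left hQ (abs_nonneg t)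
    have h3 : |t| * (8 * q.x) ≤ (q.a + 1) * (8 * q.x) := by
      rw [h1] at h2
      linarith
    exact le_of_mul_le_mul_right h3 (by positivity)
  refine ⟨ht, ?_, ?_⟩
  · have h1 : (X : ℝ) ^ 7 < |(d : ℝ)| ^ 3 * (q.x : ℝ) ^ 4 := by exact_mod_cast hbig
    have h2 : (3 * (q.x : ℝ)) ^ 4 ≤ (s ^ 2) ^ 4 := pow_le_pow_left₀ (by positivity) hsb 4
    have h3 : |(d : ℝ)| ^ 3 * (3 * (q.x : ℝ)) ^ 4 ≤ |(d : ℝ)| ^ 3 * (s ^ 2) ^ 4 :=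
      mul_le_mul_of_nonneg_left h2 (by positivity)
    calc 81 * (X : ℝ) ^ 7 ≤ 81 * (|(d : ℝ)| ^ 3 * (q.x : ℝ) ^ 4) := by linarith
      _ = |(d : ℝ)| ^ 3 * (3 * (q.x : ℝ)) ^ 4 := by ring
      _ ≤ |(d : ℝ)| ^ 3 * (s ^ 2) ^ 4 := h3
      _ = |(d : ℝ)| ^ 3 * s ^ 8 := by ring
  · have h1 : |(d : ℝ)| * (q.a : ℝ) ^ 2 ≤ 12 * (X : ℝ) := by exact_mod_cast hadm.da
    have h2 : (d : ℝ) * t ^ 2 ≤ |(d : ℝ)| * t ^ 2 :=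
      mul_le_mul_of_nonneg_right (le_abs_self _) (sq_nonneg t)
    have h3 : t ^ 2 ≤ (2 * (q.a : ℝ)) ^ 2 := by
      rw [← sq_abs t]
      exact pow_le_pow_left₀ (abs_nonneg t) (by linarith) 2
    have h4 : |(d : ℝ)| * t ^ 2 ≤ |(d : ℝ)| * (2 * (q.a : ℝ)) ^ 2 :=
      mul_le_mul_of_nonneg_left h3 hdR.le
    have h5 : |(d : ℝ)| * (2 * (q.a : ℝ)) ^ 2 = 4 * (|(d : ℝ)| * (q.a : ℝ) ^ 2) := by ring
    linarith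

end W44
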