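import Pool.Agent.LibRC91.C1
import Pool.Agent.LibW44.Defs

/-! Row N4. Class count: `RC91.C1` without the sixth power free hypothesis. Copy the proof of `RC91.C1` (LibRC91/C1.lean, imported here) with `ZMod 3` instead of `Bool` for the primes of `c`:
`D q = (residues at the primes over 2, 3; residue of vl (vp p) (α q) mod 3 for p ∣ c)`; `hdv` is `C1_mod` of that component (no `L2_ndvd`), everything else unchanged. -/

open NumberField nonZeroDivisors IsDedekindDomain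

namespace W44
open RC91

theorem n4_mod {a b : ℤ} (h : ((a : ℤ) : ZMod 3) = ((b : ℤ) : ZMod 3)) : (3 : ℤ) ∣ a - b := by
  have h1 := (ZMod.intCast_eq_intCast_iff_dvd_sub a b 3).1 h
  have h2 : ((3 : ℕ) : ℤ) = 3 := rfl
  rw [h2] at h1
  omega

theorem n4_cc {A m x : ℤ} {p : ℕ} (hp : p.Prime) (hm : m ≠ 0) :
    p ∣ cc A m x ↔ ((p : ℤ) ∣ m ∧ 3 < p ∧ ¬ ((p : ℤ) ∣ A) ∧ (p : ℤ) ∣ x) := by
  unfold cc
  rw [hp.prime.dvd_finsetProd_iff]
  constructor
  · rintro ⟨q, hq, hpq⟩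
    rw [Finset.mem_filter, Nat.mem_primeFactors] at hq
    obtain ⟨⟨hq1, hq2, -⟩, hq3, hq4, hq5⟩ := hq
    have hpq' : p = q := (Nat.prime_dvd_prime_iff_eq hp hq1).1 hpq
    subst hpq'
    exact ⟨Int.natCast_dvd.2 hq2, hq3, hq4, hq5⟩
  · rintro ⟨h1, h2, h3, h4⟩
    refine ⟨p, ?_, dvd_rfl⟩
    rw [Finset.mem_filter, Nat.mem_primeFactors]
    exact ⟨⟨hp, Int.natCast_dvd.1 h1, Int.natAbs_ne_zero.2 hm⟩, h2, h3, h4⟩

theorem n4_cc0 (A m x : ℤ) : cc A m x ≠ 0 := by
  unfold cc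
  refine Finset.prod_ne_zero_iff.2 fun p hp => ?_
  rw [Finset.mem_filter, Nat.mem_primeFactors] at hp
  exact hp.1.1.ne_zero

theorem class_count {A : ℤ} {K : Type} [Field K] [NumberField K] (h : QF A K) (hA : Squarefree A)
    (h1 : A ≠ 1) (c : ℕ) (S : Finset (ℤ × ℤ × ℤ))
    (hS : ∀ q ∈ S, q.1 ≠ 0 ∧ q.2.2 ≠ 0 ∧ q.2.1 ^ 2 - A * q.2.2 ^ 2 = q.1 ^ 3 ∧ cc A q.2.2 q.1 = c)
    (hI : ∀ q ∈ S, ∀ q' ∈ S, q ≠ q' → ¬ Eqv (al h q.2.1 q.2.2) (al h q'.2.1 q'.2.2)) :
    S.card ≤ 81 * 3 ^ c.primeFactors.card * (1 + (QA A).ncard) := by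
  classical
  obtain ⟨α, hα⟩ : ∃ α : ℤ × ℤ × ℤ → K, α = fun q => al h q.2.1 q.2.2 := ⟨_, rfl⟩
  have hα0 : ∀ q ∈ S, α q ≠ 0 := by
    intro q hq
    obtain ⟨a1, a2, a3, -⟩ := hS q hq
    rw [hα]
    exact K2_alne h q.1 q.2.1 q.2.2 a1 a3
  have hex : ∀ p : ℕ, ∃ v : HeightOneSpectrum (𝓞 K), p.Prime → (p : 𝓞 K) ∈ v.asIdeal := by
    intro p
    by_cases hp : p.Prime
    · obtain ⟨v, hv⟩ := (L0_count h p hp).2.2
      exact ⟨v, fun _ => hv⟩
    · obtain ⟨v, -⟩ := (L0_count h 2 Nat.prime_two).2.2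
      exact ⟨v, fun h => absurd h hp⟩
  choose vp hvp using hex
  obtain ⟨Sp, hSp⟩ : ∃ Sp : Finset (HeightOneSpectrum (𝓞 K)), Sp =
    (L0_count h 2 Nat.prime_two).1.toFinset ∪ (L0_count h 3 Nat.prime_three).1.toFinset := ⟨_, rfl⟩
  have hSp4 : Sp.card ≤ 4 := by
    rw [hSp]
    refine (Finset.card_union_le _ _).trans ?_
    have h2 := (L0_count h 2 Nat.prime_two).2.1
    have h3 := (L0_count h 3 Nat.prime_three).2.1
    rw [Set.ncard_eq_toFinset_card _ (L0_count h 2 Nat.prime_two).1] at h2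
    rw [Set.ncard_eq_toFinset_card _ (L0_count h 3 Nat.prime_three).1] at h3
    omega
  obtain ⟨D, hD⟩ : ∃ D : ℤ × ℤ × ℤ → ({v // v ∈ Sp} → ZMod 3) × ({p // p ∈ c.primeFactors} → ZMod 3),
    D = fun q => (fun v => ((vl v.1 (α q) : ℤ) : ZMod 3),
      fun p => ((vl (vp p.1) (α q) : ℤ) : ZMod 3)) := ⟨_, rfl⟩
  have hdiff : ∀ q ∈ S, ∀ q' ∈ S, D q = D q' → ∀ v : HeightOneSpectrum (𝓞 K),
      (3 : ℤ) ∣ vl v (α q) - vl v (α q') := by
    intro q hq q' hq' hDq v
    obtain ⟨x1, x2, x3, x5⟩ := hS q hq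
    obtain ⟨y1, y2, y3, y5⟩ := hS q' hq'
    rw [hD] at hDq
    have hD1 := congrArg Prod.fst hDq
    have hD2 := congrArg Prod.snd hDq
    obtain ⟨p, hp, hpv⟩ := V1_char v
    have hpm : (p : 𝓞 K) ∈ v.asIdeal := by
      have := (hpv (p : ℤ)).2 dvd_rfl
      rwa [Int.cast_natCast] at this
    by_cases hp3 : p ≤ 3
    · have hvS : v ∈ Sp := by
        rw [hSp, Finset.mem_union, Set.Finite.mem_toFinset, Set.Finite.mem_toFinset]
        have h2 := hp.two_le
        have h23 : p = 2 ∨ p = 3 := by omega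
        rcases h23 with h | h
        · left
          rw [h] at hpm
          exact hpm
        · right
          rw [h] at hpm
          exact hpm
      exact n4_mod (congrFun hD1 ⟨v, hvS⟩)
    · push Not at hp3
      by_cases hpc : p ∣ c
      · have hc0 : c ≠ 0 := by
          rw [← x5]
          exact n4_cc0 _ _ _
        have hpc' : p ∈ c.primeFactors := Nat.mem_primeFactors.2 ⟨hp, hpc, hc0⟩
        have hdv : (3 : ℤ) ∣ vl (vp p) (al h q.2.1 q.2.2) - vl (vp p) (al h q'.2.1 q'.2.2) := by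
          refine n4_mod ?_
          have h5 := congrFun hD2 ⟨p, hpc'⟩
          rw [hα] at h5
          exact h5
        rw [hα]
        by_cases hvv : v = vp p
        · rw [hvv]
          exact hdv
        · have s1 := L2_sum h (vp p) v p hp (hvp p hp) hpm hvv q.1 q.2.1 q.2.2 x1 x3
          have s2 := L2_sum h (vp p) v p hp (hvp p hp) hpm hvv q'.1 q'.2.1 q'.2.2 y1 y3
          show (3 : ℤ) ∣ vl v (al h q.2.1 q.2.2) - vl v (al h q'.2.1 q'.2.2)
          omega
      · have l1 : (3 : ℤ) ∣ vl v (al h q.2.1 q.2.2) := by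
          refine L1 h hA v p hp hp3 hpm q.1 q.2.1 q.2.2 x1 x2 x3 ?_
          by_contra hcon
          push Not at hcon
          exact hpc (x5 ▸ (n4_cc hp x2).2 ⟨hcon.2.2, hp3, hcon.2.1, hcon.1⟩)
        have l2 : (3 : ℤ) ∣ vl v (al h q'.2.1 q'.2.2) := by
          refine L1 h hA v p hp hp3 hpm q'.1 q'.2.1 q'.2.2 y1 y2 y3 ?_
          by_contra hcon
          push Not at hcon
          exact hpc (y5 ▸ (n4_cc hp y2).2 ⟨hcon.2.2, hp3, hcon.2.1, hcon.1⟩)
        rw [hα]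
        exact dvd_sub l1 l2
  have hfib : ∀ b ∈ (Finset.univ : Finset (({v // v ∈ Sp} → ZMod 3) × ({p // p ∈ c.primeFactors} → ZMod 3))),
      (S.filter fun q => D q = b).card ≤ 1 + (QA A).ncard := by
    intro b _
    rcases (S.filter fun q => D q = b).eq_empty_or_nonempty with he | ⟨q₀, hq₀⟩
    · rw [he, Finset.card_empty]
      exact Nat.zero_le _
    · obtain ⟨hq₀S, hq₀b⟩ := Finset.mem_filter.1 hq₀
      have ha0 := hα0 q₀ hq₀S
      have hinj : Set.InjOn (fun q => α q / α q₀) (S.filter fun q => D q = b : Finset (ℤ × ℤ × ℤ)) := by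
        intro q hq q' hq' hqq
        have hqS := (Finset.mem_filter.1 (Finset.mem_coe.1 hq)).1
        have hqS' := (Finset.mem_filter.1 (Finset.mem_coe.1 hq')).1
        by_contra hne
        have h5 : α q = α q' := (div_left_inj' ha0).1 hqq
        rw [hα] at h5
        refine hI q hqS q' hqS' hne ⟨1, one_ne_zero, ?_⟩
        rw [one_pow, mul_one]
        exact h5.symm
      rw [← Finset.card_image_of_injOn hinj]
      refine MI h hA h1 _ ?_ ?_ ?_
      · intro g hg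
        obtain ⟨q, hq, rfl⟩ := Finset.mem_image.1 hg
        exact div_ne_zero (hα0 q (Finset.mem_filter.1 hq).1) ha0
      · intro g hg v
        obtain ⟨q, hq, rfl⟩ := Finset.mem_image.1 hg
        obtain ⟨hqS, hqb⟩ := Finset.mem_filter.1 hq
        have h5 := V1_mul v (α q / α q₀) (α q₀) (div_ne_zero (hα0 q hqS) ha0) ha0
        rw [div_mul_cancel₀ _ ha0] at h5
        have h6 := hdiff q hqS q₀ hq₀S (hqb.trans hq₀b.symm) v
        rw [h5, add_sub_cancel_right] at h6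
        exact h6
      · intro a ha b' hb' hab hE
        obtain ⟨q, hq, rfl⟩ := Finset.mem_image.1 (Finset.mem_coe.1 ha)
        obtain ⟨q', hq', rfl⟩ := Finset.mem_image.1 (Finset.mem_coe.1 hb')
        have hne : q ≠ q' := by
          rintro rfl
          exact hab rfl
        refine hI q (Finset.mem_filter.1 hq).1 q' (Finset.mem_filter.1 hq').1 hne ?_
        obtain ⟨g, hg, hgg⟩ := hE
        refine ⟨g, hg, ?_⟩
        have h5 : α q' = α q * g ^ 3 := by
          have h6 : α q' / α q₀ = α q / α q₀ * g ^ 3 := hgg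
          field_simp at h6
          exact h6
        rw [hα] at h5
        exact h5
  have hmain := Finset.card_le_mul_card_image_of_maps_to (f := D) (s := S) (t := Finset.univ)
    (fun q _ => Finset.mem_univ _) (1 + (QA A).ncard) hfib
  refine hmain.trans ?_
  rw [Finset.card_univ, Fintype.card_prod, Fintype.card_fun, Fintype.card_fun, ZMod.card,     Fintype.card_coe, Fintype.card_coe, mul_comm]
  refine Nat.mul_le_mul_right _ (Nat.mul_le_mul_right _ ?_)
  calc 3 ^ Sp.card ≤ 3 ^ 4 := Nat.pow_le_pow_right (by norm_num) hSp4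
    _ = 81 := by norm_num

end W44
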