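import Pool.Agent.LibRC91.K2
import Pool.Agent.LibW44.Defs

/-! Row N7. Cube roots and the field. `ε = h.emb h.rho`, `ε² = d`. `rp_emb`: expand the cubes with `e2`, `e3`, `ε² = d`; the product is `(s² - d t²)/4 = x`. `rel_al`: take `g = p + r ρ`; the two embedding identities are `ring` with `ε² = d`
(`h.emb (h.conj g) = p - r ε`); then `emb (al q') = emb (al q) emb g ^ 3`, use that `h.emb` is injective; `x' = x g ḡ` in the same way (product of the two cube roots). (`K2_conjal`.) -/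

namespace W44
open RC91 NumberField

variable {d : ℤ} {K : Type} [Field K] [NumberField K]

private theorem n7_sq (h : QF d K) : h.emb h.rho ^ 2 = (d : ℂ) := by
  rw [← map_pow, h.sq, map_intCast]

theorem rp_emb (h : QF d K) (q : Pt) (s t : ℝ) (r : RP d q s t) :
    (((s : ℂ) + h.emb h.rho * t) / 2) ^ 3 = h.emb (al h q.y q.w) ∧
    (((s : ℂ) - h.emb h.rho * t) / 2) ^ 3 = h.emb (h.conj (al h q.y q.w)) ∧
    (((s : ℂ) + h.emb h.rho * t) / 2) * (((s : ℂ) - h.emb h.rho * t) / 2) = (q.x : ℂ) := by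
  have hε := n7_sq h
  have e1 : (s : ℂ) ^ 2 - (d : ℂ) * (t : ℂ) ^ 2 = 4 * (q.x : ℂ) := by
    have := congrArg (fun z : ℝ => (z : ℂ)) r.e1
    push_cast at this
    exact this
  have e2 : (t : ℂ) * (3 * (s : ℂ) ^ 2 + (d : ℂ) * (t : ℂ) ^ 2) = 8 * (q.w : ℂ) := by
    have := congrArg (fun z : ℝ => (z : ℂ)) r.e2
    push_cast at this
    exact this
  have e3 : (s : ℂ) * ((s : ℂ) ^ 2 + 3 * (d : ℂ) * (t : ℂ) ^ 2) = 8 * (q.y : ℂ) := by
    have := congrArg (fun z : ℝ => (z : ℂ)) r.e3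
    push_cast at this
    exact this
  have h1 : h.emb (al h q.y q.w) = (q.y : ℂ) + (q.w : ℂ) * h.emb h.rho := by
    unfold al
    rw [map_add, map_mul, map_intCast, map_intCast]
  have h2 : h.emb (h.conj (al h q.y q.w)) = (q.y : ℂ) - (q.w : ℂ) * h.emb h.rho := by
    rw [K2_conjal]
    unfold al
    rw [map_add, map_mul, map_intCast, map_intCast]
    push_cast
    ring
  refine ⟨?_, ?_, ?_⟩
  · rw [h1]
    linear_combination (1 / 8 : ℂ) * e3 + h.emb h.rho / 8 * e2 +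
      (3 * (s : ℂ) * (t : ℂ) ^ 2 + h.emb h.rho * (t : ℂ) ^ 3) / 8 * hε
  · rw [h2]
    linear_combination (1 / 8 : ℂ) * e3 - h.emb h.rho / 8 * e2 +
      (3 * (s : ℂ) * (t : ℂ) ^ 2 - h.emb h.rho * (t : ℂ) ^ 3) / 8 * hε
  · linear_combination (1 / 4 : ℂ) * e1 - (t : ℂ) ^ 2 / 4 * hε

theorem rel_al (h : QF d K) (q q' : Pt) (s t s' t' : ℝ) (r : RP d q s t) (r' : RP d q' s' t')
    (hr : Rel d s t s' t') : ∃ g : K, al h q'.y q'.w = al h q.y q.w * g ^ 3 ∧
      (q'.x : K) = (q.x : K) * (g * h.conj g) ∧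
      ((s' : ℂ) + h.emb h.rho * t') / 2 = ((s : ℂ) + h.emb h.rho * t) / 2 * h.emb g ∧
      ((s' : ℂ) - h.emb h.rho * t') / 2 = ((s : ℂ) - h.emb h.rho * t) / 2 * h.emb (h.conj g) := by
  obtain ⟨p, k, hs, ht⟩ := hr
  have hε := n7_sq h
  have hs' : (s' : ℂ) = (p : ℂ) * (s : ℂ) + (d : ℂ) * (k : ℂ) * (t : ℂ) := by
    have := congrArg (fun z : ℝ => (z : ℂ)) hs
    push_cast at this
    exact this
  have ht' : (t' : ℂ) = (k : ℂ) * (s : ℂ) + (p : ℂ) * (t : ℂ) := by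
    have := congrArg (fun z : ℝ => (z : ℂ)) ht
    push_cast at this
    exact this
  obtain ⟨a1, a2, a3⟩ := rp_emb h q s t r
  obtain ⟨b1, b2, b3⟩ := rp_emb h q' s' t' r'
  have hg1 : h.emb ((p : K) + (k : K) * h.rho) = (p : ℂ) + (k : ℂ) * h.emb h.rho := by
    rw [map_add, map_mul, map_ratCast, map_ratCast]
  have hg2 : h.emb (h.conj ((p : K) + (k : K) * h.rho)) = (p : ℂ) - (k : ℂ) * h.emb h.rho := by
    rw [map_add, map_mul, map_ratCast, map_ratCast, h.conj_rho, map_add, map_mul, map_neg,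
      map_ratCast, map_ratCast]
    ring
  have c1 : ((s' : ℂ) + h.emb h.rho * t') / 2 =
      ((s : ℂ) + h.emb h.rho * t) / 2 * h.emb ((p : K) + (k : K) * h.rho) := by
    rw [hg1, hs', ht']
    linear_combination -((k : ℂ) * (t : ℂ) / 2) * hε
  have c2 : ((s' : ℂ) - h.emb h.rho * t') / 2 =
      ((s : ℂ) - h.emb h.rho * t) / 2 * h.emb (h.conj ((p : K) + (k : K) * h.rho)) := by
    rw [hg2, hs', ht']
    linear_combination -((k : ℂ) * (t : ℂ) / 2) * hε
  refine ⟨(p : K) + (k : K) * h.rho, ?_, ?_, c1, c2⟩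
  · apply h.emb.injective
    rw [map_mul, map_pow, ← b1, ← a1, c1]
    ring
  · apply h.emb.injective
    rw [map_mul, map_mul, map_intCast, map_intCast, ← a3, ← b3, c1, c2]
    ring

end W44
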