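import Pool.Agent.LibW44.N7
import Pool.Agent.LibRC91.M4

/-! Row N9. Cubes. `cube_cb`: `κ³ = y + w ρ` is integral so `κ` is integral (`IsIntegral.of_pow`), `2 κ = m + n ρ` (`M4_half`); `8 (y + w ρ) = (m + nρ)³`: compare coordinates; `(κ κ̄)³ = x³` in ℚ so `κ κ̄ = x`.
`rat_cube`: if `α h³ = r` is rational, `h ≠ 0`: norms `x³ N(h)³ = r²` in ℚ (`N(h) = h h̄`), so `r² = u³`, `r = (r/u)³` (`r ≠ 0`; `u = x N(h)`, `r³/u³ = r³/r² = r`), `α = (r/(u h))³`. `rho_cube`: if `α h³ = r ρ`: norms: `x³N(h)³ = -d r²`, `(r ρ)² = d r² = (-u)³`, `rρ = (-rρ/u)³`.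
`nt_pair`: `a = a'` and `Fb = 0` give `A³ = A'³` for `A = A_q (1 - emb g)` (see the formula in row N8), so `α (1-g)³ = conj` of it is rational; `g ≠ 1` would make `α` a cube (`rat_cube`), so `g = 1`. -/

namespace W44
open RC91 NumberField

variable {d : ℤ} {K : Type} [Field K] [NumberField K]

/-- coordinates -/
theorem n9_coord (h : QF d K) (r s : ℚ) (hrs : (r : K) + (s : K) * h.rho = 0) : r = 0 ∧ s = 0 := by
  have hs : s = 0 := by
    by_contra hs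
    apply K2_nsq h (-r / s)
    have hs' : (s : K) ≠ 0 := by exact_mod_cast hs
    push_cast
    rw [div_eq_iff hs']
    linear_combination -hrs
  refine ⟨?_, hs⟩
  rw [hs] at hrs
  have h1 : (r : K) = 0 := by simpa using hrs
  exact_mod_cast h1

theorem n9_norm (h : QF d K) (z : K) : ∃ q : ℚ, z * h.conj z = (q : K) :=
  K2_fix h _ (by rw [map_mul, K2_inv]; ring)

theorem n9_rho0 (h : QF d K) : h.rho ≠ 0 := by
  intro h0
  apply K2_nsq h 0
  rw [h0]
  simp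

theorem n9_d0 (h : QF d K) : (d : K) ≠ 0 := by
  rw [← h.sq]
  exact pow_ne_zero _ (n9_rho0 h)

theorem n9_e {x y w : ℤ} (e : y ^ 2 = x ^ 3 + d * w ^ 2) : y ^ 2 - d * w ^ 2 = x ^ 3 := by
  rw [e]
  ring

theorem cube_cb (h : QF d K) (hd : Squarefree d) (h1 : d ≠ 1) (q : Pt) (hx : q.x ≠ 0)
    (e : q.y ^ 2 = q.x ^ 3 + d * q.w ^ 2) (κ : K) (hk : κ ^ 3 = al h q.y q.w) : Cb d q := by
  have hint : IsIntegral ℤ κ := by
    refine IsIntegral.of_pow (n := 3) (by norm_num) ?_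
    rw [hk]
    exact K2_alint h _ _
  obtain ⟨m, n, hmn⟩ := M4_half h hd κ hint
  have hc : 2 * h.conj κ = (m : K) - (n : K) * h.rho := by
    have h2 := congrArg h.conj hmn
    rw [map_mul, map_add, map_mul, map_intCast, map_intCast, h.conj_rho, map_ofNat] at h2
    rw [h2]
    ring
  obtain ⟨ν, hν⟩ := n9_norm h κ
  have h3 : ν ^ 3 = (q.x : ℚ) ^ 3 := by
    have h4 : (κ * h.conj κ) ^ 3 = (q.x : K) ^ 3 := by
      rw [mul_pow, ← map_pow, hk]
      exact K2_al h _ _ _ (n9_e e)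
    rw [hν] at h4
    exact_mod_cast h4
  have h5 : ν = q.x := by
    have h6 : Odd 3 := by decide
    exact h6.pow_injective h3
  have hsq := h.sq
  refine ⟨m, n, ?_, ?_⟩
  · have h6 : ((4 * q.x : ℤ) : K) = ((m ^ 2 - d * n ^ 2 : ℤ) : K) := by
      have h7 : (q.x : K) = κ * h.conj κ := by
        rw [hν, h5]
        simp
      push_cast
      rw [h7, ← hsq]
      linear_combination (2 * h.conj κ) * hmn + ((m : K) + (n : K) * h.rho) * hc
    exact_mod_cast h6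
  · have h6 : ((8 * q.y - (m ^ 3 + 3 * m * n ^ 2 * d) : ℚ) : K) +
        ((8 * q.w - n * (3 * m ^ 2 + d * n ^ 2) : ℚ) : K) * h.rho = 0 := by
      have h7 : (2 * κ) ^ 3 = 8 * ((q.y : K) + (q.w : K) * h.rho) := by
        rw [mul_pow, hk]
        unfold al
        ring
      rw [hmn] at h7
      push_cast
      linear_combination -h7 + (3 * (m : K) * n ^ 2 + n ^ 3 * h.rho) * hsq
    have h8 := (n9_coord h _ _ h6).2
    have h9 : (8 * q.w : ℚ) = n * (3 * m ^ 2 + d * n ^ 2) := sub_eq_zero.1 h8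
    exact_mod_cast h9

theorem rat_cube (h : QF d K) (x y w : ℤ) (hx : x ≠ 0) (e : y ^ 2 = x ^ 3 + d * w ^ 2) (g : K) (hg : g ≠ 0)
    (r : ℚ) (hr : al h y w * g ^ 3 = (r : K)) : ∃ κ : K, κ ^ 3 = al h y w := by
  obtain ⟨ν, hν⟩ := n9_norm h g
  have hal := K2_alne h x y w hx (n9_e e)
  have hr0 : (r : K) ≠ 0 := by
    rw [← hr]
    exact mul_ne_zero hal (pow_ne_zero _ hg)
  have h1 : (r : K) ^ 2 = ((x : K) * ν) ^ 3 := by
    have h2 : (r : K) ^ 2 = (al h y w * g ^ 3) * h.conj (al h y w * g ^ 3) := by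
      rw [hr, K2_rat]
      ring
    have h3 := K2_al h x y w (n9_e e)
    rw [h2, ← hν, map_mul, map_pow, mul_pow, ← h3]
    ring
  have hu : (x : K) * ν ≠ 0 := by
    intro h0
    rw [h0] at h1
    exact hr0 (pow_eq_zero_iff (two_ne_zero) |>.1 (h1.trans (by norm_num)))
  refine ⟨r / ((x : K) * ν * g), ?_⟩
  rw [div_pow, mul_pow, ← h1, div_eq_iff (mul_ne_zero (pow_ne_zero _ hr0) (pow_ne_zero _ hg))]
  rw [show al h y w * ((r : K) ^ 2 * g ^ 3) = (al h y w * g ^ 3) * (r : K) ^ 2 by ring, hr]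
  ring

theorem rho_cube (h : QF d K) (x y w : ℤ) (hx : x ≠ 0) (e : y ^ 2 = x ^ 3 + d * w ^ 2) (g : K) (hg : g ≠ 0)
    (r : ℚ) (hr : al h y w * g ^ 3 = (r : K) * h.rho) : ∃ κ : K, κ ^ 3 = al h y w := by
  obtain ⟨ν, hν⟩ := n9_norm h g
  have hal := K2_alne h x y w hx (n9_e e)
  have hrr : (r : K) * h.rho ≠ 0 := by
    rw [← hr]
    exact mul_ne_zero hal (pow_ne_zero _ hg)
  have h1 : -((r : K) * h.rho) ^ 2 = ((x : K) * ν) ^ 3 := by
    have h2 : -((r : K) * h.rho) ^ 2 = (al h y w * g ^ 3) * h.conj (al h y w * g ^ 3) := by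
      rw [hr, map_mul, K2_rat, h.conj_rho]
      ring
    have h3 := K2_al h x y w (n9_e e)
    rw [h2, ← hν, map_mul, map_pow, mul_pow, ← h3]
    ring
  have hu : (x : K) * ν ≠ 0 := by
    intro h0
    rw [h0] at h1
    exact hrr (pow_eq_zero_iff (two_ne_zero) |>.1 (neg_eq_zero.1 (h1.trans (by norm_num))))
  refine ⟨-((r : K) * h.rho) / ((x : K) * ν * g), ?_⟩
  rw [div_pow, mul_pow, ← h1,
    div_eq_iff (mul_ne_zero (neg_ne_zero.2 (pow_ne_zero _ hrr)) (pow_ne_zero _ hg))]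
  rw [show al h y w * (-((r : K) * h.rho) ^ 2 * g ^ 3) =
    (al h y w * g ^ 3) * (-((r : K) * h.rho) ^ 2) by ring, hr]
  ring

theorem nt_pair (h : QF d K) (hd : Squarefree d) (h1 : d ≠ 1) (q q' : Pt) (s t s' t' : ℝ)
    (hx : q.x ≠ 0) (hx' : q'.x ≠ 0) (e : q.y ^ 2 = q.x ^ 3 + d * q.w ^ 2)
    (r : RP d q s t) (r' : RP d q' s' t') (hr : Rel d s t s' t') (hcb : ¬ Cb d q) (ha : q.a = q'.a)
    (hF : Fb d (((q.a, s, t) : ℤ × ℝ × ℝ) - (q'.a, s', t')) = 0) : s = s' ∧ t = t' := by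
  obtain ⟨g, hg1, hg2, hg3, hg4⟩ := rel_al h q q' s t s' t' r r' hr
  obtain ⟨hp1, hp2, hp3⟩ := rp_emb h q s t r
  have hF' : (t - t') * (3 * (s - s') ^ 2 + d * (t - t') ^ 2) = 0 := by
    have h2 : Fb d (((q.a, s, t) : ℤ × ℝ × ℝ) - (q'.a, s', t')) =
        (t - t') * (3 * (s - s') ^ 2 + d * (t - t') ^ 2) := by
      change (t - t') * (3 * (s - s') ^ 2 + d * (t - t') ^ 2) -
        2 * ((q.a - q'.a : ℤ) : ℝ) * ((s - s') ^ 2 - d * (t - t') ^ 2) = _
      rw [ha]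
      simp
    rw [← h2]
    exact hF
  have hF'' : ((t : ℂ) - t') * (3 * ((s : ℂ) - s') ^ 2 + d * ((t : ℂ) - t') ^ 2) = 0 := by
    exact_mod_cast congrArg (fun x : ℝ => (x : ℂ)) hF'
  have hsq : h.emb h.rho ^ 2 = (d : ℂ) := by
    rw [← map_pow, h.sq, map_intCast]
  have hε : h.emb h.rho ≠ 0 := by
    rw [Ne, map_eq_zero]
    exact n9_rho0 h
  -- the cube of the difference is rational
  have hA : ((s : ℂ) + h.emb h.rho * t) / 2 * h.emb (1 - g) =
      (((s : ℂ) - s') + h.emb h.rho * ((t : ℂ) - t')) / 2 := by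
    rw [map_sub, map_one, mul_sub, mul_one, ← hg3]
    ring
  have hB : ((s : ℂ) - h.emb h.rho * t) / 2 * h.emb (h.conj (1 - g)) =
      (((s : ℂ) - s') - h.emb h.rho * ((t : ℂ) - t')) / 2 := by
    rw [map_sub, map_one, map_sub, map_one, mul_sub, mul_one, ← hg4]
    ring
  have h3 : h.emb (al h q.y q.w * (1 - g) ^ 3) = h.emb (h.conj (al h q.y q.w * (1 - g) ^ 3)) := by
    rw [map_mul, map_mul, map_mul, ← hp1, ← hp2, map_pow, map_pow, map_pow, ← mul_pow, ← mul_pow,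
      hA, hB]
    linear_combination (h.emb h.rho / 4) * hF'' +
      (h.emb h.rho / 4 * ((t : ℂ) - t') ^ 3) * hsq
  have h4 := h.emb.injective h3
  obtain ⟨rr, hrr⟩ := K2_fix h _ h4.symm
  have hg : g = 1 := by
    by_contra hg
    obtain ⟨κ, hκ⟩ := rat_cube h q.x q.y q.w hx e (1 - g) (sub_ne_zero.2 (Ne.symm hg)) rr hrr
    exact hcb (cube_cb h hd h1 q hx e κ hκ)
  rw [hg, map_one, mul_one] at hg3
  rw [hg, map_one, map_one, mul_one] at hg4
  have h5 : (s : ℂ) = s' := by linear_combination -hg3 - hg4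
  have h6 : h.emb h.rho * ((t : ℂ) - t') = 0 := by linear_combination -hg3 + hg4
  have h7 : (t : ℂ) = t' := sub_eq_zero.1 ((mul_eq_zero.1 h6).resolve_left hε)
  exact ⟨by exact_mod_cast h5, by exact_mod_cast h7⟩

end W44
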