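import Pool.Agent.LibW44.Defs
import Pool.Agent.LibRC91.QM
import Pool.Agent.LibRC91.QT1

/-! Row S1. `3^ω(c) ≤ 4^ω(c) ≤ τ(c)²` (`RC91.QT1_tau`), `RC91.QM_one 2 N`. -/

namespace W44
open RC91

theorem three_sum (N : ℕ) (hN : 1 ≤ N) :
    ∑ c ∈ Finset.Icc 1 N, (3 : ℝ) ^ c.primeFactors.card / c ≤ (1 + Real.log N) ^ 4 := by
  refine le_trans (Finset.sum_le_sum fun c hc => ?_) (QM_one 2 N hN)
  rw [Finset.mem_Icc] at hc
  have h1 : ((2 : ℝ)) ^ c.primeFactors.card ≤ (c.divisors.card : ℝ) := by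
    exact_mod_cast QT1_tau c (by omega)
  have h2 : (3 : ℝ) ^ c.primeFactors.card ≤ (c.divisors.card : ℝ) ^ 2 := by
    calc (3 : ℝ) ^ c.primeFactors.card ≤ (4 : ℝ) ^ c.primeFactors.card :=
          pow_le_pow_left₀ (by norm_num) (by norm_num) _
      _ = ((2 : ℝ) ^ c.primeFactors.card) ^ 2 := by
          rw [← pow_mul, mul_comm, pow_mul]
          norm_num
      _ ≤ (c.divisors.card : ℝ) ^ 2 := pow_le_pow_left₀ (by positivity) h1 2
  exact div_le_div_of_nonneg_right h2 (Nat.cast_nonneg c)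

end W44
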