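import Pool.Agent.LibW44.S1

/-! Row S2. Sum over `c`. All powers: `c^(-s) = c^(-1) c^(1-s)`. `H ≥ 10^16`, `G = |d| H^(3/2)`, `X = |d| H`; `M = G/H^(1/3) = |d| H^(7/6)`. (i) `c ≥ M`: `(G/c)² ≤ G²/(M c) = G H^(1/3)/c`, total `G H^(1/3) = |d| H^(11/6) = Ee`. (ii) `c < M`: `√H (2 + √(400G/c))(2 + (κ/c)^(1/3))`, `κ = 10^6 |d| H^(-3/4)`:
`√H·4·M/c·..`: `1 ≤ M/c`; `√(G/c) ≤ √(G M)/c`; `(κ/c)^(1/3) ≤ κ^(1/3) M^(2/3)/c`; product `≤ G^(1/2) κ^(1/3) M^(1/6)/c`; times `√H` these are at most `C |d| H^(11/6)/c` (worst: `√H √(G M) = |d| H^(1/2+3/4+7/12) = |d| H^(11/6)`; use `|d| ≥ 1`, `H ≥ 1`).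
(iii) `(G/c)^(1/3) ≤ G^(1/3) (9G)^(2/3)/c`, `G ≤ Ee`. Then `three_sum`: `1 + log N ≤ 1 + log(9 G) ≤ 5 L`. -/

namespace W44
open RC91

/-- all quantities are powers of `h = H^(1/12)` -/
theorem s2_setup {X : ℕ} {d : ℤ} (hd : d ≠ 0) (hX : 10 ^ 16 * |d| ≤ (X : ℤ)) :
    ∃ h D : ℝ, 1 ≤ h ∧ 1 ≤ D ∧ |(d : ℝ)| = D ∧ (X : ℝ) = D * h ^ 12 ∧ Gg X d = D * h ^ 18 ∧
      Ee X d = D * h ^ 22 ∧ Hh X d ^ (1 / 3 : ℝ) = h ^ 4 ∧ √(Hh X d) = h ^ 6 ∧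
      Hh X d ^ (-(3 / 4) : ℝ) = (h ^ 9)⁻¹ := by
  have hD : (1 : ℝ) ≤ |(d : ℝ)| := by
    have h1 : (1 : ℤ) ≤ |d| := Int.one_le_abs hd
    have h2 : ((1 : ℤ) : ℝ) ≤ ((|d| : ℤ) : ℝ) := by exact_mod_cast h1
    simpa using h2
  have hD0 : (0 : ℝ) < |(d : ℝ)| := by linarith
  have hXr : (10 : ℝ) ^ 16 * |(d : ℝ)| ≤ (X : ℝ) := by
    have h2 : (((10 ^ 16 * |d| : ℤ)) : ℝ) ≤ ((X : ℤ) : ℝ) := by exact_mod_cast hX
    push_cast at h2
    linarith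
  have hH1 : (1 : ℝ) ≤ Hh X d := by
    unfold Hh
    rw [le_div_iff₀ hD0]
    nlinarith
  have hH0 : (0 : ℝ) ≤ Hh X d := by linarith
  have hHX : (X : ℝ) = |(d : ℝ)| * Hh X d := by
    unfold Hh
    field_simp
  set h : ℝ := Hh X d ^ (1 / 12 : ℝ) with hh
  have h1 : 1 ≤ h := Real.one_le_rpow hH1 (by norm_num)
  have h0 : 0 ≤ h := by linarith
  have hp : ∀ q : ℕ, h ^ q = Hh X d ^ ((q : ℝ) / 12) := by
    intro q
    rw [hh, ← Real.rpow_natCast, ← Real.rpow_mul hH0]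
    congr 1
    ring
  have hH12 : Hh X d = h ^ 12 := by
    rw [hp]
    norm_num
  refine ⟨h, |(d : ℝ)|, h1, hD, rfl, ?_, ?_, ?_, ?_, ?_, ?_⟩
  · rw [← hH12, ← hHX]
  · unfold Gg
    rw [hHX, hH12]
    have : (|(d : ℝ)| * h ^ 12) ^ 3 / |(d : ℝ)| = (|(d : ℝ)| * h ^ 18) ^ 2 := by
      field_simp
    rw [this, Real.sqrt_sq (by positivity)]
  · unfold Ee
    rw [hp 22]
    norm_num
  · rw [hp 4]
    norm_num
  · rw [hH12, show h ^ 12 = (h ^ 6) ^ 2 by ring, Real.sqrt_sq (by positivity)]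
  · rw [hp 9, Real.rpow_neg hH0]
    norm_num

/-- the bound for one `c` -/
theorem s2_Mm {X : ℕ} {d : ℤ} (hd : d ≠ 0) (hX : 10 ^ 16 * |d| ≤ (X : ℤ)) {c : ℕ} (hc : 1 ≤ c) :
    Mm X d c ≤ 2244 * Ee X d / c := by
  obtain ⟨h, D, h1, hD, hDe, hXe, hG, hE, h3, h2, h4⟩ := s2_setup hd hX
  have hc0 : (0 : ℝ) < c := by exact_mod_cast hc
  have hh0 : (0 : ℝ) < h := by linarith
  have hD0 : (0 : ℝ) < D := by linarith
  unfold Mm
  rw [hG, hE, h3, h2, h4, hDe]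
  split_ifs with hcase
  · rw [div_pow, div_le_div_iff₀ (by positivity) hc0]
    have e1 : (D * h ^ 18) ^ 2 * c = (D * h ^ 18 * c) * (D * h ^ 18) := by ring
    have e2 : 2244 * (D * h ^ 22) * (c : ℝ) ^ 2 =
        2244 * ((D * h ^ 18 * c) * (c * h ^ 4)) := by ring
    rw [e1, e2]
    have e3 : (D * h ^ 18 * c) * (D * h ^ 18) ≤ (D * h ^ 18 * c) * (c * h ^ 4) :=
      mul_le_mul_of_nonneg_left hcase (by positivity)
    have e4 : 0 ≤ (D * h ^ 18 * c) * (c * h ^ 4) := by positivity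
    linarith
  · push Not at hcase
    -- `m = D h ^ 14 / c ≥ 1`
    have hm : 1 ≤ D * h ^ 14 / c := by
      rw [le_div_iff₀ hc0, one_mul]
      have e1 : (c : ℝ) * h ^ 4 ≤ (D * h ^ 14) * h ^ 4 := by
        calc (c : ℝ) * h ^ 4 ≤ D * h ^ 18 := hcase.le
          _ = (D * h ^ 14) * h ^ 4 := by ring
      exact le_of_mul_le_mul_right e1 (by positivity)
    set r : ℝ := √(D * h ^ 14 / c) with hr
    have hr1 : 1 ≤ r := by
      rw [hr, show (1 : ℝ) = √1 by simp]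
      exact Real.sqrt_le_sqrt hm
    have hr2 : r ^ 2 = D * h ^ 14 / c := Real.sq_sqrt (by positivity)
    have hu : √(400 * (D * h ^ 18) / c) = 20 * (r * h ^ 2) := by
      have : 400 * (D * h ^ 18) / c = (20 * (r * h ^ 2)) ^ 2 := by
        rw [mul_pow, mul_pow, hr2]
        field_simp
        norm_num
      rw [this, Real.sqrt_sq (by positivity)]
    have hv : (10 ^ 6 * D * (h ^ 9)⁻¹ / c) ^ (1 / 3 : ℝ) ≤ 100 * r := by
      have e1 : 10 ^ 6 * D * (h ^ 9)⁻¹ / c ≤ (100 * r) ^ 3 := by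
        have e2 : (100 * r) ^ 3 = 10 ^ 6 * (D * h ^ 14 / c) * r := by
          rw [← hr2]; ring
        rw [e2]
        have e3 : (h ^ 9)⁻¹ ≤ 1 := inv_le_one_of_one_le₀ (one_le_pow₀ h1)
        have e4 : (1 : ℝ) ≤ h ^ 14 := one_le_pow₀ h1
        calc 10 ^ 6 * D * (h ^ 9)⁻¹ / c ≤ 10 ^ 6 * D * 1 / c := by
              gcongr
          _ ≤ 10 ^ 6 * D * h ^ 14 / c := by
              gcongr
          _ = 10 ^ 6 * (D * h ^ 14 / c) * 1 := by ring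
          _ ≤ 10 ^ 6 * (D * h ^ 14 / c) * r := by
              gcongr
      calc (10 ^ 6 * D * (h ^ 9)⁻¹ / c) ^ (1 / 3 : ℝ) ≤ ((100 * r) ^ 3) ^ (1 / 3 : ℝ) :=
            Real.rpow_le_rpow (by positivity) e1 (by norm_num)
        _ = 100 * r := by
            rw [← Real.rpow_natCast, ← Real.rpow_mul (by positivity)]
            norm_num
    rw [hu]
    have e5 : (2 : ℝ) + 20 * (r * h ^ 2) ≤ 22 * (r * h ^ 2) := by
      have : 1 ≤ r * h ^ 2 := one_le_mul_of_one_le_of_one_le hr1 (one_le_pow₀ h1)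
      linarith
    have e6 : 2 + (10 ^ 6 * D * (h ^ 9)⁻¹ / c) ^ (1 / 3 : ℝ) ≤ 102 * r := by linarith
    have e7 : 0 ≤ 2 + (10 ^ 6 * D * (h ^ 9)⁻¹ / c) ^ (1 / 3 : ℝ) := by positivity
    calc h ^ 6 * (2 + 20 * (r * h ^ 2)) * (2 + (10 ^ 6 * D * (h ^ 9)⁻¹ / c) ^ (1 / 3 : ℝ))
        ≤ h ^ 6 * (22 * (r * h ^ 2)) * (102 * r) := by gcongr
      _ = 2244 * h ^ 8 * r ^ 2 := by ring
      _ = 2244 * (D * h ^ 22) / c := by
          rw [hr2]; ring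

theorem s2_Gg {X : ℕ} {d : ℤ} (hd : d ≠ 0) (hX : 10 ^ 16 * |d| ≤ (X : ℤ)) {c : ℕ} (hc : 1 ≤ c)
    (hc9 : (c : ℝ) ≤ 9 * Gg X d) : (Gg X d / c) ^ (1 / 3 : ℝ) ≤ 9 * Ee X d / c := by
  obtain ⟨h, D, h1, hD, hDe, hXe, hG, hE, h3, h2, h4⟩ := s2_setup hd hX
  have hc0 : (0 : ℝ) < c := by exact_mod_cast hc
  have hh0 : (0 : ℝ) < h := by linarith
  have hD0 : (0 : ℝ) < D := by linarith
  rw [hG] at hc9 ⊢
  rw [hE]
  have e1 : 1 ≤ 9 * (D * h ^ 18 / c) := by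
    rw [← mul_div_assoc, le_div_iff₀ hc0]
    linarith
  have e2 : D * h ^ 18 / c ≤ 9 * (D * h ^ 18 / c) := by
    have : 0 ≤ D * h ^ 18 / c := by positivity
    linarith
  calc (D * h ^ 18 / c) ^ (1 / 3 : ℝ) ≤ (9 * (D * h ^ 18 / c)) ^ (1 / 3 : ℝ) :=
        Real.rpow_le_rpow (by positivity) e2 (by norm_num)
    _ ≤ (9 * (D * h ^ 18 / c)) ^ (1 : ℝ) := Real.rpow_le_rpow_of_exponent_le e1 (by norm_num)
    _ = 9 * (D * h ^ 18) * 1 / c := by rw [Real.rpow_one]; ring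
    _ ≤ 9 * (D * h ^ 18) * h ^ 4 / c := by
        have : (1 : ℝ) ≤ h ^ 4 := one_le_pow₀ h1
        gcongr
    _ = 9 * (D * h ^ 22) / c := by ring

theorem s2_log {X : ℕ} {d : ℤ} (hd : d ≠ 0) (hX : 10 ^ 16 * |d| ≤ (X : ℤ)) {N : ℕ} (hN : 1 ≤ N)
    (hN9 : (N : ℝ) ≤ 9 * Gg X d) : 1 + Real.log N ≤ 5 * Ll X := by
  obtain ⟨h, D, h1, hD, hDe, hXe, hG, hE, h3, h2, h4⟩ := s2_setup hd hX
  have hh0 : (0 : ℝ) < h := by linarith
  have hD0 : (0 : ℝ) < D := by linarith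
  have hN0 : (0 : ℝ) < N := by exact_mod_cast hN
  have hX1 : (1 : ℝ) ≤ X := by
    rw [hXe]
    exact one_le_mul_of_one_le_of_one_le hD (one_le_pow₀ h1)
  have hGX : Gg X d ≤ (X : ℝ) ^ 2 := by
    rw [hG, hXe]
    have e1 : D * h ^ 18 * 1 ≤ D * h ^ 18 * (D * h ^ 6) :=
      mul_le_mul_of_nonneg_left (one_le_mul_of_one_le_of_one_le hD (one_le_pow₀ h1))
        (by positivity)
    calc D * h ^ 18 = D * h ^ 18 * 1 := by ring
      _ ≤ D * h ^ 18 * (D * h ^ 6) := e1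
      _ = (D * h ^ 12) ^ 2 := by ring
  have hlog : Real.log N ≤ Real.log (9 * (X : ℝ) ^ 2) :=
    Real.log_le_log hN0 (by linarith)
  rw [Real.log_mul (by norm_num) (by positivity), Real.log_pow] at hlog
  have h9 : Real.log 9 ≤ 4 := by
    have e1 : Real.log 9 = 2 * Real.log 3 := by
      rw [show (9 : ℝ) = 3 ^ 2 by norm_num, Real.log_pow]; norm_num
    have e2 : Real.log 3 ≤ 3 - 1 := Real.log_le_sub_one_of_pos (by norm_num)
    linarith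
  have hlX : 0 ≤ Real.log X := Real.log_nonneg hX1
  unfold Ll
  push_cast at hlog
  linarith

theorem sum_c : ∃ (C : ℝ) (k : ℕ), 0 < C ∧ ∀ (X : ℕ) (d : ℤ), d ≠ 0 → 10 ^ 16 * |d| ≤ (X : ℤ) →
    ∀ N : ℕ, (N : ℝ) ≤ 9 * Gg X d → ∀ Y : ℝ, 0 ≤ Y →
    ∑ c ∈ Finset.Icc 1 N, (3 : ℝ) ^ c.primeFactors.card *
      (Ll X * Mm X d c + (Gg X d / c) ^ (1 / 3 : ℝ) * (1 + Y)) ≤ C * Ll X ^ k * (1 + Y) * Ee X d := by
  refine ⟨2253 * 5 ^ 4, 5, by norm_num, ?_⟩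
  intro X d hd hX N hN Y hY
  obtain ⟨h, D, h1, hD, hDe, hXe, hG, hE, h3, h2, h4⟩ := s2_setup hd hX
  have hh0 : (0 : ℝ) < h := by linarith
  have hD0 : (0 : ℝ) < D := by linarith
  have hX1 : (1 : ℝ) ≤ X := by
    rw [hXe]
    exact one_le_mul_of_one_le_of_one_le hD (one_le_pow₀ h1)
  have hL1 : 1 ≤ Ll X := by
    unfold Ll
    have := Real.log_nonneg hX1
    linarith
  have hE0 : 0 ≤ Ee X d := by rw [hE]; positivity
  have hY1 : 1 ≤ 1 + Y := by linarith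
  rcases Nat.eq_zero_or_pos N with rfl | hN1
  · simp only [zero_lt_one, Finset.Icc_eq_empty_of_lt, Finset.sum_empty]
    positivity
  have hterm : ∀ c ∈ Finset.Icc 1 N, (3 : ℝ) ^ c.primeFactors.card *
      (Ll X * Mm X d c + (Gg X d / c) ^ (1 / 3 : ℝ) * (1 + Y)) ≤
      (3 : ℝ) ^ c.primeFactors.card / c * (2253 * Ll X * (1 + Y) * Ee X d) := by
    intro c hc
    rw [Finset.mem_Icc] at hc
    have hc0 : (0 : ℝ) < c := by exact_mod_cast hc.1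
    have hcN : (c : ℝ) ≤ N := by exact_mod_cast hc.2
    have e1 := s2_Mm hd hX hc.1
    have e2 := s2_Gg hd hX hc.1 (hcN.trans hN)
    have e3 : Ll X * Mm X d c ≤ Ll X * (2244 * Ee X d / c) :=
      mul_le_mul_of_nonneg_left e1 (by linarith)
    have e4 : (Gg X d / c) ^ (1 / 3 : ℝ) * (1 + Y) ≤ 9 * Ee X d / c * (1 + Y) :=
      mul_le_mul_of_nonneg_right e2 (by linarith)
    have e5 : Ll X * (2244 * Ee X d / c) ≤ Ll X * (2244 * Ee X d / c) * (1 + Y) :=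
      le_mul_of_one_le_right (by positivity) hY1
    have e6 : 9 * Ee X d / c * (1 + Y) ≤ Ll X * (9 * Ee X d / c * (1 + Y)) :=
      le_mul_of_one_le_left (by positivity) hL1
    have e7 : Ll X * (2244 * Ee X d / c) * (1 + Y) + Ll X * (9 * Ee X d / c * (1 + Y)) =
        (2253 * Ll X * (1 + Y) * Ee X d) / c := by ring
    calc (3 : ℝ) ^ c.primeFactors.card *
          (Ll X * Mm X d c + (Gg X d / c) ^ (1 / 3 : ℝ) * (1 + Y))
        ≤ (3 : ℝ) ^ c.primeFactors.card * ((2253 * Ll X * (1 + Y) * Ee X d) / c) := by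
          apply mul_le_mul_of_nonneg_left _ (by positivity)
          rw [← e7]
          linarith
      _ = (3 : ℝ) ^ c.primeFactors.card / c * (2253 * Ll X * (1 + Y) * Ee X d) := by ring
  have hlog := s2_log hd hX hN1 hN
  have hlog0 : 0 ≤ 1 + Real.log N := by
    have : 0 ≤ Real.log N := Real.log_natCast_nonneg N
    linarith
  have h5 : (1 + Real.log N) ^ 4 ≤ (5 * Ll X) ^ 4 := pow_le_pow_left₀ hlog0 hlog 4
  calc ∑ c ∈ Finset.Icc 1 N, (3 : ℝ) ^ c.primeFactors.card *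
        (Ll X * Mm X d c + (Gg X d / c) ^ (1 / 3 : ℝ) * (1 + Y))
      ≤ ∑ c ∈ Finset.Icc 1 N, (3 : ℝ) ^ c.primeFactors.card / c *
          (2253 * Ll X * (1 + Y) * Ee X d) := Finset.sum_le_sum hterm
    _ = (∑ c ∈ Finset.Icc 1 N, (3 : ℝ) ^ c.primeFactors.card / c) *
          (2253 * Ll X * (1 + Y) * Ee X d) := by rw [Finset.sum_mul]
    _ ≤ (5 * Ll X) ^ 4 * (2253 * Ll X * (1 + Y) * Ee X d) := by
        apply mul_le_mul_of_nonneg_right ((three_sum N hN1).trans h5)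
        positivity
    _ = 2253 * 5 ^ 4 * Ll X ^ 5 * (1 + Y) * Ee X d := by ring

end W44
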