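import Pool.Agent.LibW44.Defs

/-! Row V9. Parallel vectors. Fix `z₀ ∈ T`. `z = λ z₀` with `λ = a/a₀ > 0` (Par, `a ≥ 1`), `Fb(z) = λ³ Fb(z₀)`: the integers `β_z = b_z/c ≠ 0` satisfy `β_z = (a/a₀)³ β_{z₀}`, `|β_z| ≤ √69 G/c ≤ 9 G/c =: B`, and `z ↦ β_z` is injective. Write `β_{z₀} = n₀ k₀³` with `n₀` cube free
(or: the quotient of two is the cube of a rational): all `β_z = n₀ k_z³` with integers `k_z` of the same sign, so at most `B^(1/3)` of them (`1 ≤ |k_z| ≤ B^(1/3)`). Alternative to cube free: `β_z β_{z₀}² = (β_{z₀} a/a₀)³` is an integer and a cube of a rational, so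
`κ_z := β_{z₀} a/a₀` is an integer with `β_{z₀}² ∣ κ_z³`; let `h` be the least positive integer with `β_{z₀}² ∣ h³`; then `h ∣ κ_z` and `h³ ≥ β_{z₀}²`, `|κ_z/h|³ ≤ B`. -/

namespace W44
open RC91

private theorem v9_nat (n B : ℕ) (hn : 1 ≤ n) (hB : 1 ≤ B) :
    ∃ h : ℕ, 1 ≤ h ∧ ∀ a β : ℕ, 1 ≤ a → β * n ^ 3 = a ^ 3 * B → h ∣ a ∧ (a / h) ^ 3 ≤ β := by
  have hex : ∃ h : ℕ, 1 ≤ h ∧ n ^ 3 ∣ h ^ 3 * B := ⟨n, hn, Dvd.intro _ rfl⟩
  have hspec := Nat.find_spec hex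
  have hmin : ∀ m : ℕ, 1 ≤ m ∧ n ^ 3 ∣ m ^ 3 * B → Nat.find hex ≤ m := fun m hm =>
    Nat.find_min' hex hm
  set h := Nat.find hex with hdef
  refine ⟨h, hspec.1, ?_⟩
  intro a β ha hab
  have hQ : n ^ 3 ∣ a ^ 3 * B := ⟨β, by rw [← hab, mul_comm]⟩
  have hg : n ^ 3 ∣ (Nat.gcd a h) ^ 3 * B := by
    have h1 : n ^ 3 ∣ Nat.gcd (a ^ 3 * B) (h ^ 3 * B) := Nat.dvd_gcd hQ hspec.2
    rw [Nat.gcd_mul_right, Nat.pow_gcd_pow] at h1
    exact h1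
  have hgpos : 1 ≤ Nat.gcd a h := Nat.gcd_pos_of_pos_left h (by omega)
  have hle := hmin _ ⟨hgpos, hg⟩
  have hge : Nat.gcd a h ≤ h := Nat.le_of_dvd (by have := hspec.1; omega) (Nat.gcd_dvd_right a h)
  have hgh : Nat.gcd a h = h := le_antisymm hge hle
  have hdvd : h ∣ a := by
    rw [← hgh]
    exact Nat.gcd_dvd_left a h
  refine ⟨hdvd, ?_⟩
  obtain ⟨k, hk⟩ := hdvd
  obtain ⟨m, hm⟩ := hspec.2
  have hh0 : 0 < h := hspec.1
  have hm1 : 1 ≤ m := by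
    rcases Nat.eq_zero_or_pos m with h0 | h0
    · exfalso
      rw [h0, mul_zero] at hm
      have : 0 < h ^ 3 * B := by positivity
      omega
    · exact h0
  have hak : a / h = k := by
    rw [hk]
    exact Nat.mul_div_cancel_left k hh0
  rw [hak]
  have hn3 : 0 < n ^ 3 := by positivity
  have h2 : β * n ^ 3 = (m * k ^ 3) * n ^ 3 := by
    calc β * n ^ 3 = a ^ 3 * B := hab
      _ = (h ^ 3 * B) * k ^ 3 := by rw [hk]; ring
      _ = (n ^ 3 * m) * k ^ 3 := by rw [hm]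
      _ = (m * k ^ 3) * n ^ 3 := by ring
  have h3 : β = m * k ^ 3 := Nat.eq_of_mul_eq_mul_right hn3 h2
  rw [h3]
  exact Nat.le_mul_of_pos_left _ hm1

theorem dir (X : ℕ) (d : ℤ) (hd : d ≠ 0) (c : ℕ) (hc : 1 ≤ c)
    (T : Finset (ℤ × ℝ × ℝ)) (hT : VS X d c (T : Set (ℤ × ℝ × ℝ))) (hp : ∀ z ∈ T, ∀ z' ∈ T, Par z z') :
    (T.card : ℝ) ≤ (9 * Gg X d / c) ^ (1 / 3 : ℝ) := by
  have hc0 : (0 : ℝ) < (c : ℝ) := by exact_mod_cast hc
  have hG0 : 0 ≤ Gg X d := Real.sqrt_nonneg _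
  have hB0 : 0 ≤ 9 * Gg X d / c := by positivity
  rcases T.eq_empty_or_nonempty with h0 | ⟨z₀, hz₀⟩
  · rw [h0, Finset.card_empty, Nat.cast_zero]
    exact Real.rpow_nonneg hB0 _
  obtain ⟨b₀, hb₀, ⟨β₀, hβ₀⟩, hb₀ne, _, _⟩ := hT.b1 z₀ hz₀
  have ha₀ := (hT.a1 z₀ hz₀).1
  have hcZ : (c : ℤ) ≠ 0 := by
    have : (1 : ℤ) ≤ (c : ℤ) := by exact_mod_cast hc
    omega
  have hβ₀ne : β₀ ≠ 0 := by
    intro h
    apply hb₀ne
    rw [hβ₀, h, mul_zero]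
  obtain ⟨h, hh1, hh⟩ := v9_nat z₀.1.natAbs β₀.natAbs (by omega) (by
    have := Int.natAbs_pos.2 hβ₀ne
    omega)
  -- the multiplier of every vector
  have key : ∀ z ∈ T, ∃ k : ℕ, z.1 = (h : ℤ) * k ∧ 1 ≤ k ∧ ((k : ℝ)) ^ 3 ≤ 9 * Gg X d / c := by
    intro z hz
    obtain ⟨b, hb, ⟨β, hβ⟩, hbne, hbd, _⟩ := hT.b1 z hz
    have ha := (hT.a1 z hz).1
    obtain ⟨hs, ht⟩ := hp z hz z₀ hz₀
    have e1 : Fb d z * (z₀.1 : ℝ) ^ 3 = (z.1 : ℝ) ^ 3 * Fb d z₀ := by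
      have e2 : Fb d z * (z₀.1 : ℝ) ^ 3 = ((z₀.1 : ℝ) * z.2.2) *
          (3 * ((z₀.1 : ℝ) * z.2.1) ^ 2 + d * ((z₀.1 : ℝ) * z.2.2) ^ 2) -
          2 * z.1 * z₀.1 * (((z₀.1 : ℝ) * z.2.1) ^ 2 - d * ((z₀.1 : ℝ) * z.2.2) ^ 2) := by
        unfold Fb
        ring
      rw [e2, ← hs, ← ht]
      unfold Fb
      ring
    rw [hb, hb₀] at e1
    have e3 : (b : ℝ) * (z₀.1 : ℝ) ^ 3 = (z.1 : ℝ) ^ 3 * (b₀ : ℝ) := by linarith
    have e4 : b * z₀.1 ^ 3 = z.1 ^ 3 * b₀ := by exact_mod_cast e3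
    rw [hβ, hβ₀] at e4
    have e5 : β * z₀.1 ^ 3 = z.1 ^ 3 * β₀ := by
      apply mul_left_cancel₀ hcZ
      linarith
    have e6 : β.natAbs * z₀.1.natAbs ^ 3 = z.1.natAbs ^ 3 * β₀.natAbs := by
      have := congrArg Int.natAbs e5
      rw [Int.natAbs_mul, Int.natAbs_mul, Int.natAbs_pow, Int.natAbs_pow] at this
      exact this
    obtain ⟨⟨k, hk⟩, hk3⟩ := hh z.1.natAbs β.natAbs (by omega) e6
    have hdiv : z.1.natAbs / h = k := by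
      rw [hk]
      exact Nat.mul_div_cancel_left k (by omega)
    rw [hdiv] at hk3
    refine ⟨k, ?_, ?_, ?_⟩
    · have h1 : (z.1.natAbs : ℤ) = z.1 := Int.natAbs_of_nonneg (by omega)
      rw [← h1, hk]
      push_cast
      ring
    · rcases Nat.eq_zero_or_pos k with h1 | h1
      · exfalso
        rw [h1, mul_zero] at hk
        omega
      · exact h1
    · have h1 : ((k : ℝ)) ^ 3 ≤ ((β.natAbs : ℕ) : ℝ) := by exact_mod_cast hk3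
      have h2 : ((β.natAbs : ℕ) : ℝ) = |(β : ℝ)| := by
        rw [Nat.cast_natAbs, Int.cast_abs]
      rw [h2] at h1
      refine h1.trans ?_
      have hD : 0 < |(d : ℝ)| := abs_pos.2 (by exact_mod_cast hd)
      have h3 : |(d : ℝ)| * (b : ℝ) ^ 2 ≤ 69 * (X : ℝ) ^ 3 := by
        have h4 : ((|d| * b ^ 2 : ℤ) : ℝ) ≤ ((69 * (X : ℤ) ^ 3 : ℤ) : ℝ) := by exact_mod_cast hbd
        push_cast at h4
        exact h4
      have h4 : (b : ℝ) = (c : ℝ) * (β : ℝ) := by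
        rw [hβ]
        push_cast
        ring
      have hG2 : (Gg X d) ^ 2 = (X : ℝ) ^ 3 / |(d : ℝ)| := Real.sq_sqrt (by positivity)
      have h5 : (b : ℝ) ^ 2 ≤ (9 * Gg X d) ^ 2 := by
        rw [mul_pow, hG2]
        have h6 : (b : ℝ) ^ 2 ≤ 69 * (X : ℝ) ^ 3 / |(d : ℝ)| := by
          rw [le_div_iff₀ hD]
          linarith
        have h7 : 0 ≤ (X : ℝ) ^ 3 / |(d : ℝ)| := by positivity
        have h8 : 69 * (X : ℝ) ^ 3 / |(d : ℝ)| = 69 * ((X : ℝ) ^ 3 / |(d : ℝ)|) := by ring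
        rw [h8] at h6
        linarith
      have h6 : |(b : ℝ)| ≤ 9 * Gg X d := abs_le_of_sq_le_sq h5 (by positivity)
      rw [le_div_iff₀ hc0]
      rw [h4, abs_mul, abs_of_pos hc0] at h6
      linarith
  choose! kf hk1 hk2 hk3 using key
  set N : ℕ := ⌊(9 * Gg X d / c) ^ (1 / 3 : ℝ)⌋₊ with hN
  have hmap : ∀ z ∈ T, kf z ∈ Finset.Icc 1 N := by
    intro z hz
    rw [Finset.mem_Icc]
    refine ⟨hk2 z hz, ?_⟩
    apply Nat.le_floor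
    have h1 := hk3 z hz
    have h2 : ((kf z : ℝ)) = (((kf z : ℝ)) ^ 3) ^ (1 / 3 : ℝ) := by
      rw [← Real.rpow_natCast ((kf z : ℝ)) 3, ← Real.rpow_mul (Nat.cast_nonneg _)]
      norm_num
    rw [h2]
    exact Real.rpow_le_rpow (by positivity) h1 (by norm_num)
  have hinj : Set.InjOn kf (T : Set (ℤ × ℝ × ℝ)) := by
    intro z hz z' hz' e
    have hz1 : z.1 = z'.1 := by
      rw [hk1 z hz, hk1 z' hz', e]
    obtain ⟨hs, ht⟩ := hp z hz z' hz'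
    have hane : (z.1 : ℝ) ≠ 0 := by
      have ha := (hT.a1 z hz).1
      have : (z.1 : ℤ) ≠ 0 := by omega
      exact_mod_cast this
    rw [← hz1] at hs ht
    have h1 : z'.2.1 = z.2.1 := mul_left_cancel₀ hane hs
    have h2 : z'.2.2 = z.2.2 := mul_left_cancel₀ hane ht
    exact Prod.ext hz1 (Prod.ext h1.symm h2.symm)
  have hcard : T.card ≤ (Finset.Icc 1 N).card := Finset.card_le_card_of_injOn kf hmap hinj
  rw [Nat.card_Icc, Nat.add_sub_cancel] at hcard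
  have h1 : (T.card : ℝ) ≤ (N : ℝ) := by exact_mod_cast hcard
  exact h1.trans (Nat.floor_le (Real.rpow_nonneg hB0 _))

end W44
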