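import Pool.Agent.LibW44.V8
import Pool.Agent.LibW44.V9
import Pool.Agent.LibT44.G3

/-! Row V10. Large vectors. `Par` is an equivalence relation on `T` (`a ≥ 1`). One representative from each class: for two of them, `S₁ ≤ S₂` not parallel: `S₁⁴ ≤ 10^10 X⁵ S₂³` (`gap`), so `S₁ ≠ S₂` and `S₁⁷ ≤ S₂⁶`: `S₂⁶ ≥ S₁⁸/(10^20 X^10) ≥ S₁⁷`, since `S₁ ≥ X^30 ≥ 10^20 X^10`
(`X ≥ 10^16`). `T44.chain` (LibT44/G3.lean) for the set of their `S`: at most `1 + 7 Y` classes; each has `≤ (9 G/c)^(1/3)` elements (`dir`; `VS` passes to subsets). -/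

namespace W44
open RC91

theorem v10_mono {X : ℕ} {d : ℤ} {c : ℕ} {V W : Set (ℤ × ℝ × ℝ)} (h : VS X d c V) (hW : W ⊆ V) : VS X d c W where
  a1 := fun z hz => h.a1 z (hW hz)
  b1 := fun z hz => h.b1 z (hW hz)
  int := fun z hz z' hz' => h.int z (hW hz) z' (hW hz')
  nt := fun z hz z' hz' => h.nt z (hW hz) z' (hW hz')
  s1 := fun z hz => h.s1 z (hW hz)
  t1 := fun z hz => h.t1 z (hW hz)
  gp := fun z hz z' hz' => h.gp z (hW hz) z' (hW hz')

theorem v10_symm {z z' : ℤ × ℝ × ℝ} (h : Par z z') : Par z' z := ⟨h.1.symm, h.2.symm⟩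

theorem v10_trans {z z' z'' : ℤ × ℝ × ℝ} (ha : 1 ≤ z'.1) (h : Par z z') (h' : Par z' z'') : Par z z'' := by
  have ha' : (z'.1 : ℝ) ≠ 0 := by
    have : z'.1 ≠ 0 := by omega
    exact_mod_cast this
  constructor
  · apply mul_left_cancel₀ ha'
    linear_combination (z.1 : ℝ) * h'.1 + (z''.1 : ℝ) * h.1
  · apply mul_left_cancel₀ ha'
    linear_combination (z.1 : ℝ) * h'.2 + (z''.1 : ℝ) * h.2

/-- two large vectors which are not parallel -/
theorem v10_two (X S₁ S₂ : ℝ) (hX : 10 ^ 16 ≤ X) (h1 : X ^ 30 ≤ S₁) (h12 : S₁ ≤ S₂)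
    (hg : S₁ ^ 4 ≤ 10 ^ 10 * X ^ 5 * S₂ ^ 3) : S₁ < S₂ ∧ S₁ ^ 7 ≤ S₂ ^ 6 := by
  have hX0 : 0 < X := by linarith [show (0 : ℝ) < 10 ^ 16 by norm_num]
  have hX1 : 1 ≤ X := by linarith [show (1 : ℝ) ≤ 10 ^ 16 by norm_num]
  have hS1 : 0 < S₁ := lt_of_lt_of_le (by positivity) h1
  have hS2 : 0 < S₂ := lt_of_lt_of_le hS1 h12
  have hb : 10 ^ 20 * X ^ 10 ≤ S₁ := by
    have e1 : (10 : ℝ) ^ 20 ≤ X ^ 20 := pow_le_pow_left₀ (by norm_num) (by linarith [show (10 : ℝ) ≤ 10 ^ 16 by norm_num]) 20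
    calc 10 ^ 20 * X ^ 10 ≤ X ^ 20 * X ^ 10 := mul_le_mul_of_nonneg_right e1 (by positivity)
      _ = X ^ 30 := by ring
      _ ≤ S₁ := h1
  have hb2 : 10 ^ 10 * X ^ 5 < S₁ := by
    have e1 : 1 ≤ X ^ 5 := one_le_pow₀ hX1
    have e2 : 10 ^ 10 * X ^ 5 < 10 ^ 20 * X ^ 10 := by
      have : (10 : ℝ) ^ 20 * X ^ 10 = (10 ^ 10 * X ^ 5) * (10 ^ 10 * X ^ 5) := by ring
      rw [this]
      have e3 : 1 < 10 ^ 10 * X ^ 5 := by linarith
      nlinarith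
    linarith
  constructor
  · rcases lt_or_eq_of_le h12 with h | h
    · exact h
    · exfalso
      rw [← h] at hg
      have e1 : S₁ ^ 3 * S₁ ≤ S₁ ^ 3 * (10 ^ 10 * X ^ 5) := by
        calc S₁ ^ 3 * S₁ = S₁ ^ 4 := by ring
          _ ≤ 10 ^ 10 * X ^ 5 * S₁ ^ 3 := hg
          _ = _ := by ring
      have e2 := le_of_mul_le_mul_left e1 (by positivity)
      linarith
  · have e1 : (S₁ ^ 4) ^ 2 ≤ (10 ^ 10 * X ^ 5 * S₂ ^ 3) ^ 2 := pow_le_pow_left₀ (by positivity) hg 2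
    have e2 : (10 ^ 20 * X ^ 10) * S₁ ^ 7 ≤ (10 ^ 20 * X ^ 10) * S₂ ^ 6 := by
      calc (10 ^ 20 * X ^ 10) * S₁ ^ 7 ≤ S₁ * S₁ ^ 7 := mul_le_mul_of_nonneg_right hb (by positivity)
        _ = (S₁ ^ 4) ^ 2 := by ring
        _ ≤ (10 ^ 10 * X ^ 5 * S₂ ^ 3) ^ 2 := e1
        _ = _ := by ring
    exact le_of_mul_le_mul_left e2 (by positivity)

theorem large (X : ℕ) (d : ℤ) (hd : d ≠ 0) (hH : 10 ^ 16 * |d| ≤ (X : ℤ)) (c : ℕ) (hc : 1 ≤ c)
    (T : Finset (ℤ × ℝ × ℝ)) (hT : VS X d c (T : Set (ℤ × ℝ × ℝ))) (Y : ℝ) (hY : 0 ≤ Y)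
    (h : ∀ z ∈ T, (X : ℝ) ^ 30 ≤ z.2.1 ∧ Real.log z.2.1 ≤ Real.exp Y) :
    (T.card : ℝ) ≤ (9 * Gg X d / c) ^ (1 / 3 : ℝ) * (1 + 7 * Y) := by
  classical
  have hX : (10 : ℝ) ^ 16 ≤ X := by
    have h1 : 1 ≤ |d| := Int.one_le_abs hd
    have h2 : (10 : ℤ) ^ 16 ≤ (X : ℤ) := by linarith
    exact_mod_cast h2
  have hD0 : 0 ≤ (9 * Gg X d / c) ^ (1 / 3 : ℝ) :=
    Real.rpow_nonneg (div_nonneg (mul_nonneg (by norm_num) (Real.sqrt_nonneg _)) (Nat.cast_nonneg _)) _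
  -- a maximal subset of pairwise non parallel vectors
  set F : Finset (Finset (ℤ × ℝ × ℝ)) := T.powerset.filter (fun S => ∀ z ∈ S, ∀ z' ∈ S, z ≠ z' → ¬ Par z z') with hF
  have hne : F.Nonempty := ⟨∅, by rw [hF, Finset.mem_filter]; exact ⟨Finset.empty_mem_powerset _, by simp⟩⟩
  obtain ⟨R, hR, hmax⟩ := Finset.exists_max_image F Finset.card hne
  rw [hF, Finset.mem_filter, Finset.mem_powerset] at hR
  obtain ⟨hRT, hRn⟩ := hR
  have hcov : ∀ z ∈ T, ∃ r ∈ R, Par r z := by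
    intro z hz
    by_contra hcon
    push Not at hcon
    have hzR : z ∉ R := fun hzR => hcon z hzR ⟨rfl, rfl⟩
    have h1 : insert z R ∈ F := by
      rw [hF, Finset.mem_filter, Finset.mem_powerset]
      refine ⟨Finset.insert_subset hz hRT, ?_⟩
      intro a ha b hb hab
      rw [Finset.mem_insert] at ha hb
      rcases ha with rfl | ha <;> rcases hb with rfl | hb
      · exact absurd rfl hab
      · exact fun hp => hcon b hb (v10_symm hp)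
      · exact hcon a ha
      · exact hRn a ha b hb hab
    have h2 := hmax _ h1
    rw [Finset.card_insert_of_notMem hzR] at h2
    omega
  have hsub : T ⊆ R.biUnion (fun r => T.filter (fun z => Par r z)) := by
    intro z hz
    obtain ⟨r, hr, hp⟩ := hcov z hz
    rw [Finset.mem_biUnion]
    exact ⟨r, hr, Finset.mem_filter.2 ⟨hz, hp⟩⟩
  have hfib : ∀ r ∈ R, (((T.filter (fun z => Par r z)).card : ℕ) : ℝ) ≤ (9 * Gg X d / c) ^ (1 / 3 : ℝ) := by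
    intro r hr
    apply dir X d hd c hc
    · apply v10_mono hT
      intro z hz
      rw [Finset.mem_coe, Finset.mem_filter] at hz
      exact hz.1
    · intro z hz z' hz'
      rw [Finset.mem_filter] at hz hz'
      exact v10_trans (hT.a1 r (hRT hr)).1 (v10_symm hz.2) hz'.2
  -- two representatives
  have htwo : ∀ z ∈ R, ∀ z' ∈ R, z ≠ z' → z.2.1 ≤ z'.2.1 → z.2.1 < z'.2.1 ∧ z.2.1 ^ 7 ≤ z'.2.1 ^ 6 := by
    intro z hz z' hz' hzz hle
    exact v10_two X _ _ hX (h z (hRT hz)).1 hle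
      (gap X d hd hH c (T : Set (ℤ × ℝ × ℝ)) hT z z' (hRT hz) (hRT hz') hle (hRn z hz z' hz' hzz))
  have hinj : Set.InjOn (fun z : ℤ × ℝ × ℝ => z.2.1) (R : Set (ℤ × ℝ × ℝ)) := by
    intro z hz z' hz' he
    by_contra hzz
    have h1 := (htwo z hz z' hz' hzz (le_of_eq he)).1
    exact h1.ne he
  have hRc : (R.card : ℝ) ≤ 1 + 7 * Y := by
    have h1 := T44.chain (R.image (fun z : ℤ × ℝ × ℝ => z.2.1)) Y hY
      (by
        intro x hx
        rw [Finset.mem_image] at hx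
        obtain ⟨z, hz, rfl⟩ := hx
        refine ⟨?_, (h z (hRT hz)).2⟩
        have h2 := (h z (hRT hz)).1
        have h3 : (X : ℝ) ≤ (X : ℝ) ^ 30 := by
          have := pow_le_pow_right₀ (show (1 : ℝ) ≤ X by linarith [show (1 : ℝ) ≤ 10 ^ 16 by norm_num]) (show 1 ≤ 30 by norm_num)
          simpa using this
        have h4 : Real.exp 1 ≤ 10 ^ 16 := by
          have := Real.exp_one_lt_d9
          linarith [show (2.7182818286 : ℝ) ≤ 10 ^ 16 by norm_num]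
        show Real.exp 1 ≤ z.2.1
        linarith)
      (by
        intro x hx y hy hxy
        rw [Finset.mem_image] at hx hy
        obtain ⟨z, hz, rfl⟩ := hx
        obtain ⟨z', hz', rfl⟩ := hy
        have hzz : z ≠ z' := by
          rintro rfl
          exact lt_irrefl _ hxy
        exact (htwo z hz z' hz' hzz hxy.le).2)
    rwa [Finset.card_image_of_injOn hinj] at h1
  have hcard : (T.card : ℝ) ≤ ∑ r ∈ R, (((T.filter (fun z => Par r z)).card : ℕ) : ℝ) := by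
    have h1 := (Finset.card_le_card hsub).trans Finset.card_biUnion_le
    exact_mod_cast h1
  calc (T.card : ℝ) ≤ ∑ r ∈ R, (((T.filter (fun z => Par r z)).card : ℕ) : ℝ) := hcard
    _ ≤ ∑ _r ∈ R, (9 * Gg X d / c) ^ (1 / 3 : ℝ) := Finset.sum_le_sum hfib
    _ = R.card * (9 * Gg X d / c) ^ (1 / 3 : ℝ) := by rw [Finset.sum_const, nsmul_eq_mul]
    _ ≤ (1 + 7 * Y) * (9 * Gg X d / c) ^ (1 / 3 : ℝ) := mul_le_mul_of_nonneg_right hRc hD0
    _ = _ := by ring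

end W44
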