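import Pool.Agent.LibW44.V1

/-! Row V4. `δ = z - z' = (α, S, T)`, `|ξ(δ)| ≤ 1/250`. `α = 0` would give `z = z'` (`VS.nt`). So `|α| ≥ 1`, `ξ (3 S² + d (ξ + 2α)²) = -(32/27) d α³` gives `|3S² + d(ξ+2α)²| ≥ 296 |d| α²`, `3 S² ≥ 296|d|α² - 5|d|α²`, `S² ≥ 96 |d| α²`; `T = ξ + (2/3) α`, `|T| ≤ 0.68 |α|`. -/

namespace W44
open RC91

private theorem v4_real {d a S T : ℝ} (hd : d ≠ 0) (ha : 1 ≤ |a|) (hx : |T - 2 / 3 * a| ≤ 1 / 250)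
    (hF : T * (3 * S ^ 2 + d * T ^ 2) - 2 * a * (S ^ 2 - d * T ^ 2) = 0) :
    S ≠ 0 ∧ 25 * |d| * a ^ 2 ≤ S ^ 2 ∧ 25 * |d| * T ^ 2 ≤ S ^ 2 := by
  obtain ⟨x, hxT⟩ : ∃ x, T = x + 2 / 3 * a := ⟨T - 2 / 3 * a, by ring⟩
  subst hxT
  have hx' : |x| ≤ 1 / 250 := by
    have : x + 2 / 3 * a - 2 / 3 * a = x := by ring
    rwa [this] at hx
  have hD : 0 < |d| := abs_pos.2 hd
  have ha2 : 1 ≤ a ^ 2 := by
    rw [← sq_abs]
    nlinarith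
  have key : x * (3 * S ^ 2 + d * (x + 2 * a) ^ 2) = -(32 / 27 * (d * a ^ 3)) := by
    linear_combination hF
  have h1 : |x| * |3 * S ^ 2 + d * (x + 2 * a) ^ 2| = 32 / 27 * (|d| * |a| ^ 3) := by
    rw [← abs_mul, key, abs_neg, abs_mul, abs_mul, abs_pow]
    norm_num
  have h2 : |3 * S ^ 2 + d * (x + 2 * a) ^ 2| ≤ 3 * S ^ 2 + |d| * (x + 2 * a) ^ 2 := by
    refine (abs_add_le _ _).trans (le_of_eq ?_)
    rw [abs_mul d, abs_of_nonneg (by positivity : (0 : ℝ) ≤ 3 * S ^ 2),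
      abs_of_nonneg (by positivity : (0 : ℝ) ≤ (x + 2 * a) ^ 2)]
  have h3 : a ^ 2 ≤ |a| ^ 3 := by
    rw [← sq_abs]
    nlinarith [sq_nonneg |a|]
  have hxa : |x| ≤ |a| / 250 := by linarith
  have hxa2 : x ^ 2 ≤ a ^ 2 / 250 ^ 2 := by
    rw [← sq_abs x, ← sq_abs a]
    have := mul_self_le_mul_self (abs_nonneg x) hxa
    nlinarith
  have h4 : (x + 2 * a) ^ 2 ≤ 5 * a ^ 2 := by
    nlinarith [sq_nonneg (250 * x - a)]
  have h5 : (x + 2 / 3 * a) ^ 2 ≤ a ^ 2 := by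
    nlinarith [sq_nonneg (250 * x - a)]
  have h6 : 32 / 27 * (|d| * a ^ 2) ≤ 1 / 250 * (3 * S ^ 2 + |d| * (5 * a ^ 2)) := by
    calc 32 / 27 * (|d| * a ^ 2) ≤ 32 / 27 * (|d| * |a| ^ 3) := by
          have := mul_le_mul_of_nonneg_left h3 hD.le
          linarith
      _ = |x| * |3 * S ^ 2 + d * (x + 2 * a) ^ 2| := h1.symm
      _ ≤ 1 / 250 * |3 * S ^ 2 + d * (x + 2 * a) ^ 2| :=
          mul_le_mul_of_nonneg_right hx' (abs_nonneg _)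
      _ ≤ 1 / 250 * (3 * S ^ 2 + |d| * (5 * a ^ 2)) := by
          have := mul_le_mul_of_nonneg_left h4 hD.le
          linarith
  have h7 : 25 * |d| * a ^ 2 ≤ S ^ 2 := by nlinarith [mul_pos hD (by linarith : 0 < a ^ 2)]
  refine ⟨?_, h7, ?_⟩
  · rintro rfl
    have := mul_pos hD (by linarith : 0 < a ^ 2)
    nlinarith
  · have := mul_le_mul_of_nonneg_left h5 hD.le
    nlinarith

theorem degen (X : ℕ) (d : ℤ) (hd : d ≠ 0) (hH : 10 ^ 16 * |d| ≤ (X : ℤ)) (c : ℕ)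
    (V : Set (ℤ × ℝ × ℝ)) (hV : VS X d c V) (z z' : ℤ × ℝ × ℝ) (hz : z ∈ V) (hz' : z' ∈ V) (hne : z ≠ z')
    (hF : Fb d (z - z') = 0) : (z - z').1 ≠ 0 ∧ (z - z').2.1 ≠ 0 ∧
      25 * |(d : ℝ)| * ((z - z').1 : ℝ) ^ 2 ≤ (z - z').2.1 ^ 2 ∧
      25 * |(d : ℝ)| * (z - z').2.2 ^ 2 ≤ (z - z').2.1 ^ 2 := by
  have s1 := (sizes X d hd hH c V hV z hz).2.2.1
  have s2 := (sizes X d hd hH c V hV z' hz').2.2.1
  have ha : (z - z').1 ≠ 0 := by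
    intro h
    exact hne (hV.nt z hz z' hz' (sub_eq_zero.1 h) hF)
  have ha1 : 1 ≤ |((z - z').1 : ℝ)| := by
    rw [← Int.cast_abs]
    exact_mod_cast Int.one_le_abs ha
  have hxi : (z - z').2.2 - 2 / 3 * ((z - z').1 : ℝ) = xi z - xi z' := by
    simp only [xi, Prod.fst_sub, Prod.snd_sub, Int.cast_sub]
    ring
  have hx : |(z - z').2.2 - 2 / 3 * ((z - z').1 : ℝ)| ≤ 1 / 250 := by
    rw [hxi]
    have := abs_sub (xi z) (xi z')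
    linarith
  exact ⟨ha, v4_real (Int.cast_ne_zero.2 hd) ha1 hx hF⟩

end W44
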