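import Pool.Agent.LibW44.Defs

/-! Row V5. Four points with all differences on `Fb = 0` are collinear in the `(s, t)`-plane. Port of `T44.triple` and `T44.collinear` (LibT44/D2.lean, D3.lean, in the tar) to ℂ: choose `ρ : ℂ` with `ρ² = d`, `v = (s + ρ t)/2`, `u = (s - ρ t)/2`, `Fb = 0` is
`v³ - u³ = 2 ρ a u v` (that is `α = β = 1`, `a ↦ 2 ρ a`). `triple`: `u₁ v₂ = u₂ v₁` or `v₁ v₂ v₃ = u₁ u₂ u₃` for `z₃ = z₁ + z₂` (same `linear_combination`). `u₁ v₂ - u₂ v₁ = (ρ/2)(s₁ t₂ - s₂ t₁)`, `ρ ≠ 0`. `r = v/u = (1 + e)/(1 - e)`, `e = ρ t/s`, `|e| ≤ 1/5`: `u, v ≠ 0`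
and `r + r' ≠ 0` for any two differences (`(1+e)(1-e') + (1+e')(1-e) = 2 - 2 e e'`): this replaces the positivity used in D3 (from `r₀₁² = r₂₃²` to `r₀₁ = r₂₃`). -/

namespace W44
open RC91

private noncomputable def v5_u (ρ : ℂ) (z : ℤ × ℝ × ℝ) : ℂ := (z.2.1 : ℂ) - ρ * (z.2.2 : ℂ)

private noncomputable def v5_v (ρ : ℂ) (z : ℤ × ℝ × ℝ) : ℂ := (z.2.1 : ℂ) + ρ * (z.2.2 : ℂ)

private lemma v5_F {d : ℤ} {ρ : ℂ} (hρ : ρ ^ 2 = (d : ℂ)) {z : ℤ × ℝ × ℝ} (hz : Fb d z = 0) :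
    v5_v ρ z ^ 3 - v5_u ρ z ^ 3 - 4 * ρ * (z.1 : ℂ) * (v5_u ρ z * v5_v ρ z) = 0 := by
  have h : ((Fb d z : ℝ) : ℂ) = 0 := by rw [hz]; simp
  unfold Fb at h
  push_cast at h
  unfold v5_u v5_v
  linear_combination 2 * ρ * h +
    (2 * ρ * (z.2.2 : ℂ) ^ 3 + 4 * ρ * (z.1 : ℂ) * (z.2.2 : ℂ) ^ 2) * hρ

private lemma v5_u_add (ρ : ℂ) (z₁ z₂ : ℤ × ℝ × ℝ) : v5_u ρ (z₁ + z₂) = v5_u ρ z₁ + v5_u ρ z₂ := by
  unfold v5_u
  simp only [Prod.fst_add, Prod.snd_add]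
  push_cast
  ring

private lemma v5_v_add (ρ : ℂ) (z₁ z₂ : ℤ × ℝ × ℝ) : v5_v ρ (z₁ + z₂) = v5_v ρ z₁ + v5_v ρ z₂ := by
  unfold v5_v
  simp only [Prod.fst_add, Prod.snd_add]
  push_cast
  ring

private lemma v5_triple {d : ℤ} {ρ : ℂ} (hρ : ρ ^ 2 = (d : ℂ)) {z₁ z₂ : ℤ × ℝ × ℝ}
    (h₁ : Fb d z₁ = 0) (h₂ : Fb d z₂ = 0) (h₃ : Fb d (z₁ + z₂) = 0) :
    v5_u ρ z₁ * v5_v ρ z₂ = v5_u ρ z₂ * v5_v ρ z₁ ∨
      v5_v ρ z₁ * v5_v ρ z₂ * (v5_v ρ z₁ + v5_v ρ z₂) =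
        v5_u ρ z₁ * v5_u ρ z₂ * (v5_u ρ z₁ + v5_u ρ z₂) := by
  have e1 := v5_F hρ h₁
  have e2 := v5_F hρ h₂
  have e3 := v5_F hρ h₃
  rw [v5_u_add, v5_v_add, Prod.fst_add, Int.cast_add] at e3
  generalize v5_u ρ z₁ = u1 at *
  generalize v5_u ρ z₂ = u2 at *
  generalize v5_v ρ z₁ = v1 at *
  generalize v5_v ρ z₂ = v2 at *
  have key : (u1 * v2 - u2 * v1) ^ 2 * (v1 * v2 * (v1 + v2) - u1 * u2 * (u1 + u2)) = 0 := by
    linear_combination (-(u1 * v1 * u2 * v2)) * e3 + (u2 * v2 * (u1 + u2) * (v1 + v2)) * e1 +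
      (u1 * v1 * (u1 + u2) * (v1 + v2)) * e2
  rcases mul_eq_zero.mp key with h | h
  · left
    exact sub_eq_zero.1 ((pow_eq_zero_iff two_ne_zero).mp h)
  · right
    exact sub_eq_zero.1 h

/-- slope of the difference of two points -/
private noncomputable def v5_r (ρ : ℂ) (x y : ℤ × ℝ × ℝ) : ℂ := v5_v ρ (x - y) / v5_u ρ (x - y)

private lemma v5_r_symm (ρ : ℂ) (x y : ℤ × ℝ × ℝ) : v5_r ρ x y = v5_r ρ y x := by
  have h1 : v5_v ρ (x - y) = -v5_v ρ (y - x) := by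
    unfold v5_v
    simp only [Prod.fst_sub, Prod.snd_sub]
    push_cast
    ring
  have h2 : v5_u ρ (x - y) = -v5_u ρ (y - x) := by
    unfold v5_u
    simp only [Prod.fst_sub, Prod.snd_sub]
    push_cast
    ring
  unfold v5_r
  rw [h1, h2, neg_div_neg_eq]

/-- cross product -/
private def v5_C (x y w : ℤ × ℝ × ℝ) : Prop :=
  (y - x).2.1 * (w - x).2.2 = (w - x).2.1 * (y - x).2.2

private lemma v5_cross {ρ : ℂ} (h0 : ρ ≠ 0) (z z' : ℤ × ℝ × ℝ) :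
    z.2.1 * z'.2.2 = z'.2.1 * z.2.2 ↔ v5_u ρ z * v5_v ρ z' = v5_u ρ z' * v5_v ρ z := by
  constructor
  · intro h
    have h' : (z.2.1 : ℂ) * (z'.2.2 : ℂ) = (z'.2.1 : ℂ) * (z.2.2 : ℂ) := by exact_mod_cast h
    unfold v5_u v5_v
    linear_combination (2 * ρ) * h'
  · intro h
    unfold v5_u v5_v at h
    have h1 : (2 * ρ) * ((z.2.1 : ℂ) * (z'.2.2 : ℂ) - (z'.2.1 : ℂ) * (z.2.2 : ℂ)) = 0 := by
      linear_combination h
    have h2 := (mul_eq_zero.1 h1).resolve_left (mul_ne_zero two_ne_zero h0)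
    have h3 := sub_eq_zero.1 h2
    exact_mod_cast h3

private lemma v5_C_iff {ρ : ℂ} (h0 : ρ ≠ 0) {x y w : ℤ × ℝ × ℝ} (h1 : v5_u ρ (y - x) ≠ 0)
    (h2 : v5_u ρ (w - x) ≠ 0) : v5_C x y w ↔ v5_r ρ y x = v5_r ρ w x := by
  unfold v5_C v5_r
  rw [v5_cross h0, div_eq_div_iff h1 h2]
  constructor
  · intro h
    linear_combination -h
  · intro h
    linear_combination -h

private lemma v5_C_swap (x y w : ℤ × ℝ × ℝ) : v5_C x y w ↔ v5_C x w y := by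
  unfold v5_C
  constructor <;> intro h <;> linarith

private lemma v5_C_rot (x y w : ℤ × ℝ × ℝ) : v5_C x y w ↔ v5_C y w x := by
  unfold v5_C
  simp only [Prod.fst_sub, Prod.snd_sub]
  constructor <;> intro h <;> linear_combination h

private lemma v5_fact {d : ℤ} {ρ : ℂ} (hρ : ρ ^ 2 = (d : ℂ)) (h0 : ρ ≠ 0) {x y w : ℤ × ℝ × ℝ}
    (hxy : Fb d (y - x) = 0) (hyw : Fb d (w - y) = 0) (hxw : Fb d (w - x) = 0)
    (n1 : v5_u ρ (y - x) ≠ 0) (n2 : v5_u ρ (w - y) ≠ 0) (n3 : v5_u ρ (w - x) ≠ 0)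
    (hC : ¬ v5_C x y w) : v5_r ρ y x * v5_r ρ w y * v5_r ρ w x = 1 := by
  have e : (y - x) + (w - y) = w - x := by abel
  rcases v5_triple hρ hxy hyw (by rw [e]; exact hxw) with h | h
  · exfalso
    apply hC
    unfold v5_C
    rw [v5_cross h0]
    have e1 := v5_u_add ρ (y - x) (w - y)
    have e2 := v5_v_add ρ (y - x) (w - y)
    rw [e] at e1 e2
    rw [e1, e2]
    linear_combination h
  · rw [← v5_u_add, ← v5_v_add, e] at h
    unfold v5_r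
    field_simp
    linear_combination h

private lemma v5_step2 {d : ℤ} {ρ : ℂ} (hρ : ρ ^ 2 = (d : ℂ)) (h0 : ρ ≠ 0)
    {T : Finset (ℤ × ℝ × ℝ)} (hF : ∀ x ∈ T, ∀ y ∈ T, x ≠ y → Fb d (x - y) = 0)
    (hu : ∀ x ∈ T, ∀ y ∈ T, x ≠ y → v5_u ρ (x - y) ≠ 0)
    (hr : ∀ x ∈ T, ∀ y ∈ T, x ≠ y → v5_r ρ x y ≠ 0)
    {a b c e : ℤ × ℝ × ℝ} (ha : a ∈ T) (hb : b ∈ T) (hc : c ∈ T) (he : e ∈ T)
    (hab : a ≠ b) (hac : a ≠ c) (hae : a ≠ e) (hbe : b ≠ e) (hce : c ≠ e) (hbc : b ≠ c)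
    (hC : v5_C a b c) : v5_C a b e := by
  by_contra hn
  have hba := hu b hb a ha hab.symm
  have hca := hu c hc a ha hac.symm
  have hda := hu e he a ha hae.symm
  have hbd' := hu b hb e he hbe
  have hcd' := hu c hc e he hce
  have hdb' := hu e he b hb hbe.symm
  have hdc' := hu e he c hc hce.symm
  have hcb' := hu c hc b hb hbc.symm
  have hab' := hu a ha b hb hab
  have e1 : v5_r ρ b a = v5_r ρ c a := (v5_C_iff h0 hba hca).1 hC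
  have hn2 : ¬ v5_C a c e := by
    intro hh
    have e2 : v5_r ρ c a = v5_r ρ e a := (v5_C_iff h0 hca hda).1 hh
    exact hn ((v5_C_iff h0 hba hda).2 (e1.trans e2))
  have f1 := v5_fact hρ h0 (hF b hb a ha hab.symm) (hF e he b hb hbe.symm) (hF e he a ha hae.symm)
    hba hdb' hda hn
  have f2 := v5_fact hρ h0 (hF c hc a ha hac.symm) (hF e he c hc hce.symm) (hF e he a ha hae.symm)
    hca hdc' hda hn2
  have p1 := hr c hc a ha hac.symm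
  have p2 := hr e he a ha hae.symm
  rw [e1] at f1
  have e3 : v5_r ρ e b = v5_r ρ e c := by
    have h1 : (v5_r ρ c a * v5_r ρ e a) * (v5_r ρ e b - v5_r ρ e c) = 0 := by
      linear_combination f1 - f2
    exact sub_eq_zero.1 ((mul_eq_zero.1 h1).resolve_left (mul_ne_zero p1 p2))
  have g1 : v5_C b e a := by
    have k1 : v5_C e b c :=
      (v5_C_iff h0 hbd' hcd').2 (by rw [v5_r_symm ρ b e, v5_r_symm ρ c e]; exact e3)
    have k2 : v5_C b c e := (v5_C_rot e b c).1 k1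
    have k3 : v5_C b c a := (v5_C_rot a b c).1 hC
    have k4 := (v5_C_iff h0 hcb' hdb').1 k2
    have k5 := (v5_C_iff h0 hcb' hab').1 k3
    exact (v5_C_iff h0 hdb' hab').2 (k4.symm.trans k5)
  exact hn ((v5_C_rot a b e).2 g1)

private lemma v5_step1 {d : ℤ} {ρ : ℂ} (hρ : ρ ^ 2 = (d : ℂ)) (h0 : ρ ≠ 0)
    {T : Finset (ℤ × ℝ × ℝ)} (hF : ∀ x ∈ T, ∀ y ∈ T, x ≠ y → Fb d (x - y) = 0)
    (hu : ∀ x ∈ T, ∀ y ∈ T, x ≠ y → v5_u ρ (x - y) ≠ 0)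
    (hr : ∀ x ∈ T, ∀ y ∈ T, x ≠ y → v5_r ρ x y ≠ 0)
    (hs : ∀ x ∈ T, ∀ y ∈ T, ∀ x' ∈ T, ∀ y' ∈ T, x ≠ y → x' ≠ y' → v5_r ρ x y + v5_r ρ x' y' ≠ 0)
    {a b c e : ℤ × ℝ × ℝ} (ha : a ∈ T) (hb : b ∈ T) (hc : c ∈ T) (he : e ∈ T)
    (hab : a ≠ b) (hac : a ≠ c) (had : a ≠ e) (hbc : b ≠ c) (hbd : b ≠ e) (hcd : c ≠ e) :
    v5_C a b c ∨ v5_C a b e ∨ v5_C a c e ∨ v5_C b c e := by
  by_contra hn
  simp only [not_or] at hn
  obtain ⟨n1, n2, n3, n4⟩ := hn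
  have uba := hu b hb a ha hab.symm
  have uca := hu c hc a ha hac.symm
  have uda := hu e he a ha had.symm
  have ucb := hu c hc b hb hbc.symm
  have udb := hu e he b hb hbd.symm
  have udc := hu e he c hc hcd.symm
  have f1 := v5_fact hρ h0 (hF b hb a ha hab.symm) (hF c hc b hb hbc.symm) (hF c hc a ha hac.symm)
    uba ucb uca n1
  have f2 := v5_fact hρ h0 (hF b hb a ha hab.symm) (hF e he b hb hbd.symm) (hF e he a ha had.symm)
    uba udb uda n2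
  have f3 := v5_fact hρ h0 (hF c hc a ha hac.symm) (hF e he c hc hcd.symm) (hF e he a ha had.symm)
    uca udc uda n3
  have f4 := v5_fact hρ h0 (hF c hc b hb hbc.symm) (hF e he c hc hcd.symm) (hF e he b hb hbd.symm)
    ucb udc udb n4
  have p1 := hr b hb a ha hab.symm
  have p2 := hr c hc a ha hac.symm
  have p4 := hr c hc b hb hbc.symm
  have p6 := hr e he c hc hcd.symm
  have p7 := hs b hb a ha e he c hc hab.symm hcd.symm
  obtain ⟨q1, q2, q3⟩ : v5_r ρ b a = v5_r ρ e c ∧ v5_r ρ c a = v5_r ρ e b ∧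
      v5_r ρ e a = v5_r ρ c b := by
    generalize v5_r ρ b a = r01 at *
    generalize v5_r ρ c a = r02 at *
    generalize v5_r ρ e a = r03 at *
    generalize v5_r ρ c b = r12 at *
    generalize v5_r ρ e b = r13 at *
    generalize v5_r ρ e c = r23 at *
    have a1 : r12 * r02 = r13 * r03 := by
      have h1 : r01 * (r12 * r02 - r13 * r03) = 0 := by linear_combination f1 - f2
      exact sub_eq_zero.1 ((mul_eq_zero.1 h1).resolve_left p1)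
    have a2 : r01 * r12 = r23 * r03 := by
      have h1 : r02 * (r01 * r12 - r23 * r03) = 0 := by linear_combination f1 - f3
      exact sub_eq_zero.1 ((mul_eq_zero.1 h1).resolve_left p2)
    have a3 : r01 * r02 = r23 * r13 := by
      have h1 : r12 * (r01 * r02 - r23 * r13) = 0 := by linear_combination f1 - f4
      exact sub_eq_zero.1 ((mul_eq_zero.1 h1).resolve_left p4)
    have a4 : r01 = r23 := by
      have h1 : (r12 * r02) * ((r01 - r23) * (r01 + r23)) = 0 := by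
        linear_combination (r01 * r02) * a2 + (r23 * r03) * a3 - r23 ^ 2 * a1
      have h2 := (mul_eq_zero.1 h1).resolve_left (mul_ne_zero p4 p2)
      exact sub_eq_zero.1 ((mul_eq_zero.1 h2).resolve_right p7)
    refine ⟨a4, ?_, ?_⟩
    · rw [a4] at a3
      exact mul_left_cancel₀ p6 a3
    · rw [a4] at a2
      exact (mul_left_cancel₀ p6 a2).symm
  have c1 : (b - a).2.1 * (e - c).2.2 = (e - c).2.1 * (b - a).2.2 := by
    rw [v5_cross h0]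
    unfold v5_r at q1
    rw [div_eq_div_iff uba udc] at q1
    linear_combination -q1
  have c2 : (c - a).2.1 * (e - b).2.2 = (e - b).2.1 * (c - a).2.2 := by
    rw [v5_cross h0]
    unfold v5_r at q2
    rw [div_eq_div_iff uca udb] at q2
    linear_combination -q2
  have c3 : (e - a).2.1 * (c - b).2.2 = (c - b).2.1 * (e - a).2.2 := by
    rw [v5_cross h0]
    unfold v5_r at q3
    rw [div_eq_div_iff uda ucb] at q3
    linear_combination -q3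
  apply n1
  unfold v5_C
  simp only [Prod.fst_sub, Prod.snd_sub] at c1 c2 c3 ⊢
  linarith

theorem collinear (d : ℤ) (hd : d ≠ 0) (T : Finset (ℤ × ℝ × ℝ)) (hT : 4 ≤ T.card)
    (h : ∀ x ∈ T, ∀ y ∈ T, x ≠ y → Fb d (x - y) = 0 ∧ (x - y).2.1 ≠ 0 ∧
      25 * |(d : ℝ)| * (x - y).2.2 ^ 2 ≤ (x - y).2.1 ^ 2) :
    ∀ x ∈ T, ∀ y ∈ T, ∀ w ∈ T, (y - x).2.1 * (w - x).2.2 = (w - x).2.1 * (y - x).2.2 := by
  obtain ⟨ρ, hρ'⟩ := IsAlgClosed.exists_pow_nat_eq (d : ℂ) (n := 2) (by norm_num)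
  have hρ : ρ ^ 2 = (d : ℂ) := hρ'
  have hdC : (d : ℂ) ≠ 0 := by exact_mod_cast hd
  have h0 : ρ ≠ 0 := by
    rintro rfl
    apply hdC
    rw [← hρ]
    ring
  have hF : ∀ x ∈ T, ∀ y ∈ T, x ≠ y → Fb d (x - y) = 0 := fun x hx y hy hxy => (h x hx y hy hxy).1
  -- general facts on a difference
  have hsq : ∀ z : ℤ × ℝ × ℝ, z.2.1 ≠ 0 → 25 * |(d : ℝ)| * z.2.2 ^ 2 ≤ z.2.1 ^ 2 →
      z.2.1 ^ 2 - d * z.2.2 ^ 2 ≠ 0 := by
    intro z h1 h2 h3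
    have h4 : 0 < z.2.1 ^ 2 := by positivity
    have h5 : (d : ℝ) * z.2.2 ^ 2 ≤ |(d : ℝ)| * z.2.2 ^ 2 :=
      mul_le_mul_of_nonneg_right (le_abs_self _) (sq_nonneg _)
    nlinarith
  have huv : ∀ z : ℤ × ℝ × ℝ, v5_u ρ z * v5_v ρ z = ((z.2.1 ^ 2 - d * z.2.2 ^ 2 : ℝ) : ℂ) := by
    intro z
    unfold v5_u v5_v
    push_cast
    linear_combination (-(z.2.2 : ℂ) ^ 2) * hρ
  have huv0 : ∀ x ∈ T, ∀ y ∈ T, x ≠ y → v5_u ρ (x - y) * v5_v ρ (x - y) ≠ 0 := by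
    intro x hx y hy hxy
    rw [huv]
    have := hsq (x - y) (h x hx y hy hxy).2.1 (h x hx y hy hxy).2.2
    exact_mod_cast this
  have hu : ∀ x ∈ T, ∀ y ∈ T, x ≠ y → v5_u ρ (x - y) ≠ 0 := fun x hx y hy hxy =>
    left_ne_zero_of_mul (huv0 x hx y hy hxy)
  have hr : ∀ x ∈ T, ∀ y ∈ T, x ≠ y → v5_r ρ x y ≠ 0 := fun x hx y hy hxy =>
    div_ne_zero (right_ne_zero_of_mul (huv0 x hx y hy hxy)) (hu x hx y hy hxy)
  have hs : ∀ x ∈ T, ∀ y ∈ T, ∀ x' ∈ T, ∀ y' ∈ T, x ≠ y → x' ≠ y' →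
      v5_r ρ x y + v5_r ρ x' y' ≠ 0 := by
    intro x hx y hy x' hx' y' hy' hxy hxy' hc
    have u1 := hu x hx y hy hxy
    have u2 := hu x' hx' y' hy' hxy'
    have h1 := h x hx y hy hxy
    have h2 := h x' hx' y' hy' hxy'
    unfold v5_r at hc
    rw [div_add_div _ _ u1 u2, div_eq_zero_iff] at hc
    have h3 := hc.resolve_right (mul_ne_zero u1 u2)
    generalize x - y = z at *
    generalize x' - y' = z' at *
    have h4 : (2 : ℂ) * (((z.2.1 * z'.2.1 - d * (z.2.2 * z'.2.2) : ℝ)) : ℂ) = 0 := by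
      unfold v5_u v5_v at h3
      push_cast
      linear_combination h3 + (2 * (z.2.2 : ℂ) * (z'.2.2 : ℂ)) * hρ
    have h5 : z.2.1 * z'.2.1 - d * (z.2.2 * z'.2.2) = 0 := by
      have := (mul_eq_zero.1 h4).resolve_left two_ne_zero
      exact_mod_cast this
    have h6 : (z.2.1 * z'.2.1) ^ 2 = (|(d : ℝ)| * z.2.2 ^ 2) * (|(d : ℝ)| * z'.2.2 ^ 2) := by
      have h7 : z.2.1 * z'.2.1 = d * (z.2.2 * z'.2.2) := by linarith
      have h8 : |(d : ℝ)| * |(d : ℝ)| = (d : ℝ) * d := abs_mul_abs_self _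
      rw [h7]
      linear_combination (-(z.2.2 ^ 2 * z'.2.2 ^ 2)) * h8
    have h9 : 0 < (z.2.1 * z'.2.1) ^ 2 := by
      have := mul_ne_zero h1.2.1 h2.2.1
      positivity
    have h10 : (25 * |(d : ℝ)| * z.2.2 ^ 2) * (25 * |(d : ℝ)| * z'.2.2 ^ 2) ≤
        z.2.1 ^ 2 * z'.2.1 ^ 2 :=
      mul_le_mul h1.2.2 h2.2.2 (by positivity) (by positivity)
    nlinarith
  intro x hx y hy w hw
  by_cases hxy : x = y
  · subst hxy; simp
  by_cases hxw : x = w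
  · subst hxw; simp
  by_cases hyw : y = w
  · subst hyw; ring
  obtain ⟨z, hz, hz'⟩ : ∃ z ∈ T, z ∉ ({x, y, w} : Finset (ℤ × ℝ × ℝ)) := by
    apply Finset.exists_mem_notMem_of_card_lt_card
    have := Finset.card_le_three (a := x) (b := y) (c := w)
    omega
  simp only [Finset.mem_insert, Finset.mem_singleton, not_or] at hz'
  obtain ⟨zx, zy, zw⟩ := hz'
  rcases v5_step1 hρ h0 hF hu hr hs hx hy hw hz hxy hxw (Ne.symm zx) hyw (Ne.symm zy)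
    (Ne.symm zw) with h1 | h1 | h1 | h1
  · exact h1
  · exact v5_step2 hρ h0 hF hu hr hx hy hz hw hxy (Ne.symm zx) hxw hyw zw (Ne.symm zy) h1
  · have h2 := v5_step2 hρ h0 hF hu hr hx hw hz hy hxw (Ne.symm zx) hxy (Ne.symm hyw) zy
      (Ne.symm zw) h1
    exact (v5_C_swap x w y).1 h2
  · have h2 := v5_step2 hρ h0 hF hu hr hy hw hz hx hyw (Ne.symm zy) (Ne.symm hxy) (Ne.symm hxw) zx
      (Ne.symm zw) h1
    exact (v5_C_rot x y w).2 h2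

end W44
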