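import Pool.Agent.LibW44.Defs

/-! Row V6. Points on a line (model: `T44.prop_zero`, `line_nonconst`, `line_count` in LibT44/D2.lean, D4.lean). Fix `x₀ ≠ x₁ ∈ T`, `δ = x₁ - x₀ = (α, S, T)`. For `z ∈ T`: `z - x₀ = λ δ` in the `(s,t)`-plane (`S ≠ 0`), and `Fb(z - x₀) = 0`, `Fb δ = 0` with
`s² - d t² ≠ 0` (from the last hypothesis, `s ≠ 0`) give `a(z - x₀) = λ α` (if `λ ≠ 0`; `z = x₀` for `λ = 0`). So `Fb(z) = Fb(x₀) + e₁ λ + e₂ λ²` (the coefficient of `λ³` is `Fb δ = 0`), `e₁, e₂` not both 0: if both vanish, with `v, u = (s ± ρ t)/2` in ℂ, `ρ² = d`, `v³ - u³ - 2ρ a u v`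
is the constant `κ = 2ρ b ≠ 0` along `x₀ + λ δ`, `λ ∈ ℂ`; at `λ = -v₀/v₁`: `-u³ = κ` with `u = u₀ - v₀u₁/v₁ = -W/v₁`, `W = v₀u₁ - u₀v₁`; at `λ = -u₀/u₁`: `v³ = κ`, `v = v₀ - u₀v₁/u₁ = W/u₁`; so `(W/v₁)³ = (W/u₁)³ = κ ≠ 0`, `(v₁/u₁)³ = 1`, `v₁/u₁ = (1+e)/(1-e)`, `|e| ≤ 1/5`, so `v₁ = u₁`, `T = 0`,
and `Fb δ = 0` gives `α S² = 0`, contradiction. So every value of `Fb` is taken at most twice; the values are `8 b`, `b` a nonzero multiple of `c`, `|b| ≤ B`: at most `2 B/c` values. (The polynomial version with `e₁ = e₂ = 0` and `linear_combination` as in `T44.line_nonconst` is fine too.) -/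

namespace W44
open RC91

/-- the form is not constant on a line whose direction is a zero of the form -/
private theorem v6_nonconst (ρ a0 s0 t0 a1 s1 t1 : ℂ) (hρ : ρ ≠ 0) (ha : a1 ≠ 0)
    (hn : s1 ^ 2 - ρ ^ 2 * t1 ^ 2 ≠ 0)
    (h' : t1 * (3 * s1 ^ 2 + ρ ^ 2 * t1 ^ 2) - 2 * a1 * (s1 ^ 2 - ρ ^ 2 * t1 ^ 2) = 0)
    (e₂ : 3 * (2 * t1 * s0 * s1 + t0 * s1 ^ 2) + 3 * ρ ^ 2 * t0 * t1 ^ 2 -
      2 * (2 * a1 * s0 * s1 + a0 * s1 ^ 2) + 2 * ρ ^ 2 * (2 * a1 * t0 * t1 + a0 * t1 ^ 2) = 0)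
    (e₁ : 3 * (t1 * s0 ^ 2 + 2 * t0 * s0 * s1) + 3 * ρ ^ 2 * t0 ^ 2 * t1 -
      2 * (a1 * s0 ^ 2 + 2 * a0 * s0 * s1) + 2 * ρ ^ 2 * (a1 * t0 ^ 2 + 2 * a0 * t0 * t1) = 0) :
    t0 * (3 * s0 ^ 2 + ρ ^ 2 * t0 ^ 2) - 2 * a0 * (s0 ^ 2 - ρ ^ 2 * t0 ^ 2) = 0 := by
  obtain ⟨u0, hu0⟩ : ∃ u, u = s0 - ρ * t0 := ⟨_, rfl⟩
  obtain ⟨v0, hv0⟩ : ∃ v, v = s0 + ρ * t0 := ⟨_, rfl⟩
  obtain ⟨u1, hu1⟩ : ∃ u, u = s1 - ρ * t1 := ⟨_, rfl⟩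
  obtain ⟨v1, hv1⟩ : ∃ v, v = s1 + ρ * t1 := ⟨_, rfl⟩
  obtain ⟨A0, hA0⟩ : ∃ A, A = 4 * ρ * a0 := ⟨_, rfl⟩
  obtain ⟨A1, hA1⟩ : ∃ A, A = 4 * ρ * a1 := ⟨_, rfl⟩
  have hA1' : A1 ≠ 0 := by
    rw [hA1]
    exact mul_ne_zero (mul_ne_zero (by norm_num) hρ) ha
  have hu1' : u1 ≠ 0 := by
    intro h
    apply hn
    have : s1 ^ 2 - ρ ^ 2 * t1 ^ 2 = u1 * (s1 + ρ * t1) := by rw [hu1]; ring
    rw [this, h, zero_mul]
  have k' : v1 ^ 3 - u1 ^ 3 - A1 * u1 * v1 = 0 := by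
    rw [hv1, hu1, hA1]
    linear_combination (2 * ρ) * h'
  have k₂ : 3 * v1 ^ 2 * v0 - 3 * u1 ^ 2 * u0 - (A1 * u1 * v0 + A1 * u0 * v1 + A0 * u1 * v1) = 0 := by
    rw [hv1, hu1, hA1, hv0, hu0, hA0]
    linear_combination (2 * ρ) * e₂
  have k₁ : 3 * v1 * v0 ^ 2 - 3 * u1 * u0 ^ 2 - (A1 * u0 * v0 + A0 * u1 * v0 + A0 * u0 * v1) = 0 := by
    rw [hv1, hu1, hA1, hv0, hu0, hA0]
    linear_combination (2 * ρ) * e₁
  have I3 : (u1 * v0 - u0 * v1) ^ 3 = u1 ^ 3 * (v0 ^ 3 - u0 ^ 3 - A0 * u0 * v0) := by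
    linear_combination (-(u1 ^ 2 * u0)) * k₁ + (u1 * u0 ^ 2) * k₂ - u0 ^ 3 * k'
  have I2 : (u1 * v0 - u0 * v1) * (3 * v1 * (u1 * v0 - u0 * v1) - (u1 * A0 - u0 * A1) * u1) = 0 := by
    linear_combination (u1 ^ 2) * k₁ + (-2 * u1 * u0) * k₂ + (3 * u0 ^ 2) * k'
  have I1 : 3 * v1 ^ 2 * (u1 * v0 - u0 * v1) -
      (A1 * u1 * (u1 * v0 - u0 * v1) + (u1 * A0 - u0 * A1) * u1 * v1) = 0 := by
    linear_combination u1 * k₂ + (-3 * u0) * k'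
  have hV : u1 * v0 - u0 * v1 = 0 := by
    rcases mul_eq_zero.mp I2 with hV | hV
    · exact hV
    · have h5 : (u1 * v0 - u0 * v1) * (A1 * u1) = 0 := by
        linear_combination v1 * hV - I1
      rcases mul_eq_zero.mp h5 with h6 | h6
      · exact h6
      · exact absurd h6 (mul_ne_zero hA1' hu1')
  rw [hV] at I3
  have h3 : u1 ^ 3 * (v0 ^ 3 - u0 ^ 3 - A0 * u0 * v0) = 0 := by
    rw [← I3]; ring
  have h4 := (mul_eq_zero.mp h3).resolve_left (pow_ne_zero _ hu1')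
  have h5 : 2 * ρ * (t0 * (3 * s0 ^ 2 + ρ ^ 2 * t0 ^ 2) -
      2 * a0 * (s0 ^ 2 - ρ ^ 2 * t0 ^ 2)) = 0 := by
    rw [hv0, hu0, hA0] at h4
    linear_combination h4
  exact (mul_eq_zero.mp h5).resolve_left (mul_ne_zero (by norm_num) hρ)

/-- the real version -/
private theorem v6_nonconst' (d : ℤ) (hd : d ≠ 0) (a0 s0 t0 a1 s1 t1 : ℝ) (ha : a1 ≠ 0)
    (hn : s1 ^ 2 - d * t1 ^ 2 ≠ 0)
    (h' : t1 * (3 * s1 ^ 2 + d * t1 ^ 2) - 2 * a1 * (s1 ^ 2 - d * t1 ^ 2) = 0)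
    (e₂ : 3 * (2 * t1 * s0 * s1 + t0 * s1 ^ 2) + 3 * d * t0 * t1 ^ 2 -
      2 * (2 * a1 * s0 * s1 + a0 * s1 ^ 2) + 2 * d * (2 * a1 * t0 * t1 + a0 * t1 ^ 2) = 0)
    (e₁ : 3 * (t1 * s0 ^ 2 + 2 * t0 * s0 * s1) + 3 * d * t0 ^ 2 * t1 -
      2 * (a1 * s0 ^ 2 + 2 * a0 * s0 * s1) + 2 * d * (a1 * t0 ^ 2 + 2 * a0 * t0 * t1) = 0) :
    t0 * (3 * s0 ^ 2 + d * t0 ^ 2) - 2 * a0 * (s0 ^ 2 - d * t0 ^ 2) = 0 := by
  obtain ⟨ρ, hρ⟩ := IsAlgClosed.exists_pow_nat_eq ((d : ℝ) : ℂ) (n := 2) (by norm_num)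
  have hd' : ((d : ℝ) : ℂ) ≠ 0 := by
    rw [Complex.ofReal_ne_zero]
    exact_mod_cast hd
  have hρ0 : ρ ≠ 0 := by
    rintro rfl
    apply hd'
    rw [← hρ]
    norm_num
  have c1 := congrArg (fun x : ℝ => (x : ℂ)) h'
  have c2 := congrArg (fun x : ℝ => (x : ℂ)) e₂
  have c3 := congrArg (fun x : ℝ => (x : ℂ)) e₁
  have c4 : (s1 : ℂ) ^ 2 - ρ ^ 2 * (t1 : ℂ) ^ 2 ≠ 0 := by
    rw [hρ]
    intro h
    apply hn
    exact_mod_cast h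
  have key := v6_nonconst ρ a0 s0 t0 a1 s1 t1 hρ0 (Complex.ofReal_ne_zero.2 ha) c4
    (by rw [hρ]; push_cast at c1; push_cast; exact c1)
    (by rw [hρ]; push_cast at c2; push_cast; exact c2)
    (by rw [hρ]; push_cast at c3; push_cast; exact c3)
  rw [hρ] at key
  exact_mod_cast key

theorem line_count (d : ℤ) (hd : d ≠ 0) (c : ℕ) (hc : 1 ≤ c) (B : ℝ) (T : Finset (ℤ × ℝ × ℝ)) (hT : 2 ≤ T.card)
    (hb : ∀ z ∈ T, ∃ b : ℤ, Fb d z = 8 * b ∧ (c : ℤ) ∣ b ∧ b ≠ 0 ∧ |(b : ℝ)| ≤ B)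
    (h : ∀ x ∈ T, ∀ y ∈ T, x ≠ y → Fb d (x - y) = 0 ∧ (x - y).1 ≠ 0 ∧ (x - y).2.1 ≠ 0 ∧
      25 * |(d : ℝ)| * (x - y).2.2 ^ 2 ≤ (x - y).2.1 ^ 2)
    (hl : ∀ x ∈ T, ∀ y ∈ T, ∀ w ∈ T, (y - x).2.1 * (w - x).2.2 = (w - x).2.1 * (y - x).2.2) :
    (T.card : ℝ) ≤ 4 * B / c := by
  classical
  have hc0 : (0 : ℝ) < c := by exact_mod_cast hc
  obtain ⟨x0, hx0, x1, hx1, hne⟩ := Finset.one_lt_card.mp (by omega : 1 < T.card)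
  -- injectivity in s
  have hinj : ∀ z ∈ T, ∀ z₂ ∈ T, z.2.1 = z₂.2.1 → z = z₂ := by
    intro z hz z₂ hz₂ he
    by_contra hzz
    have h3 := (h z hz z₂ hz₂ hzz).2.2.1
    apply h3
    rw [Prod.snd_sub, Prod.fst_sub, he, sub_self]
  -- norms of differences
  have hnorm : ∀ s t : ℝ, s ≠ 0 → 25 * |(d : ℝ)| * t ^ 2 ≤ s ^ 2 → s ^ 2 - d * t ^ 2 ≠ 0 := by
    intro s t hs ht hst
    have h1 : 0 < s ^ 2 := by positivity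
    have h2 : (d : ℝ) * t ^ 2 ≤ |(d : ℝ)| * t ^ 2 :=
      mul_le_mul_of_nonneg_right (le_abs_self _) (sq_nonneg _)
    have h3 : 0 ≤ |(d : ℝ)| * t ^ 2 := by positivity
    nlinarith
  obtain ⟨h1F, h1a, h1s, h1n⟩ := h x1 hx1 x0 hx0 (Ne.symm hne)
  obtain ⟨α, hα⟩ : ∃ α : ℝ, α = ((x1 - x0).1 : ℝ) := ⟨_, rfl⟩
  obtain ⟨S, hS⟩ : ∃ S : ℝ, S = (x1 - x0).2.1 := ⟨_, rfl⟩
  obtain ⟨τ, hτ⟩ : ∃ τ : ℝ, τ = (x1 - x0).2.2 := ⟨_, rfl⟩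
  have hα0 : α ≠ 0 := by rw [hα]; exact_mod_cast h1a
  have hS0 : S ≠ 0 := by rw [hS]; exact h1s
  have hn1 : S ^ 2 - d * τ ^ 2 ≠ 0 := by
    refine hnorm S τ hS0 ?_
    rw [hS, hτ]
    exact h1n
  have hFδ : τ * (3 * S ^ 2 + d * τ ^ 2) - 2 * α * (S ^ 2 - d * τ ^ 2) = 0 := by
    rw [hτ, hS, hα]
    exact h1F
  -- the points on the line
  have key : ∀ z ∈ T, ∃ l : ℝ, (z.1 : ℝ) = x0.1 + l * α ∧ z.2.1 = x0.2.1 + l * S ∧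
      z.2.2 = x0.2.2 + l * τ := by
    intro z hz
    by_cases hzx : z = x0
    · subst hzx
      exact ⟨0, by simp, by simp, by simp⟩
    · have hl' := hl x0 hx0 x1 hx1 z hz
      obtain ⟨g1, -, g3, -⟩ := h z hz x0 hx0 hzx
      unfold Fb at g1
      obtain ⟨a, ha⟩ : ∃ a : ℝ, a = ((z - x0).1 : ℝ) := ⟨_, rfl⟩
      obtain ⟨σ, hσ⟩ : ∃ σ : ℝ, σ = (z - x0).2.1 := ⟨_, rfl⟩
      obtain ⟨t, ht⟩ : ∃ t : ℝ, t = (z - x0).2.2 := ⟨_, rfl⟩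
      rw [← hS, ← hτ, ← hσ, ← ht] at hl'
      rw [← hσ, ← ht, ← ha] at g1
      rw [← hσ] at g3
      have ha' : a = (z.1 : ℝ) - x0.1 := by
        rw [ha, Prod.fst_sub]
        push_cast
        ring
      have hσ' : σ = z.2.1 - x0.2.1 := by rw [hσ]; rfl
      have ht' : t = z.2.2 - x0.2.2 := by rw [ht]; rfl
      obtain ⟨l, hl0⟩ : ∃ l : ℝ, l = σ / S := ⟨_, rfl⟩
      have f1 : σ = l * S := by rw [hl0]; field_simp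
      have f2 : t = l * τ := by
        have : S * t = S * (l * τ) := by rw [hl', f1]; ring
        exact mul_left_cancel₀ hS0 this
      have hl1 : l ≠ 0 := by
        intro h0
        apply g3
        rw [f1, h0, zero_mul]
      have f3 : a = l * α := by
        rw [f1, f2] at g1
        have h2 : (l ^ 2 * (2 * (S ^ 2 - d * τ ^ 2))) * (l * α - a) = 0 := by
          linear_combination g1 - l ^ 3 * hFδ
        have h3 := (mul_eq_zero.mp h2).resolve_left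
          (mul_ne_zero (pow_ne_zero 2 hl1) (mul_ne_zero (by norm_num) hn1))
        linarith
      exact ⟨l, by linarith, by linarith, by linarith⟩
  -- the value on the line
  obtain ⟨a0, ha0⟩ : ∃ a : ℝ, a = (x0.1 : ℝ) := ⟨_, rfl⟩
  obtain ⟨s0, hs0⟩ : ∃ s : ℝ, s = x0.2.1 := ⟨_, rfl⟩
  obtain ⟨t0, ht0⟩ : ∃ t : ℝ, t = x0.2.2 := ⟨_, rfl⟩
  obtain ⟨E₂, hE₂⟩ : ∃ E : ℝ, E = 3 * (2 * τ * s0 * S + t0 * S ^ 2) + 3 * d * t0 * τ ^ 2 -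
      2 * (2 * α * s0 * S + a0 * S ^ 2) + 2 * d * (2 * α * t0 * τ + a0 * τ ^ 2) := ⟨_, rfl⟩
  obtain ⟨E₁, hE₁⟩ : ∃ E : ℝ, E = 3 * (τ * s0 ^ 2 + 2 * t0 * s0 * S) + 3 * d * t0 ^ 2 * τ -
      2 * (α * s0 ^ 2 + 2 * a0 * s0 * S) + 2 * d * (α * t0 ^ 2 + 2 * a0 * t0 * τ) := ⟨_, rfl⟩
  have hF0 : Fb d x0 ≠ 0 := by
    obtain ⟨b, hb1, -, hb2, -⟩ := hb x0 hx0
    rw [hb1]
    exact mul_ne_zero (by norm_num) (by exact_mod_cast hb2)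
  have hnc : ¬ (E₂ = 0 ∧ E₁ = 0) := by
    rintro ⟨g2, g1⟩
    apply hF0
    have := v6_nonconst' d hd a0 s0 t0 α S τ hα0 hn1 hFδ (hE₂ ▸ g2) (hE₁ ▸ g1)
    unfold Fb
    rw [← ha0, ← hs0, ← ht0]
    exact this
  choose! lam hlam using key
  have hval : ∀ z ∈ T, Fb d z = Fb d x0 + lam z * E₁ + lam z ^ 2 * E₂ := by
    intro z hz
    obtain ⟨k1, k2, k3⟩ := hlam z hz
    unfold Fb
    rw [k1, k2, k3, ← ha0, ← hs0, ← ht0, hE₁, hE₂]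
    linear_combination lam z ^ 3 * hFδ
  have hlinj : ∀ z ∈ T, ∀ z₂ ∈ T, lam z = lam z₂ → z = z₂ := by
    intro z hz z₂ hz₂ he
    refine hinj z hz z₂ hz₂ ?_
    rw [(hlam z hz).2.1, (hlam z₂ hz₂).2.1, he]
  -- the values
  have hk : ∀ z ∈ T, ∃ k : ℤ, Fb d z = 8 * (c * k) ∧ k ≠ 0 ∧ |k| ≤ ⌊B / c⌋ := by
    intro z hz
    obtain ⟨b, hb1, ⟨k, rfl⟩, hb3, hb4⟩ := hb z hz
    refine ⟨k, ?_, ?_, ?_⟩
    · rw [hb1]
      push_cast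
      ring
    · rintro rfl
      apply hb3
      rw [mul_zero]
    · rw [Int.le_floor, le_div_iff₀ hc0]
      push_cast at hb4 ⊢
      rw [abs_mul, abs_of_pos hc0] at hb4
      linarith
  choose! kf hkf using hk
  have himg : (T.image kf) ⊆ (Finset.Icc (-⌊B / c⌋) ⌊B / c⌋).erase 0 := by
    intro f hf
    obtain ⟨z, hz, rfl⟩ := Finset.mem_image.mp hf
    obtain ⟨-, g1, g2⟩ := hkf z hz
    rw [Finset.mem_erase, Finset.mem_Icc]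
    exact ⟨g1, abs_le.mp g2⟩
  have hfl : 0 ≤ ⌊B / c⌋ := (abs_nonneg _).trans (hkf x0 hx0).2.2
  have hcard : ((T.image kf).card : ℤ) ≤ 2 * ⌊B / c⌋ := by
    have h1 := Finset.card_le_card himg
    rw [Finset.card_erase_of_mem (by
      rw [Finset.mem_Icc]
      exact ⟨by linarith, hfl⟩), Int.card_Icc] at h1
    omega
  have hfib : ∀ f ∈ T.image kf, (T.filter (fun z => kf z = f)).card ≤ 2 := by
    intro f _
    by_contra hgt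
    push Not at hgt
    obtain ⟨x, y, w, hx, hy, hw, hxy, hxw, hyw⟩ := Finset.two_lt_card_iff.mp hgt
    rw [Finset.mem_filter] at hx hy hw
    have v1' := (hval x hx.1).symm.trans (hkf x hx.1).1
    have v2' := (hval y hy.1).symm.trans (hkf y hy.1).1
    have v3' := (hval w hw.1).symm.trans (hkf w hw.1).1
    rw [hx.2] at v1'
    rw [hy.2] at v2'
    rw [hw.2] at v3'
    have nxy : lam x - lam y ≠ 0 := fun h0 => hxy (hlinj x hx.1 y hy.1 (by linarith))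
    have nxw : lam x - lam w ≠ 0 := fun h0 => hxw (hlinj x hx.1 w hw.1 (by linarith))
    have nyw : lam y - lam w ≠ 0 := fun h0 => hyw (hlinj y hy.1 w hw.1 (by linarith))
    have s1 : (lam x - lam y) * (E₁ + (lam x + lam y) * E₂) = 0 := by
      linear_combination v1' - v2'
    have s2 : (lam x - lam w) * (E₁ + (lam x + lam w) * E₂) = 0 := by
      linear_combination v1' - v3'
    have s1' := (mul_eq_zero.mp s1).resolve_left nxy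
    have s2' := (mul_eq_zero.mp s2).resolve_left nxw
    have s3 : (lam y - lam w) * E₂ = 0 := by linear_combination s1' - s2'
    have s4 := (mul_eq_zero.mp s3).resolve_left nyw
    rw [s4] at s1'
    exact hnc ⟨s4, by linarith⟩
  have h1 : T.card ≤ 2 * (T.image kf).card := Finset.card_le_mul_card_image T 2 hfib
  have h2 : (T.card : ℝ) ≤ 2 * ((T.image kf).card : ℝ) := by exact_mod_cast h1
  have h3 : ((T.image kf).card : ℝ) ≤ 2 * (⌊B / c⌋ : ℝ) := by exact_mod_cast hcard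
  have h4 : (⌊B / c⌋ : ℝ) ≤ B / c := Int.floor_le _
  calc (T.card : ℝ) ≤ 2 * (2 * (B / c)) := by linarith
    _ = 4 * B / c := by ring

end W44
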