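import Pool.Agent.LibW44.V3
import Pool.Agent.LibW44.V4
import Pool.Agent.LibW44.V5
import Pool.Agent.LibW44.V6

/-! Row V7. One block, `c` large. Boxes: `a ∈ [1, √(12 H)]` into intervals of length `ℓ = (c/(100|d|))^(1/3)` (at most `1 + √(12H)/ℓ = 1 + (4157 G/c)^(1/3)` of them, as `|d| H^(3/2) = G`; intervals `[jℓ, (j+1)ℓ)`), `s ∈ [U, 2U)` into intervals of length
`U √(c/(2000 G))` (at most `1 + √(2000 G/c)`). In one box all differences have `Fb = 0` (`box_zero`); by `degen`, `collinear`, `line_count` (`B = 9 G`: `|b| ≤ √69 G`) a box has at most `3 + 36 G/c` points. Product `≤ C (1 + G/c)^(1/3 + 1/2 + 1) ≤ C (1 + G/c)²`. -/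

namespace W44
open RC91

private theorem v7_floor {x y : ℝ} (hx : 0 ≤ x) (hy : 0 ≤ y) (h : ⌊x⌋₊ = ⌊y⌋₊) : |x - y| < 1 := by
  have h1 := Nat.floor_le hx
  have h2 := Nat.lt_floor_add_one x
  have h3 := Nat.floor_le hy
  have h4 := Nat.lt_floor_add_one y
  have h' : ((⌊x⌋₊ : ℕ) : ℝ) = ((⌊y⌋₊ : ℕ) : ℝ) := by rw [h]
  rw [abs_lt]
  constructor <;> linarith

/-- a set in one box -/
private theorem v7_box (X : ℕ) (d : ℤ) (hd : d ≠ 0) (hH : 10 ^ 16 * |d| ≤ (X : ℤ)) (c : ℕ) (hc : 1 ≤ c)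
    (hG : Gg X d ≤ c * Hh X d ^ (1 / 3 : ℝ)) (T : Finset (ℤ × ℝ × ℝ))
    (hT : VS X d c (T : Set (ℤ × ℝ × ℝ))) (U : ℝ) (hU : 0 < U) (h : ∀ z ∈ T, U ≤ z.2.1)
    (S : Finset (ℤ × ℝ × ℝ)) (hS : S ⊆ T)
    (ha : ∀ z ∈ S, ∀ z' ∈ S, 100 * |(d : ℝ)| * |(z.1 : ℝ) - z'.1| ^ 3 ≤ c)
    (hs : ∀ z ∈ S, ∀ z' ∈ S, 2000 * Gg X d * (z.2.1 - z'.2.1) ^ 2 ≤ c * U ^ 2) :
    (S.card : ℝ) ≤ 36 * (1 + Gg X d / c) := by
  have hG0 : 0 ≤ Gg X d := Real.sqrt_nonneg _
  have hc0 : (0 : ℝ) < c := by exact_mod_cast hc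
  have hg0 : 0 ≤ Gg X d / c := by positivity
  have hd1 : 1 ≤ |d| := Int.one_le_abs hd
  have hD1 : (1 : ℝ) ≤ |(d : ℝ)| := by
    have : ((1 : ℤ) : ℝ) ≤ ((|d| : ℤ) : ℝ) := by exact_mod_cast hd1
    simpa using this
  by_cases h3 : S.card ≤ 3
  · have : (S.card : ℝ) ≤ 3 := by exact_mod_cast h3
    nlinarith
  · have h4 : 4 ≤ S.card := by omega
    have hF : ∀ z ∈ S, ∀ z' ∈ S, Fb d (z - z') = 0 := fun z hz z' hz' =>
      box_zero X d hd hH c hc _ hT hG z z' (hS hz) (hS hz') U hU (h z (hS hz)) (h z' (hS hz'))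
        (ha z hz z' hz') (hs z hz z' hz')
    have hdg : ∀ x ∈ S, ∀ y ∈ S, x ≠ y → Fb d (x - y) = 0 ∧ (x - y).1 ≠ 0 ∧ (x - y).2.1 ≠ 0 ∧
        25 * |(d : ℝ)| * (x - y).2.2 ^ 2 ≤ (x - y).2.1 ^ 2 := by
      intro x hx y hy hxy
      obtain ⟨e1, e2, _, e4⟩ := degen X d hd hH c _ hT x y (hS hx) (hS hy) hxy (hF x hx y hy)
      exact ⟨hF x hx y hy, e1, e2, e4⟩
    have hl := collinear d hd S h4 (fun x hx y hy hxy =>
      ⟨(hdg x hx y hy hxy).1, (hdg x hx y hy hxy).2.2.1, (hdg x hx y hy hxy).2.2.2⟩)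
    have hb : ∀ z ∈ S, ∃ b : ℤ, Fb d z = 8 * b ∧ (c : ℤ) ∣ b ∧ b ≠ 0 ∧ |(b : ℝ)| ≤ 9 * Gg X d := by
      intro z hz
      obtain ⟨b, e1, e2, e3, e4, _⟩ := hT.b1 z (hS hz)
      refine ⟨b, e1, e2, e3, ?_⟩
      have e5 : |(d : ℝ)| * (b : ℝ) ^ 2 ≤ 69 * (X : ℝ) ^ 3 := by exact_mod_cast e4
      have hGG : |(d : ℝ)| * Gg X d ^ 2 = (X : ℝ) ^ 3 := by
        unfold Gg
        rw [Real.sq_sqrt (by positivity)]
        field_simp
      have e6 : (b : ℝ) ^ 2 ≤ (9 * Gg X d) ^ 2 := by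
        have : |(d : ℝ)| * (b : ℝ) ^ 2 ≤ |(d : ℝ)| * (9 * Gg X d) ^ 2 := by
          calc |(d : ℝ)| * (b : ℝ) ^ 2 ≤ 69 * (X : ℝ) ^ 3 := e5
            _ = 69 * (|(d : ℝ)| * Gg X d ^ 2) := by rw [hGG]
            _ ≤ 81 * (|(d : ℝ)| * Gg X d ^ 2) :=
              mul_le_mul_of_nonneg_right (by norm_num) (by positivity)
            _ = _ := by ring
        exact le_of_mul_le_mul_left this (by linarith)
      exact abs_le_of_sq_le_sq e6 (by positivity)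
    have := line_count d hd c hc (9 * Gg X d) S (by omega) hb hdg hl
    have e : 4 * (9 * Gg X d) / c = 36 * (Gg X d / c) := by ring
    rw [e] at this
    linarith

theorem block : ∃ C : ℝ, 0 < C ∧ ∀ (X : ℕ) (d : ℤ), d ≠ 0 → 10 ^ 16 * |d| ≤ (X : ℤ) → ∀ c : ℕ, 1 ≤ c →
    Gg X d ≤ c * Hh X d ^ (1 / 3 : ℝ) → ∀ T : Finset (ℤ × ℝ × ℝ), VS X d c (T : Set (ℤ × ℝ × ℝ)) →
    ∀ U : ℝ, 0 < U → (∀ z ∈ T, U ≤ z.2.1 ∧ z.2.1 < 2 * U) → (T.card : ℝ) ≤ C * (1 + Gg X d / c) ^ 2 := by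
  refine ⟨18 * 46 * 36, by norm_num, ?_⟩
  intro X d hd hH c hc hG T hT U hU hTU
  have hd1 : 1 ≤ |d| := Int.one_le_abs hd
  have hD1 : (1 : ℝ) ≤ |(d : ℝ)| := by
    have : ((1 : ℤ) : ℝ) ≤ ((|d| : ℤ) : ℝ) := by exact_mod_cast hd1
    simpa using this
  have hX : (1 : ℝ) ≤ (X : ℝ) := by
    have : (1 : ℤ) ≤ (X : ℤ) := by linarith
    exact_mod_cast this
  have hc0 : (0 : ℝ) < c := by exact_mod_cast hc
  set D : ℝ := |(d : ℝ)| with hDdef
  have hD0 : 0 < D := by linarith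
  have hX0 : (0 : ℝ) < X := by linarith
  have hGpos : 0 < Gg X d := Real.sqrt_pos.2 (by positivity)
  have hGG : D * Gg X d ^ 2 = (X : ℝ) ^ 3 := by
    unfold Gg
    rw [Real.sq_sqrt (by positivity)]
    field_simp
    exact hDdef
  set g : ℝ := Gg X d / c with hgdef
  have hg0 : 0 < g := by positivity
  -- the two lengths
  set l : ℝ := ((c : ℝ) / (100 * D)) ^ (((3 : ℕ) : ℝ)⁻¹) with hl
  have hlpos : 0 < l := Real.rpow_pos_of_pos (by positivity) _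
  have hl3 : l ^ 3 = (c : ℝ) / (100 * D) :=
    Real.rpow_inv_natCast_pow (by positivity) (by norm_num)
  set e : ℝ := √((c : ℝ) / (2000 * Gg X d)) with he
  have hepos : 0 < e := Real.sqrt_pos.2 (by positivity)
  have he2 : e ^ 2 = (c : ℝ) / (2000 * Gg X d) := Real.sq_sqrt (by positivity)
  set A : ℝ := √(12 * (X / D)) with hA
  have hA0 : 0 ≤ A := Real.sqrt_nonneg _
  have hA2 : A ^ 2 = 12 * (X / D) := Real.sq_sqrt (by positivity)
  -- counts of intervals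
  have hJ : A / l ≤ 17 * √(1 + g) := by
    have h6 : (A / l) ^ 6 ≤ (17 * √(1 + g)) ^ 6 := by
      have e1 : (A / l) ^ 6 = 17280000 * g ^ 2 := by
        have : (A / l) ^ 6 = (A ^ 2) ^ 3 / (l ^ 3) ^ 2 := by
          rw [div_pow]; ring
        rw [this, hA2, hl3, hgdef]
        have hx3 : (X : ℝ) ^ 3 = D * Gg X d ^ 2 := hGG.symm
        have : (12 * ((X : ℝ) / D)) ^ 3 = 1728 * (D * Gg X d ^ 2) / D ^ 3 := by
          rw [← hx3]; ring
        rw [this]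
        field_simp
        norm_num
      have e2 : (17 * √(1 + g)) ^ 6 = 24137569 * (1 + g) ^ 3 := by
        have : (17 * √(1 + g)) ^ 6 = 24137569 * (√(1 + g) ^ 2) ^ 3 := by ring
        rw [this, Real.sq_sqrt (by positivity)]
      rw [e1, e2]
      nlinarith [pow_pos hg0 2, pow_pos hg0 3]
    exact (pow_le_pow_iff_left₀ (by positivity) (by positivity) (by norm_num)).1 h6
  have hK : 1 / e ≤ 45 * √(1 + g) := by
    have h2 : (1 / e) ^ 2 ≤ (45 * √(1 + g)) ^ 2 := by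
      have e1 : (1 / e) ^ 2 = 2000 * g := by
        rw [div_pow, he2, hgdef]
        field_simp
      have e2 : (45 * √(1 + g)) ^ 2 = 2025 * (1 + g) := by
        rw [mul_pow, Real.sq_sqrt (by positivity)]; norm_num
      rw [e1, e2]
      linarith
    exact (pow_le_pow_iff_left₀ (by positivity) (by positivity) (by norm_num)).1 h2
  -- the map to boxes
  let f : ℤ × ℝ × ℝ → ℕ × ℕ := fun z => (⌊(z.1 : ℝ) / l⌋₊, ⌊(z.2.1 - U) / (U * e)⌋₊)
  set J : ℕ := ⌊A / l⌋₊ with hJdef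
  set K : ℕ := ⌊1 / e⌋₊ with hKdef
  have hmap : ∀ z ∈ T, f z ∈ Finset.range (J + 1) ×ˢ Finset.range (K + 1) := by
    intro z hz
    rw [Finset.mem_product, Finset.mem_range, Finset.mem_range, Nat.lt_succ_iff, Nat.lt_succ_iff]
    constructor
    · apply Nat.floor_le_floor
      apply div_le_div_of_nonneg_right _ hlpos.le
      obtain ⟨_, ha2⟩ := hT.a1 z hz
      have ha2' : D * (z.1 : ℝ) ^ 2 ≤ 12 * X := by
        have : ((|d| * z.1 ^ 2 : ℤ) : ℝ) ≤ ((12 * (X : ℤ) : ℤ) : ℝ) := by exact_mod_cast ha2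
        push_cast at this
        exact this
      apply Real.le_sqrt_of_sq_le
      rw [← mul_div_assoc, le_div_iff₀ hD0]
      linarith
    · apply Nat.floor_le_floor
      obtain ⟨h1, h2⟩ := hTU z hz
      rw [div_le_div_iff₀ (by positivity) hepos]
      nlinarith
  have hfib : ∀ b ∈ Finset.range (J + 1) ×ˢ Finset.range (K + 1),
      (T.filter (fun z => f z = b)).card ≤ ⌊36 * (1 + g)⌋₊ := by
    intro b _
    apply Nat.le_floor
    apply v7_box X d hd hH c hc hG T hT U hU (fun z hz => (hTU z hz).1) _ (Finset.filter_subset _ _)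
    · intro z hz z' hz'
      rw [Finset.mem_filter] at hz hz'
      have h1 : ⌊(z.1 : ℝ) / l⌋₊ = ⌊(z'.1 : ℝ) / l⌋₊ := by
        have := congrArg Prod.fst (hz.2.trans hz'.2.symm)
        exact this
      have a1 : (1 : ℝ) ≤ z.1 := by exact_mod_cast (hT.a1 z hz.1).1
      have a2 : (1 : ℝ) ≤ z'.1 := by exact_mod_cast (hT.a1 z' hz'.1).1
      have h2 := v7_floor (by positivity) (by positivity) h1
      rw [← sub_div, abs_div, abs_of_pos hlpos, div_lt_one hlpos] at h2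
      have h3 : |(z.1 : ℝ) - z'.1| ^ 3 ≤ (c : ℝ) / (100 * D) := by
        rw [← hl3]
        exact pow_le_pow_left₀ (abs_nonneg _) h2.le 3
      rw [le_div_iff₀ (by positivity)] at h3
      linarith
    · intro z hz z' hz'
      rw [Finset.mem_filter] at hz hz'
      have h1 : ⌊(z.2.1 - U) / (U * e)⌋₊ = ⌊(z'.2.1 - U) / (U * e)⌋₊ := by
        have := congrArg Prod.snd (hz.2.trans hz'.2.symm)
        exact this
      have a1 := (hTU z hz.1).1
      have a2 := (hTU z' hz'.1).1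
      have h2 := v7_floor (div_nonneg (by linarith) (by positivity))
        (div_nonneg (by linarith) (by positivity)) h1
      have hUe : 0 < U * e := by positivity
      have h3 : (z.2.1 - U) / (U * e) - (z'.2.1 - U) / (U * e) = (z.2.1 - z'.2.1) / (U * e) := by
        rw [← sub_div]; ring
      rw [h3, abs_div, abs_of_pos hUe, div_lt_one hUe] at h2
      have h4 : (z.2.1 - z'.2.1) ^ 2 ≤ (U * e) ^ 2 := by
        rw [← sq_abs]
        exact pow_le_pow_left₀ (abs_nonneg _) h2.le 2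
      rw [mul_pow, he2] at h4
      have h5 : 2000 * Gg X d * (U ^ 2 * ((c : ℝ) / (2000 * Gg X d))) = c * U ^ 2 := by
        field_simp
      calc 2000 * Gg X d * (z.2.1 - z'.2.1) ^ 2
          ≤ 2000 * Gg X d * (U ^ 2 * ((c : ℝ) / (2000 * Gg X d))) :=
            mul_le_mul_of_nonneg_left h4 (by positivity)
        _ = _ := h5
  have hcard := Finset.card_le_mul_card_image_of_maps_to hmap _ hfib
  rw [Finset.card_product, Finset.card_range, Finset.card_range] at hcard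
  have hcard' : (T.card : ℝ) ≤ (⌊36 * (1 + g)⌋₊ : ℝ) * (((J : ℝ) + 1) * ((K : ℝ) + 1)) := by
    exact_mod_cast hcard
  have s1 : 1 ≤ √(1 + g) := by
    rw [Real.one_le_sqrt]; linarith
  have hJ' : (J : ℝ) + 1 ≤ 18 * √(1 + g) := by
    have := Nat.floor_le (div_nonneg hA0 hlpos.le)
    linarith
  have hK' : (K : ℝ) + 1 ≤ 46 * √(1 + g) := by
    have := Nat.floor_le (div_nonneg zero_le_one hepos.le)
    linarith
  have hF' : (⌊36 * (1 + g)⌋₊ : ℝ) ≤ 36 * (1 + g) := Nat.floor_le (by positivity)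
  calc (T.card : ℝ) ≤ (⌊36 * (1 + g)⌋₊ : ℝ) * (((J : ℝ) + 1) * ((K : ℝ) + 1)) := hcard'
    _ ≤ (36 * (1 + g)) * ((18 * √(1 + g)) * (46 * √(1 + g))) := by
        apply mul_le_mul hF' _ (by positivity) (by positivity)
        exact mul_le_mul hJ' hK' (by positivity) (by positivity)
    _ = 36 * (1 + g) * (18 * 46) * (√(1 + g) ^ 2) := by ring
    _ = 18 * 46 * 36 * (1 + g) ^ 2 := by rw [Real.sq_sqrt (by positivity)]; ring

end W44
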