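import Pool.Agent.LibW44.V2
import Pool.Agent.LibW44.V7
import Pool.Agent.LibW44.V10

/-! Row V11. Total for one class. `s ≥ X^30`: `large`. Otherwise blocks `2^i ≤ s < 2^(i+1)`, `0 ≤ i ≤ 44 log X` (`s ≥ 1`): at most `C L` blocks. In a block: if `G ≤ c H^(1/3)` use `block` and `1 + G/c ≤ 10 G/c` (`c ≤ 9 G`); otherwise `per_a` for each `a`, `1 ≤ a ≤ √(12 H)`. -/

namespace W44
open RC91

theorem v11_mono {X : ℕ} {d : ℤ} {c : ℕ} {V W : Set (ℤ × ℝ × ℝ)} (h : VS X d c V) (hW : W ⊆ V) :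
    VS X d c W where
  a1 z hz := h.a1 z (hW hz)
  b1 z hz := h.b1 z (hW hz)
  int z hz z' hz' := h.int z (hW hz) z' (hW hz')
  nt z hz z' hz' := h.nt z (hW hz) z' (hW hz')
  s1 z hz := h.s1 z (hW hz)
  t1 z hz := h.t1 z (hW hz)
  gp z hz z' hz' := h.gp z (hW hz) z' (hW hz')

theorem v11_card_le {α β : Type*} [DecidableEq β] (s : Finset α) (f : α → β) (K : ℝ) (hK : 0 ≤ K)
    (h : ∀ b ∈ s.image f, ((s.filter fun x => f x = b).card : ℝ) ≤ K) :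
    (s.card : ℝ) ≤ K * ((s.image f).card : ℝ) := by
  have h1 := Finset.card_le_mul_card_image s ⌊K⌋₊ (f := f) fun b hb => Nat.le_floor (h b hb)
  have h2 : (s.card : ℝ) ≤ (⌊K⌋₊ : ℝ) * ((s.image f).card : ℝ) := by exact_mod_cast h1
  exact h2.trans (mul_le_mul_of_nonneg_right (Nat.floor_le hK) (Nat.cast_nonneg _))

theorem v11_Mm_nonneg (X : ℕ) (d : ℤ) (c : ℕ) : 0 ≤ Mm X d c := by
  have hH : 0 ≤ Hh X d := by unfold Hh; positivity
  have hG : 0 ≤ Gg X d := by unfold Gg; positivity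
  unfold Mm
  split_ifs
  · positivity
  · positivity

theorem v11_block (Cb : ℝ) (hCb : 0 < Cb)
    (hblock : ∀ (X : ℕ) (d : ℤ), d ≠ 0 → 10 ^ 16 * |d| ≤ (X : ℤ) → ∀ c : ℕ, 1 ≤ c →
      Gg X d ≤ c * Hh X d ^ (1 / 3 : ℝ) → ∀ T : Finset (ℤ × ℝ × ℝ),
      VS X d c (T : Set (ℤ × ℝ × ℝ)) → ∀ U : ℝ, 0 < U →
      (∀ z ∈ T, U ≤ z.2.1 ∧ z.2.1 < 2 * U) → (T.card : ℝ) ≤ Cb * (1 + Gg X d / c) ^ 2)
    (X : ℕ) (d : ℤ) (hd : d ≠ 0) (hX : 10 ^ 16 * |d| ≤ (X : ℤ)) (c : ℕ) (hc : 1 ≤ c)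
    (hcG : (c : ℝ) ≤ 9 * Gg X d) (T : Finset (ℤ × ℝ × ℝ)) (hT : VS X d c (T : Set (ℤ × ℝ × ℝ)))
    (U : ℝ) (hU : 0 < U) (h : ∀ z ∈ T, U ≤ z.2.1 ∧ z.2.1 < 2 * U) :
    (T.card : ℝ) ≤ (100 * Cb + 4) * Mm X d c := by
  have hc' : (0 : ℝ) < c := by exact_mod_cast hc
  have hH : 0 ≤ Hh X d := by unfold Hh; positivity
  have hG : 0 ≤ Gg X d := by unfold Gg; positivity
  by_cases hcase : Gg X d ≤ c * Hh X d ^ (1 / 3 : ℝ)
  · have h1 := hblock X d hd hX c hc hcase T hT U hU h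
    have h2 : Mm X d c = (Gg X d / c) ^ 2 := by unfold Mm; rw [if_pos hcase]
    have h3 : 1 + Gg X d / c ≤ 10 * (Gg X d / c) := by
      have : 1 ≤ 9 * (Gg X d / c) := by
        rw [← mul_div_assoc, le_div_iff₀ hc']
        linarith
      linarith
    have h4 : 0 ≤ Gg X d / c := by positivity
    have h5 : (1 + Gg X d / c) ^ 2 ≤ 100 * (Gg X d / c) ^ 2 := by
      have := pow_le_pow_left₀ (by positivity) h3 2
      calc (1 + Gg X d / c) ^ 2 ≤ (10 * (Gg X d / c)) ^ 2 := this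
        _ = 100 * (Gg X d / c) ^ 2 := by ring
    rw [h2]
    have h6 : 0 ≤ (Gg X d / c) ^ 2 := by positivity
    have h7 := mul_le_mul_of_nonneg_left h5 hCb.le
    linarith
  · have h2 : Mm X d c = √(Hh X d) * (2 + √(400 * Gg X d / c)) *
        (2 + (10 ^ 6 * |(d : ℝ)| * Hh X d ^ (-(3 / 4) : ℝ) / c) ^ (1 / 3 : ℝ)) := by
      unfold Mm; rw [if_neg hcase]
    obtain ⟨K, hK⟩ : ∃ K : ℝ, K = (2 + √(400 * Gg X d / c)) *
        (2 + (10 ^ 6 * |(d : ℝ)| * Hh X d ^ (-(3 / 4) : ℝ) / c) ^ (1 / 3 : ℝ)) := ⟨_, rfl⟩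
    have hK0 : 0 ≤ K := by rw [hK]; positivity
    have h3 := v11_card_le T (fun z => z.1) K hK0 (by
      intro a _
      have := per_a X d hd hX c hc (T.filter fun z => z.1 = a)
        (v11_mono hT (by intro z hz; exact (Finset.mem_filter.1 (Finset.mem_coe.1 hz)).1)) a U hU
        (by
          intro z hz
          obtain ⟨h4, h5⟩ := Finset.mem_filter.1 hz
          exact ⟨h5, h z h4⟩)
      rw [hK]
      exact this)
    have h4 : T.image (fun z => z.1) ⊆ Finset.Icc 1 (⌊√(12 * Hh X d)⌋₊ : ℤ) := by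
      intro a ha
      obtain ⟨z, hz, rfl⟩ := Finset.mem_image.1 ha
      obtain ⟨h5, h6⟩ := hT.a1 z hz
      rw [Finset.mem_Icc]
      refine ⟨h5, ?_⟩
      have h7 : |(d : ℝ)| * (z.1 : ℝ) ^ 2 ≤ 12 * (X : ℝ) := by exact_mod_cast h6
      have hd0 : 0 < |(d : ℝ)| := by
        rw [abs_pos]; exact_mod_cast hd
      have h8 : (z.1 : ℝ) ^ 2 ≤ 12 * Hh X d := by
        unfold Hh
        rw [← mul_div_assoc, le_div_iff₀ hd0]
        linarith
      have h9 : (z.1 : ℝ) ≤ √(12 * Hh X d) := Real.le_sqrt_of_sq_le h8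
      have h10 : z.1.toNat ≤ ⌊√(12 * Hh X d)⌋₊ := by
        apply Nat.le_floor
        have h11 : ((z.1.toNat : ℤ) : ℝ) = (z.1 : ℝ) := by
          rw [Int.toNat_of_nonneg (by omega)]
        have h12 : ((z.1.toNat : ℕ) : ℝ) = (z.1 : ℝ) := by
          rw [← h11, Int.cast_natCast]
        rw [h12]; exact h9
      omega
    have h5 : ((T.image fun z => z.1).card : ℝ) ≤ 4 * √(Hh X d) := by
      have h6 := Finset.card_le_card h4
      rw [Int.card_Icc] at h6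
      have h7 : (T.image fun z => z.1).card ≤ ⌊√(12 * Hh X d)⌋₊ := by omega
      have h8 : ((T.image fun z => z.1).card : ℝ) ≤ √(12 * Hh X d) :=
        le_trans (by exact_mod_cast h7) (Nat.floor_le (Real.sqrt_nonneg _))
      have h9 : √(12 * Hh X d) ≤ √(16 * Hh X d) := Real.sqrt_le_sqrt (by linarith)
      have h10 : √(16 * Hh X d) = 4 * √(Hh X d) := by
        rw [Real.sqrt_mul (by norm_num)]
        congr 1
        rw [show (16 : ℝ) = 4 ^ 2 by norm_num]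
        exact Real.sqrt_sq (by norm_num)
      linarith
    have h6 : (T.card : ℝ) ≤ K * (4 * √(Hh X d)) :=
      h3.trans (mul_le_mul_of_nonneg_left h5 hK0)
    have h7 : Mm X d c = √(Hh X d) * K := by rw [h2, hK, mul_assoc]
    have h8 : 0 ≤ √(Hh X d) * K := mul_nonneg (Real.sqrt_nonneg _) hK0
    rw [h7]
    have h9 : 0 ≤ Cb * (√(Hh X d) * K) := mul_nonneg hCb.le h8
    linarith

theorem class_total : ∃ C : ℝ, 0 < C ∧ ∀ (X : ℕ) (d : ℤ), d ≠ 0 → 10 ^ 16 * |d| ≤ (X : ℤ) → ∀ c : ℕ, 1 ≤ c →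
    (c : ℝ) ≤ 9 * Gg X d → ∀ T : Finset (ℤ × ℝ × ℝ), VS X d c (T : Set (ℤ × ℝ × ℝ)) →
    ∀ Y : ℝ, 0 ≤ Y → (∀ z ∈ T, Real.log z.2.1 ≤ Real.exp Y) →
    (T.card : ℝ) ≤ C * (Ll X * Mm X d c + (Gg X d / c) ^ (1 / 3 : ℝ) * (1 + Y)) := by
  obtain ⟨Cb, hCb, hblock⟩ := block
  refine ⟨44 * (100 * Cb + 4) + 21, by positivity, ?_⟩
  intro X d hd hX c hc hcG T hT Y hY hlog
  have hd1 : (1 : ℤ) ≤ |d| := Int.one_le_abs hd
  have hD1 : (1 : ℝ) ≤ |(d : ℝ)| := by exact_mod_cast hd1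
  have hXD : 10 ^ 16 * |(d : ℝ)| ≤ (X : ℝ) := by exact_mod_cast hX
  have hX16 : (10 : ℝ) ^ 16 ≤ (X : ℝ) := le_trans (by linarith) hXD
  have hX1 : (1 : ℝ) ≤ (X : ℝ) := le_trans (by norm_num) hX16
  have hc' : (0 : ℝ) < c := by exact_mod_cast hc
  have hG : 0 ≤ Gg X d := by unfold Gg; positivity
  have hM := v11_Mm_nonneg X d c
  have hlogX : 0 ≤ Real.log X := Real.log_nonneg hX1
  have hL : 1 ≤ Ll X := by unfold Ll; linarith
  classical
  obtain ⟨TL, hTL⟩ : ∃ TL : Finset (ℤ × ℝ × ℝ), TL = T.filter fun z => (X : ℝ) ^ 30 ≤ z.2.1 :=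
    ⟨_, rfl⟩
  obtain ⟨TS, hTS⟩ : ∃ TS : Finset (ℤ × ℝ × ℝ), TS = T.filter fun z => ¬ (X : ℝ) ^ 30 ≤ z.2.1 :=
    ⟨_, rfl⟩
  have hcard : TL.card + TS.card = T.card := by
    rw [hTL, hTS]
    exact Finset.card_filter_add_card_filter_not _
  have hTLs : TL ⊆ T := by rw [hTL]; exact Finset.filter_subset _ _
  have hTSs : TS ⊆ T := by rw [hTS]; exact Finset.filter_subset _ _
  -- large vectors
  have hlarge : (TL.card : ℝ) ≤ 21 * ((Gg X d / c) ^ (1 / 3 : ℝ) * (1 + Y)) := by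
    have h1 := large X d hd hX c hc TL (v11_mono hT (Finset.coe_subset.2 hTLs)) Y hY (by
      intro z hz
      refine ⟨?_, hlog z (hTLs hz)⟩
      rw [hTL] at hz
      exact (Finset.mem_filter.1 hz).2)
    have h2 : (9 * Gg X d / c) ^ (1 / 3 : ℝ) ≤ 3 * (Gg X d / c) ^ (1 / 3 : ℝ) := by
      rw [mul_div_assoc, Real.mul_rpow (by norm_num) (by positivity)]
      refine mul_le_mul_of_nonneg_right ?_ (by positivity)
      have h3 : (9 : ℝ) ^ (1 / 3 : ℝ) ≤ (27 : ℝ) ^ (1 / 3 : ℝ) :=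
        Real.rpow_le_rpow (by norm_num) (by norm_num) (by norm_num)
      have h4 : (27 : ℝ) ^ (1 / 3 : ℝ) = 3 := by
        rw [show (27 : ℝ) = 3 ^ (3 : ℝ) by norm_num, ← Real.rpow_mul (by norm_num)]
        norm_num
      linarith
    have h5 : 1 + 7 * Y ≤ 7 * (1 + Y) := by linarith
    have h6 : 0 ≤ (Gg X d / c) ^ (1 / 3 : ℝ) := by positivity
    calc (TL.card : ℝ) ≤ (9 * Gg X d / c) ^ (1 / 3 : ℝ) * (1 + 7 * Y) := h1
      _ ≤ (3 * (Gg X d / c) ^ (1 / 3 : ℝ)) * (7 * (1 + Y)) :=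
          mul_le_mul h2 h5 (by positivity) (by positivity)
      _ = 21 * ((Gg X d / c) ^ (1 / 3 : ℝ) * (1 + Y)) := by ring
  -- small vectors
  have hs1 : ∀ z ∈ T, 1 ≤ z.2.1 := by
    intro z hz
    obtain ⟨h1, h2⟩ := hT.s1 z hz
    by_contra hc1
    have h3 : z.2.1 < 1 := not_le.1 hc1
    have h4 : z.2.1 ^ 8 ≤ 1 := pow_le_one₀ h1.le h3.le
    have hD3 : |(d : ℝ)| ^ 3 ≤ (X : ℝ) ^ 3 := by
      refine pow_le_pow_left₀ (by positivity) ?_ 3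
      linarith
    have h5 : |(d : ℝ)| ^ 3 * z.2.1 ^ 8 ≤ (X : ℝ) ^ 3 * 1 :=
      mul_le_mul hD3 h4 (by positivity) (by positivity)
    have h6 : (X : ℝ) ^ 3 ≤ (X : ℝ) ^ 7 := pow_le_pow_right₀ hX1 (by norm_num)
    have h7 : (0 : ℝ) < (X : ℝ) ^ 7 := by positivity
    linarith
  have hsmall : (TS.card : ℝ) ≤ (100 * Cb + 4) * Mm X d c * (44 * Ll X) := by
    have hK0 : 0 ≤ (100 * Cb + 4) * Mm X d c := by positivity
    have hidx : ∀ z ∈ TS, (2 : ℝ) ^ (Nat.log 2 ⌊z.2.1⌋₊) ≤ z.2.1 ∧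
        z.2.1 < 2 * (2 : ℝ) ^ (Nat.log 2 ⌊z.2.1⌋₊) := by
      intro z hz
      have h1 := hs1 z (hTSs hz)
      have h2 : ⌊z.2.1⌋₊ ≠ 0 := by
        have : 1 ≤ ⌊z.2.1⌋₊ := Nat.le_floor (by exact_mod_cast h1)
        omega
      have h3 := Nat.pow_log_le_self 2 h2
      have h4 := Nat.lt_pow_succ_log_self (b := 2) (by norm_num) ⌊z.2.1⌋₊
      constructor
      · calc (2 : ℝ) ^ (Nat.log 2 ⌊z.2.1⌋₊) ≤ (⌊z.2.1⌋₊ : ℝ) := by exact_mod_cast h3
          _ ≤ z.2.1 := Nat.floor_le (by linarith)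
      · have h5 : (⌊z.2.1⌋₊ : ℝ) + 1 ≤ (2 : ℝ) ^ (Nat.log 2 ⌊z.2.1⌋₊ + 1) := by exact_mod_cast h4
        have h6 := Nat.lt_floor_add_one z.2.1
        rw [pow_succ] at h5
        linarith
    have h1 := v11_card_le TS (fun z => Nat.log 2 ⌊z.2.1⌋₊) ((100 * Cb + 4) * Mm X d c) hK0 (by
      intro k _
      refine v11_block Cb hCb hblock X d hd hX c hc hcG _
        (v11_mono hT (by
          intro z hz
          exact hTSs (Finset.mem_filter.1 (Finset.mem_coe.1 hz)).1)) (2 ^ k) (by positivity) ?_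
      intro z hz
      obtain ⟨h2, h3⟩ := Finset.mem_filter.1 hz
      have h4 := hidx z h2
      rw [h3] at h4
      exact h4)
    have h2 : TS.image (fun z => Nat.log 2 ⌊z.2.1⌋₊) ⊆ Finset.range (⌊44 * Real.log X⌋₊ + 1) := by
      intro k hk
      obtain ⟨z, hz, rfl⟩ := Finset.mem_image.1 hk
      rw [Finset.mem_range, Nat.lt_succ_iff]
      apply Nat.le_floor
      obtain ⟨h3, -⟩ := hidx z hz
      have h4 : z.2.1 < (X : ℝ) ^ 30 := by
        rw [hTS] at hz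
        exact not_le.1 (Finset.mem_filter.1 hz).2
      have h5 := Real.log_le_log (by positivity) (h3.trans h4.le)
      rw [Real.log_pow, Real.log_pow] at h5
      have h6 := Real.log_two_gt_d9
      have h7 : (0 : ℝ) ≤ (Nat.log 2 ⌊z.2.1⌋₊ : ℝ) := Nat.cast_nonneg _
      push_cast at h5
      nlinarith
    have h3 : ((TS.image fun z => Nat.log 2 ⌊z.2.1⌋₊).card : ℝ) ≤ 44 * Ll X := by
      have h4 := Finset.card_le_card h2
      rw [Finset.card_range] at h4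
      have h5 : ((TS.image fun z => Nat.log 2 ⌊z.2.1⌋₊).card : ℝ) ≤ (⌊44 * Real.log X⌋₊ : ℝ) + 1 := by
        exact_mod_cast h4
      have h6 : (⌊44 * Real.log X⌋₊ : ℝ) ≤ 44 * Real.log X := Nat.floor_le (by positivity)
      unfold Ll
      linarith
    exact h1.trans (mul_le_mul_of_nonneg_left h3 hK0)
  have hfin : (T.card : ℝ) = TL.card + TS.card := by rw [← hcard]; push_cast; ring
  rw [hfin]
  have e1 : 0 ≤ Ll X * Mm X d c := mul_nonneg (by linarith) hM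
  have e2 : 0 ≤ (Gg X d / c) ^ (1 / 3 : ℝ) * (1 + Y) := by positivity
  have e3 : (100 * Cb + 4) * Mm X d c * (44 * Ll X) = 44 * (100 * Cb + 4) * (Ll X * Mm X d c) := by
    ring
  rw [e3] at hsmall
  have e4 : 0 ≤ Cb * ((Gg X d / c) ^ (1 / 3 : ℝ) * (1 + Y)) := mul_nonneg hCb.le e2
  nlinarith [hlarge, hsmall, e1, e2, e4]

end W44
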