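import Pool.Agent.LibW44.N1
import Pool.Agent.LibW44.N2
import Pool.Agent.LibW44.N3
import Pool.Agent.LibW44.N11
import Pool.Agent.LibW44.N12
import Pool.Agent.LibW44.N13
import Pool.Agent.LibW44.V11

/-! Row S3. One `(d, c)`. Choose `s, t : Pt → ℝ` with `RP` on `T` (`rp_exists`). `rel_partition` with `N = 243·3^ω(c) (1 + #QA)` (`nonrel_bound`; `w ≠ 0` because `¬ Cb`: `w = 0` gives `y² = x³`, `x = r²`, `m = 2r`, `n = 0`) and `B = C (L Mm + ..)`: for pairwise `Rel` `S`: `vs_mk`, the map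
`q ↦ (a, s, t)` is injective on `S` (`e1`: `x`; `e2`: `w`, so `b`; `e3`: `y`), `class_total` for the image; `log s ≤ (1/2) log(4 x + 48 X) ≤ exp Y` (`rp_size`). `c ≤ 9 G`, `1 ≤ c` from `cc_facts` (if `T` is empty nothing to do). -/

namespace W44
open RC91

theorem s3_w0 (d : ℤ) (q : Pt) (hx : 0 < q.x) (e : q.y ^ 2 = q.x ^ 3 + d * q.w ^ 2) (hC : ¬ Cb d q) : q.w ≠ 0 := by
  intro hw
  apply hC
  have e1 : q.y ^ 2 = q.x ^ 3 := by rw [e, hw]; ring
  have h1 : q.x ^ 2 ∣ q.y ^ 2 := ⟨q.x, by rw [e1]; ring⟩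
  have h2 : q.x ∣ q.y := (Int.pow_dvd_pow_iff two_ne_zero).1 h1
  obtain ⟨k, hk⟩ := h2
  have h3 : q.x = k ^ 2 := by
    have h4 : q.x ^ 2 * q.x = q.x ^ 2 * k ^ 2 := by
      calc q.x ^ 2 * q.x = q.x ^ 3 := by ring
        _ = q.y ^ 2 := e1.symm
        _ = q.x ^ 2 * k ^ 2 := by rw [hk]; ring
    exact mul_left_cancel₀ (pow_ne_zero 2 hx.ne') h4
  refine ⟨2 * k, 0, ?_, ?_⟩
  · rw [h3]; ring
  · rw [hw]; ring

theorem s3_inj (d : ℤ) (q q' : Pt) (s t : ℝ) (r : RP d q s t) (r' : RP d q' s t) (ha : q.a = q'.a) : q = q' := by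
  have h1 : (q.x : ℝ) = q'.x := by linarith [r.e1, r'.e1]
  have h2 : (q.w : ℝ) = q'.w := by linarith [r.e2, r'.e2]
  have h3 : (q.y : ℝ) = q'.y := by linarith [r.e3, r'.e3]
  have h1' : q.x = q'.x := by exact_mod_cast h1
  have h2' : q.w = q'.w := by exact_mod_cast h2
  have h3' : q.y = q'.y := by exact_mod_cast h3
  unfold Pt.w at h2'
  rw [ha, h1'] at h2'
  have h4 : q.b = q'.b := by linarith
  cases q; cases q'
  simp_all

theorem s3_mm (X : ℕ) (d : ℤ) (c : ℕ) : 0 ≤ Mm X d c := by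
  unfold Mm
  split_ifs
  · positivity
  · have h1 : 0 ≤ Gg X d := Real.sqrt_nonneg _
    have h2 : 0 ≤ Hh X d := by unfold Hh; positivity
    have h3 : 0 ≤ 10 ^ 6 * |(d : ℝ)| * Hh X d ^ (-(3 / 4) : ℝ) / c := by
      have := Real.rpow_nonneg h2 (-(3 / 4) : ℝ)
      positivity
    have h4 := Real.rpow_nonneg h3 (1 / 3 : ℝ)
    have h5 := Real.sqrt_nonneg (400 * Gg X d / c)
    have h6 := Real.sqrt_nonneg (Hh X d)
    positivity

theorem class_bound : ∃ C : ℝ, 0 < C ∧ ∀ (X : ℕ) (d : ℤ), Squarefree d → d ≠ 1 → 10 ^ 16 * |d| ≤ (X : ℤ) →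
    ∀ (c : ℕ) (Y : ℝ), 0 ≤ Y → ∀ T : Finset Pt,
    (∀ q ∈ T, Lg X d q ∧ ¬ Cb d q ∧ cc d q.w q.x = c ∧ Real.log (4 * q.x + 48 * X) ≤ 2 * Real.exp Y) →
    (T.card : ℝ) ≤ C * (3 ^ c.primeFactors.card * (1 + ((QA d).ncard : ℝ)) *
      (Ll X * Mm X d c + (Gg X d / c) ^ (1 / 3 : ℝ) * (1 + Y))) := by
  classical
  obtain ⟨C, hC0, hC⟩ := class_total
  refine ⟨243 * C, by positivity, ?_⟩
  intro X d hd hd1 hH c Y hY T hT
  have hd0 : d ≠ 0 := hd.ne_zero
  have hX1 : (1 : ℝ) ≤ X := by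
    have h1 : 1 ≤ |d| := Int.one_le_abs hd0
    have h2 : (1 : ℤ) ≤ (X : ℤ) := by linarith
    exact_mod_cast h2
  have hL : 0 ≤ Ll X := by
    unfold Ll
    have := Real.log_nonneg hX1
    linarith
  have hG : 0 ≤ Gg X d / c := div_nonneg (Real.sqrt_nonneg _) (Nat.cast_nonneg _)
  have hB0 : 0 ≤ Ll X * Mm X d c + (Gg X d / c) ^ (1 / 3 : ℝ) * (1 + Y) := by
    have h1 := mul_nonneg hL (s3_mm X d c)
    have h2 := mul_nonneg (Real.rpow_nonneg hG (1 / 3 : ℝ)) (show 0 ≤ 1 + Y by linarith)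
    linarith
  rcases T.eq_empty_or_nonempty with hT0 | ⟨q0, hq0⟩
  · subst hT0
    simp only [Finset.card_empty, Nat.cast_zero]
    positivity
  · have hex : ∀ q : Pt, ∃ p : ℝ × ℝ, q ∈ T → (0 < q.x ∧ RP d q p.1 p.2) := by
      intro q
      by_cases hq : q ∈ T
      · obtain ⟨hx, s, t, hst⟩ := rp_exists X d hd0 hH q (hT q hq).1
        exact ⟨(s, t), fun _ => ⟨hx, hst⟩⟩
      · exact ⟨(0, 0), fun h => absurd h hq⟩
    choose f hf using hex
    have hw : ∀ q ∈ T, q.w ≠ 0 := fun q hq =>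
      s3_w0 d q (hf q hq).1 (hT q hq).1.adm.eq (hT q hq).2.1
    obtain ⟨_, _, _, _, _, _, hc1, hc9⟩ := cc_facts X d hd0 q0 (hT q0 hq0).1.adm (hw q0 hq0)
    rw [(hT q0 hq0).2.2.1] at hc1 hc9
    have hmain := rel_partition d hd hd1 T (fun q => (f q).1) (fun q => (f q).2)
      (fun q hq => (hf q hq).2.pos) (243 * 3 ^ c.primeFactors.card * (1 + ((QA d).ncard : ℝ)))
      (C * (Ll X * Mm X d c + (Gg X d / c) ^ (1 / 3 : ℝ) * (1 + Y))) (mul_nonneg hC0.le hB0)
      (fun S hS hn => nonrel_bound hd hd1 c S _ _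
        (fun q hq => ⟨(hf q (hS hq)).1.ne', hw q (hS hq), (hT q (hS hq)).1.adm.eq, (hf q (hS hq)).2,
          (hT q (hS hq)).2.2.1⟩) hn)
      (by
        intro S hS hr
        have hV := vs_mk hd hd1 X hH c S (fun q => (f q).1) (fun q => (f q).2)
          (fun q hq => ⟨(hT q (hS hq)).1, (hf q (hS hq)).1, (hf q (hS hq)).2, (hT q (hS hq)).2.2.1,
            (hT q (hS hq)).2.1⟩) hr
        set φ : Pt → ℤ × ℝ × ℝ := fun q => (q.a, (f q).1, (f q).2) with hφ
        have hinj : Set.InjOn φ (S : Set Pt) := by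
          intro q hq q' hq' he
          rw [hφ] at he
          simp only [Prod.mk.injEq] at he
          obtain ⟨e1, e2, e3⟩ := he
          have r1 := (hf q (hS hq)).2
          have r2 := (hf q' (hS hq')).2
          rw [← e2, ← e3] at r2
          exact s3_inj d q q' _ _ r1 r2 e1
        have hcard : (S.image φ).card = S.card := Finset.card_image_of_injOn hinj
        rw [← hcard]
        apply hC X d hd0 hH c hc1 hc9
        · rw [Finset.coe_image]
          exact hV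
        · exact hY
        · intro z hz
          rw [Finset.mem_image] at hz
          obtain ⟨q, hq, hqz⟩ := hz
          rw [← hqz]
          show Real.log (f q).1 ≤ Real.exp Y
          have hq' := hS hq
          have h1 := (rp_size X d hd0 hH q (hT q hq').1 (hf q hq').1 _ _ (hf q hq').2).2.2
          have h2 := (hT q hq').2.2.2
          have h3 : 0 < (f q).1 := (hf q hq').2.pos
          have h4 : 2 * Real.log (f q).1 ≤ Real.log (4 * q.x + 48 * X) := by
            have h5 := Real.log_le_log (by positivity) h1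
            rw [Real.log_pow] at h5
            exact_mod_cast h5
          linarith)
    calc (T.card : ℝ) ≤ _ := hmain
      _ = _ := by ring

end W44
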