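import Pool.Agent.LibW44.S2
import Pool.Agent.LibW44.S3

/-! Row S4. Fibres of `q ↦ cc d q.w q.x ∈ Icc 1 ⌊9 G⌋` (`cc_facts`; `w ≠ 0` as in S3), `class_bound`, `sum_c`. -/

namespace W44
open RC91

private theorem s4_w {d : ℤ} (q : Pt) (hx : 0 < q.x) (e : q.y ^ 2 = q.x ^ 3 + d * q.w ^ 2)
    (hc : ¬ Cb d q) : q.w ≠ 0 := by
  intro hw
  apply hc
  rw [hw] at e
  have e1 : q.y ^ 2 = q.x ^ 2 * q.x := by rw [e]; ring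
  have h1 : q.x ^ 2 ∣ q.y ^ 2 := ⟨q.x, e1⟩
  have h2 : q.x ∣ q.y := (Int.pow_dvd_pow_iff two_ne_zero).1 h1
  obtain ⟨r, hr⟩ := h2
  rw [hr, mul_pow] at e1
  have h3 : r ^ 2 = q.x := mul_left_cancel₀ (pow_ne_zero 2 hx.ne') e1
  refine ⟨2 * r, 0, ?_, ?_⟩
  · rw [← h3]; ring
  · rw [hw]; ring

theorem main_d : ∃ (C : ℝ) (k : ℕ), 0 < C ∧ ∀ (X : ℕ) (d : ℤ), Squarefree d → d ≠ 1 → 10 ^ 16 * |d| ≤ (X : ℤ) →
    ∀ Y : ℝ, 0 ≤ Y → ∀ T : Finset Pt,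
    (∀ q ∈ T, Lg X d q ∧ ¬ Cb d q ∧ Real.log (4 * q.x + 48 * X) ≤ 2 * Real.exp Y) →
    (T.card : ℝ) ≤ C * Ll X ^ k * (1 + Y) * (1 + ((QA d).ncard : ℝ)) * Ee X d := by
  classical
  obtain ⟨C₁, hC₁, h₁⟩ := class_bound
  obtain ⟨C₂, k, hC₂, h₂⟩ := sum_c
  refine ⟨C₁ * C₂, k, mul_pos hC₁ hC₂, ?_⟩
  intro X d hd hd1 hX Y hY T hT
  have hd0 : d ≠ 0 := hd.ne_zero
  have hG : 0 ≤ 9 * Gg X d := by
    unfold Gg
    positivity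
  have hmaps : ∀ q ∈ T, cc d q.w q.x ∈ Finset.Icc 1 ⌊9 * Gg X d⌋₊ := by
    intro q hq
    obtain ⟨hL, hn, -⟩ := hT q hq
    have hx := (rp_exists X d hd0 hX q hL).1
    have h3 := cc_facts X d hd0 q hL.adm (s4_w q hx hL.adm.eq hn)
    rw [Finset.mem_Icc]
    exact ⟨h3.2.2.2.2.2.2.1, Nat.le_floor h3.2.2.2.2.2.2.2⟩
  have hcard : T.card = ∑ c ∈ Finset.Icc 1 ⌊9 * Gg X d⌋₊,
      (T.filter fun q => cc d q.w q.x = c).card :=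
    Finset.card_eq_sum_card_fiberwise hmaps
  have h4 := h₂ X d hd0 hX ⌊9 * Gg X d⌋₊ (Nat.floor_le hG) Y hY
  have h5 : ∀ c ∈ Finset.Icc 1 ⌊9 * Gg X d⌋₊,
      ((T.filter fun q => cc d q.w q.x = c).card : ℝ) ≤
        C₁ * (1 + ((QA d).ncard : ℝ)) * ((3 : ℝ) ^ c.primeFactors.card *
          (Ll X * Mm X d c + (Gg X d / c) ^ (1 / 3 : ℝ) * (1 + Y))) := by
    intro c _
    have h6 := h₁ X d hd hd1 hX c Y hY (T.filter fun q => cc d q.w q.x = c) ?_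
    · refine h6.trans (le_of_eq ?_)
      ring
    · intro q hq
      rw [Finset.mem_filter] at hq
      obtain ⟨hL, hn, hl⟩ := hT q hq.1
      exact ⟨hL, hn, hq.2, hl⟩
  rw [hcard]
  push_cast
  calc ∑ c ∈ Finset.Icc 1 ⌊9 * Gg X d⌋₊, ((T.filter fun q => cc d q.w q.x = c).card : ℝ)
      ≤ ∑ c ∈ Finset.Icc 1 ⌊9 * Gg X d⌋₊, C₁ * (1 + ((QA d).ncard : ℝ)) *
        ((3 : ℝ) ^ c.primeFactors.card *
          (Ll X * Mm X d c + (Gg X d / c) ^ (1 / 3 : ℝ) * (1 + Y))) := Finset.sum_le_sum h5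
    _ = C₁ * (1 + ((QA d).ncard : ℝ)) * ∑ c ∈ Finset.Icc 1 ⌊9 * Gg X d⌋₊,
        ((3 : ℝ) ^ c.primeFactors.card *
          (Ll X * Mm X d c + (Gg X d / c) ^ (1 / 3 : ℝ) * (1 + Y))) := by
        rw [Finset.mul_sum]
    _ ≤ C₁ * (1 + ((QA d).ncard : ℝ)) * (C₂ * Ll X ^ k * (1 + Y) * Ee X d) := by
        refine mul_le_mul_of_nonneg_left h4 ?_
        positivity
    _ = C₁ * C₂ * Ll X ^ k * (1 + Y) * (1 + ((QA d).ncard : ℝ)) * Ee X d := by ring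

end W44
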