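import Pool.Agent.LibW44.Defs

/-! Row T2. Case `|e|` small. For given `(a, e)`: `27 m²` lies in an interval of length `2·3200 G/|e|`; for `0 ≤ m₁ < m₂` `(m₂ - m₁)² ≤ m₂² - m₁²`, so at most `2 (1 + √(6400 G/(27|e|)))` values `m`. Sum over `1 ≤ |e| ≤ √G`, `1 ≤ a ≤ √(12 H)`:
`∑_{e ≤ E} e^(-1/2) ≤ 2 √E`. `G ≥ 1`: `√G ≤ G^(3/4)`. -/

namespace W44
open RC91

private theorem t2_half (S : Finset ℤ) (K R : ℝ) (hR : 0 ≤ R) (h0 : ∀ m ∈ S, 0 ≤ m)
    (h : ∀ m ∈ S, |27 * (m : ℝ) ^ 2 + K| ≤ R) : (S.card : ℝ) ≤ 1 + √(2 * R / 27) := by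
  rcases S.eq_empty_or_nonempty with rfl | hne
  · simp only [Finset.card_empty, Nat.cast_zero]
    positivity
  · set m1 := S.min' hne with hm1
    set m2 := S.max' hne with hm2
    have h1 := S.min'_mem hne
    have h2 := S.max'_mem hne
    rw [← hm1] at h1
    rw [← hm2] at h2
    have h12 : m1 ≤ m2 := S.min'_le _ h2
    have hsub : S ⊆ Finset.Icc m1 m2 := by
      intro m hm
      exact Finset.mem_Icc.2 ⟨S.min'_le _ hm, S.le_max' _ hm⟩
    have hcard : S.card ≤ (m2 + 1 - m1).toNat := by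
      have := Finset.card_le_card hsub
      rwa [Int.card_Icc] at this
    have hcr : (S.card : ℝ) ≤ (m2 : ℝ) - m1 + 1 := by
      have h3 : (S.card : ℤ) ≤ m2 + 1 - m1 := by omega
      have h4 : ((S.card : ℤ) : ℝ) ≤ ((m2 + 1 - m1 : ℤ) : ℝ) := by exact_mod_cast h3
      push_cast at h4
      linarith
    have hm1r : (0 : ℝ) ≤ m1 := by exact_mod_cast h0 _ h1
    have h12r : (m1 : ℝ) ≤ m2 := by exact_mod_cast h12
    have hb1 := (abs_le.1 (h _ h1)).1
    have hb2 := (abs_le.1 (h _ h2)).2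
    have hsq : ((m2 : ℝ) - m1) ^ 2 ≤ 2 * R / 27 := by
      have h5 : ((m2 : ℝ) - m1) ^ 2 ≤ (m2 : ℝ) ^ 2 - (m1 : ℝ) ^ 2 := by nlinarith
      have h6 : 27 * ((m2 : ℝ) ^ 2 - (m1 : ℝ) ^ 2) ≤ 2 * R := by linarith
      linarith
    have h7 : (m2 : ℝ) - m1 ≤ √(2 * R / 27) := Real.le_sqrt_of_sq_le hsq
    linarith

private theorem t2_fib (S : Finset ℤ) (K R : ℝ) (hR : 0 ≤ R)
    (h : ∀ m ∈ S, |27 * (m : ℝ) ^ 2 + K| ≤ R) : (S.card : ℝ) ≤ 2 + 2 * √(2 * R / 27) := by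
  have h1 := t2_half (S.filter (fun m => 0 ≤ m)) K R hR
    (fun m hm => (Finset.mem_filter.1 hm).2) (fun m hm => h m (Finset.mem_filter.1 hm).1)
  have h2 := t2_half ((S.filter (fun m => ¬ 0 ≤ m)).image (fun m => -m)) K R hR
    (fun m hm => by
      obtain ⟨m', hm', rfl⟩ := Finset.mem_image.1 hm
      have := (Finset.mem_filter.1 hm').2
      omega)
    (fun m hm => by
      obtain ⟨m', hm', rfl⟩ := Finset.mem_image.1 hm
      have := h m' (Finset.mem_filter.1 hm').1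
      push_cast
      rw [neg_sq]
      exact this)
  rw [Finset.card_image_of_injective _ neg_injective] at h2
  have h3 := Finset.card_filter_add_card_filter_not (s := S) (fun m : ℤ => 0 ≤ m)
  have h4 : ((S.filter (fun m => 0 ≤ m)).card : ℝ) + (S.filter (fun m => ¬ 0 ≤ m)).card =
      S.card := by exact_mod_cast h3
  linarith

private theorem t2_sum (N : ℕ) : ∑ k ∈ Finset.range N, 1 / √((k : ℝ) + 1) ≤ 2 * √(N : ℝ) := by
  induction N with
  | zero => simp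
  | succ n ih =>
    rw [Finset.sum_range_succ]
    have h1 : (0 : ℝ) ≤ n := Nat.cast_nonneg n
    have h2 : 0 < √((n : ℝ) + 1) := Real.sqrt_pos.2 (by linarith)
    have h3 : 0 ≤ √(n : ℝ) := Real.sqrt_nonneg _
    have h4 : √(n : ℝ) ^ 2 = n := Real.sq_sqrt h1
    have h5 : √((n : ℝ) + 1) ^ 2 = n + 1 := Real.sq_sqrt (by linarith)
    have h6 : √(n : ℝ) ≤ √((n : ℝ) + 1) := Real.sqrt_le_sqrt (by linarith)
    have h7 : 1 / √((n : ℝ) + 1) ≤ 2 * √((n : ℝ) + 1) - 2 * √(n : ℝ) := by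
      rw [div_le_iff₀ h2]
      nlinarith [mul_nonneg h2.le (sub_nonneg.2 h6)]
    push_cast
    linarith

theorem triv_e : ∃ C : ℝ, 0 < C ∧ ∀ (X : ℕ) (d : ℤ), d ≠ 0 → |d| ≤ (X : ℤ) → ∀ T : Finset (ℤ × ℤ × ℤ),
    (∀ z ∈ T, 1 ≤ z.1 ∧ |d| * z.1 ^ 2 ≤ 12 * (X : ℤ) ∧ z.2.1 ≠ 0 ∧ |(z.2.1 : ℝ)| ≤ √(Gg X d) ∧
      |(z.2.1 : ℝ)| * |((27 * z.2.2 ^ 2 + d * (z.2.1 + 6 * z.1) ^ 2 : ℤ) : ℝ)| ≤ 3200 * Gg X d) →
    (T.card : ℝ) ≤ C * √(Hh X d) * Gg X d ^ (3 / 4 : ℝ) := by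
  classical
  refine ⟨√12 * 200, by positivity, ?_⟩
  intro X d hd hdX T hT
  have hdpos : (0 : ℝ) < |(d : ℝ)| := abs_pos.2 (by exact_mod_cast hd)
  have hd1 : (1 : ℝ) ≤ |(d : ℝ)| := by
    have : (1 : ℤ) ≤ |d| := Int.one_le_abs hd
    exact_mod_cast this
  have hdXr : |(d : ℝ)| ≤ X := by exact_mod_cast hdX
  have hX1 : (1 : ℝ) ≤ X := hd1.trans hdXr
  have hH0 : 0 ≤ Hh X d := by unfold Hh; positivity
  have hG1 : 1 ≤ Gg X d := by
    unfold Gg
    rw [Real.one_le_sqrt, le_div_iff₀ hdpos, one_mul]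
    calc |(d : ℝ)| ≤ X := hdXr
      _ = (X : ℝ) ^ 1 := (pow_one _).symm
      _ ≤ (X : ℝ) ^ 3 := pow_le_pow_right₀ hX1 (by norm_num)
  set G := Gg X d with hG
  set H := Hh X d with hH
  have hG0 : 0 < G := by linarith
  set N := ⌊√G⌋₊ with hN
  set A : Finset ℤ := Finset.Icc 1 ⌊√(12 * H)⌋ with hA
  have hAcard : (A.card : ℝ) ≤ √(12 * H) := by
    rw [hA, Int.card_Icc]
    have h1 : ((⌊√(12 * H)⌋ + 1 - 1).toNat : ℤ) = ⌊√(12 * H)⌋ := by
      rw [Int.toNat_of_nonneg]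
      · ring
      · have := Int.floor_nonneg.2 (Real.sqrt_nonneg (12 * H))
        omega
    have h2 : (((⌊√(12 * H)⌋ + 1 - 1).toNat : ℤ) : ℝ) ≤ √(12 * H) := by
      rw [h1]
      exact Int.floor_le _
    exact_mod_cast h2
  set f : ℤ × ℤ × ℤ → ℤ × ℕ × Bool := fun z => (z.1, z.2.1.natAbs - 1, decide (z.2.1 < 0)) with hf
  set U : Finset (ℤ × ℕ × Bool) := A ×ˢ (Finset.range N ×ˢ (Finset.univ : Finset Bool)) with hU
  have hmaps : ∀ z ∈ T, f z ∈ U := by
    intro z hz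
    obtain ⟨h1, h2, h3, h4, _⟩ := hT z hz
    rw [hU, Finset.mem_product, Finset.mem_product]
    refine ⟨?_, ?_, Finset.mem_univ _⟩
    · show z.1 ∈ A
      rw [hA, Finset.mem_Icc]
      refine ⟨h1, ?_⟩
      rw [Int.le_floor]
      apply Real.le_sqrt_of_sq_le
      have h5 : |(d : ℝ)| * (z.1 : ℝ) ^ 2 ≤ 12 * (X : ℝ) := by exact_mod_cast h2
      rw [hH]
      unfold Hh
      rw [← mul_div_assoc, le_div_iff₀ hdpos]
      linarith
    · show z.2.1.natAbs - 1 ∈ Finset.range N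
      rw [Finset.mem_range]
      have h5 : z.2.1.natAbs ≤ N := by
        rw [hN]
        apply Nat.le_floor
        have h6 : ((z.2.1.natAbs : ℕ) : ℝ) = |(z.2.1 : ℝ)| := by
          rw [Nat.cast_natAbs, Int.cast_abs]
        rw [h6]
        exact h4
      have h7 : 0 < z.2.1.natAbs := Int.natAbs_pos.2 h3
      omega
  have hfib : ∀ u ∈ U, ((T.filter (fun z => f z = u)).card : ℝ) ≤
      2 + 32 * √G * (1 / √((u.2.1 : ℝ) + 1)) := by
    rintro ⟨a, k, sg⟩ _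
    set e : ℤ := if sg then -((k : ℤ) + 1) else (k : ℤ) + 1 with he
    have hz1 : ∀ z ∈ T.filter (fun z => f z = (a, k, sg)), z.1 = a ∧ z.2.1 = e := by
      intro z hz
      rw [Finset.mem_filter] at hz
      obtain ⟨hzT, hz2⟩ := hz
      obtain ⟨_, _, h3, _, _⟩ := hT z hzT
      rw [hf] at hz2
      simp only [Prod.mk.injEq] at hz2
      obtain ⟨g1, g2, g3⟩ := hz2
      refine ⟨g1, ?_⟩
      rw [he]
      rcases sg with _ | _
      · have h4 : ¬ z.2.1 < 0 := by simpa using g3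
        simp only [Bool.false_eq_true, if_false]
        omega
      · have h4 : z.2.1 < 0 := by simpa using g3
        simp only [if_true]
        omega
    have heabs : |(e : ℝ)| = (k : ℝ) + 1 := by
      have h1 : (0 : ℝ) ≤ k := Nat.cast_nonneg k
      rw [he]
      rcases sg with _ | _
      · simp only [Bool.false_eq_true, if_false]
        push_cast
        rw [abs_of_pos (by linarith)]
      · simp only [if_true]
        push_cast
        rw [abs_neg, abs_of_pos (by linarith)]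
    have hk0 : (0 : ℝ) < (k : ℝ) + 1 := by positivity
    have hinj : Set.InjOn (fun z : ℤ × ℤ × ℤ => z.2.2)
        (T.filter (fun z => f z = (a, k, sg)) : Finset (ℤ × ℤ × ℤ)) := by
      intro z hz z' hz' h
      have h1 := hz1 z hz
      have h2 := hz1 z' hz'
      exact Prod.ext (h1.1.trans h2.1.symm) (Prod.ext (h1.2.trans h2.2.symm) h)
    rw [← Finset.card_image_of_injOn hinj]
    have hR : (0 : ℝ) ≤ 3200 * G / ((k : ℝ) + 1) := by positivity
    refine (t2_fib _ ((d : ℝ) * ((e : ℝ) + 6 * a) ^ 2) (3200 * G / ((k : ℝ) + 1)) hR ?_).trans ?_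
    · intro m hm
      obtain ⟨z, hz, rfl⟩ := Finset.mem_image.1 hm
      have h1 := hz1 z hz
      obtain ⟨_, _, _, _, h5⟩ := hT z (Finset.mem_filter.1 hz).1
      rw [le_div_iff₀ hk0]
      rw [h1.1, h1.2] at h5
      push_cast at h5
      rw [heabs] at h5
      rw [mul_comm]
      exact h5
    · have h1 : 2 * (3200 * G / ((k : ℝ) + 1)) / 27 ≤ 256 * (G / ((k : ℝ) + 1)) := by
        have : 0 ≤ G / ((k : ℝ) + 1) := by positivity
        have h2 : 2 * (3200 * G / ((k : ℝ) + 1)) / 27 = 6400 / 27 * (G / ((k : ℝ) + 1)) := by ring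
        rw [h2]
        nlinarith
      have h2 : √(2 * (3200 * G / ((k : ℝ) + 1)) / 27) ≤ 16 * (√G * (1 / √((k : ℝ) + 1))) := by
        refine (Real.sqrt_le_sqrt h1).trans ?_
        rw [Real.sqrt_mul (by norm_num), Real.sqrt_div hG0.le]
        have h3 : √(256 : ℝ) = 16 := by
          rw [show (256 : ℝ) = 16 ^ 2 by norm_num]
          exact Real.sqrt_sq (by norm_num)
        rw [h3]
        refine le_of_eq ?_
        ring
      show 2 + 2 * √(2 * (3200 * G / ((k : ℝ) + 1)) / 27) ≤ 2 + 32 * √G * (1 / √((k : ℝ) + 1))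
      linarith
  have hcount : (T.card : ℝ) ≤ ∑ u ∈ U, (2 + 32 * √G * (1 / √((u.2.1 : ℝ) + 1))) := by
    rw [Finset.card_eq_sum_card_fiberwise hmaps]
    push_cast
    exact Finset.sum_le_sum hfib
  have hsum : ∑ u ∈ U, (2 + 32 * √G * (1 / √((u.2.1 : ℝ) + 1))) =
      A.card * (∑ k ∈ Finset.range N, (2 * (2 + 32 * √G * (1 / √((k : ℝ) + 1))))) := by
    rw [hU, Finset.sum_product]
    simp only [Finset.sum_product, Finset.sum_const, Finset.card_univ, Fintype.card_bool,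
      nsmul_eq_mul, Nat.cast_ofNat]
  have hNs : (N : ℝ) ≤ √G := Nat.floor_le (Real.sqrt_nonneg _)
  have hsG0 : 0 ≤ √G := Real.sqrt_nonneg _
  have hin : ∑ k ∈ Finset.range N, (2 * (2 + 32 * √G * (1 / √((k : ℝ) + 1)))) ≤
      200 * G ^ (3 / 4 : ℝ) := by
    have h1 : ∑ k ∈ Finset.range N, (2 * (2 + 32 * √G * (1 / √((k : ℝ) + 1)))) =
        4 * N + 64 * √G * ∑ k ∈ Finset.range N, 1 / √((k : ℝ) + 1) := by
      rw [Finset.mul_sum]
      have : ∀ k ∈ Finset.range N, 2 * (2 + 32 * √G * (1 / √((k : ℝ) + 1))) =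
          4 + 64 * √G * (1 / √((k : ℝ) + 1)) := by
        intro k _
        ring
      rw [Finset.sum_congr rfl this, Finset.sum_add_distrib, Finset.sum_const,
        Finset.card_range, nsmul_eq_mul]
      ring
    rw [h1]
    have h2 := t2_sum N
    have h3 : √(N : ℝ) ≤ √(√G) := Real.sqrt_le_sqrt hNs
    have h4 : √G = G ^ (1 / 2 : ℝ) := Real.sqrt_eq_rpow G
    have h5 : √(√G) = G ^ (1 / 4 : ℝ) := by
      rw [h4, Real.sqrt_eq_rpow, ← Real.rpow_mul hG0.le]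
      norm_num
    have h6 : √G * √(√G) = G ^ (3 / 4 : ℝ) := by
      rw [h5, h4, ← Real.rpow_add hG0]
      norm_num
    have h7 : √G ≤ G ^ (3 / 4 : ℝ) := by
      rw [h4]
      exact Real.rpow_le_rpow_of_exponent_le hG1 (by norm_num)
    have h8 : 64 * √G * ∑ k ∈ Finset.range N, 1 / √((k : ℝ) + 1) ≤ 128 * G ^ (3 / 4 : ℝ) := by
      calc 64 * √G * ∑ k ∈ Finset.range N, 1 / √((k : ℝ) + 1)
          ≤ 64 * √G * (2 * √(√G)) := by
            refine mul_le_mul_of_nonneg_left ?_ (by positivity)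
            linarith
        _ = 128 * (√G * √(√G)) := by ring
        _ = 128 * G ^ (3 / 4 : ℝ) := by rw [h6]
    have h9 : 0 ≤ G ^ (3 / 4 : ℝ) := by positivity
    linarith
  have hfinal : (T.card : ℝ) ≤ √(12 * H) * (200 * G ^ (3 / 4 : ℝ)) := by
    refine hcount.trans ?_
    rw [hsum]
    have h9 : 0 ≤ 200 * G ^ (3 / 4 : ℝ) := by positivity
    calc (A.card : ℝ) * ∑ k ∈ Finset.range N, (2 * (2 + 32 * √G * (1 / √((k : ℝ) + 1))))
        ≤ A.card * (200 * G ^ (3 / 4 : ℝ)) :=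
          mul_le_mul_of_nonneg_left hin (Nat.cast_nonneg _)
      _ ≤ √(12 * H) * (200 * G ^ (3 / 4 : ℝ)) := mul_le_mul_of_nonneg_right hAcard h9
  refine hfinal.trans (le_of_eq ?_)
  rw [Real.sqrt_mul (by norm_num)]
  ring

end W44
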