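import Pool.Agent.LibW44.B3
import Pool.Agent.LibRC91.QM

/-! Row T3. Case `|f|` small. `z = (a, e, m)`. For given `(a, f)`, `f ≠ 0`: `3 ∤ d`: `(9 m)² - (-3 d)(e + 6 a)² = 3 f`, `-3 d` squarefree, `≠ 1`; `3 ∣ d`, `d = 3 d₂`, `f = 3 f₁`: `(3 m)² - (-d₂)(e + 6 a)² = f₁`, `-d₂` squarefree, `≠ 1` as `d ≠ -3`.
`rep_count` with `W = 3200 G + 6 a + 1`: at most `4 τ(3|f|)² · C L` pairs `(m, e)`. `∑_{f ≤ 3200 √G} τ(3 f)² ≤ C √G L^4` (`RC91.QM_one 2`, `QM_mul`). `a ≤ √(12 H)`. -/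

namespace W44
open RC91

private theorem t3_log10 : Real.log 10 ≤ 3 := by
  rw [Real.log_le_iff_le_exp (by norm_num)]
  have h1 : (2.7 : ℝ) < Real.exp 1 := lt_trans (by norm_num) Real.exp_one_gt_d9
  have h2 : Real.exp 3 = Real.exp 1 ^ 3 := by
    rw [← Real.exp_nat_mul]
    norm_num
  rw [h2]
  calc (10 : ℝ) ≤ 2.7 ^ 3 := by norm_num
    _ ≤ Real.exp 1 ^ 3 := by gcongr

private theorem t3_sizes (X : ℕ) (d : ℤ) (hX : 1 ≤ X) (hd0 : d ≠ 0) (hdX : |d| ≤ (X : ℤ)) :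
    1 ≤ Gg X d ∧ Gg X d ≤ (X : ℝ) ^ 2 ∧ 1 ≤ √(Gg X d) ∧ √(Gg X d) ≤ X ∧ 0 < |(d : ℝ)| ∧
      |(d : ℝ)| ≤ X ∧ (1 : ℝ) ≤ |(d : ℝ)| ∧ (1 : ℝ) ≤ X := by
  have hX' : (1 : ℝ) ≤ X := by exact_mod_cast hX
  have hd1 : (1 : ℝ) ≤ |(d : ℝ)| := by
    have : 1 ≤ |d| := Int.one_le_abs hd0
    have h2 : ((1 : ℤ) : ℝ) ≤ ((|d| : ℤ) : ℝ) := by exact_mod_cast this
    rw [Int.cast_abs] at h2
    simpa using h2
  have hdX' : |(d : ℝ)| ≤ X := by
    have h2 : ((|d| : ℤ) : ℝ) ≤ ((X : ℤ) : ℝ) := by exact_mod_cast hdX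
    rw [Int.cast_abs] at h2
    simpa using h2
  have hd : 0 < |(d : ℝ)| := by linarith
  have hG1 : 1 ≤ Gg X d := by
    unfold Gg
    rw [Real.one_le_sqrt, le_div_iff₀ hd]
    calc 1 * |(d : ℝ)| ≤ X := by linarith
      _ = (X : ℝ) ^ 1 := (pow_one _).symm
      _ ≤ (X : ℝ) ^ 3 := pow_le_pow_right₀ hX' (by norm_num)
  have hG2 : Gg X d ≤ (X : ℝ) ^ 2 := by
    unfold Gg
    rw [Real.sqrt_le_left (by positivity), div_le_iff₀ hd]
    calc (X : ℝ) ^ 3 ≤ (X : ℝ) ^ 4 := pow_le_pow_right₀ hX' (by norm_num)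
      _ = ((X : ℝ) ^ 2) ^ 2 * 1 := by ring
      _ ≤ ((X : ℝ) ^ 2) ^ 2 * |(d : ℝ)| := by gcongr
  refine ⟨hG1, hG2, Real.one_le_sqrt.2 hG1, ?_, hd, hdX', hd1, hX'⟩
  rw [Real.sqrt_le_left (by positivity)]
  exact hG2

private theorem t3_tau3 (f : ℤ) : ((3 * f).natAbs.divisors.card : ℝ) ≤ 2 * (f.natAbs.divisors.card : ℝ) := by
  have h1 := QM_mul 3 f.natAbs
  have h2 : (3 * f).natAbs = 3 * f.natAbs := by
    rw [Int.natAbs_mul]
    rfl
  rw [h2]
  have h3 : (Nat.divisors 3).card = 2 := by decide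
  rw [h3] at h1
  exact_mod_cast h1

private theorem t3_fib (X : ℕ) (d : ℤ) (hX : 1 ≤ X) (hd : Squarefree d) (hd3 : d ≠ -3)
    (hdX : |d| ≤ (X : ℤ)) (a f : ℤ) (hf : f ≠ 0) (ha : 1 ≤ a) (ha2 : |d| * a ^ 2 ≤ 12 * (X : ℤ))
    (hfG : |(f : ℝ)| ≤ 3200 * √(Gg X d)) (T : Finset (ℤ × ℤ × ℤ))
    (hT : ∀ z ∈ T, z.1 = a ∧ 27 * z.2.2 ^ 2 + d * (z.2.1 + 6 * z.1) ^ 2 = f ∧
      |(z.2.1 : ℝ)| ≤ 3200 * Gg X d) :
    (T.card : ℝ) ≤ 432 * Ll X * (f.natAbs.divisors.card : ℝ) ^ 2 := by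
  have hd0 : d ≠ 0 := hd.ne_zero
  obtain ⟨hG1, hG2, hG3, hG4, hdp, hdX', hd1, hX'⟩ := t3_sizes X d hX hd0 hdX
  obtain ⟨W, hW⟩ : ∃ W : ℝ, W = 3200 * Gg X d + 6 * a + 1 := ⟨_, rfl⟩
  have haR : (1 : ℝ) ≤ a := by exact_mod_cast ha
  have haX : (a : ℝ) ≤ 12 * X := by
    have h1 : a ≤ 12 * (X : ℤ) := by
      have h2 : 1 ≤ |d| := Int.one_le_abs hd0
      nlinarith
    exact_mod_cast h1
  have hW1 : 1 ≤ W := by
    rw [hW]
    nlinarith
  have hWX : W ≤ 3273 * (X : ℝ) ^ 2 := by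
    rw [hW]
    nlinarith
  have hL : ∀ n D : ℝ, |n| ≤ 9600 * √(Gg X d) → |D| ≤ 3 * |(d : ℝ)| → 0 < |n| →
      3 + Real.log (|n| + |D| * W ^ 2) ≤ 27 * Ll X := by
    intro n D hn hD hn0
    have h1 : |n| + |D| * W ^ 2 ≤ 10 ^ 8 * (X : ℝ) ^ 5 := by
      have h2 : |D| * W ^ 2 ≤ (3 * X) * (3273 * (X : ℝ) ^ 2) ^ 2 := by
        gcongr
        linarith
      have h3 : |n| ≤ 9600 * (X : ℝ) ^ 5 := by
        calc |n| ≤ 9600 * √(Gg X d) := hn
          _ ≤ 9600 * X := by linarith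
          _ = 9600 * (X : ℝ) ^ 1 := by rw [pow_one]
          _ ≤ 9600 * (X : ℝ) ^ 5 := by
            have := pow_le_pow_right₀ hX' (show 1 ≤ 5 by norm_num)
            linarith
      calc |n| + |D| * W ^ 2 ≤ 9600 * (X : ℝ) ^ 5 + (3 * X) * (3273 * (X : ℝ) ^ 2) ^ 2 := by linarith
        _ = (9600 + 3 * 3273 ^ 2) * (X : ℝ) ^ 5 := by ring
        _ ≤ 10 ^ 8 * (X : ℝ) ^ 5 := by
          have : (0 : ℝ) ≤ (X : ℝ) ^ 5 := by positivity
          apply mul_le_mul_of_nonneg_right _ this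
          norm_num
    have h4 : Real.log (|n| + |D| * W ^ 2) ≤ 8 * Real.log 10 + 5 * Real.log X := by
      have h5 : 0 < |n| + |D| * W ^ 2 := by positivity
      calc Real.log (|n| + |D| * W ^ 2) ≤ Real.log (10 ^ 8 * (X : ℝ) ^ 5) :=
            Real.log_le_log h5 h1
        _ = 8 * Real.log 10 + 5 * Real.log X := by
          rw [Real.log_mul (by positivity) (by positivity), Real.log_pow, Real.log_pow]
          norm_num
    have h6 := t3_log10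
    have h7 : 0 ≤ Real.log X := Real.log_nonneg hX'
    unfold Ll
    linarith
  have hw : ∀ z ∈ T, |((z.2.1 + 6 * z.1 : ℤ) : ℝ)| ≤ W := by
    intro z hz
    obtain ⟨h1, _, h3⟩ := hT z hz
    rw [h1]
    push_cast
    calc |(z.2.1 : ℝ) + 6 * a| ≤ |(z.2.1 : ℝ)| + |6 * (a : ℝ)| := abs_add_le _ _
      _ ≤ 3200 * Gg X d + 6 * a := by
        rw [abs_of_nonneg (by linarith : (0 : ℝ) ≤ 6 * a)]
        linarith
      _ ≤ W := by
        rw [hW]
        linarith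
  have hLn : 0 ≤ Ll X := by
    unfold Ll
    have h7 : 0 ≤ Real.log X := Real.log_nonneg hX'
    linarith
  by_cases h3 : (3 : ℤ) ∣ d
  · -- `3 ∣ d`
    obtain ⟨d2, hd2⟩ := h3
    have hsq : Squarefree (-d2) := by
      have h1 : d2 ∣ d := ⟨3, by rw [hd2]; ring⟩
      have h2 : (-d2) ∣ d := (neg_dvd).2 h1
      exact hd.squarefree_of_dvd h2
    have hne : -d2 ≠ 1 := by
      intro h
      apply hd3
      rw [hd2]
      linarith
    rcases T.eq_empty_or_nonempty with hT0 | ⟨z0, hz0⟩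
    · rw [hT0]
      simp only [Finset.card_empty, Nat.cast_zero]
      positivity
    have hf3 : (3 : ℤ) ∣ f := by
      rw [← (hT z0 hz0).2.1, hd2]
      exact ⟨9 * z0.2.2 ^ 2 + d2 * (z0.2.1 + 6 * z0.1) ^ 2, by ring⟩
    obtain ⟨f1, hf1⟩ := hf3
    have hf10 : f1 ≠ 0 := by
      rintro rfl
      apply hf
      rw [hf1]
      ring
    have hr := rep_count (-d2) hsq hne f1 hf10 W hW1
      (T.image fun z => (3 * z.2.2, z.2.1 + 6 * z.1)) (by
        intro s hs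
        rw [Finset.mem_image] at hs
        obtain ⟨z, hz, rfl⟩ := hs
        refine ⟨?_, hw z hz⟩
        have h1 := (hT z hz).2.1
        rw [hd2, hf1] at h1
        dsimp only
        nlinarith)
    rw [Finset.card_image_of_injOn (by
      intro z hz z' hz' hzz
      simp only [Prod.mk.injEq] at hzz
      have h1 := (hT z hz).1
      have h2 := (hT z' hz').1
      have h4 : z.1 = z'.1 := by rw [h1, h2]
      have h5 : z.2.2 = z'.2.2 := by linarith [hzz.1]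
      have h6 : z.2.1 = z'.2.1 := by linarith [hzz.2]
      exact Prod.ext h4 (Prod.ext h6 h5))] at hr
    refine hr.trans ?_
    have hff : |(f1 : ℝ)| ≤ |(f : ℝ)| := by
      rw [hf1]
      push_cast
      rw [abs_mul, abs_of_pos (by norm_num : (0 : ℝ) < 3)]
      linarith [abs_nonneg (f1 : ℝ)]
    have hlog := hL (f1 : ℝ) ((-d2 : ℤ) : ℝ) (by
        calc |(f1 : ℝ)| ≤ 3200 * √(Gg X d) := hff.trans hfG
          _ ≤ 9600 * √(Gg X d) := by linarith) (by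
        rw [hd2]
        push_cast
        rw [abs_neg, abs_mul, abs_of_pos (by norm_num : (0 : ℝ) < 3)]
        linarith [abs_nonneg (d2 : ℝ)]) (by
        rw [abs_pos]
        exact_mod_cast hf10)
    have htau : (f1.natAbs.divisors.card : ℝ) ≤ (f.natAbs.divisors.card : ℝ) := by
      have h1 : f1.natAbs ∣ f.natAbs := by
        rw [Int.natAbs_dvd_natAbs]
        exact ⟨3, by rw [hf1]; ring⟩
      have h2 := Finset.card_le_card (Nat.divisors_subset_of_dvd (by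
        rw [Ne, Int.natAbs_eq_zero]
        exact hf) h1)
      exact_mod_cast h2
    have hlog0 : 0 ≤ 3 + Real.log (|(f1 : ℝ)| + |((-d2 : ℤ) : ℝ)| * W ^ 2) := by
      have h1 : (1 : ℝ) ≤ |(f1 : ℝ)| := by
        have : 1 ≤ |f1| := Int.one_le_abs hf10
        have h2 : ((1 : ℤ) : ℝ) ≤ ((|f1| : ℤ) : ℝ) := by exact_mod_cast this
        rw [Int.cast_abs] at h2
        simpa using h2
      have h2 : 0 ≤ Real.log (|(f1 : ℝ)| + |((-d2 : ℤ) : ℝ)| * W ^ 2) := by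
        apply Real.log_nonneg
        have : 0 ≤ |((-d2 : ℤ) : ℝ)| * W ^ 2 := by positivity
        linarith
      linarith
    calc 4 * (f1.natAbs.divisors.card : ℝ) ^ 2 *
          (3 + Real.log (|(f1 : ℝ)| + |((-d2 : ℤ) : ℝ)| * W ^ 2))
        ≤ 4 * (f.natAbs.divisors.card : ℝ) ^ 2 * (27 * Ll X) := by gcongr
      _ = 108 * (Ll X * (f.natAbs.divisors.card : ℝ) ^ 2) := by ring
      _ ≤ 432 * (Ll X * (f.natAbs.divisors.card : ℝ) ^ 2) := by
        have : 0 ≤ Ll X * (f.natAbs.divisors.card : ℝ) ^ 2 := by positivity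
        linarith
      _ = 432 * Ll X * (f.natAbs.divisors.card : ℝ) ^ 2 := by ring
  · -- `3 ∤ d`
    have hsq : Squarefree (-3 * d) := by
      have h3p : Prime (3 : ℤ) := Int.prime_three
      have hcop : IsCoprime (-3 : ℤ) d := by
        have h1 : IsCoprime (3 : ℤ) d := (Prime.coprime_iff_not_dvd h3p).2 h3
        exact h1.neg_left
      rw [squarefree_mul_iff]
      refine ⟨hcop.isRelPrime, ?_, hd⟩
      have : Squarefree (3 : ℤ) := h3p.squarefree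
      have h4 : Associated (3 : ℤ) (-3) := ⟨-1, by norm_num⟩
      exact h4.squarefree_iff.1 this
    have hne : -3 * d ≠ 1 := by omega
    have hf30 : 3 * f ≠ 0 := mul_ne_zero (by norm_num) hf
    have hr := rep_count (-3 * d) hsq hne (3 * f) hf30 W hW1
      (T.image fun z => (9 * z.2.2, z.2.1 + 6 * z.1)) (by
        intro s hs
        rw [Finset.mem_image] at hs
        obtain ⟨z, hz, rfl⟩ := hs
        refine ⟨?_, hw z hz⟩
        have h1 := (hT z hz).2.1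
        dsimp only
        rw [← h1]
        ring)
    rw [Finset.card_image_of_injOn (by
      intro z hz z' hz' hzz
      simp only [Prod.mk.injEq] at hzz
      have h1 := (hT z hz).1
      have h2 := (hT z' hz').1
      have h4 : z.1 = z'.1 := by rw [h1, h2]
      have h5 : z.2.2 = z'.2.2 := by linarith [hzz.1]
      have h6 : z.2.1 = z'.2.1 := by linarith [hzz.2]
      exact Prod.ext h4 (Prod.ext h6 h5))] at hr
    refine hr.trans ?_
    have hlog := hL ((3 * f : ℤ) : ℝ) ((-3 * d : ℤ) : ℝ) (by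
        push_cast
        rw [abs_mul, abs_of_pos (by norm_num : (0 : ℝ) < 3)]
        linarith) (by
        push_cast
        rw [abs_mul, abs_neg, abs_of_pos (by norm_num : (0 : ℝ) < 3)]) (by
        rw [abs_pos]
        exact_mod_cast hf30)
    have htau := t3_tau3 f
    have hlog0 : 0 ≤ 3 + Real.log (|((3 * f : ℤ) : ℝ)| + |((-3 * d : ℤ) : ℝ)| * W ^ 2) := by
      have h1 : (1 : ℝ) ≤ |((3 * f : ℤ) : ℝ)| := by
        have : 1 ≤ |3 * f| := Int.one_le_abs hf30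
        have h2 : ((1 : ℤ) : ℝ) ≤ ((|3 * f| : ℤ) : ℝ) := by exact_mod_cast this
        rw [Int.cast_abs] at h2
        simpa using h2
      have h2 : 0 ≤ Real.log (|((3 * f : ℤ) : ℝ)| + |((-3 * d : ℤ) : ℝ)| * W ^ 2) := by
        apply Real.log_nonneg
        have : 0 ≤ |((-3 * d : ℤ) : ℝ)| * W ^ 2 := by positivity
        linarith
      linarith
    calc 4 * ((3 * f).natAbs.divisors.card : ℝ) ^ 2 *
          (3 + Real.log (|((3 * f : ℤ) : ℝ)| + |((-3 * d : ℤ) : ℝ)| * W ^ 2))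
        ≤ 4 * (2 * (f.natAbs.divisors.card : ℝ)) ^ 2 * (27 * Ll X) := by gcongr
      _ = 432 * Ll X * (f.natAbs.divisors.card : ℝ) ^ 2 := by ring

theorem triv_f : ∃ (C : ℝ) (k : ℕ), 0 < C ∧ ∀ (X : ℕ) (d : ℤ), 1 ≤ X → Squarefree d → d ≠ -3 → |d| ≤ (X : ℤ) →
    ∀ T : Finset (ℤ × ℤ × ℤ),
    (∀ z ∈ T, 1 ≤ z.1 ∧ |d| * z.1 ^ 2 ≤ 12 * (X : ℤ) ∧ |(z.2.1 : ℝ)| ≤ 3200 * Gg X d ∧
      27 * z.2.2 ^ 2 + d * (z.2.1 + 6 * z.1) ^ 2 ≠ 0 ∧
      |((27 * z.2.2 ^ 2 + d * (z.2.1 + 6 * z.1) ^ 2 : ℤ) : ℝ)| ≤ 3200 * √(Gg X d)) →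
    (T.card : ℝ) ≤ C * Ll X ^ k * √(Hh X d) * √(Gg X d) := by
  refine ⟨4 * 864 * 3200 * 13 ^ 4, 5, by norm_num, ?_⟩
  intro X d hX hd hd3 hdX T hT
  have hd0 : d ≠ 0 := hd.ne_zero
  obtain ⟨hG1, hG2, hG3, hG4, hdp, hdX', hd1, hX'⟩ := t3_sizes X d hX hd0 hdX
  have hlX : 0 ≤ Real.log X := Real.log_nonneg hX'
  have hL1 : 1 ≤ Ll X := by
    unfold Ll
    linarith
  have hH0 : 0 ≤ Hh X d := by
    unfold Hh
    positivity
  obtain ⟨A, hA⟩ : ∃ A : ℕ, A = ⌊√(12 * Hh X d)⌋₊ := ⟨_, rfl⟩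
  obtain ⟨F, hF⟩ : ∃ F : ℕ, F = ⌊3200 * √(Gg X d)⌋₊ := ⟨_, rfl⟩
  have hAr : (A : ℝ) ≤ 4 * √(Hh X d) := by
    calc (A : ℝ) ≤ √(12 * Hh X d) := by
          rw [hA]
          exact Nat.floor_le (by positivity)
      _ ≤ √(4 ^ 2 * Hh X d) := by
          apply Real.sqrt_le_sqrt
          nlinarith
      _ = 4 * √(Hh X d) := by
          rw [Real.sqrt_mul (by norm_num), Real.sqrt_sq (by norm_num)]
  have hFr : (F : ℝ) ≤ 3200 * √(Gg X d) := by
    rw [hF]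
    exact Nat.floor_le (by positivity)
  have hF1 : 1 ≤ F := by
    rw [hF]
    apply Nat.le_floor
    push_cast
    linarith
  have hFlog : 1 + Real.log F ≤ 13 * Ll X := by
    have h0 : (0 : ℝ) < F := by exact_mod_cast hF1
    have h1 : Real.log F ≤ Real.log (10 ^ 4 * (X : ℝ)) := by
      apply Real.log_le_log h0
      calc (F : ℝ) ≤ 3200 * √(Gg X d) := hFr
        _ ≤ 3200 * X := by linarith
        _ ≤ 10 ^ 4 * X := by
          have : (0 : ℝ) ≤ X := by positivity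
          nlinarith
    rw [Real.log_mul (by positivity) (by positivity), Real.log_pow] at h1
    have h2 := t3_log10
    push_cast at h1
    unfold Ll
    linarith
  have hmaps : ∀ z ∈ T, (z.1.natAbs, (27 * z.2.2 ^ 2 + d * (z.2.1 + 6 * z.1) ^ 2).natAbs) ∈
      Finset.Icc 1 A ×ˢ Finset.Icc 1 F := by
    intro z hz
    obtain ⟨h1, h2, h3, h4, h5⟩ := hT z hz
    rw [Finset.mem_product, Finset.mem_Icc, Finset.mem_Icc]
    refine ⟨⟨by omega, ?_⟩, ⟨?_, ?_⟩⟩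
    · rw [hA]
      apply Nat.le_floor
      have h6 : ((z.1.natAbs : ℕ) : ℝ) = (z.1 : ℝ) := by
        rw [Nat.cast_natAbs, abs_of_pos (by omega)]
      rw [h6]
      apply Real.le_sqrt_of_sq_le
      unfold Hh
      rw [← mul_div_assoc, le_div_iff₀ hdp]
      have h7 : ((|d| * z.1 ^ 2 : ℤ) : ℝ) ≤ ((12 * (X : ℤ) : ℤ) : ℝ) := by exact_mod_cast h2
      push_cast at h7
      linarith
    · have := Int.natAbs_pos.2 h4
      exact this
    · rw [hF]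
      apply Nat.le_floor
      rw [Nat.cast_natAbs]
      push_cast at h5 ⊢
      exact h5
  rw [Finset.card_eq_sum_card_fiberwise hmaps]
  push_cast
  have hfib : ∀ p ∈ Finset.Icc 1 A ×ˢ Finset.Icc 1 F,
      (((T.filter fun z => (z.1.natAbs, (27 * z.2.2 ^ 2 + d * (z.2.1 + 6 * z.1) ^ 2).natAbs) = p).card
        : ℕ) : ℝ) ≤ 864 * Ll X * (p.2.divisors.card : ℝ) ^ 2 := by
    intro p hp
    rw [Finset.mem_product, Finset.mem_Icc, Finset.mem_Icc] at hp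
    obtain ⟨⟨hp1, hp2⟩, ⟨hp3, hp4⟩⟩ := hp
    have hsplit : (T.filter fun z => (z.1.natAbs,
        (27 * z.2.2 ^ 2 + d * (z.2.1 + 6 * z.1) ^ 2).natAbs) = p) ⊆
        (T.filter fun z => z.1 = (p.1 : ℤ) ∧
          27 * z.2.2 ^ 2 + d * (z.2.1 + 6 * z.1) ^ 2 = (p.2 : ℤ)) ∪
        (T.filter fun z => z.1 = (p.1 : ℤ) ∧
          27 * z.2.2 ^ 2 + d * (z.2.1 + 6 * z.1) ^ 2 = -(p.2 : ℤ)) := by
      intro z hz
      rw [Finset.mem_filter] at hz
      obtain ⟨hz1, hz2⟩ := hz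
      rw [Prod.ext_iff] at hz2
      obtain ⟨hz3, hz4⟩ := hz2
      simp only at hz3 hz4
      have h1 := (hT z hz1).1
      have h5 : z.1 = (p.1 : ℤ) := by omega
      rw [Finset.mem_union, Finset.mem_filter, Finset.mem_filter]
      rcases Int.natAbs_eq (27 * z.2.2 ^ 2 + d * (z.2.1 + 6 * z.1) ^ 2) with h6 | h6
      · left
        rw [hz4] at h6
        exact ⟨hz1, h5, h6⟩
      · right
        rw [hz4] at h6
        exact ⟨hz1, h5, h6⟩
    have hone : ∀ f : ℤ, f.natAbs = p.2 → (((T.filter fun z => z.1 = (p.1 : ℤ) ∧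
        27 * z.2.2 ^ 2 + d * (z.2.1 + 6 * z.1) ^ 2 = f).card : ℕ) : ℝ) ≤
        432 * Ll X * (p.2.divisors.card : ℝ) ^ 2 := by
      intro f hf
      rcases (T.filter fun z => z.1 = (p.1 : ℤ) ∧
        27 * z.2.2 ^ 2 + d * (z.2.1 + 6 * z.1) ^ 2 = f).eq_empty_or_nonempty with h0 | ⟨z0, hz0⟩
      · rw [h0]
        simp only [Finset.card_empty, Nat.cast_zero]
        positivity
      · rw [Finset.mem_filter] at hz0
        obtain ⟨hz1, hz2, hz3⟩ := hz0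
        obtain ⟨g1, g2, g3, g4, g5⟩ := hT z0 hz1
        have := t3_fib X d hX hd hd3 hdX (p.1 : ℤ) f (by rw [← hz3]; exact g4)
          (by omega) (by rw [← hz2]; exact g2) (by rw [← hz3]; exact g5)
          (T.filter fun z => z.1 = (p.1 : ℤ) ∧
            27 * z.2.2 ^ 2 + d * (z.2.1 + 6 * z.1) ^ 2 = f) (by
          intro z hz
          rw [Finset.mem_filter] at hz
          exact ⟨hz.2.1, hz.2.2, (hT z hz.1).2.2.1⟩)
        rw [hf] at this
        exact this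
    have h1 := hone (p.2 : ℤ) (Int.natAbs_natCast _)
    have h2 := hone (-(p.2 : ℤ)) (by rw [Int.natAbs_neg, Int.natAbs_natCast])
    have h3 := (Finset.card_le_card hsplit).trans (Finset.card_union_le _ _)
    have h4 : (((T.filter fun z => (z.1.natAbs,
        (27 * z.2.2 ^ 2 + d * (z.2.1 + 6 * z.1) ^ 2).natAbs) = p).card : ℕ) : ℝ) ≤
        (((T.filter fun z => z.1 = (p.1 : ℤ) ∧
        27 * z.2.2 ^ 2 + d * (z.2.1 + 6 * z.1) ^ 2 = (p.2 : ℤ)).card : ℕ) : ℝ) +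
        (((T.filter fun z => z.1 = (p.1 : ℤ) ∧
        27 * z.2.2 ^ 2 + d * (z.2.1 + 6 * z.1) ^ 2 = -(p.2 : ℤ)).card : ℕ) : ℝ) := by
      exact_mod_cast h3
    linarith
  refine (Finset.sum_le_sum hfib).trans ?_
  rw [Finset.sum_product]
  simp only
  rw [Finset.sum_const, nsmul_eq_mul, Nat.card_Icc, ← Finset.mul_sum]
  have hsum : ∑ v ∈ Finset.Icc 1 F, (v.divisors.card : ℝ) ^ 2 ≤ F * (13 * Ll X) ^ 4 := by
    calc ∑ v ∈ Finset.Icc 1 F, (v.divisors.card : ℝ) ^ 2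
        ≤ ∑ v ∈ Finset.Icc 1 F, F * ((v.divisors.card : ℝ) ^ 2 / v) := by
          apply Finset.sum_le_sum
          intro v hv
          rw [Finset.mem_Icc] at hv
          have hv0 : (0 : ℝ) < v := by exact_mod_cast hv.1
          have hvF : (v : ℝ) ≤ F := by exact_mod_cast hv.2
          rw [← mul_div_assoc, le_div_iff₀ hv0]
          nlinarith [sq_nonneg (v.divisors.card : ℝ)]
      _ = F * ∑ v ∈ Finset.Icc 1 F, (v.divisors.card : ℝ) ^ 2 / v := by rw [Finset.mul_sum]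
      _ ≤ F * (1 + Real.log F) ^ (2 ^ 2) := by
          gcongr
          exact QM_one 2 F hF1
      _ ≤ F * (13 * Ll X) ^ 4 := by
          have h0 : 0 ≤ Real.log F := Real.log_nonneg (by exact_mod_cast hF1)
          have h1 : (2 : ℕ) ^ 2 = 4 := by norm_num
          rw [h1]
          gcongr
  have hA2 : (((A + 1 - 1 : ℕ)) : ℝ) = A := by simp
  rw [hA2]
  calc (A : ℝ) * (864 * Ll X * ∑ v ∈ Finset.Icc 1 F, (v.divisors.card : ℝ) ^ 2)
      ≤ (4 * √(Hh X d)) * (864 * Ll X * (3200 * √(Gg X d) * (13 * Ll X) ^ 4)) := by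
        have h1 : ∑ v ∈ Finset.Icc 1 F, (v.divisors.card : ℝ) ^ 2 ≤
            3200 * √(Gg X d) * (13 * Ll X) ^ 4 := by
          refine hsum.trans ?_
          gcongr
        gcongr
    _ = 4 * 864 * 3200 * 13 ^ 4 * Ll X ^ 5 * √(Hh X d) * √(Gg X d) := by ring

end W44
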