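import Pool.Agent.LibW44.T1
import Pool.Agent.LibW44.T2
import Pool.Agent.LibW44.T3

/-! Row T4. Total of the trivial class. `q ↦ (a, e, m)`, `e = 3 n - 2 a` (`triv_id`) is injective on pairs `(a, b)`: `a, e` give `n`, `m, n` give `x, w`, `b = w - a x`. `|e f| ≤ 3200 G` and both nonzero integers: `|e| ≤ √G` or `|f| ≤ 3200 √G`;
`|e|, |f| ≤ 3200 G`. `√H G^(3/4) = |d|^(3/4) H^(13/8) ≤ |d| H^(11/6)` as `H ≥ 1`. -/

namespace W44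
open RC91

private theorem t4_real {X D : ℝ} (hD : 1 ≤ D) (hX : D ≤ X) :
    √(X / D) * √(X ^ 3 / D) ^ (3 / 4 : ℝ) ≤ D * (X / D) ^ (11 / 6 : ℝ) := by
  obtain ⟨H, hH⟩ : ∃ H : ℝ, H = X / D := ⟨_, rfl⟩
  have hD0 : 0 < D := by linarith
  have hH1 : 1 ≤ H := by
    rw [hH, le_div_iff₀ hD0]
    linarith
  have hH0 : 0 < H := by linarith
  have hXH : X = H * D := by
    rw [hH]
    field_simp
  have h1 : X ^ 3 / D = H ^ 3 * D ^ 2 := by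
    rw [hXH]
    field_simp
  have e1 : √(H ^ 3 * D ^ 2) ^ (3 / 4 : ℝ) = H ^ (9 / 8 : ℝ) * D ^ (3 / 4 : ℝ) := by
    rw [Real.sqrt_eq_rpow, ← Real.rpow_mul (by positivity), Real.mul_rpow (by positivity)
      (by positivity), ← Real.rpow_natCast H 3, ← Real.rpow_natCast D 2,
      ← Real.rpow_mul hH0.le, ← Real.rpow_mul hD0.le]
    norm_num
  rw [h1, e1, ← hH, Real.sqrt_eq_rpow]
  have e2 : H ^ (1 / 2 : ℝ) * (H ^ (9 / 8 : ℝ) * D ^ (3 / 4 : ℝ)) =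
      D ^ (3 / 4 : ℝ) * H ^ (13 / 8 : ℝ) := by
    rw [← mul_assoc, ← Real.rpow_add hH0, mul_comm]
    norm_num
  rw [e2]
  have h2 : D ^ (3 / 4 : ℝ) ≤ D := by
    calc D ^ (3 / 4 : ℝ) ≤ D ^ (1 : ℝ) := Real.rpow_le_rpow_of_exponent_le hD (by norm_num)
      _ = D := Real.rpow_one D
  have h3 : H ^ (13 / 8 : ℝ) ≤ H ^ (11 / 6 : ℝ) :=
    Real.rpow_le_rpow_of_exponent_le hH1 (by norm_num)
  exact mul_le_mul h2 h3 (by positivity) hD0.le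

theorem triv : ∃ (C : ℝ) (k : ℕ), 0 < C ∧ ∀ (X : ℕ) (d : ℤ), 1 ≤ X → Squarefree d → d ≠ -3 → |d| ≤ (X : ℤ) →
    ∀ T : Finset (ℤ × ℤ), (∀ z ∈ T, ∃ x y : ℤ, Adm X d ⟨z.1, z.2, x, y⟩ ∧ Cb d ⟨z.1, z.2, x, y⟩) →
    (T.card : ℝ) ≤ C * Ll X ^ k * Ee X d := by
  classical
  obtain ⟨C₁, hC₁, h₁⟩ := triv_e
  obtain ⟨C₂, k, hC₂, h₂⟩ := triv_f
  refine ⟨C₁ + C₂, k, by positivity, fun X d hX hsq hd3 hdX T hT => ?_⟩
  have hd : d ≠ 0 := hsq.ne_zero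
  have hD1 : (1 : ℝ) ≤ |(d : ℝ)| := by
    have : 1 ≤ |d| := Int.one_le_abs hd
    exact_mod_cast this
  have hDX : |(d : ℝ)| ≤ (X : ℝ) := by exact_mod_cast hdX
  have hD0 : (0 : ℝ) < |(d : ℝ)| := by linarith
  have hX1 : (1 : ℝ) ≤ X := by exact_mod_cast hX
  -- `G ≥ 1`, `L ≥ 1`
  have hG1 : 1 ≤ Gg X d := by
    unfold Gg
    rw [Real.one_le_sqrt, le_div_iff₀ hD0, one_mul]
    calc |(d : ℝ)| ≤ X := hDX
      _ ≤ (X : ℝ) ^ 3 := le_self_pow₀ hX1 (by norm_num)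
  have hG0 : 0 < Gg X d := by linarith
  have hL1 : 1 ≤ Ll X := by
    unfold Ll
    have := Real.log_nonneg hX1
    linarith
  have hsG0 : 0 < √(Gg X d) := Real.sqrt_pos.2 hG0
  have hsG : √(Gg X d) * √(Gg X d) = Gg X d := Real.mul_self_sqrt hG0.le
  -- the parameters
  have key : ∀ z : ℤ × ℤ, ∃ m n : ℤ, z ∈ T → ∃ x y : ℤ, Adm X d ⟨z.1, z.2, x, y⟩ ∧
      4 * x = m ^ 2 - d * n ^ 2 ∧ 8 * (z.1 * x + z.2) = n * (3 * m ^ 2 + d * n ^ 2) ∧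
      (3 * n - 2 * z.1) * (27 * m ^ 2 + d * (3 * n - 2 * z.1 + 6 * z.1) ^ 2) ≠ 0 ∧
      |(((3 * n - 2 * z.1) * (27 * m ^ 2 + d * (3 * n - 2 * z.1 + 6 * z.1) ^ 2) : ℤ) : ℝ)| ≤
        3200 * Gg X d := by
    intro z
    by_cases hz : z ∈ T
    · obtain ⟨x, y, hadm, hcb⟩ := hT z hz
      obtain ⟨m, n, g1, g2, g3, g4⟩ := triv_id X d hd _ hadm hcb
      exact ⟨m, n, fun _ => ⟨x, y, hadm, g1, g2, g3, g4⟩⟩
    · exact ⟨0, 0, fun h => absurd h hz⟩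
  choose m n hmn using key
  obtain ⟨f, hf⟩ : ∃ f : ℤ × ℤ → ℤ × ℤ × ℤ, ∀ z, f z = (z.1, 3 * n z - 2 * z.1, m z) :=
    ⟨_, fun _ => rfl⟩
  have hinj : Set.InjOn f (T : Set (ℤ × ℤ)) := by
    intro z hz z' hz' hzz
    obtain ⟨x, y, -, g1, g2, -, -⟩ := hmn z (Finset.mem_coe.1 hz)
    obtain ⟨x', y', -, g1', g2', -, -⟩ := hmn z' (Finset.mem_coe.1 hz')
    rw [hf, hf] at hzz
    obtain ⟨k1, k2⟩ := Prod.mk.inj hzz
    obtain ⟨k3, k4⟩ := Prod.mk.inj k2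
    have k5 : n z = n z' := by
      rw [k1] at k3
      omega
    rw [k4, k5] at g1 g2
    have k6 : x = x' := by
      have : 4 * x = 4 * x' := by rw [g1, g1']
      omega
    rw [k6, k1] at g2
    have k7 : z.2 = z'.2 := by
      have : 8 * (z'.1 * x' + z.2) = 8 * (z'.1 * x' + z'.2) := by rw [g2, g2']
      omega
    exact Prod.ext k1 k7
  have hcard : T.card = (T.image f).card := (Finset.card_image_of_injOn hinj).symm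
  -- the two cases
  have hfac : ∀ z ∈ T, 1 ≤ z.1 ∧ |d| * z.1 ^ 2 ≤ 12 * (X : ℤ) ∧ (3 * n z - 2 * z.1) ≠ 0 ∧
      27 * m z ^ 2 + d * (3 * n z - 2 * z.1 + 6 * z.1) ^ 2 ≠ 0 ∧
      |((3 * n z - 2 * z.1 : ℤ) : ℝ)| *
        |((27 * m z ^ 2 + d * (3 * n z - 2 * z.1 + 6 * z.1) ^ 2 : ℤ) : ℝ)| ≤ 3200 * Gg X d := by
    intro z hz
    obtain ⟨x, y, hadm, -, -, g3, g4⟩ := hmn z hz
    refine ⟨hadm.a1, hadm.da, left_ne_zero_of_mul g3, right_ne_zero_of_mul g3, ?_⟩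
    rw [Int.cast_mul, abs_mul] at g4
    exact g4
  have hA := h₁ X d hd hdX ((T.image f).filter fun z => |(z.2.1 : ℝ)| ≤ √(Gg X d)) (by
    intro z hz
    obtain ⟨hz1, hz2⟩ := Finset.mem_filter.1 hz
    obtain ⟨z₀, hz₀, rfl⟩ := Finset.mem_image.1 hz1
    rw [hf] at hz2 ⊢
    obtain ⟨k1, k2, k3, -, k5⟩ := hfac z₀ hz₀
    exact ⟨k1, k2, k3, hz2, k5⟩)
  have hB := h₂ X d hX hsq hd3 hdX ((T.image f).filter fun z => ¬ |(z.2.1 : ℝ)| ≤ √(Gg X d)) (by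
    intro z hz
    obtain ⟨hz1, hz2⟩ := Finset.mem_filter.1 hz
    obtain ⟨z₀, hz₀, rfl⟩ := Finset.mem_image.1 hz1
    rw [hf] at hz2 ⊢
    obtain ⟨k1, k2, k3, k4, k5⟩ := hfac z₀ hz₀
    refine ⟨k1, k2, ?_, k4, ?_⟩
    · have h6 : (1 : ℝ) ≤ |((27 * m z₀ ^ 2 + d * (3 * n z₀ - 2 * z₀.1 + 6 * z₀.1) ^ 2 : ℤ) : ℝ)| := by
        have := Int.one_le_abs k4
        exact_mod_cast this
      refine le_trans ?_ k5
      exact le_mul_of_one_le_right (abs_nonneg _) h6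
    · have h6 : √(Gg X d) ≤ |((3 * n z₀ - 2 * z₀.1 : ℤ) : ℝ)| := (not_le.1 hz2).le
      have h7 : √(Gg X d) *
          |((27 * m z₀ ^ 2 + d * (3 * n z₀ - 2 * z₀.1 + 6 * z₀.1) ^ 2 : ℤ) : ℝ)| ≤
          √(Gg X d) * (3200 * √(Gg X d)) := by
        calc _ ≤ |((3 * n z₀ - 2 * z₀.1 : ℤ) : ℝ)| *
              |((27 * m z₀ ^ 2 + d * (3 * n z₀ - 2 * z₀.1 + 6 * z₀.1) ^ 2 : ℤ) : ℝ)| :=
              mul_le_mul_of_nonneg_right h6 (abs_nonneg _)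
          _ ≤ 3200 * Gg X d := k5
          _ = √(Gg X d) * (3200 * √(Gg X d)) := by
            rw [← mul_assoc, mul_comm (√(Gg X d)) 3200, mul_assoc, hsG]
      exact le_of_mul_le_mul_left h7 hsG0)
  have hsum : (T.card : ℝ) =
      (((T.image f).filter fun z => |(z.2.1 : ℝ)| ≤ √(Gg X d)).card : ℝ) +
      (((T.image f).filter fun z => ¬ |(z.2.1 : ℝ)| ≤ √(Gg X d)).card : ℝ) := by
    rw [hcard, ← Nat.cast_add, Finset.card_filter_add_card_filter_not]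
  have hLk : 1 ≤ Ll X ^ k := one_le_pow₀ hL1
  have hsG2 : √(Gg X d) ≤ Gg X d ^ (3 / 4 : ℝ) := by
    rw [Real.sqrt_eq_rpow]
    exact Real.rpow_le_rpow_of_exponent_le hG1 (by norm_num)
  have hreal : √(Hh X d) * Gg X d ^ (3 / 4 : ℝ) ≤ Ee X d := t4_real hD1 hDX
  have hH0 : 0 ≤ √(Hh X d) := Real.sqrt_nonneg _
  have hG34 : 0 ≤ Gg X d ^ (3 / 4 : ℝ) := by positivity
  rw [hsum]
  calc _ ≤ C₁ * √(Hh X d) * Gg X d ^ (3 / 4 : ℝ) + C₂ * Ll X ^ k * √(Hh X d) * √(Gg X d) :=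
        add_le_add hA hB
    _ ≤ C₁ * Ll X ^ k * (√(Hh X d) * Gg X d ^ (3 / 4 : ℝ)) +
        C₂ * Ll X ^ k * (√(Hh X d) * Gg X d ^ (3 / 4 : ℝ)) := by
        apply add_le_add
        · have h8 : C₁ * (√(Hh X d) * Gg X d ^ (3 / 4 : ℝ)) * 1 ≤
              C₁ * (√(Hh X d) * Gg X d ^ (3 / 4 : ℝ)) * Ll X ^ k :=
            mul_le_mul_of_nonneg_left hLk (by positivity)
          linarith
        · have h8 : C₂ * Ll X ^ k * √(Hh X d) * √(Gg X d) ≤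
              C₂ * Ll X ^ k * √(Hh X d) * Gg X d ^ (3 / 4 : ℝ) :=
            mul_le_mul_of_nonneg_left hsG2 (by positivity)
          linarith
    _ = (C₁ + C₂) * Ll X ^ k * (√(Hh X d) * Gg X d ^ (3 / 4 : ℝ)) := by ring
    _ ≤ (C₁ + C₂) * Ll X ^ k * Ee X d := mul_le_mul_of_nonneg_left hreal (by positivity)

end W44
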