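import Pool.Agent.LibW44.F3
import Pool.Agent.LibW44.B5
import Pool.Agent.LibW44.T4
import Pool.Agent.LibW44.S4
import Pool.Agent.LibW44.N14

/-! Row S5. `T` = the finite set `Dset X d` (`crude`). Choose for each `(a, b)` a point `(x, y)`. Three parts: `Cb` (`triv`); `|d|³ x⁴ ≤ X⁷` (`small`, the points `⟨a, b, x, y⟩`); otherwise replace `y` by `|y|` (`y ≠ 0`: `big_pos`; `Adm` and `Cb` do not change) and use `main_d` with `Y = (log X)²`:
`4 x + 48 X ≤ 4 exp(E) + 64 X ≤ exp(E + 2) `, `E = exp((log X)²) ≥ X` (`log X ≥ 1`), so `log(..) ≤ E + 2 ≤ 2 E`. `1 + (log X)² ≤ L²`. -/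

namespace W44
open RC91

theorem s5_log (X : ℕ) (hX : (10 : ℝ) ^ 16 ≤ X) (x : ℤ) (hx : 0 < x)
    (h : (|x| : ℝ) ≤ Real.exp (Real.exp (Real.log X ^ 2)) + 4 * X) :
    Real.log (4 * (x : ℝ) + 48 * X) ≤ 2 * Real.exp (Real.log X ^ 2) := by
  have hX0 : (0 : ℝ) < X := by linarith [show (0 : ℝ) < 10 ^ 16 by norm_num]
  have hx0 : (0 : ℝ) < x := by exact_mod_cast hx
  set E := Real.exp (Real.log X ^ 2) with hE
  have h1 : Real.log X ≤ E := by
    have h2 := Real.add_one_le_exp (Real.log X ^ 2)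
    nlinarith [sq_nonneg (Real.log X - 1)]
  have h2 : (X : ℝ) ≤ Real.exp E := by
    calc (X : ℝ) = Real.exp (Real.log X) := (Real.exp_log hX0).symm
      _ ≤ Real.exp E := Real.exp_le_exp.2 h1
  have h3 : (68 : ℝ) ≤ Real.exp E := by
    have : (68 : ℝ) ≤ 10 ^ 16 := by norm_num
    linarith
  have h4 : (x : ℝ) ≤ |(x : ℝ)| := le_abs_self _
  have h5 : 4 * (x : ℝ) + 48 * X ≤ Real.exp (2 * E) := by
    have h6 : Real.exp (2 * E) = Real.exp E * Real.exp E := by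
      rw [two_mul, Real.exp_add]
    rw [h6]
    nlinarith
  have h7 : 0 < 4 * (x : ℝ) + 48 * X := by positivity
  calc Real.log (4 * (x : ℝ) + 48 * X) ≤ Real.log (Real.exp (2 * E)) := Real.log_le_log h7 h5
    _ = 2 * E := Real.log_exp _

theorem s5_arith (C1 C2 C3 L Y Q E n1 n2 n3 n : ℝ) (k1 k2 k3 : ℕ) (hC1 : 0 < C1) (hC2 : 0 < C2)
    (hC3 : 0 < C3) (hL : 1 ≤ L) (hY : 1 + Y ≤ L ^ 2) (hQ : 0 ≤ Q) (hE : 0 ≤ E)
    (h1 : n1 ≤ C1 * L ^ k1 * E) (h2 : n2 ≤ C2 * L ^ k2 * E)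
    (h3 : n3 ≤ C3 * L ^ k3 * (1 + Y) * (1 + Q) * E) (hn : n ≤ n1 + n2 + n3) :
    n ≤ (C1 + C2 + C3) * L ^ (k1 + k2 + k3 + 2) * (1 + Q) * E := by
  have hL0 : 0 ≤ L := by linarith
  have e1 : L ^ k1 ≤ L ^ (k1 + k2 + k3 + 2) := pow_le_pow_right₀ hL (by omega)
  have e2 : L ^ k2 ≤ L ^ (k1 + k2 + k3 + 2) := pow_le_pow_right₀ hL (by omega)
  have e3 : L ^ k3 * (1 + Y) ≤ L ^ (k1 + k2 + k3 + 2) := by
    calc L ^ k3 * (1 + Y) ≤ L ^ k3 * L ^ 2 := mul_le_mul_of_nonneg_left hY (by positivity)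
      _ = L ^ (k3 + 2) := by rw [pow_add]
      _ ≤ L ^ (k1 + k2 + k3 + 2) := pow_le_pow_right₀ hL (by omega)
  have hLk : 0 ≤ L ^ (k1 + k2 + k3 + 2) := by positivity
  set M := L ^ (k1 + k2 + k3 + 2) with hM
  have f1 : C1 * L ^ k1 * E ≤ C1 * M * (1 + Q) * E := by
    have g1 : C1 * L ^ k1 ≤ C1 * M := mul_le_mul_of_nonneg_left e1 hC1.le
    have g2 : C1 * M ≤ C1 * M * (1 + Q) := by
      have : 0 ≤ C1 * M * Q := by positivity
      linarith
    exact mul_le_mul_of_nonneg_right (g1.trans g2) hE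
  have f2 : C2 * L ^ k2 * E ≤ C2 * M * (1 + Q) * E := by
    have g1 : C2 * L ^ k2 ≤ C2 * M := mul_le_mul_of_nonneg_left e2 hC2.le
    have g2 : C2 * M ≤ C2 * M * (1 + Q) := by
      have : 0 ≤ C2 * M * Q := by positivity
      linarith
    exact mul_le_mul_of_nonneg_right (g1.trans g2) hE
  have f3 : C3 * L ^ k3 * (1 + Y) * (1 + Q) * E ≤ C3 * M * (1 + Q) * E := by
    have g1 : C3 * (L ^ k3 * (1 + Y)) ≤ C3 * M := mul_le_mul_of_nonneg_left e3 hC3.le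
    have g2 : 0 ≤ (1 + Q) * E := by positivity
    have g3 := mul_le_mul_of_nonneg_right g1 g2
    calc C3 * L ^ k3 * (1 + Y) * (1 + Q) * E = C3 * (L ^ k3 * (1 + Y)) * ((1 + Q) * E) := by ring
      _ ≤ C3 * M * ((1 + Q) * E) := g3
      _ = C3 * M * (1 + Q) * E := by ring
  have f4 : (C1 + C2 + C3) * M * (1 + Q) * E =
      C1 * M * (1 + Q) * E + C2 * M * (1 + Q) * E + C3 * M * (1 + Q) * E := by ring
  rw [f4]
  linarith

theorem Wd : ∃ (C : ℝ) (k : ℕ), 0 < C ∧ ∀ (X : ℕ) (d : ℤ), Squarefree d → d ≠ 1 → d ≠ -3 →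
    10 ^ 16 * |d| ≤ (X : ℤ) → ((Dset X d).ncard : ℝ) ≤ C * Ll X ^ k * (1 + ((QA d).ncard : ℝ)) * Ee X d := by
  classical
  obtain ⟨C0, hC0, hcrude⟩ := crude
  obtain ⟨C1, k1, hC1, htriv⟩ := triv
  obtain ⟨C2, k2, hC2, hsmall⟩ := small
  obtain ⟨C3, k3, hC3, hmain⟩ := main_d
  refine ⟨C1 + C2 + C3, k1 + k2 + k3 + 2, by positivity, fun X d hsq hd1 hd3 hH => ?_⟩
  have hd0 : d ≠ 0 := hsq.ne_zero
  have hD : 1 ≤ |d| := Int.one_le_abs hd0
  have hX16 : (10 : ℤ) ^ 16 ≤ X := by linarith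
  have hX16' : (10 : ℝ) ^ 16 ≤ (X : ℝ) := by exact_mod_cast hX16
  have hX1 : 1 ≤ X := by
    have : (1 : ℤ) ≤ X := by linarith [show (1 : ℤ) ≤ 10 ^ 16 by norm_num]
    exact_mod_cast this
  have hdX : |d| ≤ (X : ℤ) := by linarith
  have hdX12 : |d| ≤ 12 * (X : ℤ) := by linarith
  obtain ⟨hfin, -⟩ := hcrude X d hX1 hd0 hdX12
  have hch : ∀ z : ℤ × ℤ, ∃ p : ℤ × ℤ, z ∈ Dset X d → Adm X d ⟨z.1, z.2, p.1, p.2⟩ ∧
      (|p.1| : ℝ) ≤ Real.exp (Real.exp (Real.log X ^ 2)) + 4 * X := by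
    intro z
    by_cases hz : z ∈ Dset X d
    · obtain ⟨x, y, h1, h2⟩ := hz
      exact ⟨(x, y), fun _ => ⟨h1, h2⟩⟩
    · exact ⟨(0, 0), fun h => absurd h hz⟩
  choose g hg using hch
  set T := hfin.toFinset with hT
  have hTmem : ∀ z, z ∈ T ↔ z ∈ Dset X d := fun z => by rw [hT, Set.Finite.mem_toFinset]
  have hcard : (Dset X d).ncard = T.card := by
    rw [hT, Set.ncard_eq_toFinset_card _ hfin]
  let f : ℤ × ℤ → Pt := fun z => ⟨z.1, z.2, (g z).1, (g z).2⟩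
  let f' : ℤ × ℤ → Pt := fun z => ⟨z.1, z.2, (g z).1, |(g z).2|⟩
  have hfinj : Function.Injective f := by
    intro z z' h
    have h1 : z.1 = z'.1 := congrArg Pt.a h
    have h2 : z.2 = z'.2 := congrArg Pt.b h
    exact Prod.ext h1 h2
  have hfinj' : Function.Injective f' := by
    intro z z' h
    have h1 : z.1 = z'.1 := congrArg Pt.a h
    have h2 : z.2 = z'.2 := congrArg Pt.b h
    exact Prod.ext h1 h2
  set T1 := T.filter fun z => Cb d (f z) with hT1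
  set T2 := T.filter fun z => |d| ^ 3 * (f z).x ^ 4 ≤ (X : ℤ) ^ 7 with hT2
  set T3 := T.filter fun z => ¬ Cb d (f z) ∧ ¬ |d| ^ 3 * (f z).x ^ 4 ≤ (X : ℤ) ^ 7 with hT3
  have hsub : T ⊆ (T1 ∪ T2) ∪ T3 := by
    intro z hz
    simp only [hT1, hT2, hT3, Finset.mem_union, Finset.mem_filter]
    tauto
  have hle : T.card ≤ T1.card + T2.card + T3.card :=
    (Finset.card_le_card hsub).trans ((Finset.card_union_le _ _).trans
      (Nat.add_le_add_right (Finset.card_union_le _ _) _))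
  have b1 : (T1.card : ℝ) ≤ C1 * Ll X ^ k1 * Ee X d := by
    refine htriv X d hX1 hsq hd3 hdX T1 fun z hz => ?_
    rw [hT1, Finset.mem_filter, hTmem] at hz
    exact ⟨(g z).1, (g z).2, (hg z hz.1).1, hz.2⟩
  have b2 : (T2.card : ℝ) ≤ C2 * Ll X ^ k2 * Ee X d := by
    rw [← Finset.card_image_of_injective T2 hfinj]
    refine hsmall X d hX1 hsq hd1 hdX (T2.image f) fun q hq => ?_
    obtain ⟨z, hz, rfl⟩ := Finset.mem_image.1 hq
    rw [hT2, Finset.mem_filter, hTmem] at hz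
    exact ⟨(hg z hz.1).1, hz.2⟩
  have b3 : (T3.card : ℝ) ≤ C3 * Ll X ^ k3 * (1 + Real.log X ^ 2) *
      (1 + ((QA d).ncard : ℝ)) * Ee X d := by
    rw [← Finset.card_image_of_injective T3 hfinj']
    refine hmain X d hsq hd1 hH (Real.log X ^ 2) (sq_nonneg _) (T3.image f') fun q hq => ?_
    obtain ⟨z, hz, rfl⟩ := Finset.mem_image.1 hq
    rw [hT3, Finset.mem_filter, hTmem] at hz
    obtain ⟨hz, hncb, hbig⟩ := hz
    obtain ⟨hadm, hx⟩ := hg z hz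
    push Not at hbig
    have hpos := big_pos X d hd0 hH (f z) hadm hbig
    have hadm' : Adm X d (f' z) :=
      { a1 := hadm.a1
        b0 := hadm.b0
        da := hadm.da
        db := hadm.db
        ns := hadm.ns
        eq := by
          have h := hadm.eq
          have h2 : (f' z).y ^ 2 = (g z).2 ^ 2 := sq_abs _
          rw [h2]
          exact h }
    refine ⟨⟨hadm', hbig, abs_pos.2 hpos.2⟩, hncb, ?_⟩
    exact s5_log X hX16' (g z).1 hpos.1 hx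
  have hlog : 0 ≤ Real.log X := Real.log_nonneg (by exact_mod_cast hX1)
  have hLl : Ll X = 1 + Real.log X := rfl
  have hE : 0 ≤ Ee X d := by
    unfold Ee Hh
    positivity
  rw [hcard]
  refine s5_arith C1 C2 C3 (Ll X) (Real.log X ^ 2) ((QA d).ncard : ℝ) (Ee X d) T1.card T2.card
    T3.card T.card k1 k2 k3 hC1 hC2 hC3 ?_ ?_ (by positivity) hE b1 b2 b3 (by exact_mod_cast hle)
  · rw [hLl]; linarith
  · rw [hLl]; nlinarith

end W44
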