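import Pool.Agent.LibW44.F4
import Pool.Agent.LibW44.F5
import Pool.Agent.LibW44.F6
import Pool.Agent.LibW44.F7
import Pool.Agent.LibW44.F8
import Pool.Agent.LibW44.S5

/-! Row S6. Final assembly. -/

namespace W44
open RC91

theorem theorem_W : ∃ c C : ℝ, 0 < c ∧ 0 < C ∧ ∀ X : ℕ, 16 ≤ X → (Fam X).Finite ∧
    c * (X : ℝ) ^ 2 * Real.log X ≤ ((Fam X).ncard : ℝ) ∧
    ((Fam X).ncard : ℝ) ≤ C * (X : ℝ) ^ 2 * Real.log X ∧ c * (X : ℝ) ^ 2 ≤ ((Exc X).ncard : ℝ) ∧
    ((Exc X).ncard : ℝ) ≤ C * (X : ℝ) ^ 2 * Real.log (Real.log X) := by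
  classical
  obtain ⟨c0, hc0, hlow⟩ := fam_lower
  obtain ⟨c1, hc1, hlowE⟩ := exc_lower
  obtain ⟨C8, hC8, hup⟩ := fam_upper
  obtain ⟨C3, hC3, hcr⟩ := crude
  obtain ⟨C7, hC7, hsum⟩ := sum_d
  obtain ⟨C5, k, hC5, hW⟩ := Wd
  refine ⟨min c0 c1, 2 * C3 + C5 * C7 + 2 * C3 * (50 + 12 * (k + 1)) + C8, lt_min hc0 hc1, by positivity, ?_⟩
  intro X hX
  have hX1 : 1 ≤ X := by omega
  have hXr : (16 : ℝ) ≤ X := by exact_mod_cast hX
  have hX0 : (0 : ℝ) < X := by linarith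
  have hll := s6_loglog X hX
  have hlog : (1 : ℝ) ≤ Real.log X := by
    by_contra hcon
    push Not at hcon
    have h5 : 0 ≤ Real.log X := Real.log_nonneg (by linarith)
    have h4 : Real.log (Real.log X) ≤ 0 := Real.log_nonpos h5 hcon.le
    linarith
  refine ⟨fam_fin X, ?_, ?_, ?_, ?_⟩
  · refine le_trans ?_ (hlow X hX)
    have h5 : 0 ≤ Real.log X := by linarith
    have : min c0 c1 ≤ c0 := min_le_left _ _
    gcongr
  · refine (hup X hX).trans ?_
    have h5 : 0 ≤ Real.log X := by linarith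
    have h6 : C8 ≤ 2 * C3 + C5 * C7 + 2 * C3 * (50 + 12 * (k + 1)) + C8 := by
      have : 0 ≤ 2 * C3 + C5 * C7 + 2 * C3 * (50 + 12 * (k + 1)) := by positivity
      linarith
    gcongr
  · refine le_trans ?_ (hlowE X hX)
    have : min c0 c1 ≤ c1 := min_le_right _ _
    gcongr
  obtain ⟨-, S, hS, hle⟩ := exc_le X hX1
  refine hle.trans ?_
  set L := Ll X with hL
  have hLe : L = 1 + Real.log X := rfl
  have hL1 : 1 ≤ L := by linarith
  have hL0 : 0 < L := by linarith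
  obtain ⟨D, hDd⟩ : ∃ D : ℝ, D = X / (10 ^ 16 * L ^ (6 * (k + 1))) := ⟨_, rfl⟩
  have hLK : 1 ≤ L ^ (6 * (k + 1)) := one_le_pow₀ hL1
  have hD0 : 0 < D := by rw [hDd]; positivity
  have hDX : D ≤ X / 10 ^ 16 := by
    rw [hDd]
    apply div_le_div_of_nonneg_left hX0.le (by norm_num)
    linarith
  have hDX' : D ≤ X := hDX.trans (by
    rw [div_le_iff₀ (by norm_num)]
    linarith)
  -- the three parts
  have hsplit : ∑ d ∈ S, ((Dset X d).ncard : ℝ) =
      ∑ d ∈ S.filter (fun d => d = 1 ∨ d = -3), ((Dset X d).ncard : ℝ) +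
      (∑ d ∈ (S.filter (fun d => ¬ (d = 1 ∨ d = -3))).filter (fun d : ℤ => |(d : ℝ)| ≤ D), ((Dset X d).ncard : ℝ) +
      ∑ d ∈ (S.filter (fun d => ¬ (d = 1 ∨ d = -3))).filter (fun d : ℤ => ¬ |(d : ℝ)| ≤ D), ((Dset X d).ncard : ℝ)) := by
    rw [Finset.sum_filter_add_sum_filter_not, Finset.sum_filter_add_sum_filter_not]
  rw [hsplit]
  have hd0 : ∀ d ∈ S, d ≠ 0 := fun d hd => (hS d hd).1.ne_zero
  have hd1 : ∀ d ∈ S, (1 : ℝ) ≤ |(d : ℝ)| := by
    intro d hd
    have := Int.one_le_abs (hd0 d hd)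
    exact_mod_cast this
  have hcr' : ∀ d ∈ S, ((Dset X d).ncard : ℝ) ≤ C3 * (X : ℝ) ^ 2 * (1 / |(d : ℝ)|) := by
    intro d hd
    have := (hcr X d hX1 (hd0 d hd) (hS d hd).2).2
    rw [mul_one_div]
    exact this
  have hp1 : ∑ d ∈ S.filter (fun d => d = 1 ∨ d = -3), ((Dset X d).ncard : ℝ) ≤ 2 * C3 * (X : ℝ) ^ 2 := by
    have hcard : (S.filter (fun d => d = 1 ∨ d = -3)).card ≤ 2 := by
      have hsub : S.filter (fun d => d = 1 ∨ d = -3) ⊆ ({1, -3} : Finset ℤ) := by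
        intro d hd
        rw [Finset.mem_filter] at hd
        simp only [Finset.mem_insert, Finset.mem_singleton]
        exact hd.2
      exact (Finset.card_le_card hsub).trans (by decide)
    have h2 : ∑ d ∈ S.filter (fun d => d = 1 ∨ d = -3), ((Dset X d).ncard : ℝ) ≤
        (S.filter (fun d => d = 1 ∨ d = -3)).card • (C3 * (X : ℝ) ^ 2) := by
      refine Finset.sum_le_card_nsmul _ _ _ ?_
      intro d hd
      have hdS := (Finset.mem_filter.1 hd).1
      refine (hcr' d hdS).trans ?_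
      have h3 : 1 / |(d : ℝ)| ≤ 1 := by
        rw [div_le_one (by linarith [hd1 d hdS])]
        exact hd1 d hdS
      have h4 : 0 ≤ C3 * (X : ℝ) ^ 2 := by positivity
      nlinarith
    rw [nsmul_eq_mul] at h2
    have h5 : ((S.filter (fun d => d = 1 ∨ d = -3)).card : ℝ) ≤ 2 := by exact_mod_cast hcard
    have h6 : 0 ≤ C3 * (X : ℝ) ^ 2 := by positivity
    nlinarith
  have hp2 : ∑ d ∈ (S.filter (fun d => ¬ (d = 1 ∨ d = -3))).filter (fun d : ℤ => |(d : ℝ)| ≤ D), ((Dset X d).ncard : ℝ) ≤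
      C5 * C7 * (X : ℝ) ^ 2 := by
    by_cases hD1 : 1 ≤ D
    · have h2 : ∑ d ∈ (S.filter (fun d => ¬ (d = 1 ∨ d = -3))).filter (fun d : ℤ => |(d : ℝ)| ≤ D), ((Dset X d).ncard : ℝ) ≤
          ∑ d ∈ (S.filter (fun d => ¬ (d = 1 ∨ d = -3))).filter (fun d : ℤ => |(d : ℝ)| ≤ D),
            C5 * L ^ k * ((1 + ((QA d).ncard : ℝ)) * Ee X d) := by
        refine Finset.sum_le_sum ?_
        intro d hd
        rw [Finset.mem_filter, Finset.mem_filter] at hd
        obtain ⟨⟨hdS, hne⟩, hdD⟩ := hd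
        rw [not_or] at hne
        have h3 : 10 ^ 16 * |d| ≤ (X : ℤ) := by
          have h4 : |(d : ℝ)| ≤ X / 10 ^ 16 := hdD.trans hDX
          rw [le_div_iff₀ (by norm_num)] at h4
          have h5 : ((10 ^ 16 * |d| : ℤ) : ℝ) ≤ ((X : ℤ) : ℝ) := by
            push_cast
            linarith
          exact_mod_cast h5
        have := hW X d (hS d hdS).1 hne.1 hne.2 h3
        rw [← mul_assoc (C5 * L ^ k)]
        exact this
      rw [← Finset.mul_sum] at h2
      refine h2.trans ?_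
      have h3 := hsum X D hX1 hD1 hDX' ((S.filter (fun d => ¬ (d = 1 ∨ d = -3))).filter (fun d : ℤ => |(d : ℝ)| ≤ D)) (by
        intro d hd
        rw [Finset.mem_filter, Finset.mem_filter] at hd
        obtain ⟨⟨hdS, hne⟩, hdD⟩ := hd
        rw [not_or] at hne
        exact ⟨(hS d hdS).1, hne.1, hdD⟩)
      have h4 : D ^ (1 / 6 : ℝ) ≤ (X : ℝ) ^ (1 / 6 : ℝ) / L ^ (k + 1) := by
        have h5 : D ≤ X / L ^ (6 * (k + 1)) := by
          rw [hDd]
          apply div_le_div_of_nonneg_left hX0.le (by positivity)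
          have : 0 ≤ L ^ (6 * (k + 1)) := by positivity
          nlinarith
        have h6 : D ^ (1 / 6 : ℝ) ≤ ((X : ℝ) / L ^ (6 * (k + 1))) ^ (1 / 6 : ℝ) :=
          Real.rpow_le_rpow hD0.le h5 (by norm_num)
        rw [Real.div_rpow hX0.le (by positivity)] at h6
        have h7 : (L ^ (6 * (k + 1))) ^ (1 / 6 : ℝ) = L ^ (k + 1) := by
          rw [← Real.rpow_natCast L (6 * (k + 1)), ← Real.rpow_mul hL0.le, ← Real.rpow_natCast L (k + 1)]
          congr 1
          push_cast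
          ring
        rw [h7] at h6
        exact h6
      have h8 : (X : ℝ) ^ (11 / 6 : ℝ) * (X : ℝ) ^ (1 / 6 : ℝ) = (X : ℝ) ^ 2 := by
        rw [← Real.rpow_add hX0, ← Real.rpow_natCast]
        norm_num
      calc C5 * L ^ k * ∑ d ∈ (S.filter (fun d => ¬ (d = 1 ∨ d = -3))).filter (fun d : ℤ => |(d : ℝ)| ≤ D),
            (1 + ((QA d).ncard : ℝ)) * Ee X d
          ≤ C5 * L ^ k * (C7 * L * (X : ℝ) ^ (11 / 6 : ℝ) * D ^ (1 / 6 : ℝ)) := by gcongr
        _ ≤ C5 * L ^ k * (C7 * L * (X : ℝ) ^ (11 / 6 : ℝ) * ((X : ℝ) ^ (1 / 6 : ℝ) / L ^ (k + 1))) := by gcongr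
        _ = C5 * C7 * ((X : ℝ) ^ (11 / 6 : ℝ) * (X : ℝ) ^ (1 / 6 : ℝ)) := by
            field_simp
            ring
        _ = C5 * C7 * (X : ℝ) ^ 2 := by rw [h8]
    · rw [Finset.sum_eq_zero]
      · positivity
      · intro d hd
        exfalso
        rw [Finset.mem_filter, Finset.mem_filter] at hd
        have := hd1 d hd.1.1
        linarith [hd.2]
  have hp3 : ∑ d ∈ (S.filter (fun d => ¬ (d = 1 ∨ d = -3))).filter (fun d : ℤ => ¬ |(d : ℝ)| ≤ D), ((Dset X d).ncard : ℝ) ≤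
      2 * C3 * (50 + 12 * (k + 1)) * (X : ℝ) ^ 2 * Real.log (Real.log X) := by
    have h2 : ∑ d ∈ (S.filter (fun d => ¬ (d = 1 ∨ d = -3))).filter (fun d : ℤ => ¬ |(d : ℝ)| ≤ D), ((Dset X d).ncard : ℝ) ≤
        ∑ d ∈ (S.filter (fun d => ¬ (d = 1 ∨ d = -3))).filter (fun d : ℤ => ¬ |(d : ℝ)| ≤ D),
          C3 * (X : ℝ) ^ 2 * (1 / |(d : ℝ)|) := by
      refine Finset.sum_le_sum ?_
      intro d hd
      rw [Finset.mem_filter, Finset.mem_filter] at hd
      exact hcr' d hd.1.1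
    rw [← Finset.mul_sum] at h2
    refine h2.trans ?_
    have h3 := s6_int (12 * X) D (by omega) hD0 (by push_cast; linarith)
      ((S.filter (fun d => ¬ (d = 1 ∨ d = -3))).filter (fun d : ℤ => ¬ |(d : ℝ)| ≤ D)) (by
        intro d hd
        rw [Finset.mem_filter, Finset.mem_filter] at hd
        refine ⟨lt_of_not_ge hd.2, ?_, hd0 d hd.1.1⟩
        have := (hS d hd.1.1).2
        push_cast
        exact this)
    have h4 : Real.log (((12 * X : ℕ) : ℝ) / D) = Real.log (12 * 10 ^ 16) + (6 * (k + 1)) * Real.log L := by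
      have h5 : ((12 * X : ℕ) : ℝ) / D = (12 * 10 ^ 16) * L ^ (6 * (k + 1)) := by
        rw [hDd, div_div_eq_mul_div, div_eq_iff hX0.ne']
        push_cast
        ring
      rw [h5, Real.log_mul (by norm_num) (by positivity), Real.log_pow]
      push_cast
      ring
    have h5 : Real.log (12 * 10 ^ 16) ≤ 42 := by
      have h6 : (12 * 10 ^ 16 : ℝ) ≤ 2 ^ 57 := by norm_num
      have h7 := Real.log_le_log (by norm_num) h6
      rw [Real.log_pow] at h7
      have h8 := Real.log_two_lt_d9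
      push_cast at h7
      linarith
    have h6 : Real.log L ≤ 1 + Real.log (Real.log X) := by
      have h7 : L ≤ 2 * Real.log X := by linarith
      have h8 := Real.log_le_log hL0 h7
      rw [Real.log_mul (by norm_num) (by linarith)] at h8
      have h9 := Real.log_two_lt_d9
      linarith
    have h7 : 1 + Real.log (((12 * X : ℕ) : ℝ) / D) ≤ (50 + 12 * (k + 1)) * Real.log (Real.log X) := by
      rw [h4]
      have hk : (0 : ℝ) ≤ k := by positivity
      have h8 : (6 * ((k : ℝ) + 1)) * Real.log L ≤ (6 * (k + 1)) * (2 * Real.log (Real.log X)) := by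
        gcongr
        linarith
      nlinarith
    calc C3 * (X : ℝ) ^ 2 * ∑ d ∈ (S.filter (fun d => ¬ (d = 1 ∨ d = -3))).filter (fun d : ℤ => ¬ |(d : ℝ)| ≤ D),
          1 / |(d : ℝ)|
        ≤ C3 * (X : ℝ) ^ 2 * (2 * (1 + Real.log (((12 * X : ℕ) : ℝ) / D))) := by gcongr
      _ ≤ C3 * (X : ℝ) ^ 2 * (2 * ((50 + 12 * (k + 1)) * Real.log (Real.log X))) := by gcongr
      _ = 2 * C3 * (50 + 12 * (k + 1)) * (X : ℝ) ^ 2 * Real.log (Real.log X) := by ring
  have hq1 : 2 * C3 * (X : ℝ) ^ 2 ≤ 2 * C3 * (X : ℝ) ^ 2 * Real.log (Real.log X) :=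
    le_mul_of_one_le_right (by positivity) hll
  have hq2 : C5 * C7 * (X : ℝ) ^ 2 ≤ C5 * C7 * (X : ℝ) ^ 2 * Real.log (Real.log X) :=
    le_mul_of_one_le_right (by positivity) hll
  have hq3 : 0 ≤ C8 * (X : ℝ) ^ 2 * Real.log (Real.log X) := by
    have : 0 ≤ Real.log (Real.log X) := by linarith
    positivity
  calc _ ≤ 2 * C3 * (X : ℝ) ^ 2 * Real.log (Real.log X) + (C5 * C7 * (X : ℝ) ^ 2 * Real.log (Real.log X) +
        2 * C3 * (50 + 12 * (k + 1)) * (X : ℝ) ^ 2 * Real.log (Real.log X)) := by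
        gcongr
        · exact hp1.trans hq1
        · exact hp2.trans hq2
    _ ≤ _ := by
        refine le_trans (le_add_of_nonneg_right hq3) (le_of_eq ?_)
        ring

end W44
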