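import Pool.Agent.LibW44.Defs

/-! Row T1. Trivial class, identity. `e = 3 n - 2 a`, `f = 27 m² + d (e + 6 a)²`: `e f = 8 (27 b - 4 d a³)` (`linear_combination (-27) * h` with `h : 8 b = n (3 m² + d n²) - 2 a (m² - d n²)`, from `8 w`, `4 x`, `b = w - a x`).
Size: `|b| ≤ √69 G`, `|d| a³ ≤ 12^(3/2) X^(3/2)/|d|^(1/2) = 12^(3/2) G`: `8 (27·8.31 + 4·41.6) G ≤ 3200 G`. -/

namespace W44
open RC91

theorem triv_id (X : ℕ) (d : ℤ) (hd : d ≠ 0) (q : Pt) (hq : Adm X d q) (h : Cb d q) :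
    ∃ m n : ℤ, 4 * q.x = m ^ 2 - d * n ^ 2 ∧ 8 * q.w = n * (3 * m ^ 2 + d * n ^ 2) ∧
      (3 * n - 2 * q.a) * (27 * m ^ 2 + d * (3 * n - 2 * q.a + 6 * q.a) ^ 2) ≠ 0 ∧
      |(((3 * n - 2 * q.a) * (27 * m ^ 2 + d * (3 * n - 2 * q.a + 6 * q.a) ^ 2) : ℤ) : ℝ)| ≤ 3200 * Gg X d := by
  obtain ⟨m, n, h1, h2⟩ := h
  have h3 : (3 * n - 2 * q.a) * (27 * m ^ 2 + d * (3 * n - 2 * q.a + 6 * q.a) ^ 2) =
      8 * (27 * q.b - 4 * d * q.a ^ 3) := by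
    have h4 : q.w = q.a * q.x + q.b := rfl
    rw [h4] at h2
    linear_combination (-27) * h2 + 54 * q.a * h1
  refine ⟨m, n, h1, h2, ?_, ?_⟩
  · rw [h3]
    have h5 := hq.ns
    omega
  · rw [h3]
    have hD : 0 < |(d : ℝ)| := abs_pos.2 (Int.cast_ne_zero.2 hd)
    have hG0 : 0 ≤ Gg X d := Real.sqrt_nonneg _
    have hG : |(d : ℝ)| * Gg X d ^ 2 = (X : ℝ) ^ 3 := by
      unfold Gg
      rw [Real.sq_sqrt (by positivity)]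
      field_simp
    have hA : (1 : ℝ) ≤ (q.a : ℝ) := by exact_mod_cast hq.a1
    have h6 : |(d : ℝ)| * (q.a : ℝ) ^ 2 ≤ 12 * (X : ℝ) := by exact_mod_cast hq.da
    have h7 : |(d : ℝ)| * (q.b : ℝ) ^ 2 ≤ 69 * (X : ℝ) ^ 3 := by exact_mod_cast hq.db
    have hb : |(q.b : ℝ)| ≤ 8.31 * Gg X d := by
      refine abs_le_of_sq_le_sq ?_ (by positivity)
      have h8 : |(d : ℝ)| * (q.b : ℝ) ^ 2 ≤ |(d : ℝ)| * (8.31 * Gg X d) ^ 2 := by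
        calc |(d : ℝ)| * (q.b : ℝ) ^ 2 ≤ 69 * (X : ℝ) ^ 3 := h7
          _ = 69 * (|(d : ℝ)| * Gg X d ^ 2) := by rw [hG]
          _ ≤ |(d : ℝ)| * (8.31 * Gg X d) ^ 2 := by nlinarith [mul_nonneg hD.le (sq_nonneg (Gg X d))]
      exact le_of_mul_le_mul_left h8 hD
    have ha : |(d : ℝ) * (q.a : ℝ) ^ 3| ≤ 41.6 * Gg X d := by
      refine abs_le_of_sq_le_sq ?_ (by positivity)
      have h8 : |(d : ℝ)| * ((d : ℝ) * (q.a : ℝ) ^ 3) ^ 2 ≤ |(d : ℝ)| * (41.6 * Gg X d) ^ 2 := by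
        calc |(d : ℝ)| * ((d : ℝ) * (q.a : ℝ) ^ 3) ^ 2 = (|(d : ℝ)| * (q.a : ℝ) ^ 2) ^ 3 := by
              have h9 : (d : ℝ) ^ 2 = |(d : ℝ)| ^ 2 := (sq_abs _).symm
              rw [mul_pow, h9]
              ring
          _ ≤ (12 * (X : ℝ)) ^ 3 := pow_le_pow_left₀ (by positivity) h6 3
          _ = 1728 * (|(d : ℝ)| * Gg X d ^ 2) := by rw [hG]; ring
          _ ≤ |(d : ℝ)| * (41.6 * Gg X d) ^ 2 := by nlinarith [mul_nonneg hD.le (sq_nonneg (Gg X d))]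
      exact le_of_mul_le_mul_left h8 hD
    push_cast
    have h10 : (8 : ℝ) * (27 * (q.b : ℝ) - 4 * (d : ℝ) * (q.a : ℝ) ^ 3) =
        216 * (q.b : ℝ) - 32 * ((d : ℝ) * (q.a : ℝ) ^ 3) := by ring
    rw [h10]
    calc |216 * (q.b : ℝ) - 32 * ((d : ℝ) * (q.a : ℝ) ^ 3)|
        ≤ |216 * (q.b : ℝ)| + |32 * ((d : ℝ) * (q.a : ℝ) ^ 3)| := abs_sub _ _
      _ = 216 * |(q.b : ℝ)| + 32 * |(d : ℝ) * (q.a : ℝ) ^ 3| := by
          rw [abs_mul, abs_mul 32]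
          norm_num
      _ ≤ 216 * (8.31 * Gg X d) + 32 * (41.6 * Gg X d) := by gcongr
      _ ≤ 3200 * Gg X d := by nlinarith

end W44
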