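import Pool.Agent.LibW44.Defs

/-! Row V1. Sizes. Identity (`ring`): `ξ (3 s² + d (ξ + 2 a)²) = Fb - (32/27) d a³`. `|Fb| = 8|b| ≤ 8 √69 G`, `|d| a³ = (|d| a²)^(3/2)/|d|^(1/2) ≤ 12^(3/2) G`, so the right side is `≤ 116 G`. `ξ + 2 a = t + (4/3) a`, `|t| ≤ a + 1 ≤ 2 a`:
`|d| (ξ + 2a)² ≤ |d| (10a/3)² ≤ 134 X`. `s⁸ ≥ 81 X⁷/|d|³ = 81 X⁴ H³`: `s² ≥ 3 X H^(3/4) ≥ 3·10^12 X ≥ 134 X`, so `|3s² + d(..)²| ≥ 2 s²` and `|ξ| s² ≤ 58 G`; `G = X H^(1/2)`: `|ξ| ≤ 58 G/(3 X H^(3/4)) ≤ 20 H^(-1/4) ≤ 1/500`. -/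

namespace W44
open RC91

/-- everything in terms of `q = H^(1/4)`, `D = |d|` -/
private theorem v1_q (X : ℕ) (d : ℤ) (hd : d ≠ 0) (hH : 10 ^ 16 * |d| ≤ (X : ℤ)) :
    ∃ q D : ℝ, 10 ^ 4 ≤ q ∧ 1 ≤ D ∧ D = |(d : ℝ)| ∧ (X : ℝ) = D * q ^ 4 ∧ Gg X d = D * q ^ 6 ∧
      Hh X d ^ (-(1 / 4) : ℝ) = q⁻¹ ∧ Hh X d ^ (3 / 4 : ℝ) = q ^ 3 := by
  have hD1 : (1 : ℝ) ≤ |(d : ℝ)| := by
    have := Int.one_le_abs hd
    exact_mod_cast this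
  have hHr : (10 : ℝ) ^ 16 * |(d : ℝ)| ≤ X := by exact_mod_cast hH
  have hD0 : (0 : ℝ) < |(d : ℝ)| := by linarith
  have hHh : (10 : ℝ) ^ 16 ≤ Hh X d := by
    unfold Hh
    rwa [le_div_iff₀ hD0]
  have hH0 : (0 : ℝ) ≤ Hh X d := le_trans (by positivity) hHh
  have hq0 : 0 ≤ Hh X d ^ (1 / 4 : ℝ) := Real.rpow_nonneg hH0 _
  have hq4 : (Hh X d ^ (1 / 4 : ℝ)) ^ 4 = Hh X d := by
    rw [← Real.rpow_natCast, ← Real.rpow_mul hH0]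
    norm_num
  have hX : (X : ℝ) = |(d : ℝ)| * (Hh X d ^ (1 / 4 : ℝ)) ^ 4 := by
    rw [hq4]
    unfold Hh
    field_simp
  refine ⟨Hh X d ^ (1 / 4 : ℝ), |(d : ℝ)|, ?_, hD1, rfl, hX, ?_, ?_, ?_⟩
  · by_contra hcon
    push Not at hcon
    have h1 : (Hh X d ^ (1 / 4 : ℝ)) ^ 4 < (10 ^ 4) ^ 4 := pow_lt_pow_left₀ hcon hq0 (by norm_num)
    rw [hq4] at h1
    norm_num at h1 hHh
    linarith
  · have h1 : (X : ℝ) ^ 3 / |(d : ℝ)| = (|(d : ℝ)| * (Hh X d ^ (1 / 4 : ℝ)) ^ 6) ^ 2 := by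
      rw [div_eq_iff hD0.ne']
      calc (X : ℝ) ^ 3 = (|(d : ℝ)| * (Hh X d ^ (1 / 4 : ℝ)) ^ 4) ^ 3 := by rw [← hX]
        _ = _ := by ring
    unfold Gg
    rw [h1, Real.sqrt_sq (by positivity)]
  · rw [Real.rpow_neg hH0]
  · rw [← Real.rpow_natCast, ← Real.rpow_mul hH0]
    norm_num

private theorem v1_xi (d a s t ξ q D b : ℝ) (hξ : ξ = t - 2 / 3 * a) (hq : 10 ^ 4 ≤ q) (hD : 1 ≤ D)
    (hDd : D = |d|) (ha1 : 1 ≤ a) (ha : D * a ^ 2 ≤ 12 * (D * q ^ 4)) (hb : D * b ^ 2 ≤ 69 * (D * q ^ 4) ^ 3)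
    (hF : t * (3 * s ^ 2 + d * t ^ 2) - 2 * a * (s ^ 2 - d * t ^ 2) = 8 * b) (hs : 0 < s)
    (hs8 : 81 * (D * q ^ 4) ^ 7 ≤ D ^ 3 * s ^ 8) (ht : |t| ≤ a + 1) :
    |ξ| * s ^ 2 ≤ 58 * (D * q ^ 6) ∧ |ξ| ≤ 20 * q⁻¹ ∧ |ξ| ≤ 1 / 500 ∧
    D * (ξ + 2 * a) ^ 2 ≤ 134 * (D * q ^ 4) ∧ 134 * (D * q ^ 4) ≤ s ^ 2 ∧
    3 * (D * q ^ 4) * q ^ 3 ≤ s ^ 2 := by
  have hq0 : 0 < q := by linarith
  have hD0 : 0 < D := by linarith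
  have h4 : D * (ξ + 2 * a) ^ 2 ≤ 134 * (D * q ^ 4) := by
    have h1 : |ξ + 2 * a| ≤ 10 / 3 * a := by
      rw [hξ, abs_le]
      rw [abs_le] at ht
      constructor <;> linarith [ht.1, ht.2]
    have h2 : (ξ + 2 * a) ^ 2 ≤ (10 / 3 * a) ^ 2 := sq_le_sq' (abs_le.1 h1).1 (abs_le.1 h1).2
    have h3 : 0 ≤ D * q ^ 4 := by positivity
    nlinarith [mul_le_mul_of_nonneg_left h2 hD0.le]
  have h6 : 3 * (D * q ^ 4) * q ^ 3 ≤ s ^ 2 := by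
    by_contra hcon
    push Not at hcon
    have h1 : (s ^ 2) ^ 4 < (3 * (D * q ^ 4) * q ^ 3) ^ 4 :=
      pow_lt_pow_left₀ hcon (by positivity) (by norm_num)
    have h2 : D ^ 3 * (s ^ 2) ^ 4 < D ^ 3 * (3 * (D * q ^ 4) * q ^ 3) ^ 4 :=
      mul_lt_mul_of_pos_left h1 (by positivity)
    have h3 : D ^ 3 * (s ^ 2) ^ 4 = D ^ 3 * s ^ 8 := by ring
    have h5 : D ^ 3 * (3 * (D * q ^ 4) * q ^ 3) ^ 4 = 81 * (D * q ^ 4) ^ 7 := by ring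
    linarith
  have hq3 : 134 ≤ 3 * q ^ 3 := by
    have h1 : (10 ^ 4 : ℝ) ^ 3 ≤ q ^ 3 := pow_le_pow_left₀ (by norm_num) hq 3
    norm_num at h1
    linarith
  have h5 : 134 * (D * q ^ 4) ≤ s ^ 2 := by
    have h1 : 134 * (D * q ^ 4) ≤ 3 * q ^ 3 * (D * q ^ 4) :=
      mul_le_mul_of_nonneg_right hq3 (by positivity)
    linarith
  have hid : ξ * (3 * s ^ 2 + d * (ξ + 2 * a) ^ 2) = 8 * b - 32 / 27 * (d * a ^ 3) := by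
    rw [← hF, hξ]
    ring
  have hb1 : |b| ≤ 831 / 100 * (D * q ^ 6) := by
    rw [← sq_le_sq₀ (abs_nonneg b) (by positivity), sq_abs]
    have h1 : D * b ^ 2 ≤ D * (69 * (D * q ^ 6) ^ 2) := by
      calc D * b ^ 2 ≤ 69 * (D * q ^ 4) ^ 3 := hb
        _ = _ := by ring
    have h2 := le_of_mul_le_mul_left h1 hD0
    have h3 : 0 ≤ (D * q ^ 6) ^ 2 := by positivity
    nlinarith
  have ha2 : a ^ 2 ≤ 12 * q ^ 4 := by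
    have h1 : D * a ^ 2 ≤ D * (12 * q ^ 4) := by linarith
    exact le_of_mul_le_mul_left h1 hD0
  have ha3 : a ≤ 34642 / 10000 * q ^ 2 := by
    rw [← sq_le_sq₀ (by linarith) (by positivity)]
    have h3 : 0 ≤ q ^ 4 := by positivity
    nlinarith
  have ha4 : D * a ^ 3 ≤ 4158 / 100 * (D * q ^ 6) := by
    have h1 : a ^ 3 ≤ 12 * q ^ 4 * (34642 / 10000 * q ^ 2) := by
      calc a ^ 3 = a ^ 2 * a := by ring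
        _ ≤ 12 * q ^ 4 * (34642 / 10000 * q ^ 2) :=
          mul_le_mul ha2 ha3 (by linarith) (by positivity)
    have h2 := mul_le_mul_of_nonneg_left h1 hD0.le
    have h3 : 0 ≤ D * q ^ 6 := by positivity
    nlinarith
  have hR : |8 * b - 32 / 27 * (d * a ^ 3)| ≤ 116 * (D * q ^ 6) := by
    have h1 : |8 * b - 32 / 27 * (d * a ^ 3)| ≤ |8 * b| + |32 / 27 * (d * a ^ 3)| := abs_sub _ _
    have h2 : |8 * b| = 8 * |b| := by rw [abs_mul, abs_of_pos (by norm_num : (0 : ℝ) < 8)]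
    have h3 : |32 / 27 * (d * a ^ 3)| = 32 / 27 * (D * a ^ 3) := by
      rw [abs_mul, abs_mul, ← hDd, abs_of_pos (by norm_num : (0 : ℝ) < 32 / 27),
        abs_of_pos (by positivity : 0 < a ^ 3)]
    rw [h2, h3] at h1
    have h7 : 0 ≤ D * q ^ 6 := by positivity
    linarith
  have hL : 2 * s ^ 2 ≤ |3 * s ^ 2 + d * (ξ + 2 * a) ^ 2| := by
    have h1 : |d * (ξ + 2 * a) ^ 2| ≤ s ^ 2 := by
      rw [abs_mul, ← hDd, abs_of_nonneg (sq_nonneg _)]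
      linarith
    have h2 := (abs_le.1 h1).1
    refine le_trans ?_ (le_abs_self _)
    linarith
  have h1 : |ξ| * s ^ 2 ≤ 58 * (D * q ^ 6) := by
    have h2 : |ξ| * |3 * s ^ 2 + d * (ξ + 2 * a) ^ 2| ≤ 116 * (D * q ^ 6) := by
      rw [← abs_mul, hid]
      exact hR
    have h3 := mul_le_mul_of_nonneg_left hL (abs_nonneg ξ)
    linarith
  have h2 : |ξ| ≤ 20 * q⁻¹ := by
    have h3 : |ξ| * (3 * (D * q ^ 4) * q ^ 3) ≤ 58 * (D * q ^ 6) :=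
      le_trans (mul_le_mul_of_nonneg_left h6 (abs_nonneg ξ)) h1
    have h7 : (D * q ^ 6) * (3 * (|ξ| * q)) ≤ (D * q ^ 6) * 58 := by
      calc (D * q ^ 6) * (3 * (|ξ| * q)) = |ξ| * (3 * (D * q ^ 4) * q ^ 3) := by ring
        _ ≤ 58 * (D * q ^ 6) := h3
        _ = _ := by ring
    have h8 := le_of_mul_le_mul_left h7 (by positivity)
    rw [← div_eq_mul_inv, le_div_iff₀ hq0]
    linarith
  refine ⟨h1, h2, ?_, h4, h5, h6⟩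
  refine le_trans h2 ?_
  rw [← div_eq_mul_inv, div_le_div_iff₀ hq0 (by norm_num)]
  linarith

theorem sizes (X : ℕ) (d : ℤ) (hd : d ≠ 0) (hH : 10 ^ 16 * |d| ≤ (X : ℤ)) (c : ℕ) (V : Set (ℤ × ℝ × ℝ))
    (hV : VS X d c V) (z : ℤ × ℝ × ℝ) (hz : z ∈ V) :
    |xi z| * z.2.1 ^ 2 ≤ 58 * Gg X d ∧ |xi z| ≤ 20 * Hh X d ^ (-(1 / 4) : ℝ) ∧ |xi z| ≤ 1 / 500 ∧
    |(d : ℝ)| * (xi z + 2 * z.1) ^ 2 ≤ 134 * X ∧ 134 * (X : ℝ) ≤ z.2.1 ^ 2 ∧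
    3 * X * Hh X d ^ (3 / 4 : ℝ) ≤ z.2.1 ^ 2 := by
  obtain ⟨q, D, hq, hD, hDd, hX, hG, hH1, hH3⟩ := v1_q X d hd hH
  obtain ⟨ha1, ha2⟩ := hV.a1 z hz
  obtain ⟨b, hb1, -, -, hb2, -⟩ := hV.b1 z hz
  obtain ⟨hs1, hs2⟩ := hV.s1 z hz
  have ht := hV.t1 z hz
  have ha1' : (1 : ℝ) ≤ z.1 := by exact_mod_cast ha1
  have ha2' : |(d : ℝ)| * (z.1 : ℝ) ^ 2 ≤ 12 * (X : ℝ) := by exact_mod_cast ha2
  have hb2' : |(d : ℝ)| * (b : ℝ) ^ 2 ≤ 69 * (X : ℝ) ^ 3 := by exact_mod_cast hb2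
  rw [← hDd, hX] at ha2' hb2' hs2
  rw [hH1, hH3, hG, ← hDd, hX]
  exact v1_xi (d : ℝ) z.1 z.2.1 z.2.2 (xi z) q D b rfl hq hD hDd ha1' ha2' hb2' hb1 hs1 hs2 ht

end W44
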