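import Pool.Agent.LibW44.V1

/-! Row V2. Points with the same `a` in one block. `δ = min(58 G/U², 20 H^(-1/4))` bounds all `|ξ|` (`sizes`, `s ≥ U`). Boxes: `[U, 2U)` into `N₁ = ⌈√(400 G/c)⌉ + 1` intervals, `[-δ, δ]` into `N₂ = ⌈(10^6 |d| H^(-3/4)/c)^(1/3)⌉ + 1` intervals. Two
points in one box: `T = t - t' = ξ - ξ'`, `|T| ≤ 2δ/N₂`, `|S| ≤ U/N₁`; since `a = a'`: `|Fb (z - z')| = |T| |3S² + d T²| ≤ (2δ/N₂) 3 U²/N₁² + |d| (2δ/N₂)³ ≤ 348 G/N₁² + 64000 |d| H^(-3/4)/N₂³ < 4 c`, so `Fb (z - z') = 0` (`VS.int`: a multiple of `4 c`), `z = z'`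
(`VS.nt`). So `card ≤ N₁ N₂`. -/

namespace W44
open RC91

/-- two reals with the same integer part of `x * M / L` -/
private theorem v2_floor {x y L : ℝ} {M : ℕ} (hL : 0 < L) (hM : 0 < M)
    (hx : 0 ≤ x) (hy : 0 ≤ y) (h : ⌊x * M / L⌋₊ = ⌊y * M / L⌋₊) : |x - y| ≤ L / M := by
  have hM' : (0 : ℝ) < M := by exact_mod_cast hM
  have hx' : 0 ≤ x * M / L := by positivity
  have hy' : 0 ≤ y * M / L := by positivity
  have h1 := Nat.floor_le hx'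
  have h2 := Nat.lt_floor_add_one (x * M / L)
  have h3 := Nat.floor_le hy'
  have h4 := Nat.lt_floor_add_one (y * M / L)
  rw [← h] at h3 h4
  have e1 : (x - y) * M / L = x * M / L - y * M / L := by ring
  have h5 : |(x - y) * M / L| ≤ 1 := by
    rw [e1, abs_le]
    constructor <;> linarith
  rw [abs_div, abs_mul, abs_of_pos hL, abs_of_pos hM', div_le_one hL] at h5
  rw [le_div_iff₀ hM']
  exact h5

/-- the first term -/
private theorem v2_t1 {G U c S τ δ x₁ : ℝ} {M₁ M₂ : ℕ} (hG0 : 0 < G) (hU : 0 < U) (hc0 : 0 < c)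
    (m1 : 0 < M₁) (m2 : 0 < M₂) (hx1 : 0 < x₁) (m1l : x₁ ≤ M₁) (hx1s : x₁ ^ 2 = 400 * G / c)
    (δ1 : δ ≤ 58 * G / U ^ 2) (b1 : |S| ≤ U / M₁) (b2 : |τ| ≤ 2 * δ / M₂) :
    |τ| * (3 * S ^ 2) ≤ 348 / 400 * c := by
  have m1r : (0 : ℝ) < M₁ := by exact_mod_cast m1
  have m2r : (0 : ℝ) < M₂ := by exact_mod_cast m2
  have hS0 := abs_nonneg S
  have q1 : S ^ 2 ≤ (U / M₁) ^ 2 := by
    rw [← sq_abs S]
    exact pow_le_pow_left₀ hS0 b1 2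
  have q2 : |τ| ≤ 2 * (58 * G / U ^ 2) := by
    refine b2.trans ?_
    have h1 : (1 : ℝ) ≤ M₂ := by exact_mod_cast m2
    rw [div_le_iff₀ m2r]
    have h2 : 0 ≤ 58 * G / U ^ 2 := by positivity
    nlinarith
  have q3 : |τ| * (3 * S ^ 2) ≤ 2 * (58 * G / U ^ 2) * (3 * (U / M₁) ^ 2) := by
    refine mul_le_mul q2 (by linarith) (by positivity) (by positivity)
  have q4 : 2 * (58 * G / U ^ 2) * (3 * (U / M₁) ^ 2) = 348 * G / M₁ ^ 2 := by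
    field_simp
    ring
  have q5 : 400 * G / c ≤ (M₁ : ℝ) ^ 2 := by
    rw [← hx1s]
    exact pow_le_pow_left₀ hx1.le m1l 2
  rw [q4] at q3
  refine q3.trans ?_
  rw [div_le_iff₀ (by positivity)]
  rw [div_le_iff₀ hc0] at q5
  linarith

/-- the second term -/
private theorem v2_t2 {H D c τ δ x₂ : ℝ} {M₂ : ℕ} (hH0 : 0 < H) (hd0 : 0 < D) (hc0 : 0 < c)
    (m2 : 0 < M₂) (hx2 : 0 < x₂) (m2l : x₂ ≤ M₂)
    (hx2c : x₂ ^ 3 = 10 ^ 6 * D * H ^ (-(3 / 4) : ℝ) / c)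
    (δ2 : δ ≤ 20 * H ^ (-(1 / 4) : ℝ)) (b2 : |τ| ≤ 2 * δ / M₂) :
    |τ| * (D * τ ^ 2) ≤ 64 / 1000 * c := by
  have m2r : (0 : ℝ) < M₂ := by exact_mod_cast m2
  have hτ0 := abs_nonneg τ
  have q0 : |τ| * (D * τ ^ 2) = D * |τ| ^ 3 := by
    rw [← sq_abs τ]
    ring
  have q1 : |τ| ≤ 40 * H ^ (-(1 / 4) : ℝ) / M₂ := by
    refine b2.trans ?_
    exact div_le_div_of_nonneg_right (by linarith) m2r.le
  have q2 : |τ| ^ 3 ≤ (40 * H ^ (-(1 / 4) : ℝ) / M₂) ^ 3 := pow_le_pow_left₀ hτ0 q1 3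
  have q3 : (H ^ (-(1 / 4) : ℝ)) ^ 3 = H ^ (-(3 / 4) : ℝ) := by
    rw [← Real.rpow_natCast, ← Real.rpow_mul hH0.le]
    norm_num
  have q4 : (40 * H ^ (-(1 / 4) : ℝ) / M₂) ^ 3 = 64000 * H ^ (-(3 / 4) : ℝ) / M₂ ^ 3 := by
    rw [div_pow, mul_pow, q3]
    norm_num
  have q5 : 10 ^ 6 * D * H ^ (-(3 / 4) : ℝ) / c ≤ (M₂ : ℝ) ^ 3 := by
    rw [← hx2c]
    exact pow_le_pow_left₀ hx2.le m2l 3
  rw [q4] at q2
  rw [q0]
  have q6 : D * |τ| ^ 3 ≤ D * (64000 * H ^ (-(3 / 4) : ℝ) / M₂ ^ 3) :=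
    mul_le_mul_of_nonneg_left q2 hd0.le
  refine q6.trans ?_
  rw [← mul_div_assoc, div_le_iff₀ (by positivity)]
  rw [div_le_iff₀ hc0] at q5
  nlinarith

/-- an integer multiple of `4 c` smaller than `4 c` -/
private theorem v2_int {c : ℝ} (hc0 : 0 < c) {F : ℝ} {n : ℤ} (hn : F = 4 * c * n)
    (hlt : |F| < 4 * c) : F = 0 := by
  rw [hn, abs_mul, abs_of_pos (by positivity : (0 : ℝ) < 4 * c)] at hlt
  have h1 : |(n : ℝ)| < 1 := by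
    by_contra h2
    rw [not_lt] at h2
    have h3 : (4 : ℝ) * c * 1 ≤ 4 * c * |(n : ℝ)| :=
      mul_le_mul_of_nonneg_left h2 (by positivity)
    linarith
  have h2 : |n| < 1 := by exact_mod_cast h1
  have h3 : n = 0 := Int.abs_lt_one_iff.1 h2
  rw [hn, h3]
  simp

theorem per_a (X : ℕ) (d : ℤ) (hd : d ≠ 0) (hH : 10 ^ 16 * |d| ≤ (X : ℤ)) (c : ℕ) (hc : 1 ≤ c)
    (T : Finset (ℤ × ℝ × ℝ)) (hT : VS X d c (T : Set (ℤ × ℝ × ℝ))) (a : ℤ) (U : ℝ) (hU : 0 < U)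
    (h : ∀ z ∈ T, z.1 = a ∧ U ≤ z.2.1 ∧ z.2.1 < 2 * U) :
    (T.card : ℝ) ≤ (2 + √(400 * Gg X d / c)) *
      (2 + (10 ^ 6 * |(d : ℝ)| * Hh X d ^ (-(3 / 4) : ℝ) / c) ^ (1 / 3 : ℝ)) := by
  classical
  have hd0 : (0 : ℝ) < |(d : ℝ)| := abs_pos.2 (by exact_mod_cast hd)
  have hX0 : (0 : ℝ) < X := by
    have h1 : (0 : ℤ) < |d| := abs_pos.2 hd
    have h2 : (0 : ℤ) < X := by linarith
    exact_mod_cast h2
  have hc0 : (0 : ℝ) < c := by exact_mod_cast hc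
  have hH0 : 0 < Hh X d := div_pos hX0 hd0
  have hG0 : 0 < Gg X d := Real.sqrt_pos.2 (div_pos (pow_pos hX0 3) hd0)
  set G := Gg X d with hGdef
  set H := Hh X d with hHdef
  -- the sizes of the boxes
  obtain ⟨x₁, hx₁⟩ : ∃ x, x = √(400 * G / c) := ⟨_, rfl⟩
  obtain ⟨x₂, hx₂⟩ : ∃ x, x = (10 ^ 6 * |(d : ℝ)| * H ^ (-(3 / 4) : ℝ) / c) ^ (1 / 3 : ℝ) :=
    ⟨_, rfl⟩
  rw [← hx₁, ← hx₂]
  have hx1 : 0 < x₁ := by rw [hx₁]; exact Real.sqrt_pos.2 (by positivity)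
  have hHp : 0 < H ^ (-(3 / 4) : ℝ) := Real.rpow_pos_of_pos hH0 _
  have hHq : 0 < H ^ (-(1 / 4) : ℝ) := Real.rpow_pos_of_pos hH0 _
  have hx2 : 0 < x₂ := by rw [hx₂]; exact Real.rpow_pos_of_pos (by positivity) _
  have hx1s : x₁ ^ 2 = 400 * G / c := by
    rw [hx₁]; exact Real.sq_sqrt (by positivity)
  have hx2c : x₂ ^ 3 = 10 ^ 6 * |(d : ℝ)| * H ^ (-(3 / 4) : ℝ) / c := by
    rw [hx₂, ← Real.rpow_natCast, ← Real.rpow_mul (by positivity)]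
    norm_num
  obtain ⟨M₁, hM₁⟩ : ∃ M : ℕ, M = ⌈x₁⌉₊ := ⟨_, rfl⟩
  obtain ⟨M₂, hM₂⟩ : ∃ M : ℕ, M = ⌈x₂⌉₊ := ⟨_, rfl⟩
  have m1 : 0 < M₁ := by rw [hM₁]; exact Nat.ceil_pos.2 hx1
  have m2 : 0 < M₂ := by rw [hM₂]; exact Nat.ceil_pos.2 hx2
  have m1r : (0 : ℝ) < M₁ := by exact_mod_cast m1
  have m2r : (0 : ℝ) < M₂ := by exact_mod_cast m2
  have m1l : x₁ ≤ M₁ := by rw [hM₁]; exact Nat.le_ceil _
  have m2l : x₂ ≤ M₂ := by rw [hM₂]; exact Nat.le_ceil _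
  have m1u : (M₁ : ℝ) < x₁ + 1 := by rw [hM₁]; exact Nat.ceil_lt_add_one hx1.le
  have m2u : (M₂ : ℝ) < x₂ + 1 := by rw [hM₂]; exact Nat.ceil_lt_add_one hx2.le
  obtain ⟨δ, hδ⟩ : ∃ δ, δ = min (58 * G / U ^ 2) (20 * H ^ (-(1 / 4) : ℝ)) := ⟨_, rfl⟩
  have δ0 : 0 < δ := by rw [hδ]; exact lt_min (by positivity) (by positivity)
  have δ1 : δ ≤ 58 * G / U ^ 2 := by rw [hδ]; exact min_le_left _ _
  have δ2 : δ ≤ 20 * H ^ (-(1 / 4) : ℝ) := by rw [hδ]; exact min_le_right _ _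
  have hxi : ∀ z ∈ T, |xi z| ≤ δ := by
    intro z hz
    obtain ⟨g1, g2, -⟩ := sizes X d hd hH c _ hT z (Finset.mem_coe.2 hz)
    obtain ⟨-, k2, -⟩ := h z hz
    rw [hδ]
    refine le_min ?_ g2
    rw [le_div_iff₀ (by positivity)]
    refine le_trans ?_ g1
    exact mul_le_mul_of_nonneg_left (pow_le_pow_left₀ hU.le k2 2) (abs_nonneg _)
  -- the boxes
  let f : ℤ × ℝ × ℝ → ℕ × ℕ := fun z =>
    (⌊(z.2.1 - U) * M₁ / U⌋₊, ⌊(xi z + δ) * M₂ / (2 * δ)⌋₊)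
  have hmaps : ∀ z ∈ T, f z ∈ Finset.range M₁ ×ˢ Finset.range (M₂ + 1) := by
    intro z hz
    obtain ⟨-, k2, k3⟩ := h z hz
    have k4 := abs_le.1 (hxi z hz)
    rw [Finset.mem_product, Finset.mem_range, Finset.mem_range]
    constructor
    · change ⌊(z.2.1 - U) * M₁ / U⌋₊ < M₁
      rw [Nat.floor_lt (div_nonneg (mul_nonneg (by linarith) m1r.le) hU.le), div_lt_iff₀ hU,
        mul_comm]
      exact mul_lt_mul_of_pos_left (by linarith) m1r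
    · change ⌊(xi z + δ) * M₂ / (2 * δ)⌋₊ < M₂ + 1
      rw [Nat.lt_add_one_iff]
      refine Nat.floor_le_of_le ?_
      rw [div_le_iff₀ (by positivity), mul_comm]
      exact mul_le_mul_of_nonneg_left (by linarith) m2r.le
  have hinj : Set.InjOn f (T : Set (ℤ × ℝ × ℝ)) := by
    intro z hz z' hz' hzz
    have hz1 := h z hz
    have hz1' := h z' hz'
    have e1 : ⌊(z.2.1 - U) * M₁ / U⌋₊ = ⌊(z'.2.1 - U) * M₁ / U⌋₊ := congrArg Prod.fst hzz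
    have e2 : ⌊(xi z + δ) * M₂ / (2 * δ)⌋₊ = ⌊(xi z' + δ) * M₂ / (2 * δ)⌋₊ :=
      congrArg Prod.snd hzz
    have b1 := v2_floor hU m1 (by linarith [hz1.2.1]) (by linarith [hz1'.2.1]) e1
    have b2 := v2_floor (by positivity : (0 : ℝ) < 2 * δ) m2
      (by linarith [(abs_le.1 (hxi z hz)).1]) (by linarith [(abs_le.1 (hxi z' hz')).1]) e2
    obtain ⟨S, hS⟩ : ∃ S, S = z.2.1 - z'.2.1 := ⟨_, rfl⟩
    obtain ⟨τ, hτ⟩ : ∃ τ, τ = z.2.2 - z'.2.2 := ⟨_, rfl⟩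
    have b1' : |S| ≤ U / M₁ := by
      have : z.2.1 - U - (z'.2.1 - U) = S := by rw [hS]; ring
      rwa [this] at b1
    have b2' : |τ| ≤ 2 * δ / M₂ := by
      have : xi z + δ - (xi z' + δ) = τ := by
        rw [hτ]
        unfold xi
        rw [hz1.1, hz1'.1]
        ring
      rwa [this] at b2
    have hF : Fb d (z - z') = τ * (3 * S ^ 2 + d * τ ^ 2) := by
      have h0 : z.1 - z'.1 = 0 := by rw [hz1.1, hz1'.1, sub_self]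
      unfold Fb
      rw [Prod.snd_sub, Prod.fst_sub, Prod.fst_sub, Prod.snd_sub, h0, ← hS, ← hτ]
      push_cast
      ring
    have hτ0 := abs_nonneg τ
    have hS0 := abs_nonneg S
    have t1 := v2_t1 hG0 hU hc0 m1 m2 hx1 m1l hx1s δ1 b1' b2'
    have t2 := v2_t2 hH0 hd0 hc0 m2 hx2 m2l hx2c δ2 b2'
    have hlt : |Fb d (z - z')| < 4 * c := by
      rw [hF, abs_mul]
      have q1 : |3 * S ^ 2 + (d : ℝ) * τ ^ 2| ≤ 3 * S ^ 2 + |(d : ℝ)| * τ ^ 2 := by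
        refine (abs_add_le _ _).trans ?_
        rw [abs_mul (d : ℝ), abs_of_nonneg (by positivity : (0 : ℝ) ≤ 3 * S ^ 2),
          abs_of_nonneg (by positivity : (0 : ℝ) ≤ τ ^ 2)]
      have q2 := mul_le_mul_of_nonneg_left q1 hτ0
      rw [mul_add] at q2
      linarith
    obtain ⟨n, hn⟩ := hT.int z hz z' hz'
    exact hT.nt z hz z' hz' (hz1.1.trans hz1'.1.symm) (v2_int hc0 hn hlt)
  have hcard : T.card ≤ M₁ * (M₂ + 1) := by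
    have h1 := Finset.card_le_card_of_injOn f hmaps hinj
    rwa [Finset.card_product, Finset.card_range, Finset.card_range] at h1
  have hcard' : (T.card : ℝ) ≤ M₁ * (M₂ + 1) := by exact_mod_cast hcard
  refine hcard'.trans ?_
  exact mul_le_mul (by linarith) (by linarith) (by positivity) (by linarith)

end W44
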