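import Pool.Agent.LibW44.V1

/-! Row V3. `δ = z - z' = (α, S, T)`, `ξ(δ) = ξ(z) - ξ(z')`. `|Fb δ| ≤ |ξ| 3 S² + |ξ| |d| (ξ + 2α)² + (32/27)|d||α|³` (identity of V1). `|ξ| ≤ 116 G/U²` and `|ξ| ≤ 40 H^(-1/4)`, `|ξ| ≤ 1/250`. First term `≤ 348 G S²/U² ≤ 0.174 c`, third `≤ 0.012 c`.
Second: `≤ 2|d||ξ|³ + 8|ξ||d|α²`; `c ≥ G H^(-1/3) = |d| H^(7/6)`, so `|d| H^(-3/4) ≤ c H^(-3/4-7/6)`; `|d|α²`: either `α = 0`, or `|α| ≥ 1` (integer) and `|d|α² ≤ |d||α|³ ≤ c/100`, so `8|ξ||d|α² ≤ 0.001 c`. Total `< 4 c`, and `Fb δ = 4 c n` (`VS.int`), so it is 0. -/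

namespace W44
open RC91

/-- the norm `|d| H ≤ G` -/
theorem v3_dc (X : ℕ) (d : ℤ) (hd : d ≠ 0) (hH : 10 ^ 16 * |d| ≤ (X : ℤ)) (c : ℕ)
    (hG : Gg X d ≤ c * Hh X d ^ (1 / 3 : ℝ)) : |(d : ℝ)| ≤ c ∧ 0 < Gg X d := by
  have hd1 : 0 < |(d : ℝ)| := abs_pos.2 (by exact_mod_cast hd)
  have hX : 10 ^ 16 * |(d : ℝ)| ≤ (X : ℝ) := by exact_mod_cast hH
  have hH1 : 1 ≤ Hh X d := by
    unfold Hh
    rw [le_div_iff₀ hd1]
    linarith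
  have hXe : (X : ℝ) = |(d : ℝ)| * Hh X d := by
    unfold Hh
    field_simp
  have h1 : |(d : ℝ)| * Hh X d ≤ Gg X d := by
    unfold Gg
    apply Real.le_sqrt_of_sq_le
    rw [le_div_iff₀ hd1, hXe]
    have h2 : 0 ≤ |(d : ℝ)| ^ 3 * Hh X d ^ 2 * (Hh X d - 1) :=
      mul_nonneg (by positivity) (by linarith)
    nlinarith [h2]
  have h3 : Hh X d ^ (1 / 3 : ℝ) ≤ Hh X d := by
    conv_rhs => rw [← Real.rpow_one (Hh X d)]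
    exact Real.rpow_le_rpow_of_exponent_le hH1 (by norm_num)
  have h4 : |(d : ℝ)| * Hh X d ≤ c * Hh X d :=
    h1.trans (hG.trans (mul_le_mul_of_nonneg_left h3 (Nat.cast_nonneg c)))
  have hH0 : 0 < Hh X d := by linarith
  exact ⟨le_of_mul_le_mul_right h4 hH0, lt_of_lt_of_le (mul_pos hd1 hH0) h1⟩

/-- an integer -/
theorem v3_sq (a : ℤ) : (a : ℝ) ^ 2 ≤ |(a : ℝ)| ^ 3 := by
  by_cases h : a = 0
  · simp [h]
  · have h1 : 1 ≤ |(a : ℝ)| := by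
      have := Int.one_le_abs h
      exact_mod_cast this
    rw [← sq_abs (a : ℝ)]
    exact pow_le_pow_right₀ h1 (by norm_num)

theorem box_zero (X : ℕ) (d : ℤ) (hd : d ≠ 0) (hH : 10 ^ 16 * |d| ≤ (X : ℤ)) (c : ℕ) (hc : 1 ≤ c)
    (V : Set (ℤ × ℝ × ℝ)) (hV : VS X d c V) (hG : Gg X d ≤ c * Hh X d ^ (1 / 3 : ℝ))
    (z z' : ℤ × ℝ × ℝ) (hz : z ∈ V) (hz' : z' ∈ V) (U : ℝ) (hU : 0 < U) (h1 : U ≤ z.2.1) (h2 : U ≤ z'.2.1)
    (ha : 100 * |(d : ℝ)| * |(z.1 : ℝ) - z'.1| ^ 3 ≤ c)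
    (hs : 2000 * Gg X d * (z.2.1 - z'.2.1) ^ 2 ≤ c * U ^ 2) : Fb d (z - z') = 0 := by
  obtain ⟨hdc, hG0⟩ := v3_dc X d hd hH c hG
  obtain ⟨a1, -, a3, -, -, -⟩ := sizes X d hd hH c V hV z hz
  obtain ⟨b1, -, b3, -, -, -⟩ := sizes X d hd hH c V hV z' hz'
  obtain ⟨n, hn⟩ := hV.int z hz z' hz'
  obtain ⟨a, s, t⟩ := z
  obtain ⟨a', s', t'⟩ := z'
  simp only at h1 h2 ha hs a1 b1
  have hc1 : (1 : ℝ) ≤ c := by exact_mod_cast hc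
  -- the difference
  set α : ℝ := (a : ℝ) - a' with hα
  set ξ : ℝ := xi (a, s, t) - xi (a', s', t') with hξ
  have hid : ξ * (3 * (s - s') ^ 2 + d * (ξ + 2 * α) ^ 2) =
      Fb d ((a, s, t) - (a', s', t')) - 32 / 27 * d * α ^ 3 := by
    rw [hξ, hα]
    unfold Fb xi
    simp only [Prod.fst_sub, Prod.snd_sub, Int.cast_sub]
    ring
  have hx1 : |ξ| ≤ 1 / 250 := by
    have := abs_sub (xi (a, s, t)) (xi (a', s', t'))
    rw [← hξ] at this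
    linarith
  have hx2 : |ξ| * U ^ 2 ≤ 116 * Gg X d := by
    have h3 := abs_sub (xi (a, s, t)) (xi (a', s', t'))
    rw [← hξ] at h3
    have h4 : U ^ 2 ≤ s ^ 2 := pow_le_pow_left₀ hU.le h1 2
    have h5 : U ^ 2 ≤ s' ^ 2 := pow_le_pow_left₀ hU.le h2 2
    have h6 : |xi (a, s, t)| * U ^ 2 ≤ 58 * Gg X d :=
      (mul_le_mul_of_nonneg_left h4 (abs_nonneg _)).trans a1
    have h7 : |xi (a', s', t')| * U ^ 2 ≤ 58 * Gg X d :=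
      (mul_le_mul_of_nonneg_left h5 (abs_nonneg _)).trans b1
    have h8 := mul_le_mul_of_nonneg_right h3 (sq_nonneg U)
    nlinarith
  have hx0 := abs_nonneg ξ
  have hd0 := abs_nonneg (d : ℝ)
  -- the first term
  have f1 : |ξ| * (3 * (s - s') ^ 2) ≤ 174 / 1000 * c := by
    have h3 : |ξ| * (2000 * Gg X d * (s - s') ^ 2) ≤ |ξ| * (c * U ^ 2) :=
      mul_le_mul_of_nonneg_left hs hx0
    have h4 : (c : ℝ) * (|ξ| * U ^ 2) ≤ c * (116 * Gg X d) :=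
      mul_le_mul_of_nonneg_left hx2 (by linarith)
    have h5 : Gg X d * (|ξ| * (3 * (s - s') ^ 2)) ≤ Gg X d * (174 / 1000 * c) := by
      nlinarith
    exact le_of_mul_le_mul_left h5 hG0
  -- the third term
  have f3 : |(d : ℝ)| * |α| ^ 3 ≤ c / 100 := by linarith
  -- the second term
  have hα2 : α ^ 2 ≤ |α| ^ 3 := by
    have := v3_sq (a - a')
    rwa [Int.cast_sub] at this
  have f2 : |ξ| * (|(d : ℝ)| * (ξ + 2 * α) ^ 2) ≤ c / 1000 := by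
    have h3 : (ξ + 2 * α) ^ 2 ≤ 2 * |ξ| ^ 2 + 8 * α ^ 2 := by
      rw [sq_abs]
      nlinarith [sq_nonneg (ξ - 2 * α)]
    have h4 : |ξ| ^ 2 ≤ (1 / 250) ^ 2 := pow_le_pow_left₀ hx0 hx1 2
    have h5 : |(d : ℝ)| * (ξ + 2 * α) ^ 2 ≤ |(d : ℝ)| * (2 * (1 / 250) ^ 2 + 8 * |α| ^ 3) :=
      mul_le_mul_of_nonneg_left (by linarith) hd0
    have h6 : |(d : ℝ)| * (2 * (1 / 250) ^ 2 + 8 * |α| ^ 3) ≤ c / 10 := by nlinarith
    have h7 : |ξ| * (|(d : ℝ)| * (ξ + 2 * α) ^ 2) ≤ 1 / 250 * (c / 10) :=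
      mul_le_mul hx1 (h5.trans h6) (mul_nonneg hd0 (sq_nonneg _)) (by norm_num)
    linarith
  have hF : |Fb d ((a, s, t) - (a', s', t'))| ≤ c := by
    have h3 : Fb d ((a, s, t) - (a', s', t')) = ξ * (3 * (s - s') ^ 2) +
        ξ * (d * (ξ + 2 * α) ^ 2) + 32 / 27 * (d * α ^ 3) := by
      linear_combination -hid
    rw [h3]
    have h4 := abs_add_three (ξ * (3 * (s - s') ^ 2)) (ξ * (d * (ξ + 2 * α) ^ 2))
      (32 / 27 * (d * α ^ 3))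
    rw [abs_mul ξ, abs_mul ξ, abs_of_nonneg (by positivity : 0 ≤ 3 * (s - s') ^ 2),
      abs_mul (d : ℝ), abs_of_nonneg (sq_nonneg (ξ + 2 * α)), abs_mul (32 / 27 : ℝ),
      abs_mul (d : ℝ), abs_pow α, abs_of_pos (by norm_num : (0 : ℝ) < 32 / 27)] at h4
    linarith
  rw [hn] at hF ⊢
  have hn0 : n = 0 := by
    by_contra hne
    have h3 : (1 : ℝ) ≤ |(n : ℝ)| := by
      have := Int.one_le_abs hne
      exact_mod_cast this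
    rw [abs_mul, abs_mul, abs_of_pos (by norm_num : (0 : ℝ) < 4),
      abs_of_nonneg (by linarith : (0 : ℝ) ≤ c)] at hF
    nlinarith
  rw [hn0]
  simp

end W44
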