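import Pool.Agent.LibW44.V1

/-! Row V8. Gap principle. `S₁ = z.2.1 ≤ S₂ = z'.2.1`. `n ≠ 0` in `VS.gp`, so `4 ≤ 729 |gP| (gP² + 3 |d| gR²)`. By `sizes`: `|ξ+2a| ≤ √(134 X/|d|)`: `|gP| ≤ |d||ξ₁| S₂ √(134 H) ≤ 672 |d| √H G S₂/S₁²`;
`|gR| ≤ (1/6)(|ξ₂|(134 X + 3 S₁²) + |ξ₁|(134 X + 3 S₁S₂)) ≤ (2/3)(|ξ₂| S₁² + |ξ₁| S₁ S₂) ≤ (2/3) 58 G (S₁²/S₂² + S₂/S₁) ≤ 78 G S₂/S₁`. `gP² ≤ 451584 |d| X G² S₂²/S₁⁴ ≤ 3370 |d| G² S₂²/S₁²` (`134 X ≤ S₁²`). Sum `≤ 21700 |d| G² S₂²/S₁²`.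
So `S₁⁴ ≤ (729/4)·672·21700 |d|² √H G³ S₂³ ≤ 10^10 X⁵ S₂³` (`|d|² √H G³ = X⁵`). -/

namespace W44
open RC91

private theorem v8_P (dd D X G S₁ S₂ ξ₁ v₁ v₂ : ℝ) (hD : |dd| = D) (hD1 : 1 ≤ D)
    (hX : 1 ≤ X) (hG : D * G ^ 2 = X ^ 3) (h1 : |ξ₁| * S₁ ^ 2 ≤ 58 * G)
    (h3 : D * v₁ ^ 2 ≤ 134 * X) (h4 : D * v₂ ^ 2 ≤ 134 * X) (h6 : 0 < S₁) (h7 : S₁ ≤ S₂) :
    |dd * ξ₁ / 2 * (S₁ * v₂ - S₂ * v₁)| * S₁ ^ 2 ≤ 672 * X ^ 2 * S₂ := by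
  have hS2 : 0 < S₂ := lt_of_lt_of_le h6 h7
  have hD0 : 0 < D := by linarith
  have hdd : dd ^ 2 = D ^ 2 := by rw [← hD, sq_abs]
  have hξ : ξ₁ ^ 2 * S₁ ^ 4 ≤ (58 * G) ^ 2 := by
    have h := pow_le_pow_left₀ (by positivity) h1 2
    calc ξ₁ ^ 2 * S₁ ^ 4 = (|ξ₁| * S₁ ^ 2) ^ 2 := by rw [mul_pow, sq_abs]; ring
      _ ≤ _ := h
  have hw : D * (S₁ * v₂ - S₂ * v₁) ^ 2 ≤ 4 * (134 * X) * S₂ ^ 2 := by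
    have e1 : (S₁ * v₂ - S₂ * v₁) ^ 2 ≤ 2 * (S₁ ^ 2 * v₂ ^ 2) + 2 * (S₂ ^ 2 * v₁ ^ 2) := by
      nlinarith [sq_nonneg (S₁ * v₂ + S₂ * v₁)]
    have e2 : S₁ ^ 2 ≤ S₂ ^ 2 := pow_le_pow_left₀ h6.le h7 2
    have e3 : D * (S₁ ^ 2 * v₂ ^ 2) ≤ 134 * X * S₂ ^ 2 := by
      calc D * (S₁ ^ 2 * v₂ ^ 2) = S₁ ^ 2 * (D * v₂ ^ 2) := by ring
        _ ≤ S₂ ^ 2 * (134 * X) := mul_le_mul e2 h4 (by positivity) (by positivity)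
        _ = _ := by ring
    have e4 : D * (S₂ ^ 2 * v₁ ^ 2) ≤ 134 * X * S₂ ^ 2 := by
      calc D * (S₂ ^ 2 * v₁ ^ 2) = S₂ ^ 2 * (D * v₁ ^ 2) := by ring
        _ ≤ S₂ ^ 2 * (134 * X) := mul_le_mul le_rfl h3 (by positivity) (by positivity)
        _ = _ := by ring
    calc D * (S₁ * v₂ - S₂ * v₁) ^ 2 ≤ D * (2 * (S₁ ^ 2 * v₂ ^ 2) + 2 * (S₂ ^ 2 * v₁ ^ 2)) :=
          mul_le_mul_of_nonneg_left e1 hD0.le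
      _ = 2 * (D * (S₁ ^ 2 * v₂ ^ 2)) + 2 * (D * (S₂ ^ 2 * v₁ ^ 2)) := by ring
      _ ≤ _ := by linarith
  have key : (|dd * ξ₁ / 2 * (S₁ * v₂ - S₂ * v₁)| * S₁ ^ 2) ^ 2 ≤ (672 * X ^ 2 * S₂) ^ 2 := by
    have e0 : (|dd * ξ₁ / 2 * (S₁ * v₂ - S₂ * v₁)| * S₁ ^ 2) ^ 2 =
        (D / 4) * (ξ₁ ^ 2 * S₁ ^ 4) * (D * (S₁ * v₂ - S₂ * v₁) ^ 2) := by
      rw [mul_pow, sq_abs, mul_pow, div_pow, mul_pow, hdd]; ring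
    rw [e0]
    calc (D / 4) * (ξ₁ ^ 2 * S₁ ^ 4) * (D * (S₁ * v₂ - S₂ * v₁) ^ 2)
        ≤ (D / 4) * ((58 * G) ^ 2) * (4 * (134 * X) * S₂ ^ 2) := by
          apply mul_le_mul _ hw (by positivity) (by positivity)
          exact mul_le_mul_of_nonneg_left hξ (by positivity)
      _ = 450776 * (D * G ^ 2) * X * S₂ ^ 2 := by ring
      _ = 450776 * X ^ 4 * S₂ ^ 2 := by rw [hG]; ring
      _ ≤ (672 * X ^ 2 * S₂) ^ 2 := by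
          have : 0 ≤ X ^ 4 * S₂ ^ 2 := by positivity
          nlinarith
  exact abs_le_of_sq_le_sq' key (by positivity) |>.2

private theorem v8_R (dd D X G S₁ S₂ ξ₁ ξ₂ v₁ v₂ : ℝ) (hD : |dd| = D) (hD1 : 1 ≤ D)
    (hX : 1 ≤ X) (hG0 : 0 ≤ G) (h1 : |ξ₁| * S₁ ^ 2 ≤ 58 * G) (h2 : |ξ₂| * S₂ ^ 2 ≤ 58 * G)
    (h3 : D * v₁ ^ 2 ≤ 134 * X) (h4 : D * v₂ ^ 2 ≤ 134 * X) (h5 : 134 * X ≤ S₁ ^ 2)
    (h6 : 0 < S₁) (h7 : S₁ ≤ S₂) :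
    |1 / 6 * (ξ₂ * (dd * v₁ ^ 2 + 3 * S₁ ^ 2) - ξ₁ * (dd * v₁ * v₂ + 3 * S₁ * S₂))| * S₁ ≤
      78 * G * S₂ := by
  have hS2 : 0 < S₂ := lt_of_lt_of_le h6 h7
  have hD0 : 0 < D := by linarith
  have hv : D * |v₁ * v₂| ≤ 134 * X := by
    have : (D * |v₁ * v₂|) ^ 2 ≤ (134 * X) ^ 2 := by
      calc (D * |v₁ * v₂|) ^ 2 = (D * v₁ ^ 2) * (D * v₂ ^ 2) := by
            rw [mul_pow, sq_abs]; ring
        _ ≤ (134 * X) * (134 * X) := mul_le_mul h3 h4 (by positivity) (by positivity)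
        _ = _ := by ring
    exact abs_le_of_sq_le_sq' this (by positivity) |>.2
  have e1 : |dd * v₁ ^ 2 + 3 * S₁ ^ 2| ≤ 4 * S₁ ^ 2 := by
    have : |dd * v₁ ^ 2| ≤ S₁ ^ 2 := by
      rw [abs_mul, hD, abs_of_nonneg (sq_nonneg v₁)]; linarith
    calc |dd * v₁ ^ 2 + 3 * S₁ ^ 2| ≤ |dd * v₁ ^ 2| + |3 * S₁ ^ 2| := abs_add_le _ _
      _ ≤ S₁ ^ 2 + 3 * S₁ ^ 2 := by
          have : |3 * S₁ ^ 2| = 3 * S₁ ^ 2 := abs_of_nonneg (by positivity)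
          linarith
      _ = _ := by ring
  have e2 : |dd * v₁ * v₂ + 3 * S₁ * S₂| ≤ 4 * (S₁ * S₂) := by
    have : |dd * v₁ * v₂| ≤ S₁ * S₂ := by
      rw [mul_assoc, abs_mul, hD]
      nlinarith
    calc |dd * v₁ * v₂ + 3 * S₁ * S₂| ≤ |dd * v₁ * v₂| + |3 * S₁ * S₂| := abs_add_le _ _
      _ ≤ S₁ * S₂ + 3 * S₁ * S₂ := by
          have : |3 * S₁ * S₂| = 3 * S₁ * S₂ := abs_of_nonneg (by positivity)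
          linarith
      _ = _ := by ring
  have e3 : |1 / 6 * (ξ₂ * (dd * v₁ ^ 2 + 3 * S₁ ^ 2) - ξ₁ * (dd * v₁ * v₂ + 3 * S₁ * S₂))| ≤
      1 / 6 * (|ξ₂| * (4 * S₁ ^ 2) + |ξ₁| * (4 * (S₁ * S₂))) := by
    rw [abs_mul, abs_of_pos (by norm_num : (0:ℝ) < 1 / 6)]
    apply mul_le_mul_of_nonneg_left _ (by norm_num)
    calc |ξ₂ * (dd * v₁ ^ 2 + 3 * S₁ ^ 2) - ξ₁ * (dd * v₁ * v₂ + 3 * S₁ * S₂)|
        ≤ |ξ₂ * (dd * v₁ ^ 2 + 3 * S₁ ^ 2)| + |ξ₁ * (dd * v₁ * v₂ + 3 * S₁ * S₂)| := abs_sub _ _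
      _ = |ξ₂| * |dd * v₁ ^ 2 + 3 * S₁ ^ 2| + |ξ₁| * |dd * v₁ * v₂ + 3 * S₁ * S₂| := by
          rw [abs_mul, abs_mul]
      _ ≤ _ := add_le_add (mul_le_mul_of_nonneg_left e1 (abs_nonneg _))
          (mul_le_mul_of_nonneg_left e2 (abs_nonneg _))
  have e4 : |ξ₂| * S₁ ^ 2 ≤ 58 * G := by
    refine le_trans (mul_le_mul_of_nonneg_left (pow_le_pow_left₀ h6.le h7 2) (abs_nonneg _)) h2
  calc |1 / 6 * (ξ₂ * (dd * v₁ ^ 2 + 3 * S₁ ^ 2) - ξ₁ * (dd * v₁ * v₂ + 3 * S₁ * S₂))| * S₁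
      ≤ 1 / 6 * (|ξ₂| * (4 * S₁ ^ 2) + |ξ₁| * (4 * (S₁ * S₂))) * S₁ :=
        mul_le_mul_of_nonneg_right e3 h6.le
    _ = 2 / 3 * ((|ξ₂| * S₁ ^ 2) * S₁ + (|ξ₁| * S₁ ^ 2) * S₂) := by ring
    _ ≤ 2 / 3 * ((58 * G) * S₂ + (58 * G) * S₂) := by
        have : (|ξ₂| * S₁ ^ 2) * S₁ ≤ (58 * G) * S₂ :=
          mul_le_mul e4 h7 h6.le (by positivity)
        have h' : (|ξ₁| * S₁ ^ 2) * S₂ ≤ (58 * G) * S₂ := mul_le_mul_of_nonneg_right h1 hS2.le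
        linarith
    _ ≤ 78 * G * S₂ := by
        have : 0 ≤ G * S₂ := by positivity
        nlinarith

theorem gap (X : ℕ) (d : ℤ) (hd : d ≠ 0) (hH : 10 ^ 16 * |d| ≤ (X : ℤ)) (c : ℕ) (V : Set (ℤ × ℝ × ℝ))
    (hV : VS X d c V) (z z' : ℤ × ℝ × ℝ) (hz : z ∈ V) (hz' : z' ∈ V) (hs : z.2.1 ≤ z'.2.1) (hp : ¬ Par z z') :
    z.2.1 ^ 4 ≤ 10 ^ 10 * (X : ℝ) ^ 5 * z'.2.1 ^ 3 := by
  obtain ⟨n, hn, hn0⟩ := hV.gp z hz z' hz'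
  have hne : n ≠ 0 := fun h => hp (hn0 h)
  obtain ⟨a1, _, _, a4, a5, _⟩ := sizes X d hd hH c V hV z hz
  obtain ⟨b1, _, _, b4, b5, _⟩ := sizes X d hd hH c V hV z' hz'
  have hS1 := (hV.s1 z hz).1
  have hS2 := (hV.s1 z' hz').1
  have hd1 : 1 ≤ |d| := Int.one_le_abs hd
  have hD1 : (1 : ℝ) ≤ |(d : ℝ)| := by
    have : ((1 : ℤ) : ℝ) ≤ ((|d| : ℤ) : ℝ) := by exact_mod_cast hd1
    simpa using this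
  have hX : (1 : ℝ) ≤ (X : ℝ) := by
    have : (1 : ℤ) ≤ (X : ℤ) := by linarith
    exact_mod_cast this
  have hG0 : 0 ≤ Gg X d := Real.sqrt_nonneg _
  have hG : |(d : ℝ)| * Gg X d ^ 2 = (X : ℝ) ^ 3 := by
    unfold Gg
    rw [Real.sq_sqrt (by positivity)]
    field_simp
  have hP := v8_P (d : ℝ) |(d : ℝ)| X (Gg X d) z.2.1 z'.2.1 (xi z) (xi z + 2 * z.1) (xi z' + 2 * z'.1)
    rfl hD1 hX hG a1 a4 b4 hS1 hs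
  have hR := v8_R (d : ℝ) |(d : ℝ)| X (Gg X d) z.2.1 z'.2.1 (xi z) (xi z') (xi z + 2 * z.1)
    (xi z' + 2 * z'.1) rfl hD1 hX hG0 a1 b1 a4 b4 a5 hS1 hs
  have eP : (d : ℝ) * xi z / 2 * (z.2.1 * (xi z' + 2 * z'.1) - z'.2.1 * (xi z + 2 * z.1)) = gP d z z' := rfl
  have eR : 1 / 6 * (xi z' * (d * (xi z + 2 * z.1) ^ 2 + 3 * z.2.1 ^ 2) -
    xi z * (d * (xi z + 2 * z.1) * (xi z' + 2 * z'.1) + 3 * z.2.1 * z'.2.1)) = gR d z z' := rfl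
  rw [eP] at hP
  rw [eR] at hR
  have h4 : (4 : ℝ) ≤ 729 * (|gP d z z'| * (|gP d z z'| ^ 2 + 3 * |(d : ℝ)| * |gR d z z'| ^ 2)) := by
    have h1 : (4 : ℝ) ≤ |4 * (n : ℝ)| := by
      have : (1 : ℤ) ≤ |n| := Int.one_le_abs hne
      have h' : (1 : ℝ) ≤ |(n : ℝ)| := by exact_mod_cast this
      rw [abs_mul, abs_of_pos (by norm_num : (0:ℝ) < 4)]
      linarith
    rw [← hn] at h1
    refine le_trans h1 ?_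
    rw [abs_mul, abs_of_pos (by norm_num : (0:ℝ) < 729), abs_mul]
    apply mul_le_mul_of_nonneg_left _ (by norm_num)
    apply mul_le_mul_of_nonneg_left _ (abs_nonneg _)
    refine le_trans (abs_add_le _ _) ?_
    rw [abs_mul, abs_mul, abs_pow, abs_pow, abs_of_pos (by norm_num : (0:ℝ) < 3)]
  set D : ℝ := |(d : ℝ)| with hDdef
  set p : ℝ := |gP d z z'| with hpdef
  set r : ℝ := |gR d z z'| with hrdef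
  set G : ℝ := Gg X d
  set S₁ : ℝ := z.2.1
  set S₂ : ℝ := z'.2.1
  set Y : ℝ := (X : ℝ)
  have hp0 : 0 ≤ p := abs_nonneg _
  have hr0 : 0 ≤ r := abs_nonneg _
  have hD0 : 0 < D := by linarith
  have hY0 : 0 < Y := by linarith
  have q1 : 3 * D * r ^ 2 * S₁ ^ 2 ≤ 18252 * Y ^ 3 * S₂ ^ 2 := by
    have h := pow_le_pow_left₀ (by positivity) hR 2
    calc 3 * D * r ^ 2 * S₁ ^ 2 = 3 * D * (r * S₁) ^ 2 := by ring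
      _ ≤ 3 * D * (78 * G * S₂) ^ 2 := mul_le_mul_of_nonneg_left h (by positivity)
      _ = 18252 * (D * G ^ 2) * S₂ ^ 2 := by ring
      _ = _ := by rw [hG]
  have q2 : p ^ 2 * S₁ ^ 2 ≤ 3371 * Y ^ 3 * S₂ ^ 2 := by
    have h := pow_le_pow_left₀ (by positivity) hP 2
    have h' : p ^ 2 * S₁ ^ 2 * (134 * Y) ≤ 3371 * Y ^ 3 * S₂ ^ 2 * (134 * Y) := by
      calc p ^ 2 * S₁ ^ 2 * (134 * Y) ≤ p ^ 2 * S₁ ^ 2 * S₁ ^ 2 :=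
            mul_le_mul_of_nonneg_left a5 (by positivity)
        _ = (p * S₁ ^ 2) ^ 2 := by ring
        _ ≤ (672 * Y ^ 2 * S₂) ^ 2 := h
        _ = 451584 * (Y ^ 4 * S₂ ^ 2) := by ring
        _ ≤ 451714 * (Y ^ 4 * S₂ ^ 2) := mul_le_mul_of_nonneg_right (by norm_num) (by positivity)
        _ = _ := by ring
    exact le_of_mul_le_mul_right h' (by positivity)
  have q3 : (p ^ 2 + 3 * D * r ^ 2) * S₁ ^ 2 ≤ 21700 * Y ^ 3 * S₂ ^ 2 := by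
    have : 0 ≤ Y ^ 3 * S₂ ^ 2 := by positivity
    nlinarith
  have q4 : 4 * S₁ ^ 4 ≤ 729 * ((672 * Y ^ 2 * S₂) * (21700 * Y ^ 3 * S₂ ^ 2)) := by
    calc 4 * S₁ ^ 4 ≤ 729 * (p * (p ^ 2 + 3 * D * r ^ 2)) * S₁ ^ 4 :=
          mul_le_mul_of_nonneg_right h4 (by positivity)
      _ = 729 * ((p * S₁ ^ 2) * ((p ^ 2 + 3 * D * r ^ 2) * S₁ ^ 2)) := by ring
      _ ≤ _ := by
          apply mul_le_mul_of_nonneg_left _ (by norm_num)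
          exact mul_le_mul hP q3 (by positivity) (by positivity)
  have : 0 ≤ Y ^ 5 * S₂ ^ 3 := by positivity
  nlinarith

end W44
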